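import Pool.Agent.Lib.MP_d80bfc_ag.Grp

/-!
# TASK ELL (second file): `E^4` is an abelian variety
-/

open CategoryTheory AlgebraicGeometry Opposite MvPolynomial MonoidalCategory
  CartesianMonoidalCategory

noncomputable section

namespace Pool.Agent.Lib.MP_d80bfc_ag

/-- the abelian fourfold -/
abbrev AV : Var := (EV ⊗ EV) ⊗ (EV ⊗ EV)

/-- the projections -/
def prA : Fin 4 → (AV ⟶ EV)
  | 0 => fst _ _ ≫ fst _ _
  | 1 => fst _ _ ≫ snd _ _
  | 2 => snd _ _ ≫ fst _ _
  | 3 => snd _ _ ≫ snd _ _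

/-- morphisms to the fourfold -/
def liftA {S : Var} (f : Fin 4 → (S ⟶ EV)) : S ⟶ AV := lift (lift (f 0) (f 1)) (lift (f 2) (f 3))

lemma liftA_prA {S : Var} (f : Fin 4 → (S ⟶ EV)) (j : Fin 4) : liftA f ≫ prA j = f j := by
  fin_cases j <;> simp [liftA, prA]

lemma av_smooth_tensor (S T : Var) [Smooth S.hom] [Smooth T.hom] : Smooth (S ⊗ T).hom := by
  rw [Over.tensorObj_hom]
  infer_instance

lemma av_isProper_tensor (S T : Var) [IsProper S.hom] [IsProper T.hom] :
    IsProper (S ⊗ T).hom := by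
  rw [Over.tensorObj_hom]
  infer_instance

theorem AV_abelian : IsAbelianVariety AV := by
  obtain ⟨g⟩ := EV_grp
  have := EV_smooth
  have := EV_connected
  have := av_smooth_tensor EV EV
  have := av_smooth_tensor (EV ⊗ EV) (EV ⊗ EV)
  have := av_isProper_tensor EV EV
  have := connectedSpace_tensor EV EV
  have := connectedSpace_tensor (EV ⊗ EV) (EV ⊗ EV)
  exact ⟨isIntegral_of_smooth _, av_isProper_tensor _ _, ⟨inferInstance⟩⟩

end Pool.Agent.Lib.MP_d80bfc_ag
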