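import Pool.Agent.Lib.MP_d80bfc_ag.Defs

/-!
# Abbreviations; comparison of the two descriptions of forms
-/

open CategoryTheory AlgebraicGeometry

noncomputable section

namespace Pool.Agent.Lib.MP_d80bfc_ag

/-- Schemes over `ℂ`. -/
abbrev Var : Type 1 := Over (Spec (CommRingCat.of ℂ))

variable {R S : Type} [CommRing R] [CommRing S] [Algebra ℂ R] [Algebra ℂ S]

/-- `Form R p` is the exterior power -/
def formEquiv (R : Type) [CommRing R] [Algebra ℂ R] (p : ℕ) : Form R p ≃ₗ[ℂ] ⋀[R]^p Ω[R⁄ℂ] where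
  toFun x := x
  invFun x := x
  map_add' _ _ := rfl
  map_smul' c x := algebraMap_smul (M := ⋀[R]^p Ω[R⁄ℂ]) R c x
  left_inv _ := rfl
  right_inv _ := rfl

lemma formEquiv_formPull (p : ℕ) (φ : R →ₐ[ℂ] S) (x : Form R p) :
    formEquiv S p (formPull p φ x) = formMapC p φ (formEquiv R p x) :=
  eq_formMap p φ (formPull p φ).toAddMonoidHom (formPull_spec p φ) x

end Pool.Agent.Lib.MP_d80bfc_ag
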