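import Pool.Agent.Lib.MP_d80bfc_ag.Kap

/-!
# The canonical sheaf of the threefold is `O(3, …, 3)`
-/

noncomputable section

namespace Pool.Agent.Lib.MP_d80bfc_ag

open KaehlerDifferential

lemma canon_pdQ_toQ (S : Set Ch) (w : Wv) (p : MvPolynomial Wv ℂ) :
    pdQ S w (toQ S p) = toQ S (MvPolynomial.pderiv w p) := by
  apply Subtype.ext
  rw [coe_pdQ, coe_toQ, coe_toQ, pdL_toL]

lemma canon_pdQ_mul (S : Set Ch) (w : Wv) (f g : Q S) :
    pdQ S w (f * g) = f * pdQ S w g + g * pdQ S w f :=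
  Subtype.ext (pdL_mul w f g)

lemma canon_toQ_X (S : Set Ch) (w : Wv) : toQ S (MvPolynomial.X w) = tQ S w := by
  simp [toQ]

lemma canon_pdQ_tQ (S : Set Ch) (w w' : Wv) :
    pdQ S w (tQ S w') = if w = w' then 1 else 0 := by
  rw [← canon_toQ_X, canon_pdQ_toQ, MvPolynomial.pderiv_X]
  by_cases h : w = w'
  · subst h; simp
  · rw [Pi.single_eq_of_ne' h, if_neg h, map_zero]

/-- a fixed enumeration of the rows -/
def canonEps : Wv ≃ Jx ⊕ Fin 3 :=
  Fintype.equivOfCardEq (by rw [card_Wv, Fintype.card_sum (α := Jx), Fintype.card_fin])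

section chart

variable {S : Set Ch} {R : Type} [CommRing R] [Algebra ℂ R] {ev : R →ₐ[ℂ] BR 3 S}
  (h : IsEv S ev) {c : Ch} (hc : c ∈ S)

/-- the generators of the differentials -/
def canonPi : (Wv → R) →ₗ[R] Ω[R⁄ℂ] :=
  Fintype.linearCombination R fun w => D ℂ R (h.kap hc (tQ S w))

/-- the rows of the Jacobian matrix -/
def canonRho (j : Jx) (w : Wv) : R := h.kap hc (toQ S (MvPolynomial.pderiv w (rel c j)))

lemma canonPi_grad (f : Q S) :
    canonPi h hc (fun w => h.kap hc (pdQ S w f)) = D ℂ R (h.kap hc f) := by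
  rw [chain_der (h.kap hc) (D ℂ R) f, canonPi, Fintype.linearCombination_apply]

lemma canonPi_surjective : Function.Surjective (canonPi h hc) := by
  intro x
  induction x using oneForm_induction with
  | hD r =>
    obtain ⟨f, rfl⟩ := h.kap_surjective hc r
    exact ⟨_, canonPi_grad h hc f⟩
  | h0 => exact ⟨0, map_zero _⟩
  | hadd x y hx hy =>
    obtain ⟨a, rfl⟩ := hx
    obtain ⟨b, rfl⟩ := hy
    exact ⟨a + b, map_add _ _ _⟩
  | hsmul r x hx =>
    obtain ⟨a, rfl⟩ := hx
    exact ⟨r • a, map_smul _ _ _⟩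

lemma canon_kap_rel (j : Jx) : h.kap hc (toQ S (rel c j)) = 0 := by
  rw [← RingHom.mem_ker, h.ker_kap hc]
  exact Ideal.subset_span ⟨j, rfl⟩

/-- the gradient modulo the rows -/
def canonG : Q S →ₗ[ℂ] ((Wv → R) ⧸ Submodule.span R (Set.range (canonRho h hc))) where
  toFun f := Submodule.Quotient.mk fun w => h.kap hc (pdQ S w f)
  map_add' f g := by
    rw [← Submodule.Quotient.mk_add]
    congr 1
    ext w
    simp
  map_smul' a f := by
    rw [RingHom.id_apply, ← Submodule.Quotient.mk_smul]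
    congr 1
    ext w
    simp

lemma canonG_apply (f : Q S) :
    canonG h hc f = Submodule.Quotient.mk fun w => h.kap hc (pdQ S w f) := rfl

lemma canonG_mul (f g : Q S) :
    canonG h hc (f * g) = h.kap hc f • canonG h hc g + h.kap hc g • canonG h hc f := by
  rw [canonG_apply, canonG_apply, canonG_apply, ← Submodule.Quotient.mk_smul,
    ← Submodule.Quotient.mk_smul, ← Submodule.Quotient.mk_add]
  congr 1
  ext w
  simp [canon_pdQ_mul]

lemma canonG_eq_zero {f : Q S} (hf : h.kap hc f = 0) : canonG h hc f = 0 := by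
  have hf' : f ∈ Ideal.span (Set.range fun j => toQ S (rel c j)) := by
    rw [← h.ker_kap hc]; exact hf
  clear hf
  suffices h.kap hc f = 0 ∧ canonG h hc f = 0 from this.2
  induction hf' using Submodule.span_induction with
  | mem x hx =>
    obtain ⟨j, rfl⟩ := hx
    refine ⟨canon_kap_rel h hc j, ?_⟩
    rw [canonG_apply, Submodule.Quotient.mk_eq_zero]
    refine Submodule.subset_span ⟨j, ?_⟩
    ext w
    rw [canonRho, canon_pdQ_toQ]
  | zero => exact ⟨map_zero _, map_zero _⟩
  | add x y _ _ hx hy => exact ⟨by rw [map_add, hx.1, hy.1, add_zero],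
      by rw [map_add, hx.2, hy.2, add_zero]⟩
  | smul a x _ hx =>
    rw [smul_eq_mul]
    exact ⟨by rw [map_mul, hx.1, mul_zero],
      by rw [canonG_mul, hx.1, hx.2, smul_zero, zero_smul, add_zero]⟩

lemma canonG_congr {f g : Q S} (hfg : h.kap hc f = h.kap hc g) :
    canonG h hc f = canonG h hc g := by
  rw [← sub_eq_zero, ← map_sub]
  exact canonG_eq_zero h hc (by rw [map_sub, hfg, sub_self])

/-- the gradient as a derivation of `R` -/
def canonDer : Derivation ℂ R ((Wv → R) ⧸ Submodule.span R (Set.range (canonRho h hc))) :=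
  Derivation.mk'
    { toFun := fun y => canonG h hc (Function.surjInv (h.kap_surjective hc) y)
      map_add' := fun x y => by
        rw [← map_add]
        apply canonG_congr
        simp only [map_add, Function.surjInv_eq (h.kap_surjective hc)]
      map_smul' := fun a x => by
        rw [RingHom.id_apply, ← map_smul]
        apply canonG_congr
        simp only [map_smul, Function.surjInv_eq (h.kap_surjective hc)] }
    (fun x y => by
      have := canonG_mul h hc (Function.surjInv (h.kap_surjective hc) x)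
        (Function.surjInv (h.kap_surjective hc) y)
      simp only [Function.surjInv_eq (h.kap_surjective hc)] at this
      refine Eq.trans ?_ this
      apply canonG_congr
      simp only [map_mul, Function.surjInv_eq (h.kap_surjective hc)])

lemma canonDer_kap (f : Q S) : canonDer h hc (h.kap hc f) = canonG h hc f := by
  apply canonG_congr
  exact Function.surjInv_eq (h.kap_surjective hc) _

lemma canon_ker_pi :
    LinearMap.ker (canonPi h hc) = Submodule.span R (Set.range (canonRho h hc)) := by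
  apply le_antisymm
  · intro a ha
    have key : (canonDer h hc).liftKaehlerDifferential (canonPi h hc a) =
        Submodule.Quotient.mk a := by
      rw [canonPi, Fintype.linearCombination_apply, map_sum]
      simp only [map_smul, Derivation.liftKaehlerDifferential_comp_D, canonDer_kap, canonG_apply,
        ← Submodule.Quotient.mk_smul]
      rw [← Submodule.mkQ_apply, ← Finset.univ_sum_single a, map_sum]
      refine Finset.sum_congr rfl fun w _ => ?_
      rw [Submodule.mkQ_apply]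
      congr 1
      ext w'
      rw [Pi.smul_apply, canon_pdQ_tQ, Finset.univ_sum_single]
      by_cases hw : w' = w
      · subst hw; simp
      · simp [hw]
    rw [LinearMap.mem_ker.mp ha, map_zero] at key
    exact (Submodule.Quotient.mk_eq_zero _).mp key.symm
  · rw [Submodule.span_le]
    rintro _ ⟨j, rfl⟩
    have := canonPi_grad h hc (toQ S (rel c j))
    rw [canon_kap_rel, map_zero] at this
    refine LinearMap.mem_ker.mpr (Eq.trans ?_ this)
    congr 1
    ext w
    rw [canonRho, canon_pdQ_toQ]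

lemma canon_exists_phi : ∃ Φ : ⋀[R]^3 Ω[R⁄ℂ] ≃ₗ[R] R, ∀ f : Fin 3 → Q S,
    Φ (exteriorPower.ιMulti R 3 fun i => D ℂ R (h.kap hc (f i))) =
      jdet canonEps (canonRho h hc) fun i w => h.kap hc (pdQ S w (f i)) := by
  have := h.finiteType ⟨c, hc⟩
  obtain ⟨Φ, hΦ⟩ := exists_topForm_equiv canonEps (canonPi h hc) (canonPi_surjective h hc)
    (canonRho h hc) (canon_ker_pi h hc) (span_jdet_eq_top canonEps _ fun p =>
      bertini c (p.comp (h.kap hc)) fun j => by
        rw [AlgHom.comp_apply, canon_kap_rel, map_zero])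
  refine ⟨Φ, fun f => ?_⟩
  rw [← hΦ]
  simp only [canonPi_grad]

end chart

/-- the homogeneous rows -/
def canonRowL (c : Ch) : Jx → Wv → L
  | .inl b, w => pdL w (toL (Fp b))
  | .inr (.inl k), w => pdL w (toL (sp k.castSucc))
  | .inr (.inr b), w => if w = ⟨b, some (c b)⟩ then mon (-chE c (Pi.single b 1)) else 0

lemma canonRowL_mem_Q {S : Set Ch} {c : Ch} (hc : c ∈ S) (j : Jx) (w : Wv) :
    canonRowL c j w ∈ Q S := by
  rcases j with b | k | b
  · exact pdL_mem_Q w (coe_toQ S _ ▸ (toQ S _).2)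
  · exact pdL_mem_Q w (coe_toQ S _ ▸ (toQ S _).2)
  · simp only [canonRowL]
    split_ifs
    · rw [← map_neg]; exact mon_mem_Q (chE_mem_ExS hc _)
    · exact zero_mem _

/-- the degrees of the rows -/
def canonDeg : Jx ⊕ Fin 3 → Bk → ℤ
  | .inl (.inl b) => Pi.single b (nb b : ℤ)
  | .inl (.inr (.inl _)) => dg 1
  | .inl (.inr (.inr _)) => 0
  | .inr _ => dg 0

lemma canonRowL_mem_Hg (c : Ch) (j : Jx) (w : Wv) :
    canonRowL c j w ∈ Hg (canonDeg (.inl j) - Pi.single w.1 1) := by
  rcases j with b | k | b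
  · exact pdL_mem_Hg w (Fp_mem_Hg b)
  · exact pdL_mem_Hg w (sp_mem_Hg _)
  · simp only [canonRowL, canonDeg]
    split_ifs with hw
    · subst hw
      have := mon_mem_Hg (-chE c (Pi.single b 1))
      rwa [map_neg, degE_chE, ← zero_sub] at this
    · exact zero_mem _

lemma canon_sum_deg : ∑ i, canonDeg i - ∑ w : Wv, (Pi.single w.1 1 : Bk → ℤ) = dg 3 := by
  have h1 : ∑ w : Wv, (Pi.single w.1 1 : Bk → ℤ) = ∑ b : Bk, (Pi.single b (nb b : ℤ) : Bk → ℤ) := by
    rw [Fintype.sum_sigma]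
    refine Finset.sum_congr rfl fun b _ => ?_
    simp only [Finset.sum_const, Finset.card_univ, Fintype.card_option, card_Ix]
    ext b'
    by_cases hb : b' = b
    · subst hb; simp
    · simp [hb]
  rw [h1]
  simp only [Fintype.sum_sum_type, canonDeg]
  ext b
  simp [dg]

/-- the Jacobian determinant in homogeneous coordinates -/
def canonPsiL (c : Ch) (f : Fin 3 → L) : L :=
  jdet canonEps (canonRowL c) fun i w => pdL w (f i)

lemma canon_det_mem_Hg {W : Type} [Fintype W] [DecidableEq W] (M : Matrix W W L)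
    (r s : W → Bk → ℤ) (h : ∀ i w, M i w ∈ Hg (r i - s w)) :
    M.det ∈ Hg (∑ i, r i - ∑ w, s w) := by
  rw [Matrix.det_apply]
  refine Submodule.sum_mem _ fun σ _ => ?_
  refine Submodule.smul_of_tower_mem _ _ ?_
  have := SetLike.prod_mem_graded Hg (F := Finset.univ) (fun w => r (σ w) - s w)
    (fun w => M (σ w) w) fun w _ => h _ w
  rwa [Finset.sum_sub_distrib, Equiv.sum_comp σ r] at this

lemma canonPsiL_mem_Hg (c : Ch) {f : Fin 3 → L} (hf : ∀ i, f i ∈ Hg (dg 0)) :
    canonPsiL c f ∈ Hg (dg 3) := by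
  have key : ∀ (i : Jx ⊕ Fin 3) (w : Wv),
      Sum.elim (canonRowL c) (fun i w => pdL w (f i)) i w ∈ Hg (canonDeg i - Pi.single w.1 1) := by
    rintro (j | i) w
    · exact canonRowL_mem_Hg c j w
    · exact pdL_mem_Hg w (hf i)
  have := canon_det_mem_Hg
    (Matrix.of fun i w => Sum.elim (canonRowL c) (fun i w => pdL w (f i)) (canonEps i) w)
    (fun i => canonDeg (canonEps i)) (fun w => Pi.single w.1 1) fun i w => key _ w
  rwa [Equiv.sum_comp canonEps canonDeg, canon_sum_deg] at this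

/-- the Jacobian determinant in `Q S` -/
def canonPsi {S : Set Ch} {c : Ch} (hc : c ∈ S) (f : Fin 3 → Q S) : Q S :=
  jdet canonEps (fun j w => ⟨canonRowL c j w, canonRowL_mem_Q hc j w⟩) fun i w => pdQ S w (f i)

lemma coe_canonPsi {S : Set Ch} {c : Ch} (hc : c ∈ S) (f : Fin 3 → Q S) :
    (canonPsi hc f : L) = canonPsiL c fun i => f i :=
  map_jdet canonEps _ _ ((Q S).val : Q S →+* L)

lemma canon_incQ_psi {S T : Set Ch} (h : S ⊆ T) {c : Ch} (hc : c ∈ S) (f : Fin 3 → Q S) :
    incQ h (canonPsi hc f) = canonPsi (h hc) fun i => incQ h (f i) := by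
  apply Subtype.ext
  have e1 : (incQ h (canonPsi hc f) : L) = (canonPsi hc f : L) := rfl
  rw [e1, coe_canonPsi, coe_canonPsi]
  rfl

lemma canon_thQ_row {S : Set Ch} {c : Ch} (hc : c ∈ S) (j : Jx) (w : Wv) :
    thQ hc (toQ S (MvPolynomial.pderiv w (rel c j))) =
      thQ hc ⟨canonRowL c j w, canonRowL_mem_Q hc j w⟩ := by
  apply Subtype.ext
  rw [coe_thQ, coe_thQ, coe_toQ]
  rcases j with b | k | b
  · rw [← pdL_toL]; rfl
  · rw [← pdL_toL]; rfl
  · simp only [rel, canonRowL, map_sub, MvPolynomial.pderiv_X, Derivation.map_one_eq_zero,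
      sub_zero]
    split_ifs with hw
    · subst hw
      rw [Pi.single_eq_same, map_one, map_one, thL_mon, map_neg, degE_chE, map_neg, sub_self,
        mon_zero]
    · rw [Pi.single_eq_of_ne' hw, map_zero]

/-- a determinant does not depend on the normalising rows -/
lemma canon_det_eq {A W B : Type} [CommRing A] [Fintype W] [DecidableEq W] [Fintype B]
    [DecidableEq B] (M M' : Matrix W W A) (E ι : Matrix W B A) (Δ : Matrix B W A)
    (h₁ : M * E = ι) (h₂ : M' = M + ι * Δ) (h₃ : Δ * E = 0) : M'.det = M.det := by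
  have : M' = M * (1 + E * Δ) := by
    rw [Matrix.mul_add, Matrix.mul_one, ← Matrix.mul_assoc, h₁, h₂]
  rw [this, Matrix.det_mul, Matrix.det_one_add_mul_comm, h₃, add_zero, Matrix.det_one, mul_one]

lemma canon_euler_row {S : Set Ch} (g : Wv → Q S) (b : Bk) :
    ∑ w : Wv, mkB 3 S (g w) * (if w.1 = b then mkB 3 S (tQ S w) else 0) =
      mkB 3 S (∑ x : Option (Ix b), tQ S ⟨b, x⟩ * g ⟨b, x⟩) := by
  rw [Fintype.sum_sigma, Finset.sum_eq_single b, map_sum]
  · refine Finset.sum_congr rfl fun x _ => ?_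
    rw [if_pos rfl, map_mul, mul_comm]
  · intro b' _ hb'
    refine Finset.sum_eq_zero fun x _ => ?_
    rw [if_neg hb', mul_zero]
  · intro hb
    exact absurd (Finset.mem_univ b) hb

lemma canon_euler_Q {S : Set Ch} {d : Bk → ℤ} (f : Q S) (hf : (f : L) ∈ Hg d) (b : Bk) :
    ∑ x : Option (Ix b), tQ S ⟨b, x⟩ * pdQ S ⟨b, x⟩ f = (d b : ℂ) • f := by
  apply Subtype.ext
  rw [AddSubmonoidClass.coe_finsetSum]
  exact euler hf b

lemma canon_tv_chart (c : Ch) (b : Bk) : tv ⟨b, some (c b)⟩ = mon (chE c (Pi.single b 1)) := by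
  rw [tv]
  congr 1
  ext ⟨b', x⟩
  by_cases hb : b' = b
  · subst hb
    by_cases hx : x = some (c b')
    · subst hx; simp [chE]
    · have : (⟨b', x⟩ : Wv) ≠ ⟨b', some (c b')⟩ := fun e => hx (by simpa using e)
      simp [chE, hx, this]
  · have : (⟨b', x⟩ : Wv) ≠ ⟨b, some (c b)⟩ := fun e => hb (congrArg Sigma.fst e)
    simp [chE, hb, this]

lemma canon_row_mul_euler {S : Set Ch} {c : Ch} (hc : c ∈ S) (f : Fin 3 → Q S)
    (hf : ∀ i, (f i : L) ∈ Hg (dg 0)) (i : Jx ⊕ Fin 3) (b : Bk) :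
    ∑ w : Wv, mkB 3 S (Sum.elim (fun j w => (⟨canonRowL c j w, canonRowL_mem_Q hc j w⟩ : Q S))
      (fun i w => pdQ S w (f i)) i w) * (if w.1 = b then mkB 3 S (tQ S w) else 0) =
      if i = .inl (.inr (.inr b)) then 1 else 0 := by
  rw [canon_euler_row]
  rcases i with (b' | k | b') | i
  · rw [if_neg (by simp)]
    have : ∀ w, (⟨canonRowL c (.inl b') w, canonRowL_mem_Q hc _ w⟩ : Q S) =
        pdQ S w (toQ S (Fp b')) := fun w => Subtype.ext (by rw [coe_pdQ, coe_toQ]; rfl)
    simp only [Sum.elim_inl, this]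
    rw [canon_euler_Q _ (by rw [coe_toQ]; exact Fp_mem_Hg b'), map_smul,
      mkB_eq_zero_iff.mpr (Ideal.subset_span (Or.inl ⟨b', rfl⟩)), smul_zero]
  · rw [if_neg (by simp)]
    have : ∀ w, (⟨canonRowL c (.inr (.inl k)) w, canonRowL_mem_Q hc _ w⟩ : Q S) =
        pdQ S w (toQ S (sp k.castSucc)) := fun w => Subtype.ext (by rw [coe_pdQ, coe_toQ]; rfl)
    simp only [Sum.elim_inl, this]
    rw [canon_euler_Q _ (by rw [coe_toQ]; exact sp_mem_Hg _), map_smul,
      mkB_eq_zero_iff.mpr (Ideal.subset_span (Or.inr ⟨k.castSucc, k.2, rfl⟩)), smul_zero]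
  · simp only [Sum.elim_inl]
    by_cases hb : b' = b
    · subst hb
      rw [if_pos rfl, Finset.sum_eq_single (some (c b')), ← map_one (mkB 3 S)]
      · congr 1
        apply Subtype.ext
        change tv _ * canonRowL c _ _ = 1
        simp only [canonRowL, if_true]
        rw [canon_tv_chart, ← mon_add, add_neg_cancel, mon_zero]
      · intro x _ hx
        have : (⟨b', x⟩ : Wv) ≠ ⟨b', some (c b')⟩ := fun e => hx (by simpa using e)
        apply Subtype.ext
        change tv _ * canonRowL c _ _ = 0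
        simp only [canonRowL, if_neg this, mul_zero]
      · intro hx
        exact absurd (Finset.mem_univ _) hx
    · rw [if_neg (by simpa using hb), ← map_zero (mkB 3 S)]
      congr 1
      refine Finset.sum_eq_zero fun x _ => ?_
      have : (⟨b, x⟩ : Wv) ≠ ⟨b', some (c b')⟩ := fun e => hb (congrArg Sigma.fst e).symm
      apply Subtype.ext
      change tv _ * canonRowL c _ _ = 0
      simp only [canonRowL, if_neg this, mul_zero]
  · rw [if_neg (by simp)]
    simp only [Sum.elim_inr]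
    rw [canon_euler_Q _ (hf i)]
    simp [dg]

/-- independence of the chart -/
lemma canonPsi_indep {S : Set Ch} {c c' : Ch} (hc : c ∈ S) (hc' : c' ∈ S) (f : Fin 3 → Q S)
    (hf : ∀ i, (f i : L) ∈ Hg (dg 0)) : mkB 3 S (canonPsi hc' f) = mkB 3 S (canonPsi hc f) := by
  let row := fun (c : Ch) (hc : c ∈ S) (i : Jx ⊕ Fin 3) (w : Wv) =>
    mkB 3 S (Sum.elim (fun j w => (⟨canonRowL c j w, canonRowL_mem_Q hc j w⟩ : Q S))
      (fun i w => pdQ S w (f i)) i w)
  have e : ∀ (c : Ch) (hc : c ∈ S), mkB 3 S (canonPsi hc f) =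
      (Matrix.of fun i w => row c hc (canonEps i) w).det := fun c hc => by
    rw [canonPsi, jdet, AlgHom.map_det]
    rfl
  rw [e, e]
  refine canon_det_eq _ _ (Matrix.of fun w b => if w.1 = b then mkB 3 S (tQ S w) else 0)
    (Matrix.of fun i b => if canonEps i = .inl (.inr (.inr b)) then 1 else 0)
    (Matrix.of fun b w => row c' hc' (.inl (.inr (.inr b))) w - row c hc (.inl (.inr (.inr b))) w)
    ?_ ?_ ?_
  · ext i b
    exact canon_row_mul_euler hc f hf (canonEps i) b
  · ext i w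
    simp only [Matrix.add_apply, Matrix.mul_apply, Matrix.of_apply]
    rcases canonEps i with (b' | k | b') | i
    · simp [row, canonRowL]
    · simp [row, canonRowL]
    · simp
    · simp [row]
  · ext b b'
    simp only [Matrix.mul_apply, Matrix.of_apply, sub_mul, Finset.sum_sub_distrib,
      Matrix.zero_apply, row]
    rw [canon_row_mul_euler hc f hf, canon_row_mul_euler hc' f hf, sub_self]

lemma canon_MM_mul {S : Set Ch} {k l : ℤ} {x y : BR 3 S} (hx : x ∈ MM 3 k S) (hy : y ∈ MM 3 l S) :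
    x * y ∈ MM 3 (k + l) S := by
  obtain ⟨f, hf, rfl⟩ := mem_MM.mp hx
  obtain ⟨g, hg, rfl⟩ := mem_MM.mp hy
  exact mem_MM.mpr ⟨f * g, SetLike.mul_mem_graded hf hg, map_mul _ _ _⟩

/-- the canonical isomorphism on one intersection of charts -/
lemma canon_exists_theta {S : Set Ch} {R : Type} [CommRing R] [Algebra ℂ R]
    {ev : R →ₐ[ℂ] BR 3 S} (h : IsEv S ev) {c : Ch} (hc : c ∈ S) :
    ∃ Θ : ⋀[R]^3 Ω[R⁄ℂ] →ₗ[ℂ] BR 3 S, Function.Injective Θ ∧
      (∀ x, x ∈ MM 3 3 S ↔ ∃ η, Θ η = x) ∧ (∀ (r : R) η, Θ (r • η) = ev r * Θ η) ∧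
      ∀ (y : Fin 3 → R) (f : Fin 3 → Q S), (∀ i, (f i : L) ∈ Hg (dg 0)) →
        (∀ i, ev (y i) = mkB 3 S (f i)) →
        Θ (exteriorPower.ιMulti R 3 fun i => D ℂ R (y i)) = mkB 3 S (canonPsi hc f) := by
  obtain ⟨Φ, hΦ⟩ := canon_exists_phi h hc
  let u : Q S := ⟨mon (chE c (dg 3)), mon_mem_Q (chE_mem_ExS hc _)⟩
  let v : Q S := ⟨mon (chE c (dg (-3))), mon_mem_Q (chE_mem_ExS hc _)⟩
  have hneg : chE c (dg (-3)) = -chE c (dg 3) := by rw [← map_neg]; rfl
  have huv : u * v = 1 := by
    apply Subtype.ext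
    change mon _ * mon _ = 1
    rw [← mon_add, hneg, add_neg_cancel, mon_zero]
  have hu : mkB 3 S u ∈ MM 3 3 S := mem_MM.mpr ⟨u, by
    have := mon_mem_Hg (chE c (dg 3)); rwa [degE_chE] at this, rfl⟩
  have hv : mkB 3 S v ∈ MM 3 (-3) S := mem_MM.mpr ⟨v, by
    have := mon_mem_Hg (chE c (dg (-3))); rwa [degE_chE] at this, rfl⟩
  have huv' : mkB 3 S v * mkB 3 S u = 1 := by rw [← map_mul, mul_comm, huv, map_one]
  refine ⟨(LinearMap.mulLeft ℂ (mkB 3 S u)) ∘ₗ ev.toLinearMap ∘ₗ
    (Φ.toLinearMap.restrictScalars ℂ), ?_, ?_, ?_, ?_⟩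
  · intro x y hxy
    have hxy' : mkB 3 S u * ev (Φ x) = mkB 3 S u * ev (Φ y) := hxy
    apply Φ.injective
    apply h.inj
    rw [← one_mul (ev (Φ x)), ← one_mul (ev (Φ y)), ← huv', mul_assoc, hxy', mul_assoc]
  · intro x
    constructor
    · intro hx
      obtain ⟨y, hy⟩ := (h.range _).mp (by simpa using canon_MM_mul hv hx)
      refine ⟨Φ.symm y, ?_⟩
      change mkB 3 S u * ev (Φ (Φ.symm y)) = x
      rw [LinearEquiv.apply_symm_apply, hy, ← mul_assoc, mul_comm (mkB 3 S u), huv', one_mul]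
    · rintro ⟨η, rfl⟩
      simpa using canon_MM_mul hu ((h.range _).mpr ⟨Φ η, rfl⟩)
  · intro r η
    change mkB 3 S u * ev (Φ (r • η)) = ev r * (mkB 3 S u * ev (Φ η))
    rw [map_smul, smul_eq_mul, map_mul]
    ring
  · intro y f hf hy
    have hth : ∀ i, thQ hc (f i) = f i := fun i => Subtype.ext (by
      rw [coe_thQ, thL_of_mem_Hg c (hf i), show dg 0 = 0 from rfl, map_zero, neg_zero, mon_zero,
        mul_one])
    have hy' : y = fun i => h.kap hc (f i) := by
      ext i
      apply h.inj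
      rw [h.ev_kap, hth, hy]
    subst hy'
    change mkB 3 S u * ev (Φ _) = _
    rw [hΦ]
    have e1 : ev (jdet canonEps (canonRho h hc) fun i w => h.kap hc (pdQ S w (f i))) =
        mkB 3 S (thQ hc (canonPsi hc f)) := by
      have a1 := map_jdet canonEps (canonRho h hc) (fun i w => h.kap hc (pdQ S w (f i)))
        (ev : R →+* BR 3 S)
      have a2 := map_jdet canonEps
        (fun j w => (⟨canonRowL c j w, canonRowL_mem_Q hc j w⟩ : Q S)) (fun i w => pdQ S w (f i))
        (((mkB 3 S).comp (thQ hc) : Q S →ₐ[ℂ] BR 3 S) : Q S →+* BR 3 S)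
      refine a1.trans (Eq.trans ?_ a2.symm)
      congr 1
      · ext j w
        change ev (h.kap hc _) = mkB 3 S (thQ hc _)
        rw [h.ev_kap, canon_thQ_row]
      · ext i w
        exact h.ev_kap hc _
    have e2 : thQ hc (canonPsi hc f) = canonPsi hc f * v := by
      apply Subtype.ext
      rw [coe_thQ, thL_of_mem_Hg c (d := dg 3) (by
        rw [coe_canonPsi]; exact canonPsiL_mem_Hg c hf), ← hneg]
      rfl
    rw [e1, e2, map_mul, mul_comm (mkB 3 S u), mul_assoc, huv', mul_one]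

theorem exists_canonical (R : Set Ch → Type) [∀ S, CommRing (R S)] [∀ S, Algebra ℂ (R S)]
    (ρ : ∀ {S T : Set Ch}, S ⊆ T → (R S →ₐ[ℂ] R T))
    (ev : ∀ S : Set Ch, S.Nonempty → (R S →ₐ[ℂ] BR 3 S)) (hev : ∀ S hS, IsEv S (ev S hS))
    (hρ : ∀ {S T : Set Ch} (h : S ⊆ T) (hS : S.Nonempty) (y : R S),
      ev T (hS.mono h) (ρ h y) = resB 3 h (ev S hS y)) :
    ∃ Φ : ∀ S : Set Ch, S.Nonempty → (⋀[R S]^3 Ω[R S⁄ℂ] →ₗ[ℂ] (MS 3 3).obj S),
      (∀ S hS, Function.Bijective (Φ S hS)) ∧
      ∀ {S T : Set Ch} (h : S ⊆ T) (hS : S.Nonempty) (x : ⋀[R S]^3 Ω[R S⁄ℂ]),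
        Φ T (hS.mono h) (formMapC 3 (ρ h) x) = (MS 3 3).map h (Φ S hS x) := by
  choose Θ hinj hrange hsmul hform using
    fun (S : Set Ch) (hS : S.Nonempty) => canon_exists_theta (hev S hS) hS.some_mem
  refine ⟨fun S hS => (Θ S hS).codRestrict (MM 3 3 S) fun η => (hrange S hS _).mpr ⟨η, rfl⟩,
    fun S hS => ⟨fun x y hxy => hinj S hS (congrArg Subtype.val hxy), fun x => ?_⟩, ?_⟩
  · obtain ⟨η, hη⟩ := (hrange S hS _).mp x.2
    exact ⟨η, Subtype.ext hη⟩
  · intro S T hST hS x
    apply Subtype.ext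
    change Θ T (hS.mono hST) (formMap 3 (ρ hST) x) = resB 3 hST (Θ S hS x)
    have hx : x ∈ Submodule.span (R S) (exteriorPower.ιMulti (R S) 3 ''
        {a | Set.range a ⊆ Set.range (D ℂ (R S))}) := by
      rw [exteriorPower.ιMulti_span_of_span (R S) 3 _ (span_range_derivation ℂ (R S))]
      trivial
    induction hx using Submodule.span_induction with
    | mem x hx =>
      obtain ⟨a, ha, rfl⟩ := hx
      choose y hy using fun i => ha ⟨i, rfl⟩
      obtain rfl : a = fun i => D ℂ (R S) (y i) := funext fun i => (hy i).symm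
      choose f hf hf' using fun i => mem_MM.mp (((hev S hS).range _).mpr ⟨y i, rfl⟩)
      rw [formMap_ιMulti]
      simp only [oneFormMap_D]
      rw [hform S hS y f hf fun i => (hf' i).symm,
        hform T (hS.mono hST) (fun i => ρ hST (y i)) (fun i => incQ hST (f i)) hf
          fun i => by rw [hρ hST hS, ← hf', resB_mkB],
        canonPsi_indep (hST hS.some_mem) _ _ hf, resB_mkB]
      rw [canon_incQ_psi]
    | zero => simp only [map_zero]
    | add x y _ _ hx hy => simp only [map_add, hx, hy]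
    | smul r x _ hx =>
      rw [map_smulₛₗ, hsmul, hsmul, hx, map_mul, ← hρ hST hS]
      rfl

end Pool.Agent.Lib.MP_d80bfc_ag
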