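import Pool.Agent.Lib.MP_d80bfc_ag.Red

/-!
# TASK CNT: cohomology of `O(k, …, k)` on `E^4 × Y`
-/

noncomputable section

namespace Pool.Agent.Lib.MP_d80bfc_ag

/-- Hodge numbers `h^{0,j}` of `E^4 × Y` -/
def hZ : ℕ → ℕ
  | 0 => 1
  | 1 => 4
  | 2 => 7
  | 3 => 8
  | 4 => 7
  | 5 => 4
  | 6 => 1
  | _ => 0

/-- the exponents that contribute to cohomology -/
def cntT (k : ℤ) (j : ℕ) : Set Ex :=
  {e | e ∈ RedE k ∧ GoodPole (pole e) ∧ poleDeg (pole e) = j}

lemma cnt_bet (k : ℤ) (j : ℕ) (h : (cntT k j).Finite) :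
    (MS 0 k).Bet j (Nat.card (cntT k j)) := by
  obtain ⟨e₁⟩ := monSys_H (RedE k) pole j
  obtain ⟨e₂⟩ := MS_zero_H k j
  have := h.fintype
  have e₃ : (cntT k j →₀ ℂ) ≃ₗ[ℂ] (MS 0 k).H j := e₁.symm.trans e₂
  exact ⟨Module.Finite.equiv e₃, by
    rw [← e₃.finrank_eq, Module.finrank_finsupp_self, Nat.card_eq_fintype_card]⟩

lemma cnt_bet_empty (k : ℤ) (j : ℕ) (h : ∀ e, e ∉ cntT k j) : (MS 0 k).Bet j 0 := by
  have h' : cntT k j = ∅ := Set.eq_empty_of_forall_notMem h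
  have := cnt_bet k j (h' ▸ Set.finite_empty)
  rwa [h', Nat.card_of_isEmpty] at this

lemma cnt_deg {k : ℤ} {e : Ex} (he : e ∈ RedE k) (b : Bk) :
    e ⟨b, none⟩ + ∑ i : Ix b, e ⟨b, some i⟩ = k := by
  have := congrFun he.2 b
  rwa [show degE e b = ∑ x : Option (Ix b), e ⟨b, x⟩ from rfl, Fintype.sum_option] at this

lemma cnt_all {k : ℤ} {e : Ex} (he : e ∈ RedE k) {b : Bk}
    (h : ∀ i : Ix b, (⟨b, i⟩ : Σ b, Ix b) ∈ pole e) :
    k ≤ 0 ∧ (k = 0 → e ⟨b, none⟩ = nb b - 1 ∧ ∀ i : Ix b, e ⟨b, some i⟩ = -1) := by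
  have h1 : ∀ i ∈ (Finset.univ : Finset (Ix b)), e ⟨b, some i⟩ ≤ -1 := fun i _ => by
    have : e ⟨b, some i⟩ < 0 := h i
    omega
  have h2 := Finset.sum_le_sum h1
  have h3 : ∑ _i : Ix b, (-1 : ℤ) = 1 - nb b := by
    rw [← card_Ix b]
    simp
  have h4 := cnt_deg he b
  have h5 := (he.1 b).2
  refine ⟨by omega, fun h0 => ⟨by omega, fun i => ?_⟩⟩
  exact (Finset.sum_eq_sum_iff_of_le h1).mp (by omega) i (Finset.mem_univ i)

lemma cnt_none {k : ℤ} {e : Ex} (he : e ∈ RedE k) {b : Bk}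
    (h : ∀ i : Ix b, (⟨b, i⟩ : Σ b, Ix b) ∉ pole e) (x : Option (Ix b)) :
    0 ≤ e ⟨b, x⟩ ∧ e ⟨b, x⟩ ≤ k := by
  have h1 : ∀ y : Option (Ix b), 0 ≤ e ⟨b, y⟩ := by
    rintro (_ | i)
    · exact (he.1 b).1
    · exact not_lt.mp (h i)
  refine ⟨h1 x, ?_⟩
  have h2 : ∑ y : Option (Ix b), e ⟨b, y⟩ = k := congrFun he.2 b
  rw [← h2]
  exact Finset.single_le_sum (f := fun y : Option (Ix b) => e ⟨b, y⟩) (fun y _ => h1 y)
    (Finset.mem_univ x)

/-- the exponents of degree zero -/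
def cntE (s : Bk → Bool) : Ex := fun w =>
  if s w.1 then (if w.2.isSome then -1 else nb w.1 - 1) else 0

/-- their cohomological degrees -/
def cntD (s : Bk → Bool) : ℕ := ∑ b, if s b then nb b - 2 else 0

lemma cnt_pole (s : Bk → Bool) (b : Bk) (i : Ix b) :
    (⟨b, i⟩ : Σ b, Ix b) ∈ pole (cntE s) ↔ s b = true := by
  change cntE s ⟨b, some i⟩ < 0 ↔ _
  by_cases h : s b = true <;> simp [cntE, h]

lemma cnt_nb (b : Bk) : 3 ≤ nb b := by cases b <;> simp [nb]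

lemma cnt_mem (s : Bk → Bool) : cntE s ∈ cntT 0 (cntD s) := by
  refine ⟨⟨fun b => ?_, ?_⟩, fun b => ?_, ?_⟩
  · have := cnt_nb b
    by_cases h : s b = true <;> simp [cntE, h] <;> omega
  · funext b
    rw [show degE (cntE s) b = ∑ x : Option (Ix b), cntE s ⟨b, x⟩ from rfl, Fintype.sum_option]
    have := card_Ix b
    by_cases h : s b = true <;> simp [cntE, h, dg]
    omega
  · by_cases h : s b = true
    · exact Or.inr fun i => (cnt_pole s b i).mpr h
    · exact Or.inl fun i hi => h ((cnt_pole s b i).mp hi)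
  · refine Finset.sum_congr rfl fun b _ => ?_
    have := card_Ix b
    simp only [cnt_pole, exists_const]
    split_ifs
    · omega
    · rfl

lemma cnt_inj : Function.Injective cntE := by
  intro s t h
  funext b
  obtain ⟨i⟩ : Nonempty (Ix b) := inferInstance
  have h1 := cnt_pole s b i
  rw [h, cnt_pole] at h1
  exact Bool.eq_iff_iff.mpr h1.symm

lemma cnt_surj {j : ℕ} {e : Ex} (he : e ∈ cntT 0 j) : ∃ s, cntE s = e := by
  classical
  refine ⟨fun b => decide (∀ i : Ix b, (⟨b, i⟩ : Σ b, Ix b) ∈ pole e), ?_⟩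
  funext ⟨b, x⟩
  by_cases h : ∀ i : Ix b, (⟨b, i⟩ : Σ b, Ix b) ∈ pole e
  · obtain ⟨h1, h2⟩ := (cnt_all he.1 h).2 rfl
    cases x with
    | none => simp [cntE, h, h1]
    | some i => simp [cntE, h, h2]
  · have h1 := cnt_none he.1 ((he.2.1 b).resolve_right h) x
    simp only [cntE, h, decide_false, Bool.false_eq_true, if_false]
    omega

lemma cnt_zero_eq (j : ℕ) : cntT 0 j = cntE '' {s | cntD s = j} := by
  ext e
  constructor
  · intro he
    obtain ⟨s, rfl⟩ := cnt_surj he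
    exact ⟨s, (cnt_mem s).2.2.symm.trans he.2.2, rfl⟩
  · rintro ⟨s, rfl, rfl⟩
    exact cnt_mem s

lemma cnt_card (j : ℕ) : (Finset.univ.filter fun s => cntD s = j).card = hZ j := by
  have h1 : ∀ j < 7, (Finset.univ.filter fun s => cntD s = j).card = hZ j := by decide
  have h2 : ∀ s, cntD s < 7 := by decide
  rcases lt_or_ge j 7 with h | h
  · exact h1 j h
  · obtain ⟨i, rfl⟩ := Nat.exists_eq_add_of_le' h
    rw [Finset.filter_false_of_mem fun s _ => by have := h2 s; omega]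
    rfl

theorem bet_zero_zero (j : ℕ) : (MS 0 0).Bet j (hZ j) := by
  have h := cnt_bet 0 j (cnt_zero_eq j ▸ (Set.toFinite _).image _)
  rw [cnt_zero_eq, Nat.card_image_of_injective cnt_inj,
    Nat.subtype_card (Finset.univ.filter fun s => cntD s = j) (by simp), cnt_card] at h
  exact h

lemma cnt_pos {k : ℤ} (hk : 0 < k) {j : ℕ} {e : Ex} (he : e ∈ cntT k j) (b : Bk) (i : Ix b) :
    (⟨b, i⟩ : Σ b, Ix b) ∉ pole e :=
  (he.2.1 b).resolve_right (fun h => absurd (cnt_all he.1 h).1 (not_le.mpr hk)) i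

theorem bet_zero_pos {k : ℤ} (hk : 0 < k) (j : ℕ) : (MS 0 k).Bet (j + 1) 0 := by
  refine cnt_bet_empty k _ fun e he => ?_
  have h := he.2.2
  rw [poleDeg, Finset.sum_eq_zero fun b _ => if_neg fun ⟨i, hi⟩ => cnt_pos hk he b i hi] at h
  omega

lemma cnt_finite {k : ℤ} (hk : 0 < k) (j : ℕ) : (cntT k j).Finite :=
  (Set.Finite.pi' fun _ : Wv => Set.finite_Icc 0 k).subset fun _ he w =>
    cnt_none he.1 (cnt_pos hk he w.1) w.2

theorem finite_zero_pos {k : ℤ} (hk : 0 < k) : Module.Finite ℂ ((MS 0 k).H 0) :=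
  (cnt_bet k 0 (cnt_finite hk 0)).1

theorem le_finrank_zero_one : 8 ≤ Module.finrank ℂ ((MS 0 1).H 0) := by
  rw [(cnt_bet 1 0 (cnt_finite one_pos 0)).2]
  have h0 : ∀ (c : Ch) (b : Bk) (i : Ix b), (⟨b, i⟩ : Σ b, Ix b) ∉ pole (chE c (dg 1)) := by
    intro c b i
    change ¬ (if some i = some (c b) then (1 : ℤ) else 0) < 0
    split_ifs <;> simp
  have h1 : ∀ c : Ch, chE c (dg 1) ∈ cntT 1 0 := fun c => by
    refine ⟨⟨fun b => ?_, degE_chE c _⟩, fun b => Or.inl (h0 c b),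
      Finset.sum_eq_zero fun b _ => if_neg fun ⟨i, hi⟩ => h0 c b i hi⟩
    have := cnt_nb b
    simp [chE]
    omega
  have h2 : Function.Injective fun c : Ch => (⟨chE c (dg 1), h1 c⟩ : cntT 1 0) := by
    intro c c' h
    funext b
    have h3 := congrFun (congrArg Subtype.val h) ⟨b, some (c b)⟩
    simpa [chE, dg] using h3
  have := (cnt_finite one_pos 0).to_subtype
  refine le_trans ?_ (Nat.card_le_card_of_injective _ h2)
  rw [Nat.card_eq_fintype_card, Fintype.card_pi]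
  decide

theorem bet_zero_neg {k : ℤ} (hk : k < 0) {j : ℕ} (hj : j < 6) : (MS 0 k).Bet j 0 := by
  refine cnt_bet_empty k _ fun e he => ?_
  have h := he.2.2
  have h1 : ∀ b : Bk, ∃ i : Ix b, (⟨b, i⟩ : Σ b, Ix b) ∈ pole e := fun b => by
    by_contra hc
    have := cnt_none he.1 (not_exists.mp hc) none
    omega
  rw [poleDeg, Finset.sum_congr rfl fun b _ => if_pos (h1 b),
    show ∑ b : Bk, (Fintype.card (Ix b) - 1) = 6 by decide] at h
  omega

end Pool.Agent.Lib.MP_d80bfc_ag
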