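import Pool.Agent.Lib.MP_d80bfc_ag.Cnt

/-!
# TASK COH: cohomology of `O` and `O(3, …, 3)` on the complete intersection of three sections
-/

noncomputable section

namespace Pool.Agent.Lib.MP_d80bfc_ag

lemma coh_cDQ_mul (S : Set Ch) (D : Derivation ℤ ℂ ℂ) (x y : Q S) :
    cDQ S D (x * y) = x * cDQ S D y + y * cDQ S D x :=
  Subtype.ext (cD_mul D x y)

/-- the generic sections form a regular sequence on every non-empty intersection of charts -/
theorem mem_JI_of_sp_mul_mem (r : Fin 4) {S : Set Ch} (hS : S.Nonempty) (f : Q S)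
    (hf : toQ S (sp r) * f ∈ JI r.val S) : f ∈ JI r.val S := by
  obtain ⟨c, hc⟩ := hS
  obtain ⟨D, hD⟩ := cf_spec r c.sg
  have := finiteType_Q S
  have : IsNoetherianRing (Q S) := Algebra.FiniteType.isNoetherianRing ℂ (Q S)
  let u : Q S := ⟨mon (chE c (-dg 1)), mon_mem_Q (chE_mem_ExS hc _)⟩
  have h1 : ∀ x ∈ JI r.val S, cDQ S D x ∈ JI r.val S := by
    intro x hx
    induction hx using Submodule.span_induction with
    | mem x hx =>
      have : cDQ S D x = 0 := by
        rcases hx with ⟨b, rfl⟩ | ⟨k, hk, rfl⟩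
        · exact Subtype.ext (by rw [coe_cDQ, coe_toQ, cD_Fp]; rfl)
        · refine Subtype.ext ?_
          have hk' : k ≠ r := fun h => lt_irrefl _ (h ▸ hk : r.val < r.val)
          rw [coe_cDQ, coe_toQ, cD_sp]
          simp [hD, hk']
      rw [this]
      exact zero_mem _
    | zero => rw [map_zero]; exact zero_mem _
    | add x y _ _ hx hy => rw [map_add]; exact add_mem hx hy
    | smul a x hx hx' =>
      rw [smul_eq_mul, coh_cDQ_mul]
      exact add_mem (Ideal.mul_mem_left _ _ hx') (Ideal.mul_mem_right _ _ hx)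
  refine mem_of_mul_mem_of_derivation (JI r.val S) ((AddMonoidHom.mulLeft u).comp (cDQ S D))
    (fun x y => ?_) (fun x hx => Ideal.mul_mem_left _ _ (h1 x hx)) _ ?_ f hf
  · simp only [AddMonoidHom.comp_apply, AddMonoidHom.coe_mulLeft, coh_cDQ_mul]
    ring
  · have : u * cDQ S D (toQ S (sp r)) = 1 := by
      refine Subtype.ext ?_
      change mon (chE c (-dg 1)) * cD D (toQ S (sp r) : L) = 1
      rw [coe_toQ, cD_sp, Finset.sum_eq_single c.sg (fun a _ ha => by simp [hD, ha]) (by simp),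
        hD, if_pos ⟨rfl, rfl⟩, one_smul, toL_wp_sg, ← mon_add, ← map_add, neg_add_cancel,
        map_zero, mon_zero]
    rw [AddMonoidHom.comp_apply, AddMonoidHom.coe_mulLeft, this, sub_self]
    exact zero_mem _

lemma coh_JI_le (r : ℕ) (S : Set Ch) : JI r S ≤ JI (r + 1) S :=
  Ideal.span_mono (Set.union_subset_union_right _
    (Set.image_mono fun _ hk => Nat.lt_succ_of_lt hk))

lemma coh_sp_mem (r : Fin 4) (S : Set Ch) : toQ S (sp r) ∈ JI (r.val + 1) S :=
  Ideal.subset_span (Or.inr ⟨r, Nat.lt_succ_self _, rfl⟩)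

lemma coh_mul_mem (r : Fin 4) {k : ℤ} {S : Set Ch} {f : Q S} (hf : (f : L) ∈ Hg (dg (k - 1))) :
    ((toQ S (sp r) * f : Q S) : L) ∈ Hg (dg k) := by
  have h : dg k = dg 1 + dg (k - 1) := by
    funext b
    simp [dg]
  rw [h, Subalgebra.coe_mul, coe_toQ]
  exact SetLike.mul_mem_graded (sp_mem_Hg r) hf

/-- the projection onto the next complete intersection -/
def cohPr (r : ℕ) (S : Set Ch) : BR r S →ₐ[ℂ] BR (r + 1) S :=
  Ideal.quotientMapₐ (JI (r + 1) S) (AlgHom.id ℂ (Q S)) (coh_JI_le r S)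

lemma cohPr_mkB (r : ℕ) (S : Set Ch) (f : Q S) : cohPr r S (mkB r S f) = mkB (r + 1) S f := rfl

/-- multiplication by a section -/
def cohF (r : Fin 4) (k : ℤ) : Sys.Hom (MS r.val (k - 1)) (MS r.val k) where
  app S _ := (LinearMap.mulLeft ℂ (mkB r.val S (toQ S (sp r)))).restrict
    (p := MM r.val (k - 1) S) (q := MM r.val k S) fun _ hx => by
      obtain ⟨f, hf, rfl⟩ := mem_MM.mp hx
      exact mem_MM.mpr ⟨_, coh_mul_mem r hf, map_mul _ _ _⟩
  nat {S T} h _ x := by
    obtain ⟨_, f, hf, rfl⟩ := x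
    refine Subtype.ext ?_
    change mkB r.val T (toQ T (sp r)) * resB r.val h (mkB r.val S f) =
      resB r.val h (mkB r.val S (toQ S (sp r)) * mkB r.val S f)
    rw [map_mul, resB_mkB _ h (toQ S (sp r)), incQ_toQ]

/-- restriction to the next complete intersection -/
def cohG (r : ℕ) (k : ℤ) : Sys.Hom (MS r k) (MS (r + 1) k) where
  app S _ := (cohPr r S).toLinearMap.restrict (p := MM r k S) (q := MM (r + 1) k S)
    fun _ hx => by
      obtain ⟨f, hf, rfl⟩ := mem_MM.mp hx
      exact mem_MM.mpr ⟨f, hf, rfl⟩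
  nat {S T} h _ x := by
    obtain ⟨_, f, hf, rfl⟩ := x
    rfl

/-- `0 → O_{X_r}(k-1) → O_{X_r}(k) → O_{X_{r+1}}(k) → 0` -/
theorem exists_ses (r : Fin 4) (k : ℤ) :
    ∃ (f : Sys.Hom (MS r.val (k - 1)) (MS r.val k)) (g : Sys.Hom (MS r.val k) (MS (r.val + 1) k)),
      Sys.SES f g := by
  refine ⟨cohF r k, cohG r.val k, fun S hS => ?_, fun S hS => ?_, fun S hS => ?_⟩
  · rw [injective_iff_map_eq_zero]
    rintro ⟨_, f, hf, rfl⟩ h
    have h1 : mkB r.val S (toQ S (sp r)) * mkB r.val S f = 0 := congrArg Subtype.val h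
    rw [← map_mul, mkB_eq_zero_iff] at h1
    exact Subtype.ext (mkB_eq_zero_iff.mpr (mem_JI_of_sp_mul_mem r hS f h1))
  · rintro ⟨_, f, hf, rfl⟩
    constructor
    · intro h
      have h1 : mkB (r.val + 1) S f = 0 := congrArg Subtype.val h
      obtain ⟨g, hg, h2⟩ := exists_of_mem_JI_succ (mkB_eq_zero_iff.mp h1) hf
      refine ⟨⟨mkB r.val S g, mem_MM.mpr ⟨g, hg, rfl⟩⟩, Subtype.ext ?_⟩
      change mkB r.val S (toQ S (sp r)) * mkB r.val S g = mkB r.val S f
      rw [← map_mul]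
      exact (mkB_eq_iff.mpr h2).symm
    · rintro ⟨⟨_, g, hg, rfl⟩, h⟩
      have h1 : mkB r.val S (toQ S (sp r)) * mkB r.val S g = mkB r.val S f :=
        congrArg Subtype.val h
      refine Subtype.ext ?_
      change cohPr r.val S (mkB r.val S f) = 0
      rw [← h1, ← map_mul, cohPr_mkB, mkB_eq_zero_iff]
      exact Ideal.mul_mem_right _ _ (coh_sp_mem r S)
  · rintro ⟨_, f, hf, rfl⟩
    exact ⟨⟨mkB r.val S f, mem_MM.mpr ⟨f, hf, rfl⟩⟩, rfl⟩

lemma coh_ses {r : ℕ} (hr : r < 4) (k : ℤ) :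
    ∃ (f : Sys.Hom (MS r (k - 1)) (MS r k)) (g : Sys.Hom (MS r k) (MS (r + 1) k)),
      Sys.SES f g := exists_ses ⟨r, hr⟩ k

lemma coh_neg {r : ℕ} (hr : r ≤ 4) : ∀ {k : ℤ} (_ : k < 0) {j : ℕ} (_ : j + r < 6),
    (MS r k).Bet j 0 := by
  induction r with
  | zero => exact fun hk _ hj => bet_zero_neg hk hj
  | succ r ih =>
    intro k hk j hj
    obtain ⟨f, g, h⟩ := coh_ses (r := r) (by omega) k
    exact h.right_zero (ih (by omega) hk (by omega)) (ih (by omega) (by omega) (by omega))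

lemma coh_zero {r : ℕ} (hr : r ≤ 4) {j : ℕ} (hj : j + r < 6) : (MS r 0).Bet j (hZ j) := by
  induction r with
  | zero => exact bet_zero_zero j
  | succ r ih =>
    obtain ⟨f, g, h⟩ := coh_ses (r := r) (by omega) 0
    exact h.bet_of_left_zero (coh_neg (by omega) (by omega) (by omega))
      (coh_neg (by omega) (by omega) (by omega)) (ih (by omega) (by omega))

lemma coh_pos {r : ℕ} (hr : r ≤ 4) : ∀ {k : ℤ} (_ : (r : ℤ) < k) (j : ℕ),
    (MS r k).Bet (j + 1) 0 := by
  induction r with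
  | zero => exact fun hk j => bet_zero_pos (by simpa using hk) j
  | succ r ih =>
    intro k hk j
    obtain ⟨f, g, h⟩ := coh_ses (r := r) (by omega) k
    exact h.right_zero (ih (by omega) (by omega) j) (ih (by omega) (by omega) (j + 1))

lemma coh_diag {r : ℕ} (hr : r ≤ 4) : ∀ {k : ℤ} (_ : k = r) (j : ℕ),
    (MS r k).Bet (j + 1) (hZ (j + 1 + r)) := by
  induction r with
  | zero =>
    rintro _ rfl j
    exact bet_zero_zero (j + 1)
  | succ r ih =>
    intro k hk j
    obtain ⟨f, g, h⟩ := coh_ses (r := r) (by omega) k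
    rw [show j + 1 + (r + 1) = j + 1 + 1 + r by omega]
    exact h.bet_of_mid_zero (coh_pos (by omega) (by omega) j)
      (coh_pos (by omega) (by omega) (j + 1)) (ih (by omega) (by omega) (j + 1))

lemma coh_finite {r : ℕ} (hr : r ≤ 4) : ∀ (k : ℤ) {j : ℕ} (_ : j + r < 6),
    Module.Finite ℂ ((MS r k).H j) := by
  induction r with
  | zero =>
    intro k j hj
    rcases lt_trichotomy k 0 with hk | rfl | hk
    · exact (bet_zero_neg hk hj).1
    · exact (bet_zero_zero j).1
    · cases j with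
      | zero => exact finite_zero_pos hk
      | succ j => exact (bet_zero_pos hk j).1
  | succ r ih =>
    intro k j hj
    obtain ⟨f, g, h⟩ := coh_ses (r := r) (by omega) k
    exact h.finite_right (ih (by omega) k (by omega)) (ih (by omega) _ (by omega))

lemma coh_lower {r : ℕ} (hr : r ≤ 4) : 8 ≤ Module.finrank ℂ ((MS r 1).H 0) + r := by
  induction r with
  | zero => exact le_finrank_zero_one
  | succ r ih =>
    obtain ⟨f, g, h⟩ := coh_ses (r := r) (by omega) 1
    have h1 := h.finrank_mid_le (k := 0) (coh_finite (by omega) _ (by omega))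
      (coh_finite hr _ (by omega))
    have h2 : Module.finrank ℂ ((MS r (1 - 1)).H 0) = 1 :=
      (coh_zero (r := r) (j := 0) (by omega) (by omega)).2
    have h3 := ih (by omega)
    omega

theorem bet_O_zero : (MS 3 0).Bet 0 1 := coh_zero (r := 3) (j := 0) (by omega) (by omega)

theorem bet_O_one : (MS 3 0).Bet 1 4 := coh_zero (r := 3) (j := 1) (by omega) (by omega)

theorem bet_K_zero : ∃ p, 5 ≤ p ∧ (MS 3 3).Bet 0 p := by
  refine ⟨_, ?_, coh_finite (by omega) 3 (by omega), rfl⟩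
  obtain ⟨f, g, h⟩ := coh_ses (r := 3) (by omega) 3
  obtain ⟨f', g', h'⟩ := coh_ses (r := 3) (by omega) 2
  have h1 : Module.finrank ℂ ((MS 3 2).H 0) ≤ Module.finrank ℂ ((MS 3 3).H 0) :=
    h.finrank_left_le (coh_finite (by omega) _ (by omega))
  have h2 : Module.finrank ℂ ((MS 3 1).H 0) ≤ Module.finrank ℂ ((MS 3 2).H 0) :=
    h'.finrank_left_le (coh_finite (by omega) _ (by omega))
  have h3 := coh_lower (r := 3) (by omega)
  omega

theorem bet_K_succ (j : ℕ) : (MS 3 3).Bet (j + 1) (hZ (j + 4)) :=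
  coh_diag (r := 3) (by omega) rfl j

end Pool.Agent.Lib.MP_d80bfc_ag
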