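import Pool.Agent.Lib.MP_d80bfc_ag.Forms0

/-!
# Definitions for MP_d80bfc_ag

Complex varieties are schemes over `Spec ℂ`.  Cohomology of `O_X` and of `Ω^p_X` is Čech
cohomology (Mathlib's `cechComplexFunctor`) of a finite affine open cover.
-/

open CategoryTheory AlgebraicGeometry Opposite

noncomputable section

namespace Pool.Agent.Lib.MP_d80bfc_ag

section forms

variable (R S T : Type) [CommRing R] [CommRing S] [CommRing T]
  [Algebra ℂ R] [Algebra ℂ S] [Algebra ℂ T]

/-- The module `Ω_{R/ℂ}` of Kähler differentials. -/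
def Om : Type := Ω[R⁄ℂ]

instance instAddCommGroupOm : AddCommGroup (Om R) := (inferInstance : AddCommGroup Ω[R⁄ℂ])

instance instModuleOm : Module R (Om R) := (inferInstance : Module R Ω[R⁄ℂ])

/-- The module `⋀^p Ω_{R/ℂ}` of `p`-forms. -/
def Form (p : ℕ) : Type := ⋀[R]^p (Om R)

instance instAddCommGroupForm (p : ℕ) : AddCommGroup (Form R p) :=
  (inferInstance : AddCommGroup (⋀[R]^p (Om R)))

instance instModuleForm (p : ℕ) : Module R (Form R p) :=
  (inferInstance : Module R (⋀[R]^p (Om R)))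

instance instModuleComplexForm (p : ℕ) : Module ℂ (Form R p) :=
  Module.compHom (Form R p) (algebraMap ℂ R)

variable {R S T}

/-- The differential `dr`. -/
def dOm (r : R) : Om R := KaehlerDifferential.D ℂ R r

/-- The `p`-form `dh₁ ∧ ⋯ ∧ dh_p`. -/
def dWedge {p : ℕ} (h : Fin p → R) : Form R p := exteriorPower.ιMulti R p fun i => dOm (h i)

theorem existsUnique_formPull (p : ℕ) (φ : R →ₐ[ℂ] S) :
    ∃! f : Form R p →ₗ[ℂ] Form S p,
      ∀ (r : R) (h : Fin p → R), f (r • dWedge h) = φ r • dWedge fun i => φ (h i) := by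
  refine ⟨{ toFun := formMap p φ, map_add' := map_add _, map_smul' := fun c x => ?_ },
    fun r h => ?_, fun f hf => ?_⟩
  · exact formMap_algebraMap_smul p φ c x
  · exact formMap_smul_wedge p φ r h
  · ext x
    exact eq_formMap p φ f.toAddMonoidHom hf x

/-- Pull-back of `p`-forms along a `ℂ`-algebra map `φ`: the `ℂ`-linear map with
`r dh₁ ∧ ⋯ ∧ dh_p ↦ φ(r) dφ(h₁) ∧ ⋯ ∧ dφ(h_p)`. -/
def formPull (p : ℕ) (φ : R →ₐ[ℂ] S) : Form R p →ₗ[ℂ] Form S p :=
  (existsUnique_formPull p φ).choose

theorem formPull_spec (p : ℕ) (φ : R →ₐ[ℂ] S) (r : R) (h : Fin p → R) :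
    formPull p φ (r • dWedge h) = φ r • dWedge fun i => φ (h i) :=
  (existsUnique_formPull p φ).choose_spec.1 r h

theorem formPull_id (p : ℕ) : formPull p (AlgHom.id ℂ R) = LinearMap.id :=
  (existsUnique_formPull p _).unique (formPull_spec p _) fun _ _ => rfl

theorem formPull_comp (p : ℕ) (φ : R →ₐ[ℂ] S) (ψ : S →ₐ[ℂ] T) :
    formPull p (ψ.comp φ) = (formPull p ψ).comp (formPull p φ) :=
  (existsUnique_formPull p _).unique (formPull_spec p _) fun r h => by
    rw [LinearMap.comp_apply, formPull_spec, formPull_spec]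
    rfl

end forms

/-- The ring `Γ(U, O_X)` of regular functions on the open set `U` of `X`. -/
def Fn (X : Over (Spec (CommRingCat.of ℂ))) (U : X.left.Opens) : Type := Γ(X.left, U)

instance instCommRingFn (X : Over (Spec (CommRingCat.of ℂ))) (U : X.left.Opens) :
    CommRing (Fn X U) :=
  CommRingCat.commRing Γ(X.left, U)

/-- `Γ(U, O_X)` is a `ℂ`-algebra through the structure morphism `X ⟶ Spec ℂ`. -/
instance instAlgebraFn (X : Over (Spec (CommRingCat.of ℂ))) (U : X.left.Opens) :
    Algebra ℂ (Fn X U) :=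
  RingHom.toAlgebra
    ((Scheme.ΓSpecIso (CommRingCat.of ℂ)).inv ≫ X.hom.appLE ⊤ U le_top).hom

/-- Restriction of regular functions to a smaller open set. -/
def Fn.res (X : Over (Spec (CommRingCat.of ℂ))) {U V : X.left.Opens} (h : V ≤ U) :
    Fn X U →ₐ[ℂ] Fn X V :=
  { (X.left.presheaf.map (homOfLE h).op).hom with
    commutes' := fun c => by
      change (X.hom.appLE ⊤ U le_top ≫ X.left.presheaf.map (homOfLE h).op)
        ((Scheme.ΓSpecIso (CommRingCat.of ℂ)).inv c) = X.hom.appLE ⊤ V le_top _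
      rw [Scheme.Hom.appLE_map]
      rfl }

lemma Fn.res_refl (X : Over (Spec (CommRingCat.of ℂ))) (U : X.left.Opens) :
    Fn.res X (le_refl U) = AlgHom.id ℂ _ := by
  ext x
  change X.left.presheaf.map (𝟙 (op U)) x = x
  rw [X.left.presheaf.map_id]
  rfl

lemma Fn.res_trans (X : Over (Spec (CommRingCat.of ℂ))) {U V W : X.left.Opens} (h : V ≤ U)
    (h' : W ≤ V) : Fn.res X (h'.trans h) = (Fn.res X h').comp (Fn.res X h) := by
  ext x
  change X.left.presheaf.map ((homOfLE h).op ≫ (homOfLE h').op) x = _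
  rw [X.left.presheaf.map_comp]
  rfl

/-- The structure sheaf `O_X`, as a presheaf of `ℂ`-vector spaces. -/
def structurePsh (X : Over (Spec (CommRingCat.of ℂ))) : (X.left.Opens)ᵒᵖ ⥤ ModuleCat.{0} ℂ where
  obj U := ModuleCat.of ℂ (Fn X U.unop)
  map i := ModuleCat.ofHom (Fn.res X i.unop.le).toLinearMap
  map_id U := by
    ext x
    exact DFunLike.congr_fun (Fn.res_refl X U.unop) x
  map_comp i j := by
    ext x
    exact DFunLike.congr_fun (Fn.res_trans X i.unop.le j.unop.le) x

/-- The presheaf `U ↦ ⋀^p Ω_{Γ(U)/ℂ}` of `ℂ`-vector spaces.  On affine open sets `U` its values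
are the sections `Γ(U, Ω^p_X)` of the sheaf of regular `p`-forms; only these values are used. -/
def formPsh (X : Over (Spec (CommRingCat.of ℂ))) (p : ℕ) :
    (X.left.Opens)ᵒᵖ ⥤ ModuleCat.{0} ℂ where
  obj U := ModuleCat.of ℂ (Form (Fn X U.unop) p)
  map i := ModuleCat.ofHom (formPull p (Fn.res X i.unop.le))
  map_id U := by
    change ModuleCat.ofHom (formPull p (Fn.res X (le_refl _))) = _
    rw [Fn.res_refl, formPull_id]
    rfl
  map_comp i j := by
    change ModuleCat.ofHom (formPull p (Fn.res X (j.unop.le.trans i.unop.le))) = _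
    rw [Fn.res_trans X i.unop.le j.unop.le, formPull_comp]
    rfl

/-- The `i`-th Čech cohomology space of the presheaf `P` for the family of open sets `U`. -/
def cechH {X : Over (Spec (CommRingCat.of ℂ))} {ι : Type} (U : ι → X.left.Opens)
    (P : (X.left.Opens)ᵒᵖ ⥤ ModuleCat.{0} ℂ) (i : ℕ) : ModuleCat.{0} ℂ :=
  ((cechComplexFunctor U).obj P).homology i

/-- `U` is a finite cover of `X` by affine open sets. -/
def IsFiniteAffineCover {X : Over (Spec (CommRingCat.of ℂ))} {ι : Type}
    (U : ι → X.left.Opens) : Prop :=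
  Finite ι ∧ (∀ j, IsAffineOpen (U j)) ∧ iSup U = ⊤

attribute [local instance] MvPolynomial.gradedAlgebra

/-- Projective space `Proj ℂ[x_j : j ∈ σ]` over `ℂ`. -/
def projSpace (σ : Type) : Over (Spec (CommRingCat.of ℂ)) :=
  Over.mk (Proj.toSpecZero (MvPolynomial.homogeneousSubmodule σ ℂ) ≫
    Spec.map (CommRingCat.ofHom (algebraMap ℂ (MvPolynomial.homogeneousSubmodule σ ℂ 0))))

/-- `X` is a smooth complex projective variety of dimension `n`. -/
def IsSmoothProjective (X : Over (Spec (CommRingCat.of ℂ))) (n : ℕ) : Prop :=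
  IsIntegral X.left ∧ SmoothOfRelativeDimension n X.hom ∧
    ∃ (σ : Type) (_ : Finite σ) (i : X ⟶ projSpace σ), IsClosedImmersion i.left

/-- `A` is an abelian variety: a proper integral scheme over `ℂ` carrying a group scheme
structure. -/
def IsAbelianVariety (A : Over (Spec (CommRingCat.of ℂ))) : Prop :=
  IsIntegral A.left ∧ IsProper A.hom ∧ Nonempty (GrpObj A)

/-- `a : X ⟶ A` is an Albanese morphism: the universal morphism from `X` to an abelian variety. -/
def IsAlbanese {X A : Over (Spec (CommRingCat.of ℂ))} (a : X ⟶ A) : Prop :=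
  IsAbelianVariety A ∧
    ∀ (B : Over (Spec (CommRingCat.of ℂ))) (f : X ⟶ B), IsAbelianVariety B →
      ∃! g : A ⟶ B, a ≫ g = f

/-- `f` is birational onto its image: it maps some non-empty open subset of `X` isomorphically
onto a locally closed subscheme of the target. -/
def IsBirationalOntoImage {X A : Over (Spec (CommRingCat.of ℂ))} (f : X ⟶ A) : Prop :=
  ∃ U : X.left.Opens, (U : Set X.left).Nonempty ∧ IsImmersion (U.ι ≫ f.left)

end Pool.Agent.Lib.MP_d80bfc_ag
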