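import Mathlib

/-!
# TASK DER: derivations of `ℂ` dual to a finite family; non-zero-divisors from derivations
-/

namespace Pool.Agent.Lib.MP_d80bfc_ag

open scoped IntermediateField.algebraAdjoinAdjoin in
theorem der_dual {ι : Type} [DecidableEq ι] {v : ι → ℂ} (hv : IsTranscendenceBasis ℚ v) (a : ι) :
    ∃ D : Derivation ℚ ℂ ℂ, ∀ a', D (v a') = if a' = a then 1 else 0 := by
  have h1 : Algebra.FormallyEtale (Algebra.adjoin ℚ (Set.range v))
      (IntermediateField.adjoin ℚ (Set.range v)) := .of_isLocalization (nonZeroDivisors _)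
  have h2 := hv.isAlgebraic_field
  have h3 : Algebra.FormallyEtale (IntermediateField.adjoin ℚ (Set.range v)) ℂ :=
    Algebra.FormallyEtale.of_isSeparable _ _
  have h4 : Algebra.FormallyEtale (Algebra.adjoin ℚ (Set.range v)) ℂ :=
    .comp _ (IntermediateField.adjoin ℚ (Set.range v)) _
  let _ : Algebra (MvPolynomial ι ℚ) (Algebra.adjoin ℚ (Set.range v)) :=
    (hv.1.aevalEquiv : MvPolynomial ι ℚ →+* _).toAlgebra
  let _ : Algebra (MvPolynomial ι ℚ) ℂ := 
    (MvPolynomial.aeval (R := ℚ) v).toRingHom.toAlgebra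
  have h5 : IsScalarTower (MvPolynomial ι ℚ) (Algebra.adjoin ℚ (Set.range v)) ℂ :=
    IsScalarTower.of_algebraMap_eq fun p => (hv.1.algebraMap_aevalEquiv p).symm
  have h6 : Algebra.FormallyEtale (MvPolynomial ι ℚ) (Algebra.adjoin ℚ (Set.range v)) :=
    .of_equiv (A := MvPolynomial ι ℚ) { hv.1.aevalEquiv with commutes' := fun _ => rfl }
  have h7 : Algebra.FormallyEtale (MvPolynomial ι ℚ) ℂ :=
    .comp _ (Algebra.adjoin ℚ (Set.range v)) _
  have h8 : IsScalarTower ℚ (MvPolynomial ι ℚ) ℂ :=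
    IsScalarTower.of_algebraMap_eq fun q => ((MvPolynomial.aeval v).commutes q).symm
  refine ⟨(((KaehlerDifferential.mvPolynomialBasis ℚ ι).baseChange ℂ).coord a ∘ₗ
    (KaehlerDifferential.tensorKaehlerEquivOfFormallyEtale ℚ (MvPolynomial ι ℚ)
      ℂ).symm.toLinearMap).compDer (KaehlerDifferential.D ℚ ℂ), fun a' => ?_⟩
  have h9 : v a' = algebraMap (MvPolynomial ι ℚ) ℂ (MvPolynomial.X a') :=
    (MvPolynomial.aeval_X v a').symm
  rw [h9]
  change ((KaehlerDifferential.mvPolynomialBasis ℚ ι).baseChange ℂ).coord a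
    ((KaehlerDifferential.tensorKaehlerEquivOfFormallyEtale ℚ (MvPolynomial ι ℚ) ℂ).symm
      (KaehlerDifferential.D ℚ ℂ _)) = _
  rw [KaehlerDifferential.tensorKaehlerEquivOfFormallyEtale_symm_D_algebraMap,
    ← KaehlerDifferential.mvPolynomialBasis_apply, ← Module.Basis.baseChange_apply,
    Module.Basis.coord_apply, Module.Basis.repr_self, Finsupp.single_apply]

/-- A finite family of complex numbers with dual derivations of the field `ℂ`. -/
theorem exists_generic (α : Type) [Finite α] [DecidableEq α] :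
    ∃ c : α → ℂ, ∀ a, ∃ D : Derivation ℤ ℂ ℂ, ∀ a', D (c a') = if a' = a then 1 else 0 := by
  classical
  obtain ⟨s, hs⟩ := exists_isTranscendenceBasis ℚ ℂ
  have h1 : Infinite s := by
    by_contra h
    have h2 := IsAlgClosed.cardinal_le_max_transcendence_basis' _ hs
    have h3 : Finite s := not_infinite_iff_finite.1 h
    rw [Cardinal.mk_complex] at h2
    exact absurd (h2.trans (max_le (max_le Cardinal.mk_le_aleph0 Cardinal.mk_le_aleph0) le_rfl))
      Cardinal.aleph0_lt_continuum.not_ge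
  obtain ⟨n, ⟨e⟩⟩ := Finite.exists_equiv_fin α
  let j : α ↪ s := e.toEmbedding.trans (Fin.valEmbedding.trans (Infinite.natEmbedding s))
  refine ⟨fun a => j a, fun a => ?_⟩
  obtain ⟨D, hD⟩ := der_dual hs (j a)
  exact ⟨D.restrictScalars ℤ, fun a' => by
    rw [Derivation.restrictScalars_apply, hD (j a')]
    simp only [j.apply_eq_iff_eq]⟩

/-- If a derivation preserving the ideal `J` sends `s` to `1` modulo `J`, then `s` is a
non-zero-divisor modulo `J`. -/
theorem mem_of_mul_mem_of_derivation {A : Type} [CommRing A] [Algebra ℂ A] [IsNoetherianRing A]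
    (J : Ideal A) (δ : A →+ A) (hδ : ∀ x y, δ (x * y) = x * δ y + y * δ x)
    (hJ : ∀ x ∈ J, δ x ∈ J) (s : A) (hs : δ s - 1 ∈ J) (x : A) (hx : s * x ∈ J) : x ∈ J := by
  have hp : ∀ m : ℕ, δ (s ^ (m + 1)) = (m + 1 : ℕ) * s ^ m * δ s := fun m => by
    induction m with
    | zero => simp
    | succ m ih =>
      rw [pow_succ, hδ, ih]
      push_cast
      ring
  have key : ∀ (m : ℕ) (y : A), s ^ (m + 1) * y ∈ J →
      s ^ (m + 1) * δ y + (m + 1 : ℕ) * (s ^ m * y) ∈ J := fun m y hy => by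
    have h1 := hJ _ hy
    rw [hδ, hp] at h1
    convert J.sub_mem h1 (J.mul_mem_left ((m + 1 : ℕ) * (s ^ m * y)) hs) using 1
    ring
  let N : ℕ →o Ideal A := ⟨fun m => Submodule.comap (LinearMap.mulLeft A (s ^ m)) J,
    monotone_nat_of_le_succ fun m y hy => by
      have h1 : s * (s ^ m * y) ∈ J := J.mul_mem_left s hy
      rwa [← mul_assoc, ← pow_succ'] at h1⟩
  have hN : ∀ m y, y ∈ N m ↔ s ^ m * y ∈ J := fun _ _ => Iff.rfl
  have step : ∀ m, N (m + 1) ≤ N m → N 1 ≤ N 0 := fun m => by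
    induction m with
    | zero => exact id
    | succ m ih =>
      refine fun h => ih fun y hy => ?_
      have h1 := key m y hy
      have h2 : δ y ∈ N (m + 1) := h (by
        rw [hN]
        convert J.sub_mem (J.mul_mem_left s h1) (J.mul_mem_left (m + 1 : ℕ) hy) using 1
        rw [LinearMap.mulLeft_apply]
        ring)
      have h3 := J.mul_mem_left (algebraMap ℂ A ((m + 1 : ℕ) : ℂ)⁻¹)
        ((J.add_mem_iff_right h2).1 h1)
      rwa [← mul_assoc, ← map_natCast (algebraMap ℂ A), ← map_mul,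
        inv_mul_cancel₀ (Nat.cast_ne_zero.2 m.succ_ne_zero), map_one, one_mul] at h3
  obtain ⟨n, hn⟩ := monotone_stabilizes_iff_noetherian.2 (inferInstanceAs (IsNoetherian A A)) N
  simpa [hN] using step n (hn _ n.le_succ).ge (show x ∈ N 1 by rwa [hN, pow_one])

end Pool.Agent.Lib.MP_d80bfc_ag
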