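import Mathlib

/-!
# TASK JAC: Jacobian criterion and top exterior power of a cokernel
-/

noncomputable section

namespace Pool.Agent.Lib.MP_d80bfc_ag

/-- the determinant of the square matrix with rows `ρ j` and `a i` -/
def jdet {R W J : Type} [CommRing R] [Fintype W] [DecidableEq W] {n : ℕ} (ε : W ≃ J ⊕ Fin n)
    (ρ : J → W → R) (a : Fin n → W → R) : R :=
  Matrix.det (Matrix.of fun i w => Sum.elim ρ a (ε i) w)

lemma map_jdet {R R' W J : Type} [CommRing R] [CommRing R'] [Fintype W] [DecidableEq W] {n : ℕ}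
    (ε : W ≃ J ⊕ Fin n) (ρ : J → W → R) (a : Fin n → W → R) (φ : R →+* R') :
    φ (jdet ε ρ a) = jdet ε (fun j w => φ (ρ j w)) (fun i w => φ (a i w)) := by
  unfold jdet
  rw [RingHom.map_det]
  congr 1
  ext i w
  simp only [RingHom.mapMatrix_apply, Matrix.map_apply, Matrix.of_apply]
  cases ε i <;> rfl

/-- a proper ideal of a finite type complex algebra is killed by a complex point -/
lemma jac_exists_point {R : Type} [CommRing R] [Algebra ℂ R] [Algebra.FiniteType ℂ R]
    (I : Ideal R) (hI : I ≠ ⊤) : ∃ p : R →ₐ[ℂ] ℂ, ∀ x ∈ I, p x = 0 := by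
  obtain ⟨m, hm, hIm⟩ := Ideal.exists_le_maximal I hI
  let _ := Ideal.Quotient.field m
  have hfin : Module.Finite ℂ (R ⧸ m) := finite_of_finite_type_of_isJacobsonRing ℂ (R ⧸ m)
  have hb : Function.Bijective (algebraMap ℂ (R ⧸ m)) :=
    IsAlgClosed.algebraMap_bijective_of_isIntegral
  let e : ℂ ≃ₐ[ℂ] (R ⧸ m) := AlgEquiv.ofBijective (Algebra.ofId ℂ (R ⧸ m)) hb
  refine ⟨(e.symm : (R ⧸ m) →ₐ[ℂ] ℂ).comp (Ideal.Quotient.mkₐ ℂ m), fun x hx => ?_⟩
  have h0 : Ideal.Quotient.mk m x = 0 := Ideal.Quotient.eq_zero_iff_mem.mpr (hIm hx)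
  simp [h0]

/-- independent rows over a field can be completed to an invertible matrix -/
lemma jac_exists_complete {K W J : Type} [Field K] [Fintype W] [DecidableEq W] {n : ℕ}
    (ε : W ≃ J ⊕ Fin n) (r : J → W → K) (h : LinearIndependent K r) :
    ∃ b : Fin n → W → K, jdet ε r b ≠ 0 := by
  have : Finite (J ⊕ Fin n) := Finite.of_equiv W ε
  have : Finite J := Finite.of_injective (Sum.inl : J → J ⊕ Fin n) Sum.inl_injective
  let _ : Fintype J := Fintype.ofFinite J
  have hcard : Fintype.card W = Fintype.card J + n := by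
    rw [Fintype.card_congr ε, Fintype.card_sum, Fintype.card_fin]
  have hq : Module.finrank K ((W → K) ⧸ Submodule.span K (Set.range r)) = n := by
    have h1 := Submodule.finrank_quotient_add_finrank (Submodule.span K (Set.range r))
    rw [finrank_span_eq_card h, Module.finrank_fintype_fun_eq_card] at h1
    omega
  let B := Module.Basis.sumQuot (Module.Basis.span h) (Module.finBasisOfFinrankEq K _ hq)
  refine ⟨fun i => B (Sum.inr i), ?_⟩
  have hB : Sum.elim r (fun i => B (Sum.inr i)) = B := by
    funext s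
    cases s with
    | inl j => simp [B]
    | inr i => rfl
  unfold jdet
  rw [hB]
  have hli : LinearIndependent K (Matrix.of fun i w => B (ε i) w).row :=
    B.linearIndependent.comp ε ε.injective
  have hu := Matrix.linearIndependent_rows_iff_isUnit.mp hli
  exact ((Matrix.isUnit_iff_isUnit_det _).mp hu).ne_zero

/-- full rank at all `ℂ`-points gives the unit ideal -/
theorem span_jdet_eq_top {R W J : Type} [CommRing R] [Algebra ℂ R] [Algebra.FiniteType ℂ R]
    [Fintype W] [DecidableEq W] {n : ℕ} (ε : W ≃ J ⊕ Fin n) (ρ : J → W → R)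
    (h : ∀ p : R →ₐ[ℂ] ℂ, LinearIndependent ℂ fun j w => p (ρ j w)) :
    Ideal.span (Set.range fun a : Fin n → W → R => jdet ε ρ a) = ⊤ := by
  by_contra hne
  obtain ⟨p, hp⟩ := jac_exists_point _ hne
  obtain ⟨b, hb⟩ := jac_exists_complete ε _ (h p)
  apply hb
  have h1 := hp _ (Ideal.subset_span ⟨fun i w => algebraMap ℂ R (b i w), rfl⟩)
  have h2 := map_jdet ε ρ (fun i w => algebraMap ℂ R (b i w)) (p : R →+* ℂ)
  simp only [RingHom.coe_coe, AlgHom.commutes, Algebra.algebraMap_self, RingHom.id_apply] at h2
  rw [← h2]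
  exact h1

lemma jac_update {R W J : Type} [DecidableEq W] {n : ℕ} [DecidableEq (Fin n)]
    (ε : W ≃ J ⊕ Fin n) (ρ : J → W → R) (a : Fin n → W → R) (k : Fin n) (x : W → R) :
    (Matrix.of fun i w => Sum.elim ρ (Function.update a k x) (ε i) w) =
      (Matrix.of fun i w => Sum.elim ρ a (ε i) w).updateRow (ε.symm (Sum.inr k)) x := by
  ext i w
  rw [Matrix.updateRow_apply]
  by_cases hi : i = ε.symm (Sum.inr k)
  · subst hi
    simp
  · rw [if_neg hi]
    simp only [Matrix.of_apply]
    have hi' : ε i ≠ Sum.inr k := fun h => hi (by rw [← h]; simp)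
    rcases hs : ε i with j | l
    · rfl
    · have : l ≠ k := fun h => hi' (by rw [hs, h])
      simp [Function.update_of_ne this]

/-- `jdet` as an alternating map in the free rows -/
def jacAlt {R W J : Type} [CommRing R] [Fintype W] [DecidableEq W] {n : ℕ}
    (ε : W ≃ J ⊕ Fin n) (ρ : J → W → R) : (W → R) [⋀^Fin n]→ₗ[R] R where
  toFun a := jdet ε ρ a
  map_update_add' a k x y := by
    unfold jdet
    rw [jac_update, jac_update, jac_update, Matrix.det_updateRow_add]
  map_update_smul' a k c x := by
    unfold jdet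
    rw [jac_update, jac_update, Matrix.det_updateRow_smul, smul_eq_mul]
  map_eq_zero_of_eq' a k l hkl hne := by
    unfold jdet
    refine Matrix.det_zero_of_row_eq (i := ε.symm (Sum.inr k)) (j := ε.symm (Sum.inr l)) ?_ ?_
    · intro h
      exact hne (Sum.inr_injective (ε.symm.injective h))
    · funext w
      simp [hkl]

lemma jac_alt_apply {R W J : Type} [CommRing R] [Fintype W] [DecidableEq W] {n : ℕ}
    (ε : W ≃ J ⊕ Fin n) (ρ : J → W → R) (a : Fin n → W → R) : jacAlt ε ρ a = jdet ε ρ a := rfl

lemma jac_zero_of_mem {R W J : Type} [CommRing R] [Fintype W] [DecidableEq W] {n : ℕ}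
    (ε : W ≃ J ⊕ Fin n) (ρ : J → W → R) (a : Fin n → W → R) (k : Fin n)
    (hk : a k ∈ Submodule.span R (Set.range ρ)) : jacAlt ε ρ a = 0 := by
  have h : Submodule.span R (Set.range ρ) ≤
      LinearMap.ker ((jacAlt ε ρ).toMultilinearMap.toLinearMap a k) := by
    rw [Submodule.span_le]
    rintro _ ⟨j, rfl⟩
    change jdet ε ρ (Function.update a k (ρ j)) = 0
    unfold jdet
    refine Matrix.det_zero_of_row_eq (i := ε.symm (Sum.inr k)) (j := ε.symm (Sum.inl j)) ?_ ?_
    · intro h
      exact Sum.inr_ne_inl (ε.symm.injective h)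
    · funext w
      simp
  have h2 := h hk
  rw [LinearMap.mem_ker, MultilinearMap.toLinearMap_apply, Function.update_eq_self] at h2
  exact h2

lemma jac_congr {R W J : Type} [CommRing R] [Fintype W] [DecidableEq W] {n : ℕ}
    (ε : W ≃ J ⊕ Fin n) (ρ : J → W → R) (a a' : Fin n → W → R)
    (h : ∀ i, a i - a' i ∈ Submodule.span R (Set.range ρ)) : jacAlt ε ρ a = jacAlt ε ρ a' := by
  have h1 : a = (a - a') + a' := by simp
  rw [h1, AlternatingMap.map_add_univ, Finset.sum_eq_single ∅]
  · simp
  · intro s _ hs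
    obtain ⟨k, hk⟩ := Finset.nonempty_iff_ne_empty.mpr hs
    refine jac_zero_of_mem ε ρ _ k ?_
    rw [Finset.piecewise_eq_of_mem _ _ _ hk]
    exact h k
  · intro h
    exact absurd (Finset.mem_univ _) h

/-- an alternating map on vectors of the span of `e` takes values in the line through `f e` -/
lemma jac_mem_span {R M P : Type} [CommRing R] [AddCommGroup M] [Module R M] [AddCommGroup P]
    [Module R P] {n : ℕ} (f : M [⋀^Fin n]→ₗ[R] P) (e x : Fin n → M)
    (hx : ∀ i, x i ∈ Submodule.span R (Set.range e)) : f x ∈ Submodule.span R {f e} := by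
  have hc : ∀ i, ∃ c : Fin n → R, ∑ k, c k • e k = x i := fun i =>
    (Submodule.mem_span_range_iff_exists_fun R).mp (hx i)
  choose c hc using hc
  have h1 : x = fun i => ∑ k, c i k • e k := funext fun i => (hc i).symm
  have h2 : f (fun i => ∑ k, c i k • e k) = ∑ r : Fin n → Fin n, f fun i => c i (r i) • e (r i) :=
    f.toMultilinearMap.map_sum (fun i k => c i k • e k)
  rw [h1, h2]
  refine Submodule.sum_mem _ fun r _ => ?_
  rw [AlternatingMap.map_smul_univ]
  refine Submodule.smul_mem _ _ ?_
  by_cases hr : Function.Injective r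
  · have h3 := f.map_perm e (Equiv.ofBijective r (Finite.injective_iff_bijective.mp hr))
    have h4 : (fun i => e (r i)) =
        e ∘ (Equiv.ofBijective r (Finite.injective_iff_bijective.mp hr)) := rfl
    rw [h4, h3, Units.smul_def]
    exact Submodule.smul_of_tower_mem _ _ (Submodule.mem_span_singleton_self _)
  · rw [f.map_eq_zero_of_not_injective (fun i => e (r i))
      fun h => hr (Function.Injective.of_comp (f := e) h)]
    exact Submodule.zero_mem _

/-- Cramer's rule -/
lemma jac_cramer {R W J N : Type} [CommRing R] [Fintype W] [DecidableEq W] {n : ℕ}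
    (ε : W ≃ J ⊕ Fin n) [AddCommGroup N] [Module R N] (π : (W → R) →ₗ[R] N)
    (ρ : J → W → R) (hρ : ∀ j, π (ρ j) = 0) (a : Fin n → W → R) (x : W → R) :
    jdet ε ρ a • π x ∈ Submodule.span R (Set.range fun i => π (a i)) := by
  set A : Matrix W W R := Matrix.of fun i w => Sum.elim ρ a (ε i) w with hA
  have h1 : jdet ε ρ a • x = ∑ i, (Matrix.vecMul x A.adjugate) i • A i := by
    rw [← Matrix.vecMul_eq_sum, Matrix.vecMul_vecMul, Matrix.adjugate_mul, Matrix.vecMul_smul,
      Matrix.vecMul_one]
    rfl
  rw [← map_smul, h1, map_sum]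
  refine Submodule.sum_mem _ fun i _ => ?_
  rw [map_smul]
  refine Submodule.smul_mem _ _ ?_
  have h2 : A i = Sum.elim ρ a (ε i) := rfl
  rw [h2]
  rcases ε i with j | l
  · rw [Sum.elim_inl, hρ]
    exact Submodule.zero_mem _
  · exact Submodule.subset_span ⟨l, rfl⟩

/-- the top exterior power of the cokernel of a unimodular family of rows is free of rank one -/
theorem exists_topForm_equiv {R W J N : Type} [CommRing R] [Fintype W] [DecidableEq W] {n : ℕ}
    (ε : W ≃ J ⊕ Fin n) [AddCommGroup N] [Module R N] (π : (W → R) →ₗ[R] N)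
    (hπ : Function.Surjective π) (ρ : J → W → R)
    (hker : LinearMap.ker π = Submodule.span R (Set.range ρ))
    (hunit : Ideal.span (Set.range fun a : Fin n → W → R => jdet ε ρ a) = ⊤) :
    ∃ Φ : ⋀[R]^n N ≃ₗ[R] R, ∀ a : Fin n → W → R,
      Φ (exteriorPower.ιMulti R n fun i => π (a i)) = jdet ε ρ a := by
  obtain ⟨s, hs⟩ := hπ.hasRightInverse
  have hs' : ∀ y, π (s y) = y := hs
  have key : ∀ a a' : Fin n → W → R, (∀ i, π (a i) = π (a' i)) →
      jacAlt ε ρ a = jacAlt ε ρ a' := by
    intro a a' h
    refine jac_congr ε ρ a a' fun i => ?_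
    rw [← hker, LinearMap.mem_ker, map_sub, h i, sub_self]
  have hρ : ∀ j, π (ρ j) = 0 := fun j => by
    rw [← LinearMap.mem_ker, hker]
    exact Submodule.subset_span ⟨j, rfl⟩
  have hupd : ∀ [DecidableEq (Fin n)] (x : Fin n → N) (k : Fin n) (u : N) (z : W → R), π z = u →
      jacAlt ε ρ (fun i => s (Function.update x k u i)) =
        jacAlt ε ρ (Function.update (fun i => s (x i)) k z) := by
    intro _ x k u z hz
    refine key _ _ fun i => ?_
    by_cases hi : i = k
    · subst hi
      simp [hs', hz]
    · simp [Function.update_of_ne hi]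
  let G : N [⋀^Fin n]→ₗ[R] R :=
    { toFun := fun x => jacAlt ε ρ fun i => s (x i)
      map_update_add' := by
        intro _ x k u v
        rw [hupd x k (u + v) (s u + s v) (by rw [map_add, hs', hs']), hupd x k u (s u) (hs' u),
          hupd x k v (s v) (hs' v), AlternatingMap.map_update_add]
      map_update_smul' := by
        intro _ x k c u
        rw [hupd x k (c • u) (c • s u) (by rw [map_smul, hs']), hupd x k u (s u) (hs' u),
          AlternatingMap.map_update_smul]
      map_eq_zero_of_eq' := by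
        intro x k l hkl hne
        exact (jacAlt ε ρ).map_eq_zero_of_eq _ (i := k) (j := l) (by simp only [hkl]) hne }
  let Φ : ⋀[R]^n N →ₗ[R] R := exteriorPower.alternatingMapLinearEquiv G
  have hΦ : ∀ a : Fin n → W → R,
      Φ (exteriorPower.ιMulti R n fun i => π (a i)) = jdet ε ρ a := by
    intro a
    rw [exteriorPower.alternatingMapLinearEquiv_apply_ιMulti]
    exact key _ _ fun i => hs' _
  have hsurj : Function.Surjective Φ := by
    rw [← LinearMap.range_eq_top, eq_top_iff, ← hunit]
    refine Submodule.span_le.mpr ?_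
    rintro _ ⟨a, rfl⟩
    exact ⟨_, hΦ a⟩
  have hpow : ∀ (a : Fin n → W → R) (η : ⋀[R]^n N), jdet ε ρ a ^ n • η ∈
      Submodule.span R {exteriorPower.ιMulti R n fun i => π (a i)} := by
    intro a η
    have hη : η ∈ Submodule.span R (Set.range (exteriorPower.ιMulti R n (M := N))) := by
      rw [exteriorPower.ιMulti_span]
      exact Submodule.mem_top
    induction hη using Submodule.span_induction with
    | mem y hy =>
      obtain ⟨x, rfl⟩ := hy
      have h1 := (exteriorPower.ιMulti R n (M := N)).map_smul_univ (fun _ => jdet ε ρ a) x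
      rw [Finset.prod_const, Finset.card_univ, Fintype.card_fin] at h1
      rw [← h1]
      refine jac_mem_span _ _ _ fun i => ?_
      rw [← hs' (x i)]
      exact jac_cramer ε π ρ hρ a _
    | zero => rw [smul_zero]; exact Submodule.zero_mem _
    | add y z _ _ hy hz => rw [smul_add]; exact Submodule.add_mem _ hy hz
    | smul c y _ hy => rw [smul_comm]; exact Submodule.smul_mem _ _ hy
  have hinj : Function.Injective Φ := by
    rw [injective_iff_map_eq_zero]
    intro η hη
    have h1 : Ideal.radical (LinearMap.ker (LinearMap.toSpanSingleton R _ η)) = ⊤ := by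
      rw [eq_top_iff, ← hunit, Ideal.span_le]
      rintro _ ⟨a, rfl⟩
      obtain ⟨c, hc⟩ := Submodule.mem_span_singleton.mp (hpow a η)
      have h2 := congrArg Φ hc
      rw [map_smul, map_smul, hη, smul_zero, hΦ, smul_eq_mul] at h2
      refine ⟨n + 1, ?_⟩
      rw [LinearMap.mem_ker, LinearMap.toSpanSingleton_apply, pow_succ', mul_smul, ← hc, smul_smul,
        mul_comm, h2, zero_smul]
    rw [Ideal.radical_eq_top, Ideal.eq_top_iff_one, LinearMap.mem_ker,
      LinearMap.toSpanSingleton_apply, one_smul] at h1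
    exact h1
  exact ⟨LinearEquiv.ofBijective Φ ⟨hinj, hsurj⟩, hΦ⟩

/-- independent rows over a field have a non-zero maximal minor -/
lemma jac_exists_minor {K W J : Type} [Field K] [Fintype W] [Fintype J] [DecidableEq J]
    (r : J → W → K) (h : LinearIndependent K r) :
    ∃ a : J → W, Function.Injective a ∧ (Matrix.of fun i j => r j (a i)).det ≠ 0 := by
  have h1 : (Matrix.of r).rank = Fintype.card J := LinearIndependent.rank_matrix (M := Matrix.of r) h
  rw [Matrix.rank_eq_finrank_span_cols] at h1
  obtain ⟨κ, b, hb, hsp, hli⟩ := exists_linearIndependent' K (Matrix.of r).col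
  have : Finite κ := Finite.of_injective b hb
  let _ : Fintype κ := Fintype.ofFinite κ
  have h2 : Fintype.card J = Fintype.card κ := by
    rw [← h1, ← hsp, finrank_span_eq_card hli]
  let e : J ≃ κ := Fintype.equivOfCardEq h2
  refine ⟨b ∘ e, hb.comp e.injective, ?_⟩
  have hli2 : LinearIndependent K (Matrix.of fun i j => r j ((b ∘ e) i)).row :=
    hli.comp e e.injective
  have hu := Matrix.linearIndependent_rows_iff_isUnit.mp hli2
  exact ((Matrix.isUnit_iff_isUnit_det _).mp hu).ne_zero

/-- Jacobian criterion -/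
theorem locally_standardSmooth {R W J : Type} [CommRing R] [Algebra ℂ R] [Fintype W] [Fintype J]
    (n : ℕ) (hn : Fintype.card W = Fintype.card J + n) (v : J → MvPolynomial W ℂ)
    (κ : MvPolynomial W ℂ →ₐ[ℂ] R) (hκ : Function.Surjective κ)
    (hker : RingHom.ker κ = Ideal.span (Set.range v))
    (h : ∀ p : R →ₐ[ℂ] ℂ, LinearIndependent ℂ fun j w => p (κ (MvPolynomial.pderiv w (v j)))) :
    RingHom.Locally (RingHom.IsStandardSmoothOfRelativeDimension n) (algebraMap ℂ R) := by
  classical
  have : Algebra.FiniteType ℂ R := Algebra.FiniteType.of_surjective κ hκ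
  refine ⟨{t | ∃ a : J → W, Function.Injective a ∧
    t = κ (Matrix.of fun i j => MvPolynomial.pderiv (a i) (v j)).det}, ?_, ?_⟩
  · by_contra hne
    obtain ⟨p, hp⟩ := jac_exists_point _ hne
    obtain ⟨a, ha, hdet⟩ := jac_exists_minor _ (h p)
    apply hdet
    have h1 := hp _ (Ideal.subset_span ⟨a, ha, rfl⟩)
    have h2 := AlgHom.map_det (p.comp κ) (Matrix.of fun i j => MvPolynomial.pderiv (a i) (v j))
    rw [AlgHom.comp_apply, h1] at h2
    rw [h2]
    rfl
  · rintro t ⟨a, ha, ht⟩
    rw [← IsScalarTower.algebraMap_eq, RingHom.isStandardSmoothOfRelativeDimension_algebraMap]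
    let e : (MvPolynomial W ℂ ⧸ Ideal.span (Set.range v)) ≃ₐ[ℂ] R :=
      (Ideal.quotientEquivAlgOfEq ℂ hker.symm).trans (Ideal.quotientKerAlgEquivOfSurjective hκ)
    have he : ∀ x, e (Ideal.Quotient.mk _ x) = κ x := fun x => rfl
    let P0 := Algebra.PreSubmersivePresentation.naive (R := ℂ) (v := v) a ha
    let P : Algebra.PreSubmersivePresentation ℂ R W J := P0.ofAlgEquiv e
    have hP0 : P0.jacobian =
        Ideal.Quotient.mk _ (Matrix.of fun i j => MvPolynomial.pderiv (a i) (v j)).det := by
      have hm : P0.jacobiMatrix = Matrix.of fun i j => MvPolynomial.pderiv (a i) (v j) := by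
        ext i j : 1
        exact Algebra.PreSubmersivePresentation.jacobiMatrix_naive a ha _ _ i j
      rw [Algebra.PreSubmersivePresentation.jacobian_eq_jacobiMatrix_det, hm,
        Algebra.Generators.algebraMap_apply]
      have h3 : MvPolynomial.aeval P0.val = Ideal.Quotient.mkₐ ℂ (Ideal.span (Set.range v)) := by
        refine MvPolynomial.algHom_ext fun w => ?_
        rw [MvPolynomial.aeval_X]
        rfl
      rw [h3]
      rfl
    have hP : P.jacobian = t := by
      rw [Algebra.PreSubmersivePresentation.jacobian_ofAlgEquiv, hP0, he, ht]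
    let Q := Algebra.PreSubmersivePresentation.localizationAway (Localization.Away t) t
    have hu : IsUnit (algebraMap R (Localization.Away t) t) := IsLocalization.Away.algebraMap_isUnit t
    let T : Algebra.SubmersivePresentation ℂ (Localization.Away t) (Unit ⊕ W) (Unit ⊕ J) :=
      { Q.comp P with
        jacobian_isUnit := by
          rw [Algebra.PreSubmersivePresentation.comp_jacobian_eq_jacobian_smul_jacobian, hP,
            Algebra.PreSubmersivePresentation.localizationAway_jacobian, Algebra.smul_def]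
          exact hu.mul hu }
    refine T.isStandardSmoothOfRelativeDimension ?_
    simp only [Algebra.Presentation.dimension, Nat.card_eq_fintype_card, Fintype.card_sum, hn]
    omega

end Pool.Agent.Lib.MP_d80bfc_ag
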