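import Pool.Agent.Lib.MP_d80bfc_ag.Pts

/-!
# TASK SMI: smooth schemes over `ℂ` are reduced; connected ones are integral
-/

open CategoryTheory AlgebraicGeometry Opposite MonoidalCategory

noncomputable section

namespace Pool.Agent.Lib.MP_d80bfc_ag

section algebra

variable {R : Type} [CommRing R] [Algebra ℂ R]

lemma smi_exists_pow {P : Ideal R} (hP : P ∈ minimalPrimes R) {x : R} (hx : x ∈ P) :
    ∃ n : ℕ, ∃ s ∉ P, s * x ^ n = 0 := by
  haveI : P.IsPrime := hP.1.1
  have h := IsLocalization.AtPrime.radical_map_of_mem_minimalPrimes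
    (A := Localization.AtPrime P) P ⊥ hP
  have h1 : algebraMap R (Localization.AtPrime P) x ∈
      ((⊥ : Ideal R).map (algebraMap R (Localization.AtPrime P))).radical := by
    rw [h]; exact Ideal.mem_map_of_mem _ hx
  obtain ⟨n, hn⟩ := h1
  rw [Ideal.map_bot, Ideal.mem_bot, ← map_pow,
    IsLocalization.map_eq_zero_iff P.primeCompl] at hn
  obtain ⟨s, hs⟩ := hn
  exact ⟨n, s, s.2, hs⟩

lemma smi_derivation_mem {P : Ideal R} (hP : P ∈ minimalPrimes R) (δ : Derivation ℂ R R)
    {x : R} (hx : x ∈ P) : δ x ∈ P := by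
  have hPp : P.IsPrime := hP.1.1
  by_contra hd
  obtain ⟨n, hn⟩ := smi_exists_pow hP hx
  induction n with
  | zero =>
    obtain ⟨s, hs, h⟩ := hn
    exact hs (by rw [pow_zero, mul_one] at h; rw [h]; exact P.zero_mem)
  | succ n ih =>
    apply ih
    obtain ⟨s, hs, h⟩ := hn
    have h1 := congrArg δ h
    rw [Derivation.leibniz, Derivation.leibniz_pow, map_zero] at h1
    simp only [smul_eq_mul, nsmul_eq_mul, Nat.add_sub_cancel] at h1
    have hu : IsUnit ((n + 1 : ℕ) : R) := by
      have : ((n + 1 : ℕ) : R) = algebraMap ℂ R ((n + 1 : ℕ) : ℂ) := (map_natCast _ _).symm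
      rw [this]
      exact (IsUnit.mk0 _ (Nat.cast_ne_zero.2 (Nat.succ_ne_zero n))).map _
    refine ⟨s * s * ((n + 1 : ℕ) : R) * δ x, fun k => ?_, ?_⟩
    · rcases hPp.mem_or_mem k with k | k
      · rcases hPp.mem_or_mem k with k | k
        · exact hs ((hPp.mem_or_mem k).elim id id)
        · exact hPp.ne_top (P.eq_top_of_isUnit_mem k hu)
      · exact hd k
    · linear_combination s * h1 - δ s * h

lemma smi_exists_point [Algebra.FiniteType ℂ R] (m : Ideal R) [m.IsMaximal] :
    ∃ p : R →ₐ[ℂ] ℂ, ∀ x, x ∈ m ↔ p x = 0 := by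
  letI : Field (R ⧸ m) := Ideal.Quotient.field m
  haveI : Module.Finite ℂ (R ⧸ m) := finite_of_finite_type_of_isJacobsonRing ℂ (R ⧸ m)
  have hb : Function.Bijective (algebraMap ℂ (R ⧸ m)) :=
    IsAlgClosed.algebraMap_bijective_of_isIntegral
  let e : ℂ ≃ₐ[ℂ] (R ⧸ m) := AlgEquiv.ofBijective (Algebra.ofId ℂ (R ⧸ m)) hb
  refine ⟨e.symm.toAlgHom.comp (Ideal.Quotient.mkₐ ℂ m), fun x => ?_⟩
  simp [Ideal.Quotient.eq_zero_iff_mem]

lemma smi_exists_euler [Algebra.Smooth ℂ R] (m : Ideal R) [m.IsMaximal] :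
    ∃ E : Derivation ℂ R R, (∀ y ∈ m, y - E y ∈ m ^ 2) ∧
      ∀ (J : Ideal R) (x : R), (∀ δ : Derivation ℂ R R, δ x ∈ J) → E x ∈ m * J := by
  obtain ⟨p, hp⟩ := smi_exists_point m
  have hm : ∀ r : R, r - algebraMap ℂ R (p r) ∈ m := fun r => (hp _).2 (by simp)
  let l : R →ₗ[ℂ] m :=
    { toFun := fun r => ⟨r - algebraMap ℂ R (p r), hm r⟩
      map_add' := fun a b => by ext; simp only [map_add, Submodule.coe_add]; ring
      map_smul' := fun c a => by
        ext
        simp only [map_mul, RingHom.id_apply, Submodule.coe_smul_of_tower,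
          Algebra.smul_def, AlgHom.commutes, Algebra.algebraMap_self, RingHom.id_apply]
        ring }
  let d0 : Derivation ℂ R m.Cotangent := Derivation.mk'
    ((m.toCotangent.restrictScalars ℂ).comp l) (fun a b => by
      simp only [LinearMap.comp_apply, LinearMap.restrictScalars_apply]
      rw [← map_smul m.toCotangent, ← map_smul m.toCotangent, ← map_add m.toCotangent,
        Ideal.toCotangent_eq]
      have : ((l (a * b) : R) - ((a • l b + b • l a : m) : R)) =
          -((a - algebraMap ℂ R (p a)) * (b - algebraMap ℂ R (p b))) := by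
        simp only [l, LinearMap.coe_mk, AddHom.coe_mk, Submodule.coe_add, Submodule.coe_smul,
          smul_eq_mul, map_mul]
        ring
      rw [this, pow_two]
      exact neg_mem (Ideal.mul_mem_mul (hm a) (hm b)))
  let π : (m →₀ R) →ₗ[R] m := Finsupp.linearCombination R id
  have hπ : Function.Surjective π := Finsupp.linearCombination_surjective R Function.surjective_id
  obtain ⟨Φ, hΦ⟩ := Module.projective_lifting_property (m.toCotangent.comp π)
    d0.liftKaehlerDifferential (m.toCotangent_surjective.comp hπ)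
  refine ⟨(m.subtype.comp (π.comp Φ)).compDer (KaehlerDifferential.D ℂ R), fun y hy => ?_,
    fun J x hx => ?_⟩
  · have h1 := LinearMap.congr_fun hΦ (KaehlerDifferential.D ℂ R y)
    rw [Derivation.liftKaehlerDifferential_comp_D] at h1
    have h2 : m.toCotangent (l y) = m.toCotangent (π (Φ (KaehlerDifferential.D ℂ R y))) := h1.symm
    rw [Ideal.toCotangent_eq] at h2
    have h3 : (l y : R) = y := by
      simp only [l, LinearMap.coe_mk, AddHom.coe_mk, (hp y).1 hy, map_zero, sub_zero]
    rw [h3] at h2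
    exact h2
  · change ((π (Φ (KaehlerDifferential.D ℂ R x)) : m) : R) ∈ m * J
    simp only [π, Finsupp.linearCombination_apply, Finsupp.sum, id, Submodule.coe_sum,
      Submodule.coe_smul, smul_eq_mul]
    refine Ideal.sum_mem _ (fun t _ => ?_)
    rw [mul_comm m J]
    exact Ideal.mul_mem_mul
      (hx (((Finsupp.lapply t).comp Φ).compDer (KaehlerDifferential.D ℂ R))) t.2

lemma smi_key [Algebra.Smooth ℂ R] (m : Ideal R) [m.IsMaximal] {I : Ideal R} (hI : I ≤ m)
    (hst : ∀ δ : Derivation ℂ R R, ∀ x ∈ I, δ x ∈ I) {x : R} (hx : x ∈ I) :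
    ∃ s ∉ m, s * x = 0 := by
  haveI : IsNoetherianRing R := Algebra.FiniteType.isNoetherianRing ℂ R
  obtain ⟨E, h1, h2⟩ := smi_exists_euler m
  have h3 : ∀ k : ℕ, ∀ y ∈ m ^ k, (k : R) * y - E y ∈ m ^ (k + 1) := by
    intro k
    induction k with
    | zero =>
      intro y _
      have := h2 ⊤ y (fun _ => trivial)
      simpa using this
    | succ k ih =>
      intro y hy
      rw [pow_succ] at hy
      refine Submodule.mul_induction_on hy (fun a ha b hb => ?_) (fun a b ha hb => ?_)
      · have e : ((k + 1 : ℕ) : R) * (a * b) - E (a * b) =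
            a * (b - E b) + ((k : R) * a - E a) * b := by
          rw [Derivation.leibniz]; simp only [smul_eq_mul]; push_cast; ring
        rw [e]
        refine add_mem ?_ ?_
        · rw [show k + 1 + 1 = k + 2 by ring, pow_add]
          exact Ideal.mul_mem_mul ha (h1 b hb)
        · rw [pow_succ]
          exact Ideal.mul_mem_mul (ih a ha) hb
      · have := add_mem ha hb
        rw [map_add]
        convert this using 1
        ring
  have h4 : ∀ k : ℕ, I ≤ m ^ (k + 1) := by
    intro k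
    induction k with
    | zero => simpa using hI
    | succ k ih =>
      intro y hy
      have a1 := h3 (k + 1) y (ih hy)
      have a2 := h2 (m ^ (k + 1)) y (fun δ => ih (hst δ y hy))
      rw [← pow_succ'] at a2
      have a3 := add_mem a1 a2
      rw [sub_add_cancel] at a3
      have hu : IsUnit ((k + 1 : ℕ) : R) := by
        have : ((k + 1 : ℕ) : R) = algebraMap ℂ R ((k + 1 : ℕ) : ℂ) := (map_natCast _ _).symm
        rw [this]
        exact (IsUnit.mk0 _ (Nat.cast_ne_zero.2 (Nat.succ_ne_zero k))).map _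
      exact (Ideal.unit_mul_mem_iff_mem _ hu).1 a3
  have h5 : x ∈ (⨅ i : ℕ, m ^ i • ⊤ : Submodule R R) := by
    rw [Submodule.mem_iInf]
    intro i
    rw [smul_eq_mul, Ideal.mul_top]
    exact Ideal.pow_le_pow_right (Nat.le_succ i) (h4 i hx)
  obtain ⟨r, hr⟩ := (Ideal.mem_iInf_smul_pow_eq_bot_iff m x).1 h5
  refine ⟨1 - r, fun k => ?_, ?_⟩
  · have := add_mem k r.2
    rw [sub_add_cancel] at this
    exact (Ideal.IsMaximal.ne_top ‹_›) ((Ideal.eq_top_iff_one m).2 this)
  · rw [smul_eq_mul] at hr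
    rw [sub_mul, one_mul, hr, sub_self]

end algebra

theorem isReduced_of_algebra_smooth (R : Type) [CommRing R] [Algebra ℂ R] [Algebra.Smooth ℂ R] :
    IsReduced R := by
  refine ⟨fun x hx => ?_⟩
  by_contra h0
  have hne : (Submodule.span R {x}).annihilator ≠ ⊤ := by
    intro h
    have : (1 : R) ∈ (Submodule.span R {x}).annihilator := by rw [h]; trivial
    rw [Submodule.mem_annihilator_span_singleton, one_smul] at this
    exact h0 this
  obtain ⟨m, hm, hle⟩ := Ideal.exists_le_maximal _ hne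
  obtain ⟨P, hP, hPm⟩ := Ideal.exists_minimalPrimes_le (I := ⊥) (J := m) bot_le
  have hPp : P.IsPrime := hP.1.1
  have hxP : x ∈ P := by
    obtain ⟨n, hn⟩ := hx
    exact hPp.mem_of_pow_mem n (by rw [hn]; exact P.zero_mem)
  obtain ⟨s, hs, h⟩ := smi_key m hPm (fun δ y hy => smi_derivation_mem hP δ hy) hxP
  exact hs (hle (by rw [Submodule.mem_annihilator_span_singleton, smul_eq_mul]; exact h))

theorem minimalPrimes_eq_of_le_of_smooth {R : Type} [CommRing R] [Algebra ℂ R]
    [Algebra.Smooth ℂ R] {P P' m : Ideal R} (hP : P ∈ minimalPrimes R)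
    (hP' : P' ∈ minimalPrimes R) [m.IsMaximal] (h : P ≤ m) (h' : P' ≤ m) : P = P' := by
  have key : P ≤ P' := fun x hx => by
    obtain ⟨s, hs, e⟩ := smi_key m h (fun δ y hy => smi_derivation_mem hP δ hy) hx
    have hp : P'.IsPrime := hP'.1.1
    exact (hp.mem_or_mem (by rw [e]; exact P'.zero_mem)).resolve_left (fun k => hs (h' k))
  exact le_antisymm key (hP'.2 hP.1 key)

lemma smi_spec_nhds {R : Type} [CommRing R] [Algebra ℂ R] [Algebra.Smooth ℂ R]
    (q : PrimeSpectrum R) :
    ∃ W : Set (PrimeSpectrum R), IsOpen W ∧ q ∈ W ∧ IsPreirreducible W := by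
  haveI : IsNoetherianRing R := Algebra.FiniteType.isNoetherianRing ℂ R
  obtain ⟨P, hP, hPq⟩ := Ideal.exists_minimalPrimes_le (I := ⊥) (J := q.asIdeal) bot_le
  have hPp : P.IsPrime := hP.1.1
  have hfin : (minimalPrimes R \ {P}).Finite := (minimalPrimes.finite_of_isNoetherianRing R).sdiff
  have hopen : IsOpen (⋂ P' ∈ minimalPrimes R \ {P}, (PrimeSpectrum.zeroLocus (P' : Set R))ᶜ) :=
    hfin.isOpen_biInter (fun P' _ => (PrimeSpectrum.isClosed_zeroLocus _).isOpen_compl)
  refine ⟨_, hopen, ?_, ?_⟩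
  · simp only [Set.mem_iInter, Set.mem_compl_iff, PrimeSpectrum.mem_zeroLocus]
    intro P' hP' k
    obtain ⟨m, hm, hle⟩ := Ideal.exists_le_maximal _ q.isPrime.ne_top
    exact hP'.2 (minimalPrimes_eq_of_le_of_smooth hP'.1 hP (le_trans k hle) (hPq.trans hle))
  · have hirr : IsIrreducible (PrimeSpectrum.zeroLocus (P : Set R)) :=
      (PrimeSpectrum.isIrreducible_zeroLocus_iff_of_radical P hPp.isRadical).2 hPp
    refine hirr.2.open_subset hopen (fun z hz => ?_)
    simp only [Set.mem_iInter, Set.mem_compl_iff, PrimeSpectrum.mem_zeroLocus] at hz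
    obtain ⟨P', hP', hle⟩ := Ideal.exists_minimalPrimes_le (I := ⊥) (J := z.asIdeal) bot_le
    by_cases e : P' = P
    · rw [← e]; exact hle
    · exact absurd hle (hz P' ⟨hP', e⟩)

lemma smi_irreducibleSpace {T : Type*} [TopologicalSpace T] [ConnectedSpace T]
    (h : ∀ x : T, ∃ W : Set T, IsOpen W ∧ x ∈ W ∧ IsPreirreducible W) : IrreducibleSpace T := by
  have : PreirreducibleSpace T := ⟨fun u v hu hv ⟨a, _, ha⟩ ⟨b, _, hb⟩ => by
    have h1 : IsOpen (closure u) := by
      rw [isOpen_iff_forall_mem_open]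
      intro x hx
      obtain ⟨W, w1, w2, w3⟩ := h x
      refine ⟨W, ?_, w1, w2⟩
      have := subset_closure_inter_of_isPreirreducible_of_isOpen w3 hu
        (mem_closure_iff.1 hx W w1 w2)
      exact this.trans (closure_mono Set.inter_subset_right)
    have h2 : closure u = Set.univ :=
      IsClopen.eq_univ ⟨isClosed_closure, h1⟩ ⟨a, subset_closure ha⟩
    obtain ⟨z, z1, z2⟩ := mem_closure_iff.1 (h2 ▸ Set.mem_univ b : b ∈ closure u) v hv hb
    exact ⟨z, trivial, z2, z1⟩⟩
  exact ⟨inferInstance⟩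

lemma smi_smooth_Fn (X : Var) [Smooth X.hom] {U : X.left.Opens} (hU : IsAffineOpen U) :
    Algebra.Smooth ℂ (Fn X U) := by
  have h1 : RingHom.Smooth (X.hom.appLE ⊤ U le_top).hom :=
    HasRingHomProperty.appLE (P := @Smooth) X.hom inferInstance ⟨⊤, isAffineOpen_top _⟩
      ⟨U, hU⟩ le_top
  have h2 : RingHom.Smooth
      ((Scheme.ΓSpecIso (CommRingCat.of ℂ)).inv ≫ X.hom.appLE ⊤ U le_top).hom :=
    (RingHom.Smooth.respectsIso.cancel_left_isIso _ _).2 h1
  exact h2

lemma smi_exists_affine (X : Var) (x : X.left) :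
    ∃ U : X.left.Opens, IsAffineOpen U ∧ x ∈ U := by
  obtain ⟨_, ⟨U, hU, rfl⟩, hx, -⟩ :=
    X.left.isBasis_affineOpens.exists_subset_of_mem_open (Set.mem_univ x) isOpen_univ
  exact ⟨U, hU, hx⟩

theorem isReduced_of_smooth (X : Var) [Smooth X.hom] : IsReduced X.left := by
  have : ∀ x : X.left, _root_.IsReduced (X.left.presheaf.stalk x) := by
    intro x
    obtain ⟨U, hU, hx⟩ := smi_exists_affine X x
    haveI := smi_smooth_Fn X hU
    haveI : _root_.IsReduced Γ(X.left, U) := isReduced_of_algebra_smooth (Fn X U)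
    letI := X.left.presheaf.algebra_section_stalk ⟨x, hx⟩
    haveI := IsAffineOpen.isLocalization_stalk hU ⟨x, hx⟩
    exact isReduced_localizationPreserves (hU.primeIdealOf ⟨x, hx⟩).asIdeal.primeCompl _
      inferInstance
  exact isReduced_of_isReduced_stalk _

theorem isIntegral_of_smooth (X : Var) [Smooth X.hom] [ConnectedSpace X.left] :
    IsIntegral X.left := by
  haveI := isReduced_of_smooth X
  haveI : IrreducibleSpace X.left := smi_irreducibleSpace (fun x => by
    obtain ⟨U, hU, hx⟩ := smi_exists_affine X x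
    haveI := smi_smooth_Fn X hU
    have hx' : x ∈ Set.range hU.fromSpec := by rw [hU.range_fromSpec]; exact hx
    obtain ⟨q, rfl⟩ := hx'
    have key : ∀ q : PrimeSpectrum (Fn X U), ∃ W : Set (PrimeSpectrum (Fn X U)),
        IsOpen W ∧ q ∈ W ∧ IsPreirreducible W := smi_spec_nhds
    obtain ⟨W, w1, w2, w3⟩ := key q
    exact ⟨hU.fromSpec '' W, hU.fromSpec.isOpenEmbedding.isOpenMap W w1, ⟨q, w2, rfl⟩,
      w3.image _ hU.fromSpec.continuous.continuousOn⟩)
  exact isIntegral_of_irreducibleSpace_of_isReduced _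

theorem connectedSpace_tensor (X Y : Var) [LocallyOfFiniteType X.hom] [LocallyOfFiniteType Y.hom]
    [ConnectedSpace X.left] [ConnectedSpace Y.left] : ConnectedSpace (X ⊗ Y).left := by
  haveI : LocallyOfFiniteType (X ⊗ Y).hom := by
    rw [Over.tensorObj_hom]; infer_instance
  obtain ⟨p0, -⟩ := exists_pt_mem (X := X) (U := ⊤) Set.univ_nonempty
  obtain ⟨q0, -⟩ := exists_pt_mem (X := Y) (U := ⊤) Set.univ_nonempty
  let s : Pt X → (Y ⟶ X ⊗ Y) := fun p =>
    CartesianMonoidalCategory.lift (CartesianMonoidalCategory.toUnit Y ≫ p) (𝟙 Y)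
  let t : X ⟶ X ⊗ Y :=
    CartesianMonoidalCategory.lift (𝟙 X) (CartesianMonoidalCategory.toUnit X ≫ q0)
  have hs : ∀ (p : Pt X) (q : Pt Y), q ≫ s p = CartesianMonoidalCategory.lift p q := by
    intro p q
    apply CartesianMonoidalCategory.hom_ext
    · simp only [s, Category.assoc, CartesianMonoidalCategory.lift_fst]
      rw [← Category.assoc, CartesianMonoidalCategory.toUnit_unique (q ≫ _) (𝟙 _),
        Category.id_comp]
    · simp [s]
  have ht : ∀ p : Pt X, p ≫ t = CartesianMonoidalCategory.lift p q0 := by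
    intro p
    apply CartesianMonoidalCategory.hom_ext
    · simp [t]
    · simp only [t, Category.assoc, CartesianMonoidalCategory.lift_snd]
      rw [← Category.assoc, CartesianMonoidalCategory.toUnit_unique (p ≫ _) (𝟙 _),
        Category.id_comp]
  have hA : _root_.IsPreconnected (Set.range t.left) := isPreconnected_range t.left.continuous
  have hB : ∀ p, _root_.IsPreconnected (Set.range t.left ∪ Set.range (s p).left) := fun p =>
    IsPreconnected.union (Pt.loc (CartesianMonoidalCategory.lift p q0))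
      ⟨p.loc, by rw [← Pt.loc_comp, ht]⟩ ⟨q0.loc, by rw [← Pt.loc_comp, hs]⟩ hA
      (isPreconnected_range (s p).left.continuous)
  have hC : _root_.IsPreconnected (⋃ p, Set.range t.left ∪ Set.range (s p).left) :=
    isPreconnected_iUnion ⟨t.left p0.loc, Set.mem_iInter.2 (fun p => Or.inl ⟨_, rfl⟩)⟩ hB
  have hD : Dense (⋃ p, Set.range t.left ∪ Set.range (s p).left) := by
    refine (dense_range_loc (X := X ⊗ Y)).mono ?_
    rintro _ ⟨w, rfl⟩
    refine Set.mem_iUnion.2 ⟨w ≫ CartesianMonoidalCategory.fst X Y,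
      Or.inr ⟨Pt.loc (w ≫ CartesianMonoidalCategory.snd X Y), ?_⟩⟩
    rw [← Pt.loc_comp, hs]
    congr 1
    apply CartesianMonoidalCategory.hom_ext <;> simp
  have hE := hC.closure
  rw [hD.closure_eq] at hE
  haveI : PreconnectedSpace (X ⊗ Y).left := ⟨hE⟩
  exact ⟨⟨t.left p0.loc⟩⟩

theorem connectedSpace_of_finrank_le (X : Var) [Nonempty X.left] [Module.Finite ℂ (Fn X ⊤)]
    (h : Module.finrank ℂ (Fn X ⊤) ≤ 1) : ConnectedSpace X.left := by
  have : PreconnectedSpace X.left := by
    rw [preconnectedSpace_iff_clopen]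
    intro s hs
    by_contra hc
    push Not at hc
    obtain ⟨⟨a, ha⟩, hb⟩ := hc
    obtain ⟨b, hb⟩ := (Set.ne_univ_iff_exists_notMem s).1 hb
    let U : Bool → X.left.Opens := fun i =>
      match i with
      | true => ⟨s, hs.isOpen⟩
      | false => ⟨sᶜ, hs.compl.isOpen⟩
    let sf : ∀ i : Bool, Fn X (U i) := fun i =>
      match i with
      | true => 1
      | false => 0
    have hcov : (⊤ : X.left.Opens) ≤ iSup U := by
      intro x _
      rw [TopologicalSpace.Opens.mem_iSup]
      by_cases hx : x ∈ s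
      · exact ⟨true, hx⟩
      · exact ⟨false, hx⟩
    have hsub : ∀ W : X.left.Opens, W = ⊥ → Subsingleton Γ(X.left, W) := by
      rintro _ rfl; infer_instance
    obtain ⟨e, he, -⟩ := X.left.sheaf.existsUnique_gluing' U ⊤ (fun i => homOfLE le_top) hcov sf
      (by
        rintro (_ | _) (_ | _)
        · rfl
        · exact (hsub (U false ⊓ U true) (by
            ext x; simp [U])).elim _ _
        · exact (hsub (U true ⊓ U false) (by
            ext x; simp [U])).elim _ _
        · rfl)
    change Fn X ⊤ at e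
    have e1 : Fn.res X (le_top : U true ≤ ⊤) e = 1 := he true
    have e0 : Fn.res X (le_top : U false ≤ ⊤) e = 0 := he false
    haveI : Nonempty (U true) := ⟨⟨a, ha⟩⟩
    haveI : Nonempty (U false) := ⟨⟨b, hb⟩⟩
    haveI : Nontrivial (Fn X (U true)) := Scheme.component_nontrivial X.left (U true)
    haveI : Nontrivial (Fn X (U false)) := Scheme.component_nontrivial X.left (U false)
    obtain ⟨v, hv⟩ := finrank_le_one_iff.1 h
    obtain ⟨c, hc⟩ := hv e
    obtain ⟨c', hc'⟩ := hv 1
    have k : c' • (e : Fn X ⊤) = c • (1 : Fn X ⊤) := by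
      rw [← hc, ← hc', smul_smul, smul_smul, mul_comm]
    have k0 := congrArg (Fn.res X (le_top : U false ≤ ⊤)) k
    rw [map_smul, map_smul, e0, map_one, smul_zero, eq_comm, smul_eq_zero] at k0
    have hc0 : c = 0 := k0.resolve_right one_ne_zero
    rw [← hc, hc0, zero_smul, map_zero] at e1
    exact zero_ne_one e1
  exact ⟨inferInstance⟩

end Pool.Agent.Lib.MP_d80bfc_ag
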