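import Pool.Agent.Lib.MP_d80bfc_ag.PVPts
import Pool.Agent.Lib.MP_d80bfc_ag.Smi
import Pool.Agent.Lib.MP_d80bfc_ag.Jac

/-!
# TASK ELL: the elliptic curve `Y^2 Z = X^3 + Z^3` is smooth and connected
-/

open CategoryTheory AlgebraicGeometry Opposite MvPolynomial MonoidalCategory
  CartesianMonoidalCategory

noncomputable section

namespace Pool.Agent.Lib.MP_d80bfc_ag

/-- the cubic -/
def cubic : MvPolynomial (Fin 3) ℂ := X 0 ^ 3 + X 2 ^ 3 - X 1 ^ 2 * X 2

lemma cubic_isHomogeneous : cubic.IsHomogeneous 3 :=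
  ((isHomogeneous_X_pow 0 3).add (isHomogeneous_X_pow 2 3)).sub
    ((isHomogeneous_X_pow 1 2).mul (isHomogeneous_X ℂ 2))

attribute [local instance] MvPolynomial.gradedAlgebra in
lemma ell_hom (p : MvPolynomial (Fin 3) ℂ) (hp : p ∈ Ideal.span {cubic}) (n : ℕ) :
    homogeneousComponent n p ∈ Ideal.span {cubic} := by
  have h : (Ideal.span {cubic}).IsHomogeneous (homogeneousSubmodule (Fin 3) ℂ) :=
    Ideal.homogeneous_span _ _ fun x hx => by
      rw [Set.mem_singleton_iff.mp hx]
      exact ⟨3, cubic_isHomogeneous⟩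
  rw [← decomposition.decompose'_apply]
  exact h n hp

/-- the homogeneous ideal of the cubic -/
def EI : HI (Fin 3) where
  I := Ideal.span {cubic}
  hom := by
    exact ell_hom

/-- the elliptic curve -/
abbrev EV : Var := EI.var

lemma ell_I : EI.I = Ideal.span {cubic} := rfl

/-- the Jacobian matrix of a chart has full rank at every point -/
lemma ell_linearIndependent (a : Fin 3) (P : Fin 3 → ℂ) (ha : P a = 1)
    (hc : P 0 ^ 3 + P 2 ^ 3 - P 1 ^ 2 * P 2 = 0) :
    LinearIndependent ℂ fun (j : Fin 2) (w : Fin 3) =>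
      aeval P (pderiv w (![cubic, X a - 1] j)) := by
  rw [Fintype.linearIndependent_iff]
  intro g hg
  have hd : ∀ w, aeval P (pderiv w (X a - 1 : MvPolynomial (Fin 3) ℂ)) =
      if w = a then 1 else 0 := fun w => by
    by_cases h : w = a
    · subst h; simp
    · simp [h, pderiv_X_of_ne (Ne.symm h)]
  have hc0 : aeval P (pderiv 0 cubic) = 3 * P 0 ^ 2 := by
    simp [cubic, Derivation.leibniz_pow, pderiv_X]
  have hc1 : aeval P (pderiv 1 cubic) = -(2 * P 1 * P 2) := by
    simp [cubic, Derivation.leibniz_pow, pderiv_X]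
    ring
  have hc2 : aeval P (pderiv 2 cubic) = 3 * P 2 ^ 2 - P 1 ^ 2 := by
    simp [cubic, Derivation.leibniz_pow, pderiv_X]
  have hw : ∀ w, g 0 * aeval P (pderiv w cubic) + g 1 * (if w = a then 1 else 0) = 0 := fun w => by
    have := congrFun hg w
    rw [Fin.sum_univ_two] at this
    rw [← hd]
    exact this
  have h0 := hw 0
  have h1 := hw 1
  have h2 := hw 2
  rw [hc0] at h0
  rw [hc1] at h1
  rw [hc2] at h2
  have hsum : P 0 * (if 0 = a then 1 else 0) + P 1 * (if 1 = a then 1 else 0) +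
      P 2 * (if 2 = a then 1 else 0) = (1 : ℂ) := by
    refine Eq.trans ?_ ha
    fin_cases a <;> simp
  have hg1 : g 1 = 0 := by
    linear_combination P 0 * h0 + P 1 * h1 + P 2 * h2 - 3 * g 0 * hc - g 1 * hsum
  have hg0 : g 0 = 0 := by
    by_contra hne
    rw [hg1, zero_mul, add_zero] at h0 h1 h2
    have e0 : P 0 ^ 2 = 0 := by
      have := (mul_eq_zero.mp h0).resolve_left hne
      linear_combination (1 / 3) * this
    have e1 : P 1 * P 2 = 0 := by
      have := (mul_eq_zero.mp h1).resolve_left hne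
      linear_combination (-1 / 2) * this
    have e2 := (mul_eq_zero.mp h2).resolve_left hne
    have z0 : P 0 = 0 := pow_eq_zero_iff (two_ne_zero) |>.mp e0
    have z2 : P 2 = 0 := pow_eq_zero_iff (n := 3) (by norm_num) |>.mp (by
      linear_combination (1 / 3) * P 2 * e2 + (1 / 3) * P 1 * e1)
    have z1 : P 1 = 0 := pow_eq_zero_iff (n := 2) (by norm_num) |>.mp (by
      linear_combination 3 * P 2 * z2 - e2)
    rw [z0, z1, z2] at hsum
    simp at hsum
  intro i
  fin_cases i
  · exact hg0
  · exact hg1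

theorem EV_smooth : Smooth EV.hom := by
  have h : SmoothOfRelativeDimension 1 EV.hom := by
    refine smoothOfRelativeDimension_of_cover 1 (fun i : Fin 3 => EI.D (X i))
      (fun i => EI.isAffineOpen_D one_pos (isHomogeneous_X ℂ i)) ?_ fun a => ?_
    · refine EI.iSup_D_eq_top _ fun a => ⟨1, X a, Ideal.subset_span ⟨a, rfl⟩, ?_⟩
      simp
    · obtain ⟨hs, hk⟩ := EI.chart_presentation a
      refine locally_standardSmooth (J := Fin 2) 1 (by simp) ![cubic, X a - 1] _ hs ?_ fun p => ?_
      · rw [hk, ell_I, ← Ideal.span_union]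
        congr 1
        ext x
        simp
      · have key : ∀ f : MvPolynomial (Fin 3) ℂ, p (aeval (EI.coord a le_rfl) f) =
            aeval (fun i => p (EI.coord a le_rfl i)) f := fun f => by
          rw [← comp_aeval]; rfl
        have hmem : ∀ f ∈ EI.I ⊔ Ideal.span {X a - 1},
            aeval (fun i => p (EI.coord a le_rfl i)) f = 0 := fun f hf => by
          rw [← hk, RingHom.mem_ker] at hf
          rw [← key, hf, map_zero]
        simp only [key]
        refine ell_linearIndependent a _ ?_ ?_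
        · have := hmem (X a - 1) (Ideal.mem_sup_right (Ideal.subset_span rfl))
          simpa [sub_eq_zero] using this
        · have := hmem cubic (Ideal.mem_sup_left (Ideal.subset_span rfl))
          simpa [cubic] using this
  exact SmoothOfRelativeDimension.smooth 1 EV.hom

lemma ell_irreducible : Irreducible cubic := by
  rw [← MulEquiv.irreducible_iff (finSuccEquiv ℂ 2)]
  have he : finSuccEquiv ℂ 2 cubic =
      Polynomial.X ^ 3 + Polynomial.C (X 1 ^ 3 - X 0 ^ 2 * X 1) := by
    have h1 : finSuccEquiv ℂ 2 (X 1) = Polynomial.C (X 0) := finSuccEquiv_X_succ (j := 0)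
    have h2 : finSuccEquiv ℂ 2 (X 2) = Polynomial.C (X 1) := finSuccEquiv_X_succ (j := 1)
    simp only [cubic, map_sub, map_add, map_mul, map_pow, finSuccEquiv_X_zero, h1, h2]
    ring
  rw [he]
  have hm : (Polynomial.X ^ 3 + Polynomial.C (X 1 ^ 3 - X 0 ^ 2 * X 1) :
      Polynomial (MvPolynomial (Fin 2) ℂ)).Monic := Polynomial.monic_X_pow_add_C _ (by norm_num)
  have hd : (Polynomial.X ^ 3 + Polynomial.C (X 1 ^ 3 - X 0 ^ 2 * X 1) :
      Polynomial (MvPolynomial (Fin 2) ℂ)).degree = 3 :=
    Polynomial.degree_X_pow_add_C (by norm_num) _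
  have hP : (Ideal.span {(X 1 : MvPolynomial (Fin 2) ℂ)}).IsPrime :=
    (Ideal.span_singleton_prime (X_ne_zero 1)).mpr X_prime
  refine Polynomial.irreducible_of_eisenstein_criterion hP ?_ ?_ ?_ ?_ hm.isPrimitive
  · rw [hm.leadingCoeff]
    exact (Ideal.ne_top_iff_one _).mp hP.ne_top
  · intro n hn
    rw [hd] at hn
    have hn' : n < 3 := by exact_mod_cast hn
    rw [Polynomial.coeff_add, Polynomial.coeff_X_pow, if_neg hn'.ne, zero_add,
      Polynomial.coeff_C]
    split_ifs
    · exact Ideal.mem_span_singleton.mpr ⟨X 1 ^ 2 - X 0 ^ 2, by ring⟩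
    · exact Ideal.zero_mem _
  · rw [hd]; norm_num
  · rw [Polynomial.coeff_add, Polynomial.coeff_X_pow, if_neg (by norm_num), zero_add,
      Polynomial.coeff_C_zero, Ideal.span_singleton_pow, Ideal.mem_span_singleton]
    rintro ⟨c, hc⟩
    have h1 : (X 1 : MvPolynomial (Fin 2) ℂ) * (X 1 ^ 2 - X 0 ^ 2) = X 1 * (X 1 * c) := by
      linear_combination hc
    have h2 := congrArg (eval ![1, 0]) (mul_left_cancel₀ (X_ne_zero 1) h1)
    simp at h2

theorem EV_connected : ConnectedSpace EV.left := by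
  have hp : EI.I.IsPrime :=
    (Ideal.span_singleton_prime ell_irreducible.ne_zero).mpr ell_irreducible.prime
  have hX : (X 1 : MvPolynomial (Fin 3) ℂ) ∉ EI.I := by
    rw [ell_I, Ideal.mem_span_singleton]
    rintro ⟨c, hc⟩
    have h2 := congrArg (eval ![0, 1, 0]) hc
    simp [cubic] at h2
  have := EI.irreducibleSpace hp 1 hX
  infer_instance

end Pool.Agent.Lib.MP_d80bfc_ag
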