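import Mathlib

/-!
# Pull-back of Kähler forms along algebra maps
-/

noncomputable section

namespace Pool.Agent.Lib.MP_d80bfc_ag

section forms

variable {R S T : Type} [CommRing R] [CommRing S] [CommRing T]
  [Algebra ℂ R] [Algebra ℂ S] [Algebra ℂ T]

/-- Pull-back of Kähler differentials along a `ℂ`-algebra map `φ`: `a • db ↦ φ a • d(φ b)`. -/
def oneFormMap (φ : R →ₐ[ℂ] S) : Ω[R⁄ℂ] →ₛₗ[(φ : R →+* S)] Ω[S⁄ℂ] :=
  letI : Algebra R S := (φ : R →+* S).toAlgebra
  haveI : IsScalarTower ℂ R S := IsScalarTower.of_algebraMap_eq fun c => (φ.commutes c).symm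
  { toFun := KaehlerDifferential.map ℂ ℂ R S
    map_add' := map_add _
    map_smul' := fun r x => by
      rw [map_smul]
      exact (algebraMap_smul S r _).symm }

lemma oneFormMap_D (φ : R →ₐ[ℂ] S) (r : R) :
    oneFormMap φ (KaehlerDifferential.D ℂ R r) = KaehlerDifferential.D ℂ S (φ r) := by
  let _ : Algebra R S := (φ : R →+* S).toAlgebra
  have _ : IsScalarTower ℂ R S := IsScalarTower.of_algebraMap_eq fun c => (φ.commutes c).symm
  exact KaehlerDifferential.map_D ℂ ℂ R S r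

/-- Pull-back of `p`-forms along a `ℂ`-algebra map `φ`:
`a • ω₁ ∧ ⋯ ∧ ω_p ↦ φ a • φ^*ω₁ ∧ ⋯ ∧ φ^*ω_p`. -/
def formMap (p : ℕ) (φ : R →ₐ[ℂ] S) : ⋀[R]^p Ω[R⁄ℂ] →ₛₗ[(φ : R →+* S)] ⋀[S]^p Ω[S⁄ℂ] :=
  letI : Module R (⋀[S]^p Ω[S⁄ℂ]) := Module.compHom _ (φ : R →+* S)
  let a : Ω[R⁄ℂ] [⋀^Fin p]→ₗ[R] (⋀[S]^p Ω[S⁄ℂ]) :=
    { toFun := fun v => exteriorPower.ιMulti S p fun i => oneFormMap φ (v i)
      map_update_add' := fun v i x y => by
        simp only [Function.apply_update (fun _ => oneFormMap φ), map_add,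
          AlternatingMap.map_update_add]
      map_update_smul' := fun v i r x => by
        simp only [Function.apply_update (fun _ => oneFormMap φ), map_smulₛₗ,
          AlternatingMap.map_update_smul]
        rfl
      map_eq_zero_of_eq' := fun v i j h hij =>
        (exteriorPower.ιMulti S p).map_eq_zero_of_eq _ (by rw [h]) hij }
  { toFun := exteriorPower.alternatingMapLinearEquiv a
    map_add' := map_add _
    map_smul' := fun r x => by
      rw [map_smul]
      rfl }

lemma formMap_ιMulti (p : ℕ) (φ : R →ₐ[ℂ] S) (v : Fin p → Ω[R⁄ℂ]) :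
    formMap p φ (exteriorPower.ιMulti R p v) =
      exteriorPower.ιMulti S p fun i => oneFormMap φ (v i) := by
  let _ : Module R (⋀[S]^p Ω[S⁄ℂ]) := Module.compHom _ (φ : R →+* S)
  exact exteriorPower.alternatingMapLinearEquiv_apply_ιMulti _ v

/-- Induction principle for Kähler differentials. -/
lemma oneForm_induction {P : Ω[R⁄ℂ] → Prop} (hD : ∀ r, P (KaehlerDifferential.D ℂ R r))
    (h0 : P 0) (hadd : ∀ x y, P x → P y → P (x + y)) (hsmul : ∀ (r : R) x, P x → P (r • x))
    (x : Ω[R⁄ℂ]) : P x := by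
  have hx : x ∈ Submodule.span R (Set.range (KaehlerDifferential.D ℂ R)) := by
    rw [KaehlerDifferential.span_range_derivation]; trivial
  induction hx using Submodule.span_induction with
  | mem x hx => obtain ⟨r, rfl⟩ := hx; exact hD r
  | zero => exact h0
  | add x y _ _ hx hy => exact hadd x y hx hy
  | smul r x _ hx => exact hsmul r x hx

/-- Induction principle for `p`-forms. -/
lemma form_induction {p : ℕ} {P : ⋀[R]^p Ω[R⁄ℂ] → Prop}
    (hι : ∀ v, P (exteriorPower.ιMulti R p v))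
    (h0 : P 0) (hadd : ∀ x y, P x → P y → P (x + y)) (hsmul : ∀ (r : R) x, P x → P (r • x))
    (x : ⋀[R]^p Ω[R⁄ℂ]) : P x := by
  have hx : x ∈ Submodule.span R (Set.range (exteriorPower.ιMulti R p (M := Ω[R⁄ℂ]))) := by
    rw [exteriorPower.ιMulti_span]; trivial
  induction hx using Submodule.span_induction with
  | mem x hx => obtain ⟨r, rfl⟩ := hx; exact hι r
  | zero => exact h0
  | add x y _ _ hx hy => exact hadd x y hx hy
  | smul r x _ hx => exact hsmul r x hx

lemma oneFormMap_id (x : Ω[R⁄ℂ]) : oneFormMap (AlgHom.id ℂ R) x = x := by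
  induction x using oneForm_induction with
  | hD r => rw [oneFormMap_D]; rfl
  | h0 => exact map_zero _
  | hadd x y hx hy => rw [map_add, hx, hy]
  | hsmul r x hx => rw [map_smulₛₗ, hx]; rfl

lemma oneFormMap_comp (φ : R →ₐ[ℂ] S) (ψ : S →ₐ[ℂ] T) (x : Ω[R⁄ℂ]) :
    oneFormMap (ψ.comp φ) x = oneFormMap ψ (oneFormMap φ x) := by
  induction x using oneForm_induction with
  | hD r => simp only [oneFormMap_D]; rfl
  | h0 => simp only [map_zero]
  | hadd x y hx hy => simp only [map_add, hx, hy]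
  | hsmul r x hx => simp only [map_smulₛₗ, hx]; rfl

lemma formMap_id (p : ℕ) (x : ⋀[R]^p Ω[R⁄ℂ]) : formMap p (AlgHom.id ℂ R) x = x := by
  induction x using form_induction with
  | hι v => simp only [formMap_ιMulti, oneFormMap_id]
  | h0 => exact map_zero _
  | hadd x y hx hy => rw [map_add, hx, hy]
  | hsmul r x hx => rw [map_smulₛₗ, hx]; rfl

lemma formMap_comp (p : ℕ) (φ : R →ₐ[ℂ] S) (ψ : S →ₐ[ℂ] T) (x : ⋀[R]^p Ω[R⁄ℂ]) :
    formMap p (ψ.comp φ) x = formMap p ψ (formMap p φ x) := by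
  induction x using form_induction with
  | hι v => simp only [formMap_ιMulti, oneFormMap_comp]
  | h0 => simp only [map_zero]
  | hadd x y hx hy => simp only [map_add, hx, hy]
  | hsmul r x hx => simp only [map_smulₛₗ, hx]; rfl

/-- Pull-back of `p`-forms, as a `ℂ`-linear map. -/
def formMapC (p : ℕ) (φ : R →ₐ[ℂ] S) : ⋀[R]^p Ω[R⁄ℂ] →ₗ[ℂ] ⋀[S]^p Ω[S⁄ℂ] where
  toFun := formMap p φ
  map_add' := map_add _
  map_smul' c x := by
    rw [← algebraMap_smul R c x, map_smulₛₗ, RingHom.id_apply, ← algebraMap_smul S c]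
    congr 1
    exact φ.commutes c

lemma formMap_algebraMap_smul (p : ℕ) (φ : R →ₐ[ℂ] S) (c : ℂ) (x : ⋀[R]^p Ω[R⁄ℂ]) :
    formMap p φ (algebraMap ℂ R c • x) = algebraMap ℂ S c • formMap p φ x := by
  rw [map_smulₛₗ]
  congr 1
  exact φ.commutes c

lemma formMap_smul_wedge (p : ℕ) (φ : R →ₐ[ℂ] S) (r : R) (h : Fin p → R) :
    formMap p φ (r • exteriorPower.ιMulti R p fun i => KaehlerDifferential.D ℂ R (h i)) =
      φ r • exteriorPower.ιMulti S p fun i => KaehlerDifferential.D ℂ S (φ (h i)) := by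
  rw [map_smulₛₗ, formMap_ιMulti]
  simp only [oneFormMap_D]
  rfl

lemma eq_formMap (p : ℕ) (φ : R →ₐ[ℂ] S) (f : ⋀[R]^p Ω[R⁄ℂ] →+ ⋀[S]^p Ω[S⁄ℂ])
    (hf : ∀ (r : R) (h : Fin p → R),
      f (r • exteriorPower.ιMulti R p fun i => KaehlerDifferential.D ℂ R (h i)) =
        φ r • exteriorPower.ιMulti S p fun i => KaehlerDifferential.D ℂ S (φ (h i)))
    (x : ⋀[R]^p Ω[R⁄ℂ]) : f x = formMap p φ x := by
  have hx : x ∈ Submodule.span R (exteriorPower.ιMulti R p ''
      {a | Set.range a ⊆ Set.range (KaehlerDifferential.D ℂ R)}) := by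
    rw [exteriorPower.ιMulti_span_of_span R p _ (KaehlerDifferential.span_range_derivation ℂ R)]
    trivial
  suffices ∀ r : R, f (r • x) = formMap p φ (r • x) by simpa using this 1
  induction hx using Submodule.span_induction with
  | mem x hx =>
    obtain ⟨a, ha, rfl⟩ := hx
    choose y hy using fun i => ha ⟨i, rfl⟩
    obtain rfl : a = fun i => KaehlerDifferential.D ℂ R (y i) := funext fun i => (hy i).symm
    intro r
    rw [hf, formMap_smul_wedge]
  | zero => intro r; simp only [smul_zero, map_zero]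
  | add x y _ _ hx hy => intro r; simp only [smul_add, map_add, hx, hy]
  | smul s x _ hx => intro r; rw [smul_smul, hx]

end forms

end Pool.Agent.Lib.MP_d80bfc_ag
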