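import Pool.Agent.Lib.MP_d80bfc_ag.PV

/-!
# Regular functions on the projective scheme of a homogeneous ideal
-/

open CategoryTheory AlgebraicGeometry Opposite MvPolynomial

noncomputable section

namespace Pool.Agent.Lib.MP_d80bfc_ag

lemma frac_appLE_of_eq {X : Scheme.{0}} {R : CommRingCat.{0}} (f : X ⟶ Spec R) (U : X.Opens)
    (φ : R ⟶ Γ(X, U)) (h : U.ι ≫ f = U.toSpecΓ ≫ Spec.map φ) :
    (Scheme.ΓSpecIso R).inv ≫ f.appLE ⊤ U le_top = φ := by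
  have h1 := congrArg Scheme.Hom.appTop h
  rw [Scheme.Hom.comp_appTop, Scheme.Hom.comp_appTop, Scheme.Opens.toSpecΓ_appTop,
    Scheme.ΓSpecIso_naturality_assoc] at h1
  rw [Iso.inv_comp_eq, ← cancel_mono U.topIso.inv, Category.assoc, ← h1]
  simp only [Scheme.Hom.appLE, Scheme.Hom.appTop, Scheme.Opens.topIso_inv, Scheme.Opens.ι_app]
  exact (Category.assoc _ _ _).trans (congrArg (f.app ⊤ ≫ ·) (X.presheaf.map_comp _ _).symm)

lemma frac_ι_toSpecZero {A σ : Type} [CommRing A] [SetLike σ A] [AddSubgroupClass σ A]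
    (𝒜 : ℕ → σ) [GradedRing 𝒜] :
    (Proj.basicOpen 𝒜 1).ι ≫ Proj.toSpecZero 𝒜 = (Proj.basicOpen 𝒜 1).toSpecΓ ≫
      Spec.map (CommRingCat.ofHom (HomogeneousLocalization.fromZeroRingHom 𝒜 _) ≫
        Proj.awayToSection 𝒜 1) := by
  have (e : Proj.basicOpen 𝒜 1 = ⊤) : (Proj.basicOpen 𝒜 1).ι ≫ (Scheme.topIso _).inv ≫
      (Scheme.isoOfEq _ e).inv = 𝟙 _ := by
    simp only [← Category.assoc, Iso.comp_inv_eq]
    simp only [Scheme.topIso_hom, Scheme.isoOfEq_hom_ι, Category.id_comp]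
  rw [Proj.toSpecZero, reassoc_of% this, Proj.basicOpenToSpec, Spec.map_comp, Category.assoc]

namespace HI

variable {σ : Type} (𝔞 : HI σ)

/-- basic open sets of elements of the coordinate ring -/
def fracD (f : 𝔞.A) : 𝔞.var.left.Opens := Proj.basicOpen 𝔞.gr f

/-- sections defined by homogeneous fractions -/
def fracSec (f : 𝔞.A) : HomogeneousLocalization.Away 𝔞.gr f →+* Fn 𝔞.var (𝔞.fracD f) :=
  (Proj.awayToSection 𝔞.gr f).hom

lemma frac_algebraMap_one (c : ℂ) : algebraMap ℂ (Fn 𝔞.var (𝔞.fracD 1)) c =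
    𝔞.fracSec 1 (HomogeneousLocalization.fromZeroRingHom 𝔞.gr _ (algebraMap ℂ (𝔞.gr 0) c)) := by
  have h := frac_appLE_of_eq 𝔞.var.hom (Proj.basicOpen 𝔞.gr 1)
    (CommRingCat.ofHom (algebraMap ℂ (𝔞.gr 0)) ≫
      CommRingCat.ofHom (HomogeneousLocalization.fromZeroRingHom 𝔞.gr _) ≫
        Proj.awayToSection 𝔞.gr 1) (by
      rw [Spec.map_comp]
      exact (Category.assoc _ _ _).symm.trans
        ((congrArg (· ≫ Spec.map (CommRingCat.ofHom (algebraMap ℂ (𝔞.gr 0))))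
          (frac_ι_toSpecZero 𝔞.gr)).trans (Category.assoc _ _ _)))
  exact congrArg (fun φ => φ.hom c) h

/-- the prime ideal of a point -/
def fracI (x : 𝔞.var.left) : Ideal 𝔞.A :=
  (ProjectiveSpectrum.asHomogeneousIdeal (𝒜 := 𝔞.gr) x).toIdeal

instance fracI_isPrime (x : 𝔞.var.left) : (𝔞.fracI x).IsPrime :=
  ProjectiveSpectrum.isPrime (𝒜 := 𝔞.gr) x

/-- the local ring of the coordinate ring at a point -/
abbrev fracLoc (x : 𝔞.var.left) : Type := Localization.AtPrime (𝔞.fracI x)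

/-- the value of a section at a point -/
def fracVal {U : 𝔞.var.left.Opens} (x : 𝔞.var.left) (hx : x ∈ U) :
    Fn 𝔞.var U →+* 𝔞.fracLoc x where
  toFun s := HomogeneousLocalization.val (𝒜 := 𝔞.gr) (Subtype.val s ⟨x, hx⟩)
  map_one' := HomogeneousLocalization.val_one
  map_mul' _ _ := HomogeneousLocalization.val_mul _ _
  map_zero' := HomogeneousLocalization.val_zero
  map_add' _ _ := HomogeneousLocalization.val_add _ _

lemma frac_ext {U : 𝔞.var.left.Opens} {s t : Fn 𝔞.var U}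
    (h : ∀ x (hx : x ∈ U), 𝔞.fracVal x hx s = 𝔞.fracVal x hx t) : s = t :=
  Subtype.ext (funext fun x => HomogeneousLocalization.val_injective _ (h x.1 x.2))

lemma fracVal_res {U V : 𝔞.var.left.Opens} (h : V ≤ U) (x : 𝔞.var.left) (hx : x ∈ V)
    (s : Fn 𝔞.var U) : 𝔞.fracVal x hx (Fn.res 𝔞.var h s) = 𝔞.fracVal x (h hx) s := rfl

lemma fracVal_sec (f : 𝔞.A) (x : 𝔞.var.left) (hx : x ∈ 𝔞.fracD f)
    (z : HomogeneousLocalization.Away 𝔞.gr f) :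
    𝔞.fracVal x hx (𝔞.fracSec f z) =
      IsLocalization.map (M := Submonoid.powers f) (T := (𝔞.fracI x).primeCompl) (𝔞.fracLoc x)
        (RingHom.id _) (Submonoid.powers_le.mpr hx) z.val :=
  ProjectiveSpectrum.Proj.awayToSection_apply 𝔞.gr f z ⟨x, hx⟩

lemma fracVal_sec_mk {d : ℕ} {f : 𝔞.A} (hf : f ∈ 𝔞.gr d) (k : ℕ) (a : 𝔞.A)
    (ha : a ∈ 𝔞.gr (k • d)) (x : 𝔞.var.left) (hx : x ∈ 𝔞.fracD f) :
    𝔞.fracVal x hx (𝔞.fracSec f (HomogeneousLocalization.Away.mk 𝔞.gr hf k a ha)) *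
      algebraMap 𝔞.A (𝔞.fracLoc x) (f ^ k) = algebraMap 𝔞.A (𝔞.fracLoc x) a := by
  rw [fracVal_sec, HomogeneousLocalization.Away.val_mk, Localization.mk_eq_mk',
    IsLocalization.map_mk']
  exact IsLocalization.mk'_spec _ _ _

lemma frac_isUnit_iff (x : 𝔞.var.left) (q : MvPolynomial σ ℂ) :
    IsUnit (algebraMap 𝔞.A (𝔞.fracLoc x) (𝔞.mkA q)) ↔ x ∈ 𝔞.D q :=
  IsLocalization.AtPrime.isUnit_to_map_iff _ (𝔞.fracI x) _

lemma fracVal_algebraMap {U : 𝔞.var.left.Opens} (x : 𝔞.var.left) (hx : x ∈ U) (c : ℂ) :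
    𝔞.fracVal x hx (algebraMap ℂ (Fn 𝔞.var U) c) =
      algebraMap 𝔞.A (𝔞.fracLoc x) (𝔞.mkA (C c)) := by
  have hU : U ≤ 𝔞.fracD 1 := le_top.trans (Proj.basicOpen_one 𝔞.gr).ge
  rw [← (Fn.res 𝔞.var hU).commutes c, fracVal_res, frac_algebraMap_one, fracVal_sec]
  have h : (HomogeneousLocalization.fromZeroRingHom 𝔞.gr (Submonoid.powers 1)
      (algebraMap ℂ (𝔞.gr 0) c)).val = algebraMap 𝔞.A _ (𝔞.mkA (C c)) := by
    rw [← algebraMap_eq, AlgHom.commutes]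
    rfl
  rw [h, IsLocalization.map_eq]
  rfl

lemma frac_mem_bo {U : 𝔞.var.left.Opens} (s : Fn 𝔞.var U) (x : 𝔞.var.left) (hx : x ∈ U) :
    x ∈ s.bo ↔ IsUnit (𝔞.fracVal x hx s) := by
  refine (Scheme.mem_basicOpen _ s x hx).trans ?_
  refine (isUnit_map_iff (Proj.stalkIso' 𝔞.gr x) _).symm.trans ?_
  refine (iff_of_eq (congrArg IsUnit (Proj.stalkIso'_germ 𝔞.gr U x hx s))).trans ?_
  exact (HomogeneousLocalization.isUnit_iff_isUnit_val 𝔞.gr (𝔞.fracI x) _).symm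

/-- the image of a polynomial in the local ring at a point -/
def fracPt (x : 𝔞.var.left) : MvPolynomial σ ℂ →+* 𝔞.fracLoc x :=
  (algebraMap 𝔞.A (𝔞.fracLoc x)).comp 𝔞.mkA.toRingHom

lemma fracPt_apply (x : 𝔞.var.left) (p : MvPolynomial σ ℂ) :
    𝔞.fracPt x p = algebraMap 𝔞.A (𝔞.fracLoc x) (𝔞.mkA p) := rfl

lemma fracPt_isUnit {x : 𝔞.var.left} {q : MvPolynomial σ ℂ} (hx : x ∈ 𝔞.D q) :
    IsUnit (𝔞.fracPt x q) := (𝔞.frac_isUnit_iff x q).2 hx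

lemma fracPt_eq_zero (x : 𝔞.var.left) {p : MvPolynomial σ ℂ} (hp : p ∈ 𝔞.I) :
    𝔞.fracPt x p = 0 := by
  rw [fracPt_apply, 𝔞.mkA_eq_zero_iff.2 hp, map_zero]

section frac

variable {n m : ℕ} {q p p' q' : MvPolynomial σ ℂ} {U V : 𝔞.var.left.Opens}

lemma fracVal_frac (hq : q.IsHomogeneous n) (hp : p.IsHomogeneous n) (hU : U ≤ 𝔞.D q)
    (x : 𝔞.var.left) (hx : x ∈ U) :
    𝔞.fracVal x hx (𝔞.frac hq hp hU) * 𝔞.fracPt x q = 𝔞.fracPt x p := by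
  have h := 𝔞.fracVal_sec_mk (𝔞.mkA_mem_gr hq) 1 (𝔞.mkA p)
    (by rw [one_smul]; exact 𝔞.mkA_mem_gr hp) x (hU hx)
  rw [pow_one] at h
  exact h

lemma frac_eq_of_mul (hq : q.IsHomogeneous n) (hp : p.IsHomogeneous n) (hU : U ≤ 𝔞.D q)
    {s : Fn 𝔞.var U} (h : ∀ x (hx : x ∈ U), 𝔞.fracVal x hx s * 𝔞.fracPt x q = 𝔞.fracPt x p) :
    𝔞.frac hq hp hU = s :=
  𝔞.frac_ext fun x hx => (𝔞.fracPt_isUnit (hU hx)).mul_right_cancel
    ((𝔞.fracVal_frac hq hp hU x hx).trans (h x hx).symm)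

lemma res_frac (hq : q.IsHomogeneous n) (hp : p.IsHomogeneous n) (hU : U ≤ 𝔞.D q) (h : V ≤ U) :
    Fn.res 𝔞.var h (𝔞.frac hq hp hU) = 𝔞.frac hq hp (h.trans hU) :=
  𝔞.frac_ext fun _ _ => rfl

lemma frac_add (hq : q.IsHomogeneous n) (hp : p.IsHomogeneous n) (hp' : p'.IsHomogeneous n)
    (hU : U ≤ 𝔞.D q) : 𝔞.frac hq (hp.add hp') hU = 𝔞.frac hq hp hU + 𝔞.frac hq hp' hU :=
  𝔞.frac_eq_of_mul _ _ _ fun x hx => by
    rw [map_add, add_mul, fracVal_frac, fracVal_frac, map_add]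

lemma frac_mul (hq : q.IsHomogeneous n) (hp : p.IsHomogeneous n) (hq' : q'.IsHomogeneous m)
    (hp' : p'.IsHomogeneous m) (hU : U ≤ 𝔞.D q) (hU' : U ≤ 𝔞.D q') (hU'' : U ≤ 𝔞.D (q * q')) :
    𝔞.frac (hq.mul hq') (hp.mul hp') hU'' = 𝔞.frac hq hp hU * 𝔞.frac hq' hp' hU' :=
  𝔞.frac_eq_of_mul _ _ _ fun x hx => by
    rw [map_mul, map_mul, mul_mul_mul_comm, fracVal_frac, fracVal_frac, map_mul]

lemma frac_C_mul (hq : q.IsHomogeneous n) (hp : p.IsHomogeneous n) (hU : U ≤ 𝔞.D q) (a : ℂ) :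
    𝔞.frac hq (hp.C_mul a) hU = a • 𝔞.frac hq hp hU :=
  𝔞.frac_eq_of_mul _ _ _ fun x hx => by
    rw [Algebra.smul_def, map_mul, mul_assoc, fracVal_frac, fracVal_algebraMap, map_mul]
    rfl

lemma frac_self (hq : q.IsHomogeneous n) (hU : U ≤ 𝔞.D q) : 𝔞.frac hq hq hU = 1 :=
  𝔞.frac_eq_of_mul _ _ _ fun x hx => by rw [map_one, one_mul]

/-- cross-multiplication -/
lemma frac_eq_frac (hq : q.IsHomogeneous n) (hp : p.IsHomogeneous n) (hq' : q'.IsHomogeneous m)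
    (hp' : p'.IsHomogeneous m) (hU : U ≤ 𝔞.D q) (hU' : U ≤ 𝔞.D q') (h : p * q' - p' * q ∈ 𝔞.I) :
    𝔞.frac hq hp hU = 𝔞.frac hq' hp' hU' :=
  𝔞.frac_eq_of_mul _ _ _ fun x hx => by
    have h1 := 𝔞.fracPt_eq_zero x h
    rw [map_sub, map_mul, map_mul, sub_eq_zero] at h1
    refine (𝔞.fracPt_isUnit (hU' hx)).mul_right_cancel ?_
    rw [mul_right_comm, fracVal_frac, h1]

lemma bo_frac (hq : q.IsHomogeneous n) (hp : p.IsHomogeneous n) (hU : U ≤ 𝔞.D q) :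
    (𝔞.frac hq hp hU).bo = U ⊓ 𝔞.D p := by
  have key : ∀ x (hx : x ∈ U), x ∈ (𝔞.frac hq hp hU).bo ↔ x ∈ 𝔞.D p := fun x hx => by
    rw [𝔞.frac_mem_bo _ x hx, ← frac_isUnit_iff, ← fracPt_apply,
      ← 𝔞.fracVal_frac hq hp hU x hx, IsUnit.mul_iff, and_iff_left (𝔞.fracPt_isUnit (hU hx))]
  exact le_antisymm (fun x hx => ⟨Fn.bo_le _ hx, (key x (Fn.bo_le _ hx)).1 hx⟩)
    (fun x hx => (key x hx.1).2 hx.2)

lemma fracSec_bijective {d : ℕ} (hd : 0 < d) {f : 𝔞.A} (hf : f ∈ 𝔞.gr d) :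
    Function.Bijective (𝔞.fracSec f) :=
  (Proj.basicOpenIsoAway 𝔞.gr f hf hd).commRingCatIsoToRingEquiv.bijective

/-- every function on `D f` is a fraction with denominator a power of `f` -/
lemma exists_eq_frac {d : ℕ} (hd : 0 < d) {f : MvPolynomial σ ℂ} (hf : f.IsHomogeneous d)
    (hU : U = 𝔞.D f) (s : Fn 𝔞.var U) :
    ∃ (k : ℕ) (p : MvPolynomial σ ℂ) (hp : p.IsHomogeneous (d * k)),
      s = 𝔞.frac (hf.pow k) hp (hU.le.trans (𝔞.D_le_D_pow f k)) := by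
  subst hU
  obtain ⟨z, rfl⟩ := (𝔞.fracSec_bijective hd (𝔞.mkA_mem_gr hf)).2 s
  obtain ⟨k, a, ha, rfl⟩ := HomogeneousLocalization.Away.mk_surjective 𝔞.gr (𝔞.mkA_mem_gr hf) z
  obtain ⟨p, hp, rfl⟩ := id ha
  have hp' : p.IsHomogeneous (d * k) := by
    rw [mul_comm, ← smul_eq_mul]
    exact hp
  refine ⟨k, p, hp', (𝔞.frac_eq_of_mul _ _ _ fun x hx => ?_).symm⟩
  rw [fracPt_apply, map_pow]
  exact 𝔞.fracVal_sec_mk (𝔞.mkA_mem_gr hf) k _ ha x hx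

lemma frac_exists_theta {d : ℕ} (hd : 0 < d) {f : MvPolynomial σ ℂ} (hf : f.IsHomogeneous d) :
    ∃ θ : Fn 𝔞.var (𝔞.D f) →+* Localization.Away (𝔞.mkA f), Function.Injective θ ∧
      ∀ (n : ℕ) (q p : MvPolynomial σ ℂ) (hq : q.IsHomogeneous n) (hp : p.IsHomogeneous n)
        (hU : 𝔞.D f ≤ 𝔞.D q), θ (𝔞.frac hq hp hU) * algebraMap 𝔞.A _ (𝔞.mkA q) =
          algebraMap 𝔞.A _ (𝔞.mkA p) := by
  obtain ⟨d, rfl⟩ : ∃ e, d = e + 1 := ⟨d - 1, by omega⟩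
  have hf' := 𝔞.mkA_mem_gr hf
  let e : HomogeneousLocalization.Away 𝔞.gr (𝔞.mkA f) ≃+* Fn 𝔞.var (𝔞.D f) :=
    RingEquiv.ofBijective (𝔞.fracSec (𝔞.mkA f)) (𝔞.fracSec_bijective hd hf')
  let θ : Fn 𝔞.var (𝔞.D f) →+* Localization.Away (𝔞.mkA f) :=
    (algebraMap (HomogeneousLocalization.Away 𝔞.gr (𝔞.mkA f)) _).comp e.symm.toRingHom
  have hθ : ∀ z, θ (e z) = z.val := fun z => by
    simp [θ]
  refine ⟨θ, (HomogeneousLocalization.val_injective _).comp e.symm.injective,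
    fun n q p hq hp hU => ?_⟩
  have hmk : ∀ {r : MvPolynomial σ ℂ}, r.IsHomogeneous n → ∃ s : Fn 𝔞.var (𝔞.D f),
      θ s * algebraMap 𝔞.A _ (𝔞.mkA f ^ n) = algebraMap 𝔞.A _ (𝔞.mkA (r * q ^ d)) ∧
      ∀ x (hx : x ∈ 𝔞.D f), 𝔞.fracVal x hx s * 𝔞.fracPt x f ^ n =
        𝔞.fracPt x r * 𝔞.fracPt x q ^ d := fun {r} hr => by
    have h1 : 𝔞.mkA (r * q ^ d) ∈ 𝔞.gr (n • (d + 1)) := by
      rw [smul_eq_mul, mul_add, mul_one, add_comm]
      exact 𝔞.mkA_mem_gr (hr.mul (hq.pow d))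
    refine ⟨e (HomogeneousLocalization.Away.mk 𝔞.gr hf' n _ h1), ?_, fun x hx => ?_⟩
    · rw [hθ, HomogeneousLocalization.Away.val_mk, Localization.mk_eq_mk']
      exact IsLocalization.mk'_spec _ _ _
    · rw [← map_pow, ← map_pow, ← map_mul, fracPt_apply, map_pow]
      exact 𝔞.fracVal_sec_mk hf' n _ h1 x hx
  obtain ⟨u, hu1, hu2⟩ := hmk hq
  obtain ⟨z, hz1, hz2⟩ := hmk hp
  have hu : IsUnit u := by
    refine 𝔞.var.left.toRingedSpace.isUnit_of_isUnit_germ _ u fun x hx => ?_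
    refine (Scheme.mem_basicOpen _ u x hx).1 ((𝔞.frac_mem_bo u x hx).2 ?_)
    have h1 := (𝔞.fracPt_isUnit (hU hx)).mul ((𝔞.fracPt_isUnit (hU hx)).pow d)
    rw [← hu2 x hx] at h1
    exact isUnit_of_mul_isUnit_left h1
  have hz : 𝔞.frac hq hp hU * u = z := 𝔞.frac_ext fun x hx => by
    refine ((𝔞.fracPt_isUnit hx).pow n).mul_right_cancel ?_
    rw [map_mul, mul_assoc, hu2, hz2, ← mul_assoc, fracVal_frac]
  have h1 : IsUnit (algebraMap 𝔞.A (Localization.Away (𝔞.mkA f)) (𝔞.mkA (q * q ^ d))) := by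
    rw [← hu1, map_pow]
    exact (hu.map θ).mul ((IsLocalization.Away.algebraMap_isUnit (𝔞.mkA f)).pow n)
  rw [← hz, map_mul, mul_assoc, hu1, map_mul, map_mul, map_mul, map_mul, ← mul_assoc] at hz1
  rw [map_mul, map_mul] at h1
  exact (isUnit_of_mul_isUnit_right h1).mul_right_cancel hz1

lemma frac_eq_zero_iff {d : ℕ} (hd : 0 < d) {f : MvPolynomial σ ℂ} (hf : f.IsHomogeneous d)
    (hUf : U = 𝔞.D f) (hq : q.IsHomogeneous n) (hp : p.IsHomogeneous n) (hU : U ≤ 𝔞.D q) :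
    𝔞.frac hq hp hU = 0 ↔ ∃ k : ℕ, f ^ k * p ∈ 𝔞.I := by
  subst hUf
  constructor
  · intro h
    obtain ⟨θ, -, hθ⟩ := 𝔞.frac_exists_theta hd hf
    have h1 := hθ n q p hq hp hU
    rw [h, map_zero, zero_mul] at h1
    obtain ⟨⟨_, k, rfl⟩, hk⟩ :=
      (IsLocalization.map_eq_zero_iff (Submonoid.powers (𝔞.mkA f)) _ _).1 h1.symm
    refine ⟨k, 𝔞.mkA_eq_zero_iff.1 ?_⟩
    rw [map_mul, map_pow]
    exact hk
  · rintro ⟨k, hk⟩
    refine 𝔞.frac_eq_of_mul _ _ _ fun x hx => ?_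
    have h1 := 𝔞.fracPt_eq_zero x hk
    rw [map_mul, map_pow, ((𝔞.fracPt_isUnit hx).pow k).mul_right_eq_zero] at h1
    rw [map_zero, zero_mul, h1]

/-- universal property of the ring of functions on `D f` -/
theorem exists_ev {d : ℕ} (hd : 0 < d) {f : MvPolynomial σ ℂ} (hf : f.IsHomogeneous d)
    (hUf : U = 𝔞.D f) {B : Type} [CommRing B] [Algebra ℂ B] (ψ : MvPolynomial σ ℂ →ₐ[ℂ] B)
    (hψ : ∀ p ∈ 𝔞.I, ψ p = 0) (hunit : IsUnit (ψ f)) :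
    ∃ ev : Fn 𝔞.var U →ₐ[ℂ] B, ∀ (n : ℕ) (q p : MvPolynomial σ ℂ) (hq : q.IsHomogeneous n)
      (hp : p.IsHomogeneous n) (hU : U ≤ 𝔞.D q), ev (𝔞.frac hq hp hU) * ψ q = ψ p := by
  subst hUf
  obtain ⟨θ, -, hθ⟩ := 𝔞.frac_exists_theta hd hf
  let ψ' : 𝔞.A →+* B := Ideal.Quotient.lift 𝔞.I (ψ : MvPolynomial σ ℂ →+* B) hψ
  let χ : Localization.Away (𝔞.mkA f) →+* B :=
    IsLocalization.Away.lift (𝔞.mkA f) (g := ψ') hunit
  have hχ : ∀ r, χ (algebraMap 𝔞.A _ (𝔞.mkA r)) = ψ r := fun r =>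
    IsLocalization.Away.lift_eq (𝔞.mkA f) (g := ψ') hunit _
  have key : ∀ (n : ℕ) (q p : MvPolynomial σ ℂ) (hq : q.IsHomogeneous n)
      (hp : p.IsHomogeneous n) (hU : 𝔞.D f ≤ 𝔞.D q),
      χ (θ (𝔞.frac hq hp hU)) * ψ q = ψ p := fun n q p hq hp hU => by
    have h1 := congrArg χ (hθ n q p hq hp hU)
    rwa [map_mul, hχ, hχ] at h1
  refine ⟨{ χ.comp θ with commutes' := fun c => ?_ }, key⟩
  have hU : 𝔞.D f ≤ 𝔞.D 1 := le_top.trans 𝔞.D_one.ge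
  have h1 : 𝔞.frac (isHomogeneous_one σ ℂ) (isHomogeneous_C σ c) hU = algebraMap ℂ _ c :=
    𝔞.frac_eq_of_mul _ _ _ fun x hx => by
      rw [map_one, mul_one, fracVal_algebraMap]
      rfl
  have h2 := key 0 1 (C c) (isHomogeneous_one σ ℂ) (isHomogeneous_C σ c) hU
  rw [h1, map_one, mul_one, algHom_C] at h2
  exact h2

end frac

/-- the affine coordinates `x_i / x_a` on an open subset of `D (X a)` -/
def coord (a : σ) {U : 𝔞.var.left.Opens} (hU : U ≤ 𝔞.D (X a)) (i : σ) : Fn 𝔞.var U :=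
  𝔞.frac (isHomogeneous_X ℂ a) (isHomogeneous_X ℂ i) hU

lemma frac_hom_mul_pow {B : Type} [CommRing B] (φ ψ : MvPolynomial σ ℂ →+* B) (t : B)
    (hC : ∀ c, φ (C c) = ψ (C c)) (hX : ∀ i, φ (X i) * t = ψ (X i)) {n : ℕ}
    {p : MvPolynomial σ ℂ} (hp : p.IsHomogeneous n) : φ p * t ^ n = ψ p := by
  conv_lhs => rw [p.as_sum]
  conv_rhs => rw [p.as_sum]
  rw [map_sum, map_sum, Finset.sum_mul]
  refine Finset.sum_congr rfl fun s hs => ?_
  rw [hp.degree_eq_sum_deg_support hs, monomial_eq, map_mul, map_mul, hC, mul_assoc, Finsupp.prod,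
    map_prod, map_prod, ← Finset.prod_pow_eq_pow_sum, ← Finset.prod_mul_distrib]
  refine congrArg _ (Finset.prod_congr rfl fun i _ => ?_)
  rw [map_pow, map_pow, ← mul_pow, hX]

lemma aeval_coord (a : σ) {U : 𝔞.var.left.Opens} (hU : U ≤ 𝔞.D (X a)) {n : ℕ}
    {p : MvPolynomial σ ℂ} (hp : p.IsHomogeneous n) :
    aeval (𝔞.coord a hU) p =
      𝔞.frac (isHomogeneous_X_pow a n) hp (hU.trans (𝔞.D_le_D_pow (X a) n)) := by
  refine (𝔞.frac_eq_of_mul _ _ _ fun x hx => ?_).symm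
  rw [map_pow]
  refine frac_hom_mul_pow ((𝔞.fracVal x hx).comp (aeval (R := ℂ) (𝔞.coord a hU)).toRingHom)
    (𝔞.fracPt x) _ (fun c => ?_) (fun i => ?_) hp
  · exact (congrArg (𝔞.fracVal x hx) (algHom_C _ c)).trans (𝔞.fracVal_algebraMap x hx c)
  · exact (congrArg (fun s => 𝔞.fracVal x hx s * 𝔞.fracPt x (X a)) (aeval_X _ i)).trans
      (𝔞.fracVal_frac _ _ hU x hx)

/-- presentation of the standard affine charts -/
theorem chart_presentation (a : σ) :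
    Function.Surjective (aeval (R := ℂ) (𝔞.coord a le_rfl)) ∧
      RingHom.ker (aeval (R := ℂ) (𝔞.coord a le_rfl)) = 𝔞.I ⊔ Ideal.span {X a - 1} := by
  have hXa : aeval (R := ℂ) (𝔞.coord a le_rfl) (X a : MvPolynomial σ ℂ) = 1 := by
    rw [aeval_X]
    exact 𝔞.frac_self _ _
  have hzero : ∀ {n : ℕ} {p : MvPolynomial σ ℂ}, p.IsHomogeneous n →
      (aeval (R := ℂ) (𝔞.coord a le_rfl) p = 0 ↔ ∃ k : ℕ, X a ^ k * p ∈ 𝔞.I) := fun hp => by
    rw [𝔞.aeval_coord a le_rfl hp]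
    exact 𝔞.frac_eq_zero_iff one_pos (isHomogeneous_X ℂ a) rfl _ _ _
  refine ⟨fun s => ?_, le_antisymm (fun p hp => ?_) (sup_le (fun p hp => ?_) ?_)⟩
  · obtain ⟨k, p, hp, rfl⟩ := 𝔞.exists_eq_frac one_pos (isHomogeneous_X ℂ a) rfl s
    refine ⟨p, ?_⟩
    rw [𝔞.aeval_coord a le_rfl hp]
    exact 𝔞.frac_eq_frac _ _ _ _ _ _ (by rw [one_mul, sub_self]; exact zero_mem _)
  · let P : MvPolynomial σ ℂ := ∑ i ∈ Finset.range (p.totalDegree + 1),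
      X a ^ (p.totalDegree - i) * homogeneousComponent i p
    have hP : P.IsHomogeneous p.totalDegree := IsHomogeneous.sum _ _ _ fun i hi => by
      have h := (isHomogeneous_X_pow (R := ℂ) a (p.totalDegree - i)).mul
        (homogeneousComponent_isHomogeneous i p)
      rwa [Nat.sub_add_cancel (Nat.lt_succ_iff.1 (Finset.mem_range.1 hi))] at h
    have hPp : ∀ {B : Type} [CommRing B] (φ : MvPolynomial σ ℂ →+* B), φ (X a) = 1 →
        φ P = φ p := fun φ h => by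
      conv_rhs => rw [← sum_homogeneousComponent p]
      simp only [P, map_sum, map_mul, map_pow, h, one_pow, one_mul]
    obtain ⟨k, hk⟩ := (hzero hP).1
      ((hPp (aeval (R := ℂ) (𝔞.coord a le_rfl)).toRingHom hXa).trans hp)
    have h1 : Ideal.Quotient.mk (𝔞.I ⊔ Ideal.span {X a - 1}) (X a) = 1 :=
      Ideal.Quotient.eq.2 (Ideal.mem_sup_right (Ideal.subset_span rfl))
    have h2 := Ideal.Quotient.eq_zero_iff_mem.2
      (Ideal.mem_sup_left (T := Ideal.span {X a - 1}) hk)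
    rw [map_mul, map_pow, h1, one_pow, one_mul, hPp _ h1] at h2
    exact Ideal.Quotient.eq_zero_iff_mem.1 h2
  · rw [RingHom.mem_ker, ← sum_homogeneousComponent p, map_sum]
    exact Finset.sum_eq_zero fun i _ => (hzero (homogeneousComponent_isHomogeneous i p)).2
      ⟨0, by rw [pow_zero, one_mul]; exact 𝔞.hom p hp i⟩
  · rw [Ideal.span_singleton_le_iff_mem, RingHom.mem_ker, map_sub, hXa, map_one, sub_self]

end HI

end Pool.Agent.Lib.MP_d80bfc_ag
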