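import Pool.Agent.Lib.MP_d80bfc_ag.Ell

/-!
# TASK GRP: the elliptic curve as a group scheme
-/

open CategoryTheory AlgebraicGeometry Opposite MvPolynomial MonoidalCategory
  CartesianMonoidalCategory

noncomputable section

namespace Pool.Agent.Lib.MP_d80bfc_ag

section laws

open WeierstrassCurve.Projective

/-- the Weierstrass curve -/
def grpW : WeierstrassCurve.Projective ℂ := ⟨0, 0, 0, 0, 1⟩

/-- the first addition law -/
def grpA {R : Type} [CommRing R] (P Q : Fin 3 → R) : Fin 3 → R :=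
  ![-P 0 * Q 1 ^ 2 * P 2 + Q 0 * P 1 ^ 2 * Q 2 - 2 * P 0 * P 1 * Q 1 * Q 2
      + 2 * Q 0 * P 1 * Q 1 * P 2 + 3 * P 0 * P 2 * Q 2 ^ 2 - 3 * Q 0 * P 2 ^ 2 * Q 2,
    3 * P 0 ^ 2 * Q 0 * Q 1 - 3 * P 0 * Q 0 ^ 2 * P 1 + P 1 ^ 2 * Q 1 * Q 2 - P 1 * Q 1 ^ 2 * P 2
      - 3 * P 1 * P 2 * Q 2 ^ 2 + 3 * Q 1 * P 2 ^ 2 * Q 2,
    -3 * P 0 ^ 2 * Q 0 * Q 2 + 3 * P 0 * Q 0 ^ 2 * P 2 + P 1 ^ 2 * Q 2 ^ 2 - Q 1 ^ 2 * P 2 ^ 2]

/-- the second addition law -/
def grpB {R : Type} [CommRing R] (P Q : Fin 3 → R) : Fin 3 → R :=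
  ![(P 0 * Q 1 + Q 0 * P 1) * (P 1 * Q 1 - 3 * P 2 * Q 2)
      - 3 * (P 1 * Q 2 + Q 1 * P 2) * (P 0 * Q 2 + Q 0 * P 2),
    (P 1 * Q 1 + 3 * P 2 * Q 2) * (P 1 * Q 1 - 3 * P 2 * Q 2)
      + 9 * P 0 * Q 0 * (P 0 * Q 2 + Q 0 * P 2),
    (P 1 * Q 2 + Q 1 * P 2) * (P 1 * Q 1 + 3 * P 2 * Q 2)
      + 3 * P 0 * Q 0 * (P 0 * Q 1 + Q 0 * P 1)]

/-- the two addition laws -/
def grpL {R : Type} [CommRing R] (b : Bool) (P Q : Fin 3 → R) : Fin 3 → R :=
  cond b (grpA P Q) (grpB P Q)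

/-- the negation -/
def grpN {R : Type} [CommRing R] (P : Fin 3 → R) : Fin 3 → R := ![P 0, -P 1, P 2]

lemma grp_map_L {R S : Type} [CommRing R] [CommRing S] (φ : R →+* S) (b : Bool)
    (P Q : Fin 3 → R) (i : Fin 3) :
    φ (grpL b P Q i) = grpL b (fun j => φ (P j)) (fun j => φ (Q j)) i := by
  cases b <;> fin_cases i <;> simp [grpL, grpA, grpB, map_ofNat]

lemma grp_map_N {R S : Type} [CommRing R] [CommRing S] (φ : R →+* S) (P : Fin 3 → R)
    (i : Fin 3) : φ (grpN P i) = grpN (fun j => φ (P j)) i := by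
  fin_cases i <;> simp [grpN]

lemma grp_equation_iff (P : Fin 3 → ℂ) :
    grpW.Equation P ↔ P 0 ^ 3 + P 2 ^ 3 - P 1 ^ 2 * P 2 = 0 := by
  rw [equation_iff]
  simp only [grpW]
  constructor <;> intro h <;> linear_combination -h

lemma grp_nonsingular {P : Fin 3 → ℂ} (h0 : P ≠ 0) (h : P 0 ^ 3 + P 2 ^ 3 - P 1 ^ 2 * P 2 = 0) :
    grpW.Nonsingular P := by
  rw [nonsingular_iff, grp_equation_iff]
  refine ⟨h, ?_⟩
  by_contra hc
  simp only [not_or, not_not, grpW] at hc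
  obtain ⟨h1, h2, h3⟩ := hc
  have e0 : P 0 = 0 := by
    have : P 0 ^ 2 = 0 := by linear_combination (-1 / 3 : ℂ) * h1
    exact pow_eq_zero_iff two_ne_zero |>.mp this
  have e2 : P 2 = 0 := by
    have : P 2 ^ 3 = 0 := by
      linear_combination (-1 / 3 : ℂ) * P 2 * h3 + (1 / 6 : ℂ) * P 1 * h2
    exact pow_eq_zero_iff three_ne_zero |>.mp this
  have e1 : P 1 = 0 := by
    have : P 1 ^ 2 = 0 := by linear_combination h3 + 3 * P 2 * e2
    exact pow_eq_zero_iff two_ne_zero |>.mp this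
  apply h0
  funext i
  fin_cases i
  · exact e0
  · exact e1
  · exact e2

lemma grp_ne_zero {P : Fin 3 → ℂ} (h : grpW.Nonsingular P) : P ≠ 0 := by
  rintro rfl
  rw [nonsingular_iff] at h
  simp at h

lemma grp_A_eq (P Q : Fin 3 → ℂ) : grpA P Q = grpW.addXYZ P Q := by
  funext i
  fin_cases i
  · change _ = grpW.addX P Q
    simp only [grpA, addX, grpW, Fin.zero_eta, Matrix.cons_val_zero]
    ring
  · change _ = grpW.addY P Q
    rw [addY, negY_eq]
    simp only [grpA, addX, negAddY, addZ, grpW, Fin.mk_one, Matrix.cons_val_one,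
      Matrix.cons_val_zero]
    ring
  · change _ = grpW.addZ P Q
    simp only [grpA, addZ, grpW, Fin.reduceFinMk, Matrix.cons_val]
    ring

lemma grp_B_self {P : Fin 3 → ℂ} (h : P 0 ^ 3 + P 2 ^ 3 - P 1 ^ 2 * P 2 = 0) :
    grpB P P = grpW.dblXYZ P := by
  funext i
  fin_cases i
  · change _ = grpW.dblX P
    simp only [grpB, dblX, grpW, Fin.zero_eta, Matrix.cons_val_zero]
    ring
  · change _ = grpW.dblY P
    rw [dblY, negY_eq]
    simp only [grpB, negDblY, grpW, Fin.mk_one, Matrix.cons_val_one, Matrix.cons_val_zero]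
    linear_combination (-9 * P 2) * h
  · change _ = grpW.dblZ P
    simp only [grpB, dblZ, negY, grpW, Fin.reduceFinMk, Matrix.cons_val]
    linear_combination (6 * P 1) * h

lemma grp_B_smul (u : ℂ) (P Q : Fin 3 → ℂ) : grpB (u • P) Q = u ^ 2 • grpB P Q := by
  funext i
  fin_cases i <;> simp [grpB] <;> ring

lemma grp_N_eq (P : Fin 3 → ℂ) : grpN P = grpW.neg P := by
  funext i
  fin_cases i
  · rfl
  · change -P 1 = grpW.negY P
    simp [negY, grpW]
  · rfl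

lemma grp_parallel {a b : Fin 3 → ℂ} (ha : a ≠ 0) (hb : b ≠ 0) (h01 : a 0 * b 1 = a 1 * b 0)
    (h02 : a 0 * b 2 = a 2 * b 0) (h12 : a 1 * b 2 = a 2 * b 1) :
    ∃ u : ℂ, u ≠ 0 ∧ b = u • a := by
  have h : ∀ i j, a i * b j = a j * b i := by
    intro i j
    fin_cases i <;> fin_cases j <;>
      first | rfl | exact h01 | exact h02 | exact h12 | exact h01.symm | exact h02.symm
            | exact h12.symm
  obtain ⟨i, hi⟩ := Function.ne_iff.mp ha
  have hi' : a i ≠ 0 := hi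
  have key : b = (b i / a i) • a := by
    funext j
    rw [Pi.smul_apply, smul_eq_mul]
    field_simp
    linear_combination h i j
  refine ⟨b i / a i, ?_, key⟩
  intro h0
  rw [h0, zero_smul] at key
  exact hb key

lemma grp_law {P Q : Fin 3 → ℂ} (hP : grpW.Nonsingular P) (hQ : grpW.Nonsingular Q) :
    (∃ b, grpL b P Q ≠ 0) ∧
      ∀ b, grpL b P Q ≠ 0 → ∃ u : ℂ, u ≠ 0 ∧ grpL b P Q = u • grpW.add P Q := by
  have hadd : grpW.add P Q ≠ 0 := grp_ne_zero (nonsingular_add hP hQ)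
  have eP := (grp_equation_iff P).mp hP.1
  have eQ := (grp_equation_iff Q).mp hQ.1
  by_cases hPQ : P ≈ Q
  · have h1 := add_of_equiv (W' := grpW) hPQ
    obtain ⟨u, rfl⟩ := hPQ
    have hu : (u : ℂ) ≠ 0 := u.ne_zero
    have hA : grpA (u • Q) Q = 0 := by
      have h2 := addXYZ_smul (W' := grpW) Q Q (u : ℂ) 1
      rw [one_smul, addXYZ_self] at h2
      rw [grp_A_eq, Units.smul_def, h2]
      funext i
      fin_cases i <;> simp
    have hB : grpB (u • Q) Q = ((u : ℂ) ^ 2)⁻¹ • grpW.add (u • Q) Q := by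
      have h1' : grpW.add (u • Q) Q = grpW.dblXYZ (u • Q) := h1
      rw [h1', Units.smul_def, grp_B_smul, grp_B_self eQ, dblXYZ_smul, smul_smul]
      congr 1
      field_simp
    have hu2 : ((u : ℂ) ^ 2)⁻¹ ≠ 0 := inv_ne_zero (pow_ne_zero 2 hu)
    refine ⟨⟨false, ?_⟩, fun b hb => ?_⟩
    · change grpB (u • Q) Q ≠ 0
      rw [hB]
      exact smul_ne_zero hu2 hadd
    · cases b
      · exact ⟨_, hu2, hB⟩
      · exact absurd hA hb
  · have h1 : grpA P Q = grpW.add P Q := by rw [add_of_not_equiv hPQ, grp_A_eq]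
    refine ⟨⟨true, ?_⟩, fun b hb => ?_⟩
    · change grpA P Q ≠ 0
      rw [h1]
      exact hadd
    · cases b
      · rw [← h1]
        refine grp_parallel (h1 ▸ hadd) hb ?_ ?_ ?_
        · simp only [grpL, cond_false, grpA, grpB, Matrix.cons_val_zero, Matrix.cons_val_one]
          linear_combination
            (27 * P 2 * Q 0 * Q 2 ^ 3 + 9 * P 2 * Q 0 * Q 1 ^ 2 * Q 2
              - 9 * P 1 * Q 0 * Q 1 * Q 2 ^ 2 - 3 * P 1 * Q 0 * Q 1 ^ 3) * eP
            + (-27 * P 0 * P 2 ^ 3 * Q 2 + 9 * P 0 * P 1 * P 2 ^ 2 * Q 1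
              - 9 * P 0 * P 1 ^ 2 * P 2 * Q 2 + 3 * P 0 * P 1 ^ 3 * Q 1) * eQ
        · simp only [grpL, cond_false, grpA, grpB, Matrix.cons_val_zero, Matrix.cons_val]
          linear_combination
            (-9 * P 2 * Q 0 * Q 1 * Q 2 ^ 2 - 3 * P 2 * Q 0 * Q 1 ^ 3
              - 9 * P 1 * Q 0 * Q 2 ^ 3 - 3 * P 1 * Q 0 * Q 1 ^ 2 * Q 2) * eP
            + (9 * P 0 * P 2 ^ 3 * Q 1 + 9 * P 0 * P 1 * P 2 ^ 2 * Q 2
              + 3 * P 0 * P 1 ^ 2 * P 2 * Q 1 + 3 * P 0 * P 1 ^ 3 * Q 2) * eQ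
        · simp only [grpL, cond_false, grpA, grpB, Matrix.cons_val_zero, Matrix.cons_val_one,
            Matrix.cons_val]
          linear_combination
            (27 * P 0 * Q 0 ^ 2 * Q 2 ^ 2 + 9 * P 0 * Q 0 ^ 2 * Q 1 ^ 2) * eP
            + (-27 * P 0 ^ 2 * P 2 ^ 2 * Q 0 - 9 * P 0 ^ 2 * P 1 ^ 2 * Q 0) * eQ
      · exact ⟨1, one_ne_zero, by rw [one_smul, ← h1]; rfl⟩

lemma grp_eval_cubic (P : Fin 3 → ℂ) : eval P cubic = P 0 ^ 3 + P 2 ^ 3 - P 1 ^ 2 * P 2 := by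
  simp [cubic]

lemma grp_nonsingular_of_rel {p : Pt EV} {P : Fin 3 → ℂ} (h : EI.Rel p P) :
    grpW.Nonsingular P := by
  refine grp_nonsingular h.1 ?_
  rw [← grp_eval_cubic]
  exact h.eval_eq_zero (Ideal.mem_span_singleton_self cubic)

/-- the point of the Weierstrass curve attached to a complex point -/
def grpPt (p : Pt EV) : grpW.Point :=
  ⟨(nonsingularLift_iff _).mpr (grp_nonsingular_of_rel (HI.exists_rel p).choose_spec)⟩

lemma grp_rel_iff (p : Pt EV) (P : Fin 3 → ℂ) : EI.Rel p P ↔ (grpPt p).point = ⟦P⟧ := by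
  have h0 := (HI.exists_rel p).choose_spec
  change _ ↔ (⟦(HI.exists_rel p).choose⟧ : PointClass ℂ) = ⟦P⟧
  constructor
  · intro h
    obtain ⟨u, hu, h1⟩ := h.exists_smul h0
    rw [h1]
    exact smul_eq P hu.isUnit
  · intro h
    obtain ⟨u, hu⟩ : P ≈ (HI.exists_rel p).choose := Quotient.exact h.symm
    rw [← hu]
    exact h0.smul u.ne_zero

lemma grp_bijective : Function.Bijective grpPt := by
  constructor
  · intro p q h
    obtain ⟨P, hP⟩ := HI.exists_rel p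
    refine hP.unique ((grp_rel_iff q P).mpr ?_)
    rw [← h]
    exact (grp_rel_iff p P).mp hP
  · rintro @⟨⟨P⟩, hP⟩
    have hP' : grpW.Nonsingular P := hP
    obtain ⟨p, hp⟩ := HI.exists_pt_rel (𝔞 := EI) (grp_ne_zero hP') (fun r hr => by
      obtain ⟨c, rfl⟩ := Ideal.mem_span_singleton'.mp hr
      rw [map_mul, grp_eval_cubic, (grp_equation_iff P).mp hP'.1, mul_zero])
    exact ⟨p, Point.ext ((grp_rel_iff p P).mp hp)⟩

/-- complex points of the scheme and points of the Weierstrass curve -/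
def grpEq : Pt EV ≃ grpW.Point := Equiv.ofBijective grpPt grp_bijective

lemma grp_rel_iff' (p : Pt EV) (P : Fin 3 → ℂ) : EI.Rel p P ↔ (grpEq p).point = ⟦P⟧ :=
  grp_rel_iff p P

lemma grp_rel_add {p q : Pt EV} {P Q : Fin 3 → ℂ} (hp : EI.Rel p P) (hq : EI.Rel q Q) (b : Bool)
    (hb : grpL b P Q ≠ 0) : EI.Rel (grpEq.symm (grpEq p + grpEq q)) (grpL b P Q) := by
  obtain ⟨u, hu, h⟩ := (grp_law (grp_nonsingular_of_rel hp) (grp_nonsingular_of_rel hq)).2 b hb
  rw [grp_rel_iff', Equiv.apply_symm_apply, Point.add_point, (grp_rel_iff' p P).mp hp,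
    (grp_rel_iff' q Q).mp hq, addMap_eq, h]
  exact (smul_eq _ hu.isUnit).symm

lemma grp_rel_neg {p : Pt EV} {P : Fin 3 → ℂ} (hp : EI.Rel p P) :
    EI.Rel (grpEq.symm (-grpEq p)) (grpN P) := by
  rw [grp_rel_iff', Equiv.apply_symm_apply, Point.neg_point, (grp_rel_iff' p P).mp hp,
    negMap_eq, grp_N_eq]

end laws

lemma grp_local {S : Var} (f : S ⟶ EV) (p₀ : Pt S) :
    ∃ (V : S.left.Opens) (_ : p₀.loc ∈ V) (s : Fin 3 → Fn S V),
      ∀ (p : Pt S) (hp : p.loc ∈ V), EI.Rel (p ≫ f) fun i => p.ev hp (s i) := by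
  obtain ⟨P₀, hP₀⟩ := HI.exists_rel (p₀ ≫ f)
  obtain ⟨a, ha⟩ := Function.ne_iff.mp hP₀.1
  have hmem : ∀ p : Pt S, p.loc ∈ f.left ⁻¹ᵁ EI.D (X a) ↔ Pt.loc (p ≫ f) ∈ EI.D (X a) := by
    intro p
    rw [Pt.loc_comp]
    rfl
  refine ⟨f.left ⁻¹ᵁ EI.D (X a), (hmem p₀).mpr ((hP₀.mem_D_X a).mpr ha),
    fun i => pull f le_rfl (EI.coord a le_rfl i), fun p hp => ?_⟩
  obtain ⟨P, hP⟩ := HI.exists_rel (p ≫ f)
  have hp' := (hmem p).mp hp
  have hPa : P a ≠ 0 := (hP.mem_D_X a).mp hp'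
  have h : (fun i => p.ev hp (pull f le_rfl (EI.coord a le_rfl i))) = (P a)⁻¹ • P := by
    funext i
    rw [Pt.ev_pull p f le_rfl hp hp', hP.ev_coord, Pi.smul_apply, smul_eq_mul, div_eq_inv_mul]
  rw [h]
  exact hP.smul (inv_ne_zero hPa)

lemma grp_exists_add {S : Var} [LocallyOfFiniteType S.hom] [IsReduced S.left] (f g : S ⟶ EV) :
    ∃ h : S ⟶ EV, ∀ p : Pt S, grpEq (p ≫ h) = grpEq (p ≫ f) + grpEq (p ≫ g) := by
  obtain ⟨h, hh⟩ := HI.exists_hom (𝔞 := EI) S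
    (fun p => grpEq.symm (grpEq (p ≫ f) + grpEq (p ≫ g))) (fun p₀ => by
      obtain ⟨V, hV, s, hs⟩ := grp_local f p₀
      obtain ⟨V', hV', t, ht⟩ := grp_local g p₀
      let s' : Fin 3 → Fn S (V ⊓ V') := fun i => Fn.res S inf_le_left (s i)
      let t' : Fin 3 → Fn S (V ⊓ V') := fun i => Fn.res S inf_le_right (t i)
      have key : ∀ (p : Pt S) (hp : p.loc ∈ V ⊓ V') (b : Bool) (i : Fin 3),
          p.ev hp (grpL b s' t' i) =
            grpL b (fun j => p.ev hp.1 (s j)) (fun j => p.ev hp.2 (t j)) i := by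
        intro p hp b i
        have h1 := grp_map_L (p.ev hp : Fn S (V ⊓ V') →+* ℂ) b s' t' i
        have h2 : (fun j => (p.ev hp : Fn S (V ⊓ V') →+* ℂ) (s' j)) = fun j => p.ev hp.1 (s j) :=
          funext fun j => Pt.ev_res p inf_le_left hp (s j)
        have h3 : (fun j => (p.ev hp : Fn S (V ⊓ V') →+* ℂ) (t' j)) = fun j => p.ev hp.2 (t j) :=
          funext fun j => Pt.ev_res p inf_le_right hp (t j)
        rw [h2, h3] at h1
        exact h1
      obtain ⟨b, hb⟩ := (grp_law (grp_nonsingular_of_rel (hs p₀ hV))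
        (grp_nonsingular_of_rel (ht p₀ hV'))).1
      obtain ⟨i, hi⟩ := Function.ne_iff.mp hb
      have h₀ : p₀.loc ∈ V ⊓ V' := ⟨hV, hV'⟩
      refine ⟨(grpL b s' t' i).bo, (Pt.ev_ne_zero_iff p₀ h₀ _).mp ?_,
        fun j => Fn.res S (Fn.bo_le _) (grpL b s' t' j), fun p hp => ?_⟩
      · rw [key]
        exact hi
      · have hp' : p.loc ∈ V ⊓ V' := Fn.bo_le _ hp
        have h4 : (fun j => p.ev hp (Fn.res S (Fn.bo_le _) (grpL b s' t' j))) =
            grpL b (fun j => p.ev hp'.1 (s j)) (fun j => p.ev hp'.2 (t j)) := by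
          funext j
          rw [Pt.ev_res, key]
        rw [h4]
        refine grp_rel_add (hs p hp'.1) (ht p hp'.2) b (Function.ne_iff.mpr ⟨i, ?_⟩)
        rw [← key p hp']
        exact (Pt.ev_ne_zero_iff p hp' _).mpr hp)
  exact ⟨h, fun p => by rw [hh p, Equiv.apply_symm_apply]⟩

lemma grp_exists_neg {S : Var} [LocallyOfFiniteType S.hom] [IsReduced S.left] (f : S ⟶ EV) :
    ∃ h : S ⟶ EV, ∀ p : Pt S, grpEq (p ≫ h) = -grpEq (p ≫ f) := by
  obtain ⟨h, hh⟩ := HI.exists_hom (𝔞 := EI) S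
    (fun p => grpEq.symm (-grpEq (p ≫ f))) (fun p₀ => by
      obtain ⟨V, hV, s, hs⟩ := grp_local f p₀
      refine ⟨V, hV, grpN s, fun p hp => ?_⟩
      have h1 : (fun j => p.ev hp (grpN s j)) = grpN fun j => p.ev hp (s j) :=
        funext fun j => grp_map_N (p.ev hp : Fn S V →+* ℂ) s j
      rw [h1]
      exact grp_rel_neg (hs p hp))
  exact ⟨h, fun p => by rw [hh p, Equiv.apply_symm_apply]⟩

lemma grp_smooth_tensor (X Y : Var) [Smooth X.hom] [Smooth Y.hom] : Smooth (X ⊗ Y).hom := by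
  rw [Over.tensorObj_hom]
  infer_instance

lemma grp_smooth_unit : Smooth (𝟙_ Var).hom :=
  inferInstanceAs (Smooth (𝟙 (Spec (CommRingCat.of ℂ))))

lemma grp_hom_ext {S : Var} [Smooth S.hom] {f g : S ⟶ EV}
    (h : ∀ p : Pt S, grpEq (p ≫ f) = grpEq (p ≫ g)) : f = g := by
  have := isReduced_of_smooth S
  exact hom_ext_pt fun p => grpEq.injective (h p)

theorem EV_grp : Nonempty (GrpObj EV) := by
  have := EV_smooth
  have := grp_smooth_unit
  have := grp_smooth_tensor EV EV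
  have := grp_smooth_tensor (EV ⊗ EV) EV
  have := grp_smooth_tensor (𝟙_ Var) EV
  have := grp_smooth_tensor EV (𝟙_ Var)
  have := isReduced_of_smooth EV
  have := isReduced_of_smooth (EV ⊗ EV)
  obtain ⟨μ, hμ⟩ := grp_exists_add (fst EV EV) (snd EV EV)
  obtain ⟨ν, hν⟩ := grp_exists_neg (𝟙 EV)
  have hμ' : ∀ {S : Var} (p : Pt S) (f : S ⟶ EV ⊗ EV),
      grpEq (p ≫ f ≫ μ) = grpEq (p ≫ f ≫ fst EV EV) + grpEq (p ≫ f ≫ snd EV EV) := by
    intro S p f
    rw [← Category.assoc, hμ, Category.assoc, Category.assoc]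
  have hone : ∀ q : Pt (𝟙_ Var), grpEq (q ≫ grpEq.symm 0) = 0 := by
    intro q
    rw [toUnit_unique q (𝟙 _), Category.id_comp, Equiv.apply_symm_apply]
  refine ⟨{ one := grpEq.symm 0
            mul := μ
            inv := ν
            one_mul := grp_hom_ext fun p => ?_
            mul_one := grp_hom_ext fun p => ?_
            mul_assoc := grp_hom_ext fun p => ?_
            left_inv := grp_hom_ext fun p => ?_
            right_inv := grp_hom_ext fun p => ?_ }⟩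
  · rw [hμ', whiskerRight_fst, whiskerRight_snd, ← Category.assoc, hone, zero_add, leftUnitor_hom]
  · rw [hμ', whiskerLeft_fst, whiskerLeft_snd, ← Category.assoc p (snd _ _), hone, add_zero,
      rightUnitor_hom]
  · rw [hμ', whiskerRight_fst, whiskerRight_snd, hμ', ← Category.assoc (α_ EV EV EV).hom, hμ',
      Category.assoc, Category.assoc, whiskerLeft_fst, whiskerLeft_snd,
      ← Category.assoc (α_ EV EV EV).hom, hμ', associator_hom_fst, Category.assoc,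
      Category.assoc, associator_hom_snd_fst, associator_hom_snd_snd, add_assoc]
  · rw [hμ', lift_fst, lift_snd, hν, neg_add_cancel, ← Category.assoc, hone]
  · rw [hμ', lift_fst, lift_snd, hν, add_neg_cancel, ← Category.assoc, hone]

end Pool.Agent.Lib.MP_d80bfc_ag
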