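import Pool.Agent.Lib.MP_d80bfc_ag.Kap

/-!
# TASK MINOR: on a chart, the coordinates of the quartic surface are rational functions of the
coordinates of the four cubics
-/

open MvPolynomial

noncomputable section

namespace Pool.Agent.Lib.MP_d80bfc_ag

/-- the variables `X, Y, Z` of a cubic block -/
def exv : Fin 3 → Option (Fin 2) := ![none, some 0, some 1]

/-- the variable `i` of the `j`-th cubic block -/
def wE (j : Fin 4) (i : Fin 3) : Wv := ⟨some j, exv i⟩

/-- the index in `Fin 3` of the chart variable of the `j`-th cubic block -/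
def cE (c : Ch) (j : Fin 4) : Fin 3 := Fin.succ (c (some j) : Fin 2)

lemma minor_exv_succ (i : Fin 2) : exv (Fin.succ i) = some i := by
  fin_cases i <;> rfl

lemma wE_cE (c : Ch) (j : Fin 4) : wE j (cE c j) = ⟨some j, some (c (some j))⟩ := by
  unfold wE cE
  exact congrArg (Sigma.mk (β := fun b : Bk => Option (Ix b)) (some j))
    (minor_exv_succ (c (some j)))

/-- inverse of `exv` -/
def minorIv : Option (Fin 2) → Fin 3
  | none => 0
  | some i => i.succ

lemma minor_exv_iv (x : Option (Fin 2)) : exv (minorIv x) = x := by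
  cases x with
  | none => rfl
  | some i => exact minor_exv_succ i

lemma minor_wE_iv (j : Fin 4) (x : Option (Ix (some j))) : wE j (minorIv x) = ⟨some j, x⟩ :=
  congrArg (Sigma.mk (β := fun b : Bk => Option (Ix b)) (some j)) (minor_exv_iv x)

/-- the part of a Segre monomial in the cubic blocks -/
def minorW (a : Sg) : MvPolynomial (Fin 4 × Fin 3) ℂ := ∏ j : Fin 4, X (j, minorIv (a (some j)))

/-- the coefficient of the quartic variable `o` in the section `k` -/
def minorF (k : Fin 4) (o : Option (Ix none)) : MvPolynomial (Fin 4 × Fin 3) ℂ :=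
  ∑ a : Sg, if a none = o then cf k a • minorW a else 0

/-- polynomials in the cubic variables inside `Q S` -/
def minorPhi (S : Set Ch) : MvPolynomial (Fin 4 × Fin 3) ℂ →ₐ[ℂ] Q S :=
  aeval fun x : Fin 4 × Fin 3 => tQ S (wE x.1 x.2)

/-- the quartic variables different from `some z` -/
def minorO' (z : Fin 3) (i : Fin 3) : Option (Fin 3) := if i = z then none else some i

lemma minorO'_ne (z i : Fin 3) : minorO' z i ≠ some z := by
  revert z i; decide

lemma minorO'_inj (z i l : Fin 3) : minorO' z i = minorO' z l ↔ i = l := by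
  revert z i l; decide

lemma minorO'_cases (z : Fin 3) (o : Option (Fin 3)) : o = some z ∨ ∃ i, o = minorO' z i := by
  revert z o; decide

lemma minorO'_sum {A : Type} [AddCommMonoid A] (z : Fin 3) (f : Option (Fin 3) → A) :
    ∑ o, f o = f (some z) + ∑ i, f (minorO' z i) := by
  rw [Fintype.sum_option]
  fin_cases z <;> simp [minorO', Fin.sum_univ_three] <;> abel

/-- the quartic variables different from `some z` -/
def minorO (z : Ix none) (i : Fin 3) : Option (Ix none) := minorO' z i

lemma minorO_ne (z : Ix none) (i : Fin 3) : minorO z i ≠ some z := minorO'_ne z i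

lemma minorO_inj (z : Ix none) {i l : Fin 3} : minorO z i = minorO z l ↔ i = l :=
  minorO'_inj z i l

lemma minorO_cases (z : Ix none) (o : Option (Ix none)) : o = some z ∨ ∃ i, o = minorO z i :=
  minorO'_cases z o

lemma minorO_sum {A : Type} [AddCommMonoid A] (z : Ix none) (f : Option (Ix none) → A) :
    ∑ o, f o = f (some z) + ∑ i, f (minorO z i) := minorO'_sum z f

lemma minorPhi_W (S : Set Ch) (a : Sg) :
    minorPhi S (minorW a) = ∏ j : Fin 4, tQ S ⟨some j, a (some j)⟩ := by
  simp only [minorPhi, minorW, map_prod, aeval_X]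
  exact Finset.prod_congr rfl fun j _ => congrArg (tQ S) (minor_wE_iv j (a (some j)))

lemma minor_toQ_wp (S : Set Ch) (a : Sg) :
    toQ S (wp a) = tQ S ⟨none, a none⟩ * minorPhi S (minorW a) := by
  rw [minorPhi_W]
  simp only [toQ, wp, map_prod, aeval_X]
  exact Fintype.prod_option _

lemma minorPhi_F (S : Set Ch) (k : Fin 4) (o : Option (Ix none)) :
    minorPhi S (minorF k o) = ∑ a : Sg, if a none = o then cf k a • minorPhi S (minorW a) else 0 := by
  rw [minorF, map_sum]
  refine Finset.sum_congr rfl fun a _ => ?_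
  split_ifs
  · rw [map_smul]
  · rw [map_zero]

lemma minor_toQ_sp (S : Set Ch) (k : Fin 4) :
    toQ S (sp k) = ∑ o : Option (Ix none), tQ S ⟨none, o⟩ * minorPhi S (minorF k o) := by
  simp only [minorPhi_F, Finset.mul_sum]
  rw [Finset.sum_comm, sp, map_sum]
  refine Finset.sum_congr rfl fun a _ => ?_
  rw [Finset.sum_eq_single (a none)]
  · rw [if_pos rfl, map_smul, minor_toQ_wp, mul_smul_comm]
  · intro o _ ho
    rw [if_neg (Ne.symm ho), mul_zero]
  · intro h
    exact absurd (Finset.mem_univ _) h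

lemma minor_cDQ_mul (S : Set Ch) (D : Derivation ℤ ℂ ℂ) (f g : Q S) :
    cDQ S D (f * g) = f * cDQ S D g + g * cDQ S D f :=
  Subtype.ext (cD_mul D f g)

lemma minor_cDQ_tQ (S : Set Ch) (D : Derivation ℤ ℂ ℂ) (w : Wv) : cDQ S D (tQ S w) = 0 := by
  refine Subtype.ext ?_
  have h := cD_smul_mon D 1 (Pi.single w 1)
  rw [one_smul, D.map_one_eq_zero, zero_smul] at h
  exact h

lemma minor_cDQ_one (S : Set Ch) (D : Derivation ℤ ℂ ℂ) : cDQ S D 1 = 0 := by
  have h := minor_cDQ_mul S D 1 1
  rw [mul_one, one_mul] at h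
  exact left_eq_add.mp h

lemma minor_cDQ_smul (S : Set Ch) (D : Derivation ℤ ℂ ℂ) (a : ℂ) (f : Q S) :
    cDQ S D (a • f) = D a • f + a • cDQ S D f := by
  have h1 : cDQ S D (a • (1 : Q S)) = D a • (1 : Q S) :=
    Subtype.ext (cD_smul_mon D a 0)
  have h2 : a • f = (a • (1 : Q S)) * f := by rw [smul_mul_assoc, one_mul]
  rw [h2, minor_cDQ_mul, h1, smul_mul_assoc, one_mul, mul_smul_comm, mul_one, add_comm]

lemma minor_cDQ_W (S : Set Ch) (D : Derivation ℤ ℂ ℂ) (a : Sg) :
    cDQ S D (minorPhi S (minorW a)) = 0 := by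
  rw [minorPhi_W]
  refine Finset.prod_induction _ (fun f => cDQ S D f = 0) ?_ (minor_cDQ_one S D) ?_
  · intro f g hf hg
    rw [minor_cDQ_mul, hf, hg, mul_zero, mul_zero, add_zero]
  · intro j _
    exact minor_cDQ_tQ S D _

lemma minor_cDQ_F (S : Set Ch) (D : Derivation ℤ ℂ ℂ) {k₀ : Fin 4} {a₀ : Sg}
    (hD : ∀ k' a', D (cf k' a') = if k' = k₀ ∧ a' = a₀ then 1 else 0) (k : Fin 4)
    (o : Option (Ix none)) :
    cDQ S D (minorPhi S (minorF k o)) =
      if k = k₀ ∧ a₀ none = o then minorPhi S (minorW a₀) else 0 := by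
  rw [minorPhi_F, map_sum, Finset.sum_eq_single a₀]
  · by_cases ho : a₀ none = o
    · rw [if_pos ho, minor_cDQ_smul, minor_cDQ_W, smul_zero, add_zero, hD]
      by_cases hk : k = k₀
      · rw [if_pos ⟨hk, rfl⟩, if_pos ⟨hk, ho⟩, one_smul]
      · rw [if_neg fun h => hk h.1, if_neg fun h => hk h.1, zero_smul]
    · rw [if_neg ho, if_neg fun h => ho h.2, map_zero]
  · intro a _ ha
    split_ifs
    · rw [minor_cDQ_smul, minor_cDQ_W, smul_zero, add_zero, hD, if_neg fun h => ha h.2, zero_smul]
    · rw [map_zero]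
  · intro h
    exact absurd (Finset.mem_univ _) h

lemma minor_cDQ_Fp (S : Set Ch) (D : Derivation ℤ ℂ ℂ) (b : Bk) :
    cDQ S D (toQ S (Fp b)) = 0 := by
  refine Subtype.ext ?_
  rw [coe_cDQ, coe_toQ, cD_Fp]
  rfl

/-- three commuting-like derivations detect the diagonal term of a determinant -/
lemma minor_det_der {A : Type} [CommRing A] (δ : Fin 3 → A →+ A)
    (hδ : ∀ i x y, δ i (x * y) = x * δ i y + y * δ i x) (M : Matrix (Fin 3) (Fin 3) A) (u : A)
    (hM : ∀ i k l, δ i (M k l) = if k = i ∧ l = i then u else 0) (hu : ∀ i, δ i u = 0) :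
    δ 0 (δ 1 (δ 2 M.det)) = u ^ 3 := by
  have h2 : δ 2 M.det = u * (M 0 0 * M 1 1 - M 0 1 * M 1 0) := by
    rw [Matrix.det_fin_three]
    simp only [map_add, map_sub, hδ, hM]
    simp
    ring
  have h1 : δ 1 (δ 2 M.det) = u * (u * M 0 0) := by
    rw [h2]
    simp only [map_sub, hδ, hM, hu]
    simp
    ring
  rw [h1]
  simp only [hδ, hM, hu]
  simp
  ring

/-- a derivation that maps the generators of an ideal into it preserves the ideal -/
lemma minor_der_mem {A J : Type} [CommRing A] (δ : A →+ A)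
    (hδ : ∀ x y, δ (x * y) = x * δ y + y * δ x) (v : J → A)
    (hv : ∀ j, δ (v j) ∈ Ideal.span (Set.range v)) {x : A} (hx : x ∈ Ideal.span (Set.range v)) :
    δ x ∈ Ideal.span (Set.range v) := by
  induction hx using Submodule.span_induction with
  | mem x hx =>
    obtain ⟨j, rfl⟩ := hx
    exact hv j
  | zero => rw [map_zero]; exact zero_mem _
  | add x y _ _ hx hy => rw [map_add]; exact add_mem hx hy
  | smul a x hx hx' =>
    rw [smul_eq_mul, hδ]
    exact add_mem (Ideal.mul_mem_left _ _ hx') (Ideal.mul_mem_right _ _ hx)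

/-- the matrix whose determinant is the minor -/
def minorM (c : Ch) : Matrix (Fin 3) (Fin 3) (MvPolynomial (Fin 4 × Fin 3) ℂ) :=
  Matrix.of fun k i => minorF k.castSucc (minorO (c none) i)

lemma minor_W_update (c : Ch) (o : Option (Ix none)) :
    minorW (Function.update c.sg none o) = minorW c.sg := by
  unfold minorW
  refine Finset.prod_congr rfl fun j _ => ?_
  rw [Function.update_of_ne (Option.some_ne_none j)]

lemma minor_det_notMem (c : Ch) (S : Set Ch)
    (hm : minorPhi S (minorM c).det ∈ Ideal.span (Set.range fun j => toQ S (rel c j))) :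
    minorPhi S (minorW c.sg) ^ 3 ∈ Ideal.span (Set.range fun j => toQ S (rel c j)) := by
  choose D₁ hD₁ using fun i : Fin 3 =>
    cf_spec i.castSucc (Function.update c.sg none (minorO (c none) i))
  choose D₂ hD₂ using fun i : Fin 3 => cf_spec i.castSucc c.sg
  let δ : Fin 3 → Q S →+ Q S := fun i =>
    cDQ S (D₁ i) - (AddMonoidHom.mulLeft (tQ S ⟨none, minorO (c none) i⟩)).comp (cDQ S (D₂ i))
  have hδa : ∀ i f, δ i f =
      cDQ S (D₁ i) f - tQ S ⟨none, minorO (c none) i⟩ * cDQ S (D₂ i) f := fun i f => rfl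
  have hδ : ∀ i x y, δ i (x * y) = x * δ i y + y * δ i x := by
    intro i x y
    simp only [hδa, minor_cDQ_mul]
    ring
  have hδt : ∀ i w, δ i (tQ S w) = 0 := by
    intro i w
    rw [hδa, minor_cDQ_tQ, minor_cDQ_tQ, mul_zero, sub_zero]
  have hδ1 : ∀ i, δ i 1 = 0 := by
    intro i
    rw [hδa, minor_cDQ_one, minor_cDQ_one, mul_zero, sub_zero]
  have hu : ∀ i, δ i (minorPhi S (minorW c.sg)) = 0 := by
    intro i
    rw [hδa, minor_cDQ_W, minor_cDQ_W, mul_zero, sub_zero]
  have hF : ∀ i (k l : Fin 3), δ i (minorPhi S (minorF k.castSucc (minorO (c none) l))) =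
      if k = i ∧ l = i then minorPhi S (minorW c.sg) else 0 := by
    intro i k l
    rw [hδa, minor_cDQ_F S _ (hD₁ i), minor_cDQ_F S _ (hD₂ i), minor_W_update,
      Function.update_self,
      if_neg (show ¬ (k.castSucc = i.castSucc ∧ c.sg none = minorO (c none) l) from
        fun h => minorO_ne (c none) l h.2.symm), mul_zero, sub_zero]
    refine if_congr (and_congr Fin.castSucc_inj ?_) rfl rfl
    exact (minorO_inj (c none)).trans eq_comm
  have hF0 : ∀ i (k : Fin 3), δ i (minorPhi S (minorF k.castSucc (some (c none)))) =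
      if k = i then -(tQ S ⟨none, minorO (c none) i⟩ * minorPhi S (minorW c.sg)) else 0 := by
    intro i k
    rw [hδa, minor_cDQ_F S _ (hD₁ i), minor_cDQ_F S _ (hD₂ i), Function.update_self,
      if_neg (show ¬ (k.castSucc = i.castSucc ∧ minorO (c none) i = some (c none)) from
        fun h => minorO_ne (c none) i h.2), zero_sub]
    by_cases hk : k = i
    · rw [if_pos ⟨by rw [hk], rfl⟩, if_pos hk]
    · rw [if_neg fun h => hk (Fin.castSucc_inj.mp h.1), if_neg hk, mul_zero, neg_zero]
  have hgen : ∀ i j, δ i (toQ S (rel c j)) ∈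
      Ideal.span (Set.range fun j => toQ S (rel c j)) := by
    intro i j
    rcases j with b | k | b
    · change δ i (toQ S (Fp b)) ∈ _
      rw [hδa, minor_cDQ_Fp, minor_cDQ_Fp, mul_zero, sub_zero]
      exact zero_mem _
    · change δ i (toQ S (sp k.castSucc)) ∈ _
      rw [minor_toQ_sp, map_sum]
      simp only [hδ, hδt, mul_zero, add_zero]
      rw [minorO_sum (c none)
        (fun o => tQ S ⟨none, o⟩ * δ i (minorPhi S (minorF k.castSucc o)))]
      simp only [hF, hF0]
      by_cases hk : k = i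
      · rw [if_pos hk, Finset.sum_eq_single i]
        · rw [if_pos ⟨hk, rfl⟩]
          have hmem : toQ S (rel c (.inr (.inr none))) ∈
              Ideal.span (Set.range fun j => toQ S (rel c j)) :=
            Ideal.subset_span ⟨_, rfl⟩
          have he : toQ S (rel c (.inr (.inr none))) = tQ S ⟨none, some (c none)⟩ - 1 := by
            simp [rel, toQ]
          rw [he] at hmem
          convert Ideal.mul_mem_left _
            (-(tQ S ⟨none, minorO (c none) i⟩ * minorPhi S (minorW c.sg))) hmem using 1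
          ring
        · intro l _ hl
          rw [if_neg fun h => hl h.2, mul_zero]
        · intro h
          exact absurd (Finset.mem_univ _) h
      · rw [if_neg hk, mul_zero, zero_add, Finset.sum_eq_zero]
        · exact zero_mem _
        · intro l _
          rw [if_neg fun h => hk h.1, mul_zero]
    · have he : toQ S (rel c (.inr (.inr b))) = tQ S ⟨b, some (c b)⟩ - 1 := by
        simp [rel, toQ]
      rw [he, map_sub, hδt, hδ1, sub_zero]
      exact zero_mem _
  have hdet := minor_det_der δ hδ ((minorPhi S).mapMatrix (minorM c)) (minorPhi S (minorW c.sg))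
    (fun i k l => hF i k l) hu
  rw [← hdet, ← AlgHom.map_det]
  exact minor_der_mem _ (hδ 0) _ (hgen 0) (minor_der_mem _ (hδ 1) _ (hgen 1)
    (minor_der_mem _ (hδ 2) _ (hgen 2) hm))

theorem IsEv.exists_minor {c : Ch} {R : Type} [CommRing R] [Algebra ℂ R] [Nontrivial R]
    {ev : R →ₐ[ℂ] BR 3 {c}} (h : IsEv {c} ev) :
    ∃ m : MvPolynomial (Fin 4 × Fin 3) ℂ,
      aeval (fun x : Fin 4 × Fin 3 => h.kap rfl (tQ {c} (wE x.1 x.2))) m ≠ 0 ∧
      ∀ y : R, ∃ (n : ℕ) (g : MvPolynomial (Fin 4 × Fin 3) ℂ),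
        aeval (fun x : Fin 4 × Fin 3 => h.kap rfl (tQ {c} (wE x.1 x.2))) m ^ n * y =
          aeval (fun x : Fin 4 × Fin 3 => h.kap rfl (tQ {c} (wE x.1 x.2))) g := by
  have hc : c ∈ ({c} : Set Ch) := rfl
  have hψ : (aeval (fun x : Fin 4 × Fin 3 => h.kap hc (tQ {c} (wE x.1 x.2))) :
      MvPolynomial (Fin 4 × Fin 3) ℂ →ₐ[ℂ] R) = (h.kap hc).comp (minorPhi {c}) := by
    ext x : 1
    simp [minorPhi]
  change ∃ m : MvPolynomial (Fin 4 × Fin 3) ℂ,
      aeval (fun x : Fin 4 × Fin 3 => h.kap hc (tQ {c} (wE x.1 x.2))) m ≠ 0 ∧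
      ∀ y : R, ∃ (n : ℕ) (g : MvPolynomial (Fin 4 × Fin 3) ℂ),
        aeval (fun x : Fin 4 × Fin 3 => h.kap hc (tQ {c} (wE x.1 x.2))) m ^ n * y =
          aeval (fun x : Fin 4 × Fin 3 => h.kap hc (tQ {c} (wE x.1 x.2))) g
  rw [hψ]
  set ψ := (h.kap hc).comp (minorPhi {c}) with hψdef
  have hψa : ∀ p, ψ p = h.kap hc (minorPhi {c} p) := fun p => rfl
  refine ⟨(minorM c).det, ?_, ?_⟩
  · intro h0
    have hm : minorPhi {c} (minorM c).det ∈ RingHom.ker (h.kap hc) := h0
    rw [h.ker_kap hc] at hm
    have h3 := minor_det_notMem c {c} hm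
    rw [← h.ker_kap hc, RingHom.mem_ker, map_pow, minorPhi_W, map_prod,
      Finset.prod_eq_one (f := fun j : Fin 4 => h.kap hc (tQ {c} ⟨some j, c.sg (some j)⟩))
        (fun j _ => h.kap_tQ_self hc (some j)), one_pow] at h3
    exact one_ne_zero h3
  · have hrel : ∀ k : Fin 3, h.kap hc (toQ {c} (sp k.castSucc)) = 0 := by
      intro k
      have : toQ {c} (rel c (.inr (.inl k))) ∈ RingHom.ker (h.kap hc) := by
        rw [h.ker_kap hc]
        exact Ideal.subset_span ⟨_, rfl⟩
      exact this
    have hlin : (ψ.mapMatrix (minorM c)).mulVec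
        (fun i => h.kap hc (tQ {c} ⟨none, minorO (c none) i⟩)) =
        fun k => ψ (-minorF k.castSucc (some (c none))) := by
      funext k
      have h1 := hrel k
      rw [minor_toQ_sp, minorO_sum (c none)
        (fun o => tQ {c} ⟨none, o⟩ * minorPhi {c} (minorF k.castSucc o)), map_add, map_mul,
        h.kap_tQ_self hc none, one_mul, map_sum] at h1
      rw [map_neg, hψa, ← eq_neg_of_add_eq_zero_right h1]
      simp only [Matrix.mulVec, dotProduct, map_mul]
      exact Finset.sum_congr rfl fun i _ => mul_comm _ _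
    have hcr : ∀ i, ψ (minorM c).det * h.kap hc (tQ {c} ⟨none, minorO (c none) i⟩) =
        ψ (((minorM c).adjugate.mulVec fun k => -minorF k.castSucc (some (c none))) i) := by
      intro i
      have h1 := congrArg ((ψ.mapMatrix (minorM c)).adjugate.mulVec) hlin
      rw [Matrix.mulVec_mulVec, Matrix.adjugate_mul, Matrix.smul_mulVec, Matrix.one_mulVec,
        ← AlgHom.map_det, ← AlgHom.map_adjugate] at h1
      have h2 := congrFun h1 i
      rw [Pi.smul_apply, smul_eq_mul] at h2
      rw [h2]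
      simp only [Matrix.mulVec, dotProduct, map_sum, map_mul]
      rfl
    have hvar : ∀ w : Wv, ∃ (n : ℕ) (g : MvPolynomial (Fin 4 × Fin 3) ℂ),
        ψ (minorM c).det ^ n * h.kap hc (tQ {c} w) = ψ g := by
      rintro ⟨b, x⟩
      cases b with
      | none =>
        rcases minorO_cases (c none) x with rfl | ⟨i, rfl⟩
        · exact ⟨0, 1, by rw [pow_zero, one_mul, map_one]; exact h.kap_tQ_self hc none⟩
        · exact ⟨1, _, by rw [pow_one]; exact hcr i⟩
      | some j =>
        refine ⟨0, X (j, minorIv x), ?_⟩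
        rw [pow_zero, one_mul, hψa, minorPhi, aeval_X, minor_wE_iv]
    intro y
    obtain ⟨p, rfl⟩ := h.chart_presentation.1 y
    induction p using MvPolynomial.induction_on with
    | C a =>
      refine ⟨0, C a, ?_⟩
      rw [pow_zero, one_mul]
      exact (AlgHom.commutes _ a).trans (AlgHom.commutes ψ a).symm
    | add p q hp hq =>
      obtain ⟨n, g, hg⟩ := hp
      obtain ⟨n', g', hg'⟩ := hq
      refine ⟨n + n', (minorM c).det ^ n' * g + (minorM c).det ^ n * g', ?_⟩
      rw [map_add, map_add, map_mul, map_mul, map_pow, map_pow, ← hg, ← hg']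
      ring
    | mul_X p w hp =>
      obtain ⟨n, g, hg⟩ := hp
      obtain ⟨n', g', hg'⟩ := hvar w
      refine ⟨n + n', g * g', ?_⟩
      have hx : ((h.kap hc).comp (toQ {c})) (X w) = h.kap hc (tQ {c} w) := by
        simp [toQ]
      rw [map_mul, map_mul, ← hg, ← hg', hx]
      ring

end Pool.Agent.Lib.MP_d80bfc_ag
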