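import Pool.Agent.Lib.MP_d80bfc_ag.XV
import Pool.Agent.Lib.MP_d80bfc_ag.AV
import Pool.Agent.Lib.MP_d80bfc_ag.Minor

/-!
# TASK IMM: the map from the threefold to `E^4` is birational onto its image
-/

open CategoryTheory AlgebraicGeometry Opposite MvPolynomial

noncomputable section

namespace Pool.Agent.Lib.MP_d80bfc_ag

/-- the affine coordinate `t_w / t_{c(b(w))}` on the chart `c` -/
def uX (c : Ch) (w : Wv) : Fn XV (US {c}) :=
  (isEv_evX {c} (Set.singleton_nonempty c)).kap rfl (tQ {c} w)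

lemma imm_US_single (c : Ch) : US {c} = UX c := by
  simp [US]

lemma imm_US_pair (c c' : Ch) : US {c, c'} = US {c} ⊓ US {c'} := by
  rw [imm_US_single, imm_US_single]
  simp [US, iInf_or, iInf_inf_eq]

lemma imm_exists_chart (p : Pt XV) : ∃ c : Ch, p.loc ∈ US {c} := by
  have h : p.loc ∈ iSup UX := by rw [iSup_UX]; trivial
  obtain ⟨c, hc⟩ := TopologicalSpace.Opens.mem_iSup.mp h
  exact ⟨c, by rw [imm_US_single]; exact hc⟩

lemma imm_uX_self (c : Ch) (j : Fin 4) : uX c (wE j (cE c j)) = 1 := by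
  rw [wE_cE]
  exact IsEv.kap_tQ_self _ _ _

lemma imm_cubic (c : Ch) (j : Fin 4) : aeval (fun i => uX c (wE j i)) cubic = 0 := by
  have h : toQ {c} (rel c (.inl (some j))) ∈
      RingHom.ker ((isEv_evX {c} (Set.singleton_nonempty c)).kap rfl) := by
    rw [IsEv.ker_kap]
    exact Ideal.subset_span ⟨_, rfl⟩
  rw [RingHom.mem_ker] at h
  rw [← h]
  simp only [cubic, rel, Fp, toQ, map_sub, map_add, map_mul, map_pow, aeval_X]
  rfl

lemma imm_ne_zero (c : Ch) (j : Fin 4) (p : Pt XV) (hp : p.loc ∈ US {c}) :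
    (fun i => p.ev hp (uX c (wE j i))) ≠ 0 := by
  intro h
  have h1 := congrFun h (cE c j)
  simp only [imm_uX_self, map_one, Pi.zero_apply] at h1
  exact one_ne_zero h1

lemma imm_eval_zero (c : Ch) (j : Fin 4) (p : Pt XV) (hp : p.loc ∈ US {c}) :
    ∀ r ∈ EI.I, eval (fun i => p.ev hp (uX c (wE j i))) r = 0 := by
  intro r hr
  obtain ⟨a, rfl⟩ := Ideal.mem_span_singleton'.mp hr
  have h : eval (fun i => p.ev hp (uX c (wE j i))) cubic = 0 := by
    have h2 := congrArg (p.ev hp) (imm_cubic c j)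
    rw [map_zero, ← AlgHom.comp_apply, comp_aeval] at h2
    rw [← coe_aeval_eq_eval]
    exact h2
  rw [map_mul, h, mul_zero]

lemma imm_res_uX {c : Ch} {S : Set Ch} (hc : c ∈ S) (w : Wv) :
    Fn.res XV (biInf_mono (Set.singleton_subset_iff.mpr hc)) (uX c w) =
      (isEv_evX S ⟨c, hc⟩).kap hc (tQ S w) :=
  (isEv_evX {c} (Set.singleton_nonempty c)).kap_res (isEv_evX S ⟨c, hc⟩)
    (Set.singleton_subset_iff.mpr hc) _
    (fun y => evX_res (Set.singleton_subset_iff.mpr hc) (Set.singleton_nonempty c) y) rfl _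

lemma imm_change (c c' : Ch) (p : Pt XV) (hp : p.loc ∈ US {c}) (hp' : p.loc ∈ US {c'})
    (w : Wv) : p.ev hp (uX c w) = p.ev hp (uX c ⟨w.1, some (c' w.1)⟩) * p.ev hp' (uX c' w) := by
  have hS : p.loc ∈ US {c, c'} := by rw [imm_US_pair]; exact ⟨hp, hp'⟩
  have hc : c ∈ ({c, c'} : Set Ch) := Set.mem_insert _ _
  have hc' : c' ∈ ({c, c'} : Set Ch) := Set.mem_insert_of_mem _ rfl
  have e1 : ∀ w, p.ev hp (uX c w) = p.ev hS ((isEv_evX _ ⟨c, hc⟩).kap hc (tQ _ w)) := fun w => by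
    rw [← imm_res_uX hc w, Pt.ev_res]
  have e2 : p.ev hp' (uX c' w) = p.ev hS ((isEv_evX _ ⟨c, hc⟩).kap hc' (tQ _ w)) := by
    have := imm_res_uX hc' w
    rw [show (isEv_evX _ ⟨c, hc⟩).kap hc' (tQ _ w) = _ from this.symm, Pt.ev_res]
  rw [e1, e1, e2, ← map_mul, ← IsEv.kap_tQ_change]

theorem exists_toEV (j : Fin 4) : ∃ f : XV ⟶ EV, ∀ (c : Ch) (p : Pt XV) (hp : p.loc ∈ US {c}),
    EI.Rel (p ≫ f) fun i => p.ev hp (uX c (wE j i)) := by
  have := XV_integral
  choose ch hch using imm_exists_chart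
  choose φ hφ using fun p : Pt XV =>
    HI.exists_pt_rel (imm_ne_zero (ch p) j p (hch p)) (imm_eval_zero (ch p) j p (hch p))
  have key : ∀ (c : Ch) (p : Pt XV) (hp : p.loc ∈ US {c}),
      EI.Rel (φ p) fun i => p.ev hp (uX c (wE j i)) := by
    intro c p hp
    have e : (fun i => p.ev hp (uX c (wE j i))) =
        p.ev hp (uX c ⟨some j, some (ch p (some j))⟩) •
          fun i => p.ev (hch p) (uX (ch p) (wE j i)) := by
      funext i
      exact imm_change c (ch p) p hp (hch p) (wE j i)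
    have hu : p.ev hp (uX c ⟨some j, some (ch p (some j))⟩) ≠ 0 := by
      intro h0
      apply imm_ne_zero c j p hp
      rw [e, h0, zero_smul]
    rw [e]
    exact (hφ p).smul hu
  obtain ⟨f, hf⟩ := HI.exists_hom XV φ fun p₀ =>
    ⟨US {ch p₀}, hch p₀, fun i => uX (ch p₀) (wE j i), key (ch p₀)⟩
  exact ⟨f, fun c p hp => by rw [hf]; exact key c p hp⟩

lemma imm_pull_aeval {X Y : Var} (f : X ⟶ Y) {U : X.left.Opens} {V : Y.left.Opens}
    (h : U ≤ f.left ⁻¹ᵁ V) {ι : Type} (v : ι → Fn Y V) (g : MvPolynomial ι ℂ) :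
    pull f h (aeval v g) = aeval (fun x => pull f h (v x)) g := by
  rw [← AlgHom.comp_apply, comp_aeval]

theorem exists_birational : ∃ f : XV ⟶ AV, IsBirationalOntoImage f := by
  have := XV_integral
  choose fE hfE using exists_toEV
  obtain ⟨c, hc⟩ := exists_nonempty_chart
  obtain ⟨m, hm0, hm⟩ := (isEv_evX {c} (Set.singleton_nonempty c)).exists_minor
  let u : Fin 4 × Fin 3 → Fn XV (US {c}) := fun x => uX c (wE x.1 x.2)
  change aeval u m ≠ 0 at hm0
  change ∀ y, ∃ (n : ℕ) (g : MvPolynomial (Fin 4 × Fin 3) ℂ), aeval u m ^ n * y = aeval u g at hm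
  let f : XV ⟶ AV := liftA fE
  have hrel : ∀ (j : Fin 4) (p : Pt XV) (hp : p.loc ∈ US {c}),
      EI.Rel ((p ≫ f) ≫ prA j) fun i => p.ev hp (u (j, i)) := by
    intro j p hp
    rw [Category.assoc, liftA_prA]
    exact hfE j c p hp
  let V0 : AV.left.Opens := ⨅ j, (prA j).left ⁻¹ᵁ EI.D (X (cE c j))
  have hV0 : ∀ j, V0 ≤ (prA j).left ⁻¹ᵁ EI.D (X (cE c j)) := fun j => iInf_le _ j
  have hD : ∀ (j : Fin 4) (p : Pt XV) (hp : p.loc ∈ US {c}),
      Pt.loc ((p ≫ f) ≫ prA j) ∈ EI.D (X (cE c j)) := by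
    intro j p hp
    rw [(hrel j p hp).mem_D_X]
    change p.ev hp (uX c (wE j (cE c j))) ≠ 0
    rw [imm_uX_self, map_one]
    exact one_ne_zero
  have hmem : ∀ (p : Pt XV), p.loc ∈ US {c} → Pt.loc (p ≫ f) ∈ V0 := by
    intro p hp
    change Pt.loc (p ≫ f) ∈ ((⨅ j, (prA j).left ⁻¹ᵁ EI.D (X (cE c j)) : AV.left.Opens) :
      Set AV.left)
    rw [TopologicalSpace.Opens.coe_iInf, Set.mem_iInter]
    intro j
    have h := hD j p hp
    rw [Pt.loc_comp] at h
    exact h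
  have hle : US {c} ≤ f.left ⁻¹ᵁ V0 := by
    refine le_of_forall_pt fun p hp => ?_
    have h := hmem p hp
    rw [Pt.loc_comp] at h
    exact h
  let v : Fin 4 × Fin 3 → Fn AV V0 := fun x =>
    pull (prA x.1) (hV0 x.1) (EI.coord (cE c x.1) le_rfl x.2)
  have huv : ∀ x, pull f hle (v x) = u x := by
    rintro ⟨j, i⟩
    refine Fn.ext_pt fun p hp => ?_
    rw [p.ev_pull f hle hp (hmem p hp), Pt.ev_pull (p ≫ f) (prA j) (hV0 j) (hmem p hp) (hD j p hp),
      (hrel j p hp).ev_coord]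
    change p.ev hp (u (j, i)) / p.ev hp (uX c (wE j (cE c j))) = _
    rw [imm_uX_self, map_one, div_one]
  have hav : ∀ g, pull f hle (aeval v g) = aeval u g := fun g => by
    rw [imm_pull_aeval]
    simp only [huv]
  have hUV : (aeval u m).bo ≤ f.left ⁻¹ᵁ (aeval v m).bo := by
    refine le_of_forall_pt fun p hp => ?_
    have hp' : p.loc ∈ US {c} := (aeval u m).bo_le hp
    have h1 := (p.ev_ne_zero_iff hp' _).mpr hp
    rw [← hav, p.ev_pull f hle hp' (hmem p hp'), Pt.ev_ne_zero_iff, Pt.loc_comp] at h1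
    exact h1
  have hpr : ∀ g, pull f hUV (Fn.res AV (aeval v m).bo_le (aeval v g)) =
      Fn.res XV (aeval u m).bo_le (aeval u g) := fun g => by
    rw [pull_res f hUV _ ((aeval u m).bo_le.trans hle), ← hav g, res_pull]
  have haff : IsAffineOpen (US {c}) := isAffineOpen_US (Set.singleton_nonempty c)
  refine ⟨f, (aeval u m).bo, ?_, isImmersion_of_surjective f (Fn.isAffineOpen_bo haff _) hUV ?_⟩
  · by_contra hne
    apply hm0
    refine Fn.ext_pt fun p hp => ?_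
    rw [map_zero]
    by_contra h0
    exact hne ⟨p.loc, (p.ev_ne_zero_iff hp _).mp h0⟩
  · intro t
    obtain ⟨n, a, ha⟩ := Fn.exists_pow_mul_eq haff (aeval u m) t
    obtain ⟨n', g, hg⟩ := hm a
    obtain ⟨w, hw⟩ := (Fn.isUnit_res_bo (aeval v m)).exists_left_inv
    have hw' : pull f hUV w * Fn.res XV (aeval u m).bo_le (aeval u m) = 1 := by
      rw [← hpr, ← map_mul, hw, map_one]
    refine ⟨w ^ (n' + n) * Fn.res AV (aeval v m).bo_le (aeval v g), ?_⟩
    rw [map_mul, map_pow, hpr, ← hg, map_mul, map_pow, ← ha, ← mul_assoc (_ ^ n'), ← pow_add,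
      ← mul_assoc, ← mul_pow, hw', one_pow, one_mul]

end Pool.Agent.Lib.MP_d80bfc_ag
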