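import Pool.Agent.Lib.MP_d80bfc_ag.LaurB
import Pool.Agent.Lib.MP_d80bfc_ag.Jac

/-!
# TASK KAP: affine presentations of the threefold, Bertini
-/

noncomputable section

namespace Pool.Agent.Lib.MP_d80bfc_ag

/-- index set of the 13 affine relations -/
abbrev Jx : Type := Bk ⊕ Fin 3 ⊕ Bk

/-- the 13 affine relations on the chart `c` -/
def rel (c : Ch) : Jx → MvPolynomial Wv ℂ
  | .inl b => Fp b
  | .inr (.inl k) => sp k.castSucc
  | .inr (.inr b) => MvPolynomial.X ⟨b, some (c b)⟩ - 1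

lemma card_Wv : Fintype.card Wv = Fintype.card Jx + 3 := by
  simp [Fintype.card_sigma, card_Ix, Fintype.sum_option, nb]

/-- `ev` identifies `R` with the degree zero part of `BR 3 S` -/
structure IsEv (S : Set Ch) {R : Type} [CommRing R] [Algebra ℂ R] (ev : R →ₐ[ℂ] BR 3 S) :
    Prop where
  inj : Function.Injective ev
  range : ∀ x, x ∈ MM 3 0 S ↔ ∃ y, ev y = x

section

variable {S : Set Ch} {R : Type} [CommRing R] [Algebra ℂ R] {ev : R →ₐ[ℂ] BR 3 S}

/-- dehomogenisation with values in `R` -/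
def IsEv.kap (h : IsEv S ev) {c : Ch} (hc : c ∈ S) : Q S →ₐ[ℂ] R :=
  (AlgEquiv.ofInjective ev h.inj).symm.toAlgHom.comp
    (((mkB 3 S).comp (thQ hc)).codRestrict ev.range fun f =>
      (h.range _).mp (mem_MM.mpr ⟨thQ hc f, thL_mem_Hg c f, rfl⟩))

lemma IsEv.ev_kap (h : IsEv S ev) {c : Ch} (hc : c ∈ S) (f : Q S) :
    ev (h.kap hc f) = mkB 3 S (thQ hc f) :=
  congrArg Subtype.val ((AlgEquiv.ofInjective ev h.inj).apply_symm_apply _)

lemma IsEv.kap_surjective (h : IsEv S ev) {c : Ch} (hc : c ∈ S) :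
    Function.Surjective (h.kap hc) := fun y => by
  obtain ⟨f, h1, h2⟩ := mem_MM.1 ((h.range _).2 ⟨y, rfl⟩)
  refine ⟨f, h.inj ?_⟩
  rw [h.ev_kap, ← h2]
  congr 1
  refine Subtype.ext ?_
  rw [coe_thQ, thL_of_mem_Hg c h1, show dg 0 = 0 from rfl, map_zero, neg_zero, mon_zero, mul_one]

lemma kap_chE (c : Ch) (b : Bk) : chE c (Pi.single b 1) = Pi.single ⟨b, some (c b)⟩ 1 := by
  ext ⟨b', o⟩
  by_cases e : b' = b
  · subst e
    simp [chE, Pi.single_apply]
  · simp [chE, e]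

lemma kap_thL_tv (c : Ch) (w : Wv) :
    thL c (tv w) = tv w * mon (-Pi.single ⟨w.1, some (c w.1)⟩ 1) := by
  rw [thL_of_mem_Hg c (tv_mem_Hg w), kap_chE]

lemma kap_tv_mul (w : Wv) : tv w * mon (-Pi.single w 1) = 1 := by
  rw [tv, ← mon_add, add_neg_cancel, mon_zero]

lemma kap_thQ_self {c : Ch} (hc : c ∈ S) (b : Bk) : thQ hc (tQ S ⟨b, some (c b)⟩) = 1 :=
  Subtype.ext ((kap_thL_tv c _).trans (kap_tv_mul _))

lemma IsEv.ker_kap (h : IsEv S ev) {c : Ch} (hc : c ∈ S) :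
    RingHom.ker (h.kap hc) = Ideal.span (Set.range fun j => toQ S (rel c j)) := by
  have h1 : ∀ f, f ∈ RingHom.ker (h.kap hc) ↔ thQ hc f ∈ JI 3 S := fun f => by
    rw [RingHom.mem_ker, ← mkB_eq_zero_iff, ← h.ev_kap hc, map_eq_zero_iff _ h.inj]
  refine le_antisymm (fun f hf => ?_) (Ideal.span_le.2 ?_)
  · rw [← sub_add_cancel f (thQ hc f)]
    refine add_mem (Ideal.span_mono ?_ (sub_thQ_mem hc f)) (Ideal.span_mono ?_ ((h1 f).1 hf))
    · rintro _ ⟨b, rfl⟩
      exact ⟨.inr (.inr b), by simp [rel, toQ]⟩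
    · rintro _ (⟨b, rfl⟩ | ⟨k, hk, rfl⟩)
      · exact ⟨.inl b, rfl⟩
      · exact ⟨.inr (.inl ⟨k, hk⟩), rfl⟩
  · rintro _ ⟨b | k | b, rfl⟩ <;> refine (h1 _).2 ?_
    · exact thQ_mem_JI hc (Ideal.subset_span (.inl ⟨b, rfl⟩))
    · exact thQ_mem_JI hc (Ideal.subset_span (.inr ⟨k.castSucc, k.2, rfl⟩))
    · simp [rel, toQ, kap_thQ_self]

lemma IsEv.kap_tQ_self (h : IsEv S ev) {c : Ch} (hc : c ∈ S) (b : Bk) :
    h.kap hc (tQ S ⟨b, some (c b)⟩) = 1 :=
  h.inj (by rw [h.ev_kap, kap_thQ_self, map_one, map_one])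

/-- change of chart -/
lemma IsEv.kap_tQ_change (h : IsEv S ev) {c c' : Ch} (hc : c ∈ S) (hc' : c' ∈ S) (w : Wv) :
    h.kap hc (tQ S w) = h.kap hc (tQ S ⟨w.1, some (c' w.1)⟩) * h.kap hc' (tQ S w) := by
  refine h.inj ?_
  rw [map_mul, h.ev_kap, h.ev_kap, h.ev_kap, ← map_mul]
  congr 1
  refine Subtype.ext ?_
  change thL c (tv w) = thL c (tv _) * thL c' (tv w)
  rw [kap_thL_tv, kap_thL_tv, kap_thL_tv]
  linear_combination (-(tv w * mon (-Pi.single ⟨w.1, some (c w.1)⟩ 1))) *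
    kap_tv_mul ⟨w.1, some (c' w.1)⟩

/-- naturality in `S` -/
lemma IsEv.kap_res (h : IsEv S ev) {T : Set Ch} {R' : Type} [CommRing R'] [Algebra ℂ R']
    {ev' : R' →ₐ[ℂ] BR 3 T} (h' : IsEv T ev') (hST : S ⊆ T) (ρ : R →ₐ[ℂ] R')
    (hρ : ∀ y, ev' (ρ y) = resB 3 hST (ev y)) {c : Ch} (hc : c ∈ S) (f : Q S) :
    ρ (h.kap hc f) = h'.kap (hST hc) (incQ hST f) :=
  h'.inj (by rw [hρ, h.ev_kap, h'.ev_kap]; rfl)

lemma IsEv.finiteType (h : IsEv S ev) (hS : S.Nonempty) : Algebra.FiniteType ℂ R :=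
  (finiteType_Q S).of_surjective _ (h.kap_surjective hS.some_mem)

end

open MvPolynomial

lemma kap_toQ_pderiv (S : Set Ch) (w : Wv) (q : MvPolynomial Wv ℂ) :
    toQ S (pderiv w q) = pdQ S w (toQ S q) :=
  Subtype.ext (by rw [coe_pdQ, coe_toQ, coe_toQ, pdL_toL])

lemma kap_euler {S : Set Ch} (p : Q S →ₐ[ℂ] ℂ) {q : MvPolynomial Wv ℂ} {d : Bk → ℤ}
    (hq : toL q ∈ Hg d) (b : Bk) :
    ∑ o, p (tQ S ⟨b, o⟩) * p (toQ S (pderiv ⟨b, o⟩ q)) = d b * p (toQ S q) := by
  have : ∑ o, tQ S ⟨b, o⟩ * toQ S (pderiv ⟨b, o⟩ q) = (d b : ℂ) • toQ S q := Subtype.ext (by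
    simpa [coe_toQ, tQ, pdL_toL] using euler hq b)
  simpa using congrArg p this

lemma kap_pderiv_Fp {w : Wv} {b : Bk} (h : b ≠ w.1) : pderiv w (Fp b) = 0 := by
  have : ∀ o, pderiv w (X ⟨b, o⟩ : MvPolynomial Wv ℂ) = 0 := fun o =>
    pderiv_X_of_ne fun e => h (congrArg Sigma.fst e)
  cases b <;> simp only [Fp, map_add, map_sub, map_sum, Derivation.leibniz, Derivation.leibniz_pow,
    this] <;> simp

set_option backward.isDefEq.respectTransparency false in
lemma kap_grad {S : Set Ch} (p : Q S →ₐ[ℂ] ℂ) {b : Bk} {i : Ix b} (h1 : p (tQ S ⟨b, some i⟩) = 1)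
    (h : ∀ o, p (toQ S (pderiv ⟨b, o⟩ (Fp b))) = 0) : False := by
  have a0 : ∀ w, p (toQ S (pderiv w (X w))) = 1 := fun w => by simp
  have a1 : ∀ o o', o' ≠ o → p (toQ S (pderiv ⟨b, o⟩ (X ⟨b, o'⟩))) = 0 := fun o o' e => by
    rw [pderiv_X_of_ne (by simpa using e), map_zero, map_zero]
  have a2 : ∀ w, toQ S (X w) = tQ S w := fun w => aeval_X _ _
  rcases b with _ | j
  · have := h (some i)
    simp only [Fp, map_add, map_sum, Derivation.leibniz_pow, smul_eq_mul, map_nsmul, map_mul,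
      map_pow, a2, a1 (some i) none nofun] at this
    have a3 := Finset.sum_eq_single (s := Finset.univ) (f := fun x : Fin 3 =>
      4 • (p (tQ S ⟨none, some x⟩) ^ (4 - 1) *
        p (toQ S (pderiv ⟨none, some i⟩ (X ⟨none, some x⟩))))) i
      (fun i' _ e => by rw [a1 _ _ fun h => e (Option.some.inj h), mul_zero, smul_zero])
      (fun h => absurd (Finset.mem_univ _) h)
    rw [a3, a0, h1] at this
    norm_num at this
  · have b0 := h (some (0 : Fin 2))
    have b1 := h (some (1 : Fin 2))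
    have e0 : (some (1 : Fin 2) : Option (Ix (some j))) ≠ some (0 : Fin 2) := fun h =>
      absurd (Option.some.inj h : (1 : Fin 2) = 0) (by decide)
    simp only [Fp, map_add, map_sub, Derivation.leibniz_pow, Derivation.leibniz, smul_eq_mul,
      map_nsmul, map_mul, map_pow, a0, a2, a1 _ _ e0, a1 _ _ e0.symm, a1 (some _) none nofun]
      at b0 b1
    rcases (by decide : ∀ i : Fin 2, i = 0 ∨ i = 1) i with rfl | rfl <;> rw [h1] at b0 b1 <;>
      simp_all

/-- Bertini: the Jacobian matrix of the 13 relations has full rank at every point -/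
theorem bertini {S : Set Ch} (c : Ch) (p : Q S →ₐ[ℂ] ℂ) (hp : ∀ j, p (toQ S (rel c j)) = 0) :
    LinearIndependent ℂ fun j w => p (toQ S (MvPolynomial.pderiv w (rel c j))) := by
  classical
  refine Fintype.linearIndependent_iff.2 fun g hg => ?_
  have h0 : ∀ w, ∑ j, g j * p (toQ S (pderiv w (rel c j))) = 0 := fun w => by
    simpa using congrFun hg w
  have h1 : ∀ b, p (tQ S ⟨b, some (c b)⟩) = 1 := fun b => by
    simpa [rel, toQ, sub_eq_zero] using hp (.inr (.inr b))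
  have h2 : ∀ k, g (.inr (.inl k)) = 0 := fun k => by
    obtain ⟨D, hD⟩ := cf_spec k.castSucc c.sg
    have a1 : ∀ j, ∑ w, p (toQ S (pderiv w (rel c j))) * D (p (tQ S w)) =
        if j = .inr (.inl k) then -1 else 0 := fun j => by
      have a2 := chain_point p D (toQ S (rel c j))
      rw [hp, map_zero, eq_comm, add_comm, add_eq_zero_iff_eq_neg] at a2
      simp only [kap_toQ_pderiv, a2]
      rcases j with b | k' | b
      · have : cDQ S D (toQ S (Fp b)) = 0 :=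
          Subtype.ext (by rw [coe_cDQ, coe_toQ]; exact cD_Fp D b)
        simp [rel, this]
      · have : cDQ S D (toQ S (sp k'.castSucc)) = ∑ a, D (cf k'.castSucc a) • toQ S (wp a) :=
          Subtype.ext (by simp [coe_cDQ, coe_toQ, cD_sp])
        rw [rel, this]
        by_cases e : k' = k <;> simp [hD, e, wp, toQ, Ch.sg, h1]
      · have a3 : ∀ e, cD D (mon e) = 0 := fun e => by simpa using cD_smul_mon D 1 e
        have : cDQ S D (tQ S ⟨b, some (c b)⟩ - 1) = 0 := by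
          rw [map_sub]
          exact sub_eq_zero.2 (Subtype.ext ((a3 _).trans (a3 0).symm))
        simp [rel, toQ, this]
    have a2 := Finset.sum_eq_zero (s := Finset.univ) fun w _ =>
      mul_eq_zero_of_left (h0 w) (D (p (tQ S w)))
    simp only [Finset.sum_mul, mul_assoc] at a2
    rw [Finset.sum_comm] at a2
    simpa [← Finset.mul_sum, a1] using a2
  have h3 : ∀ b, g (.inr (.inr b)) = 0 := fun b => by
    have a2 := Finset.sum_eq_zero (s := Finset.univ) fun o _ =>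
      mul_eq_zero_of_right (p (tQ S ⟨b, o⟩)) (h0 ⟨b, o⟩)
    simp only [Finset.mul_sum, mul_left_comm (p _) (g _)] at a2
    rw [Finset.sum_comm] at a2
    have a3 := fun b' => kap_euler p (Fp_mem_Hg b') b
    have a4 := fun b' => kap_euler p (q := X ⟨b', some (c b')⟩) (toL_X _ ▸ tv_mem_Hg _) b
    have a5 : ∀ b', p (toQ S (Fp b')) = 0 := fun b' => hp (.inl b')
    have a6 : ∀ b', p (toQ S (X ⟨b', some (c b')⟩)) = 1 := fun b' => by simp [toQ, h1]
    simp only [← Finset.mul_sum, Fintype.sum_sum_type, h2, rel, map_sub, Derivation.map_one_eq_zero,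
      sub_zero, a3, a4, a5, a6] at a2
    simpa [Pi.single_apply] using a2
  have h4 : ∀ b, g (.inl b) = 0 := fun b => by_contra fun e => by
    have a1 : ∀ o, p (toQ S (pderiv ⟨b, o⟩ (Fp b))) = 0 := fun o => by
      have a2 := h0 ⟨b, o⟩
      simp only [Fintype.sum_sum_type, h2, h3, zero_mul, Finset.sum_const_zero, add_zero] at a2
      rw [Finset.sum_eq_single b (fun b' _ h => by simp [rel, kap_pderiv_Fp (w := ⟨b, o⟩) h])
        (by simp)] at a2
      exact (mul_eq_zero.1 a2).resolve_left e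
    exact kap_grad p (h1 b) a1
  rintro (b | k | b)
  exacts [h4 b, h2 k, h3 b]

/-- polynomial presentation of a single chart -/
theorem IsEv.chart_presentation {c : Ch} {R : Type} [CommRing R] [Algebra ℂ R]
    {ev : R →ₐ[ℂ] BR 3 {c}} (h : IsEv {c} ev) :
    Function.Surjective ((h.kap rfl).comp (toQ {c})) ∧
      RingHom.ker ((h.kap rfl).comp (toQ {c})) = Ideal.span (Set.range (rel c)) := by
  have h1 : ∀ f : Q {c}, ∃ (N : ℕ) (q : MvPolynomial Wv ℂ), toQ {c} q = f * toQ {c} (wp c.sg) ^ N :=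
    fun f => by
      obtain ⟨N, hN⟩ := exists_mul_pow_mem_Q_empty (S := {c}) (f := f) (by simpa using f.2)
      obtain ⟨q, hq⟩ := exists_toL_eq hN
      exact ⟨N, q, Subtype.ext (by simpa [coe_toQ] using hq)⟩
  have h2 : h.kap rfl (toQ {c} (wp c.sg)) = 1 := by
    simp [wp, toQ, Ch.sg, h.kap_tQ_self]
  refine ⟨fun y => ?_, le_antisymm (fun q hq => ?_) (Ideal.span_le.2 ?_)⟩
  · obtain ⟨f, rfl⟩ := h.kap_surjective rfl y
    obtain ⟨N, q, hq⟩ := h1 f
    exact ⟨q, by simp [hq, h2]⟩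
  · have h3 : ∀ f ∈ Ideal.span (Set.range fun j => toQ {c} (rel c j)), ∃ N : ℕ,
        ∃ q ∈ Ideal.span (Set.range (rel c)), toQ {c} q = f * toQ {c} (wp c.sg) ^ N := by
      intro f hf
      induction hf using Submodule.span_induction with
      | mem x hx =>
        obtain ⟨j, rfl⟩ := hx
        exact ⟨0, _, Ideal.subset_span ⟨j, rfl⟩, by simp⟩
      | zero => exact ⟨0, 0, zero_mem _, by simp⟩
      | add x y _ _ hx hy =>
        obtain ⟨⟨N, a, a1, a2⟩, M, b, b1, b2⟩ := And.intro hx hy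
        refine ⟨N + M, a * wp c.sg ^ M + b * wp c.sg ^ N, add_mem (Ideal.mul_mem_right _ _ a1)
          (Ideal.mul_mem_right _ _ b1), ?_⟩
        simp only [map_add, map_mul, map_pow, a2, b2]
        ring
      | smul r x _ hx =>
        obtain ⟨⟨N, a, a1, a2⟩, M, b, b2⟩ := And.intro hx (h1 r)
        refine ⟨N + M, a * b, Ideal.mul_mem_right _ _ a1, ?_⟩
        simp only [map_mul, a2, b2, smul_eq_mul]
        ring
    obtain ⟨N, a, a1, a2⟩ := h3 (toQ {c} q) (h.ker_kap rfl ▸ hq)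
    have h4 : a = q * wp c.sg ^ N := toL_injective (by
      simpa [coe_toQ] using congrArg Subtype.val a2)
    have h5 : ∀ b, Ideal.Quotient.mk (Ideal.span (Set.range (rel c))) (X ⟨b, some (c b)⟩) = 1 :=
      fun b => Ideal.Quotient.eq.2 (Ideal.subset_span ⟨.inr (.inr b), rfl⟩)
    rw [← Ideal.Quotient.eq_zero_iff_mem] at a1 ⊢
    simpa [h4, wp, Ch.sg, h5] using a1
  · rintro _ ⟨j, rfl⟩
    exact (h.ker_kap rfl).ge (Ideal.subset_span ⟨j, rfl⟩)

/-- the charts are smooth of dimension three -/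
theorem IsEv.locally_standardSmooth {c : Ch} {R : Type} [CommRing R] [Algebra ℂ R]
    {ev : R →ₐ[ℂ] BR 3 {c}} (h : IsEv {c} ev) :
    RingHom.Locally (RingHom.IsStandardSmoothOfRelativeDimension 3) (algebraMap ℂ R) :=
  MP_d80bfc_ag.locally_standardSmooth 3 card_Wv (rel c) _ h.chart_presentation.1
    h.chart_presentation.2 fun p => bertini c (p.comp (h.kap rfl)) fun j =>
      (congrArg p ((h.ker_kap rfl).ge (Ideal.subset_span ⟨j, rfl⟩))).trans (map_zero p)

end Pool.Agent.Lib.MP_d80bfc_ag
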