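import Pool.Agent.Lib.MP_d80bfc_ag.Mon
import Pool.Agent.Lib.MP_d80bfc_ag.Der

/-!
# The Laurent polynomial ring in the 16 variables of `E^4 × Y`

Blocks: `some j` (`j : Fin 4`) is the `j`-th copy of the cubic `X^3 + Z^3 - Y^2 Z`, `none` is the
Fermat quartic surface.  In each block the variable `none` is the leading one (`X`, resp. `x₀`)
and the variables `some i` are the free ones.
-/

noncomputable section

namespace Pool.Agent.Lib.MP_d80bfc_ag

/-- blocks -/
abbrev Bk : Type := Option (Fin 4)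

/-- free variables of a block -/
def Ix : Bk → Type
  | none => Fin 3
  | some _ => Fin 2

instance instFintypeIx : ∀ b, Fintype (Ix b)
  | none => inferInstanceAs (Fintype (Fin 3))
  | some _ => inferInstanceAs (Fintype (Fin 2))

instance instDecEqIx : ∀ b, DecidableEq (Ix b)
  | none => inferInstanceAs (DecidableEq (Fin 3))
  | some _ => inferInstanceAs (DecidableEq (Fin 2))

instance instNonemptyIx : ∀ b, Nonempty (Ix b)
  | none => ⟨(0 : Fin 3)⟩
  | some _ => ⟨(0 : Fin 2)⟩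

/-- degree of the equation of a block, also its number of variables -/
def nb : Bk → ℕ
  | none => 4
  | some _ => 3

lemma card_Ix (b : Bk) : Fintype.card (Ix b) + 1 = nb b := by
  cases b <;> rfl

/-- all variables -/
abbrev Wv : Type := Σ b : Bk, Option (Ix b)
/-- charts: one free variable per block -/
abbrev Ch : Type := ∀ b : Bk, Ix b
/-- Segre monomials: one variable per block -/
abbrev Sg : Type := ∀ b : Bk, Option (Ix b)
/-- exponents -/
abbrev Ex : Type := Wv → ℤ
/-- Laurent polynomials -/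
abbrev L : Type := AddMonoidAlgebra ℂ Ex

/-- the Segre monomial of a chart -/
def Ch.sg (c : Ch) : Sg := fun b => some (c b)

/-- monomials -/
def mon (e : Ex) : L := AddMonoidAlgebra.single e 1

/-- variables -/
def tv (w : Wv) : L := mon (Pi.single w 1)

lemma mon_add (e e' : Ex) : mon (e + e') = mon e * mon e' := by
  simp [mon, AddMonoidAlgebra.single_mul_single]

lemma mon_zero : mon 0 = 1 := rfl

/-- multidegree of an exponent -/
def degE : Ex →+ (Bk → ℤ) where
  toFun e b := ∑ x : Option (Ix b), e ⟨b, x⟩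
  map_zero' := by ext b; simp
  map_add' e e' := by ext b; simp [Finset.sum_add_distrib]

/-- Laurent polynomials of multidegree `d` -/
abbrev Hg (d : Bk → ℤ) : Submodule ℂ L := AddMonoidAlgebra.gradeBy ℂ degE d

/-- the diagonal multidegree `(k, …, k)` -/
def dg (k : ℤ) : Bk → ℤ := fun _ => k

/-- exponents whose negative entries sit at variables used by a chart of `S` -/
def ExS (S : Set Ch) : AddSubmonoid Ex where
  carrier := {e | ∀ w, e w < 0 → ∃ c ∈ S, w.2 = some (c w.1)}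
  zero_mem' w h := absurd h (lt_irrefl _)
  add_mem' {e e'} he he' w h := by
    by_cases h₁ : e w < 0
    · exact he w h₁
    · refine he' w ?_
      have : (e + e') w = e w + e' w := rfl
      omega

lemma ExS_mono {S T : Set Ch} (h : S ⊆ T) : ExS S ≤ ExS T := fun _ he w hw =>
  let ⟨c, hc, e⟩ := he w hw
  ⟨c, h hc, e⟩

/-- Laurent polynomials with poles only along the variables used by `S` -/
def Q (S : Set Ch) : Subalgebra ℂ L where
  carrier := {f | ∀ e ∈ f.coeff.support, e ∈ ExS S}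
  mul_mem' {f g} hf hg e he := by
    classical
    obtain ⟨a, ha, b, hb, rfl⟩ :=
      Finset.mem_add.mp (AddMonoidAlgebra.support_coeff_mul_subset f g he)
    exact add_mem (hf a ha) (hg b hb)
  add_mem' {f g} hf hg e he := by
    classical
    rcases Finset.mem_union.mp (Finsupp.support_add he) with h | h
    · exact hf e h
    · exact hg e h
  algebraMap_mem' r e he := by
    have : e = 0 := by
      have h := Finsupp.support_single_subset (a := (0 : Ex)) (b := r) he
      simpa using h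
    rw [this]
    exact zero_mem _

lemma Q_mono {S T : Set Ch} (h : S ⊆ T) : Q S ≤ Q T := fun _ hf e he => ExS_mono h (hf e he)

lemma mon_mem_Q {S : Set Ch} {e : Ex} (he : e ∈ ExS S) : mon e ∈ Q S := by
  intro e' h
  have h' := Finsupp.support_single_subset (a := e) (b := (1 : ℂ)) h
  rw [Finset.mem_singleton.mp h']
  exact he

lemma tv_mem_Q (S : Set Ch) (w : Wv) : tv w ∈ Q S := by
  refine mon_mem_Q fun w' h => absurd h (not_lt.mpr ?_)
  by_cases hw : w' = w
  · subst hw; simp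
  · simp [hw]

/-- polynomials as Laurent polynomials -/
def toL : MvPolynomial Wv ℂ →ₐ[ℂ] L := MvPolynomial.aeval tv

/-- the variables in `Q S` -/
def tQ (S : Set Ch) (w : Wv) : Q S := ⟨tv w, tv_mem_Q S w⟩

/-- polynomials as elements of `Q S` -/
def toQ (S : Set Ch) : MvPolynomial Wv ℂ →ₐ[ℂ] Q S := MvPolynomial.aeval (tQ S)

lemma coe_toQ (S : Set Ch) (p : MvPolynomial Wv ℂ) : (toQ S p : L) = toL p := by
  have : (Q S).val.comp (toQ S) = toL := by
    ext w : 1
    simp [toQ, toL, tQ]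
  exact DFunLike.congr_fun this p

open MvPolynomial in
/-- the equations of the blocks -/
def Fp : Bk → MvPolynomial Wv ℂ
  | none => X ⟨none, none⟩ ^ 4 + ∑ i : Fin 3, X ⟨none, some i⟩ ^ 4
  | some j => X ⟨some j, none⟩ ^ 3 + X ⟨some j, some (1 : Fin 2)⟩ ^ 3 -
      X ⟨some j, some (0 : Fin 2)⟩ ^ 2 * X ⟨some j, some (1 : Fin 2)⟩

/-- Segre monomials as polynomials -/
def wp (a : Sg) : MvPolynomial Wv ℂ := ∏ b, MvPolynomial.X ⟨b, a b⟩

/-- the generic coefficients -/
def cf (k : Fin 4) (a : Sg) : ℂ := (exists_generic (Fin 4 × Sg)).choose (k, a)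

lemma cf_spec (k : Fin 4) (a : Sg) :
    ∃ D : Derivation ℤ ℂ ℂ, ∀ k' a', D (cf k' a') = if k' = k ∧ a' = a then 1 else 0 := by
  obtain ⟨D, hD⟩ := (exists_generic (Fin 4 × Sg)).choose_spec (k, a)
  exact ⟨D, fun k' a' => by simpa [cf] using hD (k', a')⟩

/-- the four generic sections of multidegree `(1, …, 1)` -/
def sp (k : Fin 4) : MvPolynomial Wv ℂ := ∑ a : Sg, cf k a • wp a

/-- the ideal of the `r`-th complete intersection in `Q S` -/
def JI (r : ℕ) (S : Set Ch) : Ideal (Q S) :=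
  Ideal.span (Set.range (fun b => toQ S (Fp b)) ∪ (fun k => toQ S (sp k)) '' {k | k.val < r})

/-- the multi-homogeneous coordinate ring of the `r`-th complete intersection, localised -/
def BR (r : ℕ) (S : Set Ch) : Type := Q S ⧸ JI r S

instance instCommRingBR (r : ℕ) (S : Set Ch) : CommRing (BR r S) :=
  inferInstanceAs (CommRing (Q S ⧸ JI r S))

instance instAlgebraBR (r : ℕ) (S : Set Ch) : Algebra ℂ (BR r S) :=
  inferInstanceAs (Algebra ℂ (Q S ⧸ JI r S))

/-- the quotient map -/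
def mkB (r : ℕ) (S : Set Ch) : Q S →ₐ[ℂ] BR r S := Ideal.Quotient.mkₐ ℂ (JI r S)

lemma mkB_surjective (r : ℕ) (S : Set Ch) : Function.Surjective (mkB r S) :=
  Ideal.Quotient.mk_surjective

lemma mkB_eq_zero_iff {r : ℕ} {S : Set Ch} {f : Q S} : mkB r S f = 0 ↔ f ∈ JI r S :=
  Ideal.Quotient.eq_zero_iff_mem

lemma mkB_eq_iff {r : ℕ} {S : Set Ch} {f g : Q S} : mkB r S f = mkB r S g ↔ f - g ∈ JI r S :=
  Ideal.Quotient.eq

/-- inclusion `Q S ⊆ Q T` -/
def incQ {S T : Set Ch} (h : S ⊆ T) : Q S →ₐ[ℂ] Q T := Subalgebra.inclusion (Q_mono h)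

lemma incQ_toQ {S T : Set Ch} (h : S ⊆ T) (p : MvPolynomial Wv ℂ) :
    incQ h (toQ S p) = toQ T p :=
  Subtype.ext ((coe_toQ S p).trans (coe_toQ T p).symm)

lemma JI_le_comap (r : ℕ) {S T : Set Ch} (h : S ⊆ T) : JI r S ≤ (JI r T).comap (incQ h) := by
  refine Ideal.span_le.mpr ?_
  rintro _ (⟨b, rfl⟩ | ⟨k, hk, rfl⟩)
  · exact Ideal.mem_comap.mpr (incQ_toQ h _ ▸ Ideal.subset_span (Or.inl ⟨b, rfl⟩))
  · exact Ideal.mem_comap.mpr (incQ_toQ h _ ▸ Ideal.subset_span (Or.inr ⟨k, hk, rfl⟩))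

/-- restriction -/
def resB (r : ℕ) {S T : Set Ch} (h : S ⊆ T) : BR r S →ₐ[ℂ] BR r T :=
  Ideal.quotientMapₐ (JI r T) (incQ h) (JI_le_comap r h)

lemma resB_mkB (r : ℕ) {S T : Set Ch} (h : S ⊆ T) (f : Q S) :
    resB r h (mkB r S f) = mkB r T (incQ h f) := rfl

/-- the piece of degree `(k, …, k)`: the sections of `O(k, …, k)` over the intersection of the
charts in `S` -/
def MM (r : ℕ) (k : ℤ) (S : Set Ch) : Submodule ℂ (BR r S) :=
  ((Hg (dg k)).comap (Q S).val.toLinearMap).map (mkB r S).toLinearMap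

lemma mem_MM {r : ℕ} {k : ℤ} {S : Set Ch} {x : BR r S} :
    x ∈ MM r k S ↔ ∃ f : Q S, (f : L) ∈ Hg (dg k) ∧ mkB r S f = x := Iff.rfl

/-- the system of sections of `O(k, …, k)` on the `r`-th complete intersection -/
def MS (r : ℕ) (k : ℤ) : Sys Ch where
  obj S := MM r k S
  map {S T} h := (resB r h).toLinearMap.restrict (p := MM r k S) (q := MM r k T)
    fun _ hx => by
      obtain ⟨f, hf, rfl⟩ := mem_MM.mp hx
      exact mem_MM.mpr ⟨incQ h f, hf, rfl⟩
  map_refl S x := by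
    obtain ⟨_, f, hf, rfl⟩ := x
    rfl
  map_map h h' x := by
    obtain ⟨_, f, hf, rfl⟩ := x
    rfl

lemma MS_map_coe (r : ℕ) (k : ℤ) {S T : Set Ch} (h : S ⊆ T) (x : MM r k S) :
    Subtype.val (p := fun y => y ∈ MM r k T) ((MS r k).map h x) = resB r h x := rfl

/-- partial derivatives, as linear maps -/
def pdL (w : Wv) : L →ₗ[ℂ] L :=
  (Finsupp.linearCombination ℂ fun e : Ex => (e w : ℂ) • mon (e - Pi.single w 1)) ∘ₗ
    (AddMonoidAlgebra.coeffLinearEquiv ℂ).toLinearMap

/-- a derivation of `ℂ` acting on coefficients -/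
def cD (D : Derivation ℤ ℂ ℂ) : L →+ L where
  toFun := AddMonoidAlgebra.map D.toLinearMap.toAddMonoidHom
  map_zero' := AddMonoidAlgebra.map_zero _
  map_add' := AddMonoidAlgebra.map_add _

/-- the exponent `∑_b d_b · e_{c(b)}` -/
def chE (c : Ch) : (Bk → ℤ) →+ Ex where
  toFun d w := if w.2 = some (c w.1) then d w.1 else 0
  map_zero' := by ext w; simp
  map_add' d d' := by ext w; by_cases h : w.2 = some (c w.1) <;> simp [h]

/-- dehomogenisation with respect to a chart: `t_w ↦ t_w / t_{c(b(w))}` -/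
def thL (c : Ch) : L →ₐ[ℂ] L :=
  AddMonoidAlgebra.mapDomainAlgHom ℂ ℂ (AddMonoidHom.id Ex - (chE c).comp degE)

lemma smul_mon (a : ℂ) (e : Ex) : a • mon e = AddMonoidAlgebra.single e a := by
  simp [mon]

/-- expansion in monomials -/
lemma eq_sum_mon (f : L) : f = ∑ e ∈ f.coeff.support, f.coeff e • mon e := by
  conv_lhs => rw [← AddMonoidAlgebra.sum_coeff_single f]
  simp only [smul_mon]
  rfl

/-- a linear map sends `f` into a submodule if it does so for the monomials of `f` -/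
lemma map_mem_of_mon {M : Type} [AddCommGroup M] [Module ℂ M] (φ : L →ₗ[ℂ] M) (N : Submodule ℂ M)
    {f : L} (h : ∀ e ∈ f.coeff.support, φ (mon e) ∈ N) : φ f ∈ N := by
  rw [eq_sum_mon f, map_sum]
  exact N.sum_mem fun e he => by rw [map_smul]; exact N.smul_mem _ (h e he)

lemma mon_mem_Hg (e : Ex) : mon e ∈ Hg (degE e) :=
  AddMonoidAlgebra.single_mem_gradeBy degE e 1

lemma mem_Hg_iff {d : Bk → ℤ} {f : L} : f ∈ Hg d ↔ ∀ e ∈ f.coeff.support, degE e = d := Iff.rfl

lemma mem_Q_iff {S : Set Ch} {f : L} : f ∈ Q S ↔ ∀ e ∈ f.coeff.support, e ∈ ExS S := Iff.rfl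

lemma pdL_mon (w : Wv) (e : Ex) : pdL w (mon e) = (e w : ℂ) • mon (e - Pi.single w 1) := by
  simp [pdL, mon]

lemma pdL_mem_Q (w : Wv) {S : Set Ch} {f : L} (hf : f ∈ Q S) : pdL w f ∈ Q S := by
  refine map_mem_of_mon (pdL w) (Q S).toSubmodule fun e he => ?_
  rw [pdL_mon]
  by_cases h0 : e w = 0
  · rw [h0, Int.cast_zero, zero_smul]; exact zero_mem _
  refine Submodule.smul_mem _ _ (mon_mem_Q fun w' hw' => hf e he w' ?_)
  by_cases hw : w' = w
  · subst hw
    simp only [Pi.sub_apply, Pi.single_eq_same] at hw'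
    omega
  · simpa [hw] using hw'

lemma cD_mem_Q (D : Derivation ℤ ℂ ℂ) {S : Set Ch} {f : L} (hf : f ∈ Q S) : cD D f ∈ Q S :=
  fun e he => hf e (Finsupp.support_mapRange (hf := map_zero _) he)

lemma chE_mem_ExS {S : Set Ch} {c : Ch} (hc : c ∈ S) (d : Bk → ℤ) : chE c d ∈ ExS S := by
  intro w hw
  by_cases h : w.2 = some (c w.1)
  · exact ⟨c, hc, h⟩
  · simp [chE, h] at hw

lemma thL_mon (c : Ch) (e : Ex) : thL c (mon e) = mon (e - chE c (degE e)) := by
  simp [thL, mon]

lemma thL_mem_Q {S : Set Ch} {c : Ch} (hc : c ∈ S) {f : L} (hf : f ∈ Q S) : thL c f ∈ Q S := by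
  refine map_mem_of_mon (thL c).toLinearMap (Q S).toSubmodule fun e he => ?_
  change thL c (mon e) ∈ Q S
  rw [thL_mon, sub_eq_add_neg, ← map_neg]
  exact mon_mem_Q (add_mem (hf e he) (chE_mem_ExS hc _))

lemma decompose_mon (e : Ex) (d : Bk → ℤ) :
    (DirectSum.decompose Hg (mon e) d : L) = if degE e = d then mon e else 0 := by
  split_ifs with h
  · subst h
    exact DirectSum.decompose_of_mem_same Hg (mon_mem_Hg e)
  · exact DirectSum.decompose_of_mem_ne Hg (mon_mem_Hg e) h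

/-- homogeneous components stay in `Q S` -/
lemma decompose_mem_Q {S : Set Ch} {f : L} (hf : f ∈ Q S) (d : Bk → ℤ) :
    (DirectSum.decompose Hg f d : L) ∈ Q S := by
  refine map_mem_of_mon (GradedAlgebra.proj Hg d) (Q S).toSubmodule fun e he => ?_
  rw [GradedAlgebra.proj_apply, decompose_mon]
  split_ifs
  · exact mon_mem_Q (hf e he)
  · exact zero_mem _

/-- the Segre map -/
def seg : MvPolynomial Sg ℂ →ₐ[ℂ] MvPolynomial Wv ℂ := MvPolynomial.aeval wp

/-- partial derivatives on `Q S` -/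
def pdQ (S : Set Ch) (w : Wv) : Q S →ₗ[ℂ] Q S :=
  (pdL w).restrict (p := (Q S).toSubmodule) (q := (Q S).toSubmodule) fun _ hf => pdL_mem_Q w hf

lemma coe_pdQ (S : Set Ch) (w : Wv) (f : Q S) : (pdQ S w f : L) = pdL w f := rfl

/-- coefficient derivations on `Q S` -/
def cDQ (S : Set Ch) (D : Derivation ℤ ℂ ℂ) : Q S →+ Q S where
  toFun f := ⟨cD D f, cD_mem_Q D f.2⟩
  map_zero' := Subtype.ext (map_zero (cD D))
  map_add' f g := Subtype.ext (map_add (cD D) (f : L) g)

lemma coe_cDQ (S : Set Ch) (D : Derivation ℤ ℂ ℂ) (f : Q S) : (cDQ S D f : L) = cD D f := rfl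

/-- dehomogenisation on `Q S` -/
def thQ {S : Set Ch} {c : Ch} (hc : c ∈ S) : Q S →ₐ[ℂ] Q S :=
  ((thL c).comp (Q S).val).codRestrict (Q S) fun f => thL_mem_Q hc f.2

lemma coe_thQ {S : Set Ch} {c : Ch} (hc : c ∈ S) (f : Q S) : (thQ hc f : L) = thL c f := rfl

end Pool.Agent.Lib.MP_d80bfc_ag
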