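import Pool.Agent.Lib.MP_d80bfc_ag.Laur

/-!
# TASK LAURA: derivations and degrees on the Laurent polynomial ring
-/

noncomputable section

namespace Pool.Agent.Lib.MP_d80bfc_ag

lemma laura_ind {P : L → Prop} (h0 : P 0) (hadd : ∀ f g, P f → P g → P (f + g))
    (hm : ∀ (a : ℂ) (e : Ex), P (a • mon e)) (f : L) : P f := by
  rw [eq_sum_mon f]
  exact Finset.sum_induction _ P hadd h0 fun e _ => hm _ e

lemma laura_mon_sum {ι : Type} (s : Finset ι) (e : ι → Ex) :
    mon (∑ i ∈ s, e i) = ∏ i ∈ s, mon (e i) := by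
  classical
  induction s using Finset.induction_on with
  | empty => simp [mon_zero]
  | insert i s hi ih => rw [Finset.sum_insert hi, Finset.prod_insert hi, mon_add, ih]

lemma laura_mon_pow (e : Ex) (n : ℕ) : mon e ^ n = mon (n • e) := by
  induction n with
  | zero => simp [mon_zero]
  | succ n ih => rw [pow_succ, ih, succ_nsmul, mon_add]

lemma laura_degE_single (w : Wv) (n : ℤ) : degE (Pi.single w n) = Pi.single w.1 n := by
  obtain ⟨b', x'⟩ := w
  ext b
  change ∑ x : Option (Ix b), (Pi.single (⟨b', x'⟩ : Wv) n : Ex) ⟨b, x⟩ = _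
  by_cases h : b = b'
  · subst h
    rw [Finset.sum_eq_single x' (fun x _ hx => Pi.single_eq_of_ne (by simpa using hx) _) (by simp)]
    simp
  · rw [Pi.single_eq_of_ne h]
    exact Finset.sum_eq_zero fun x _ => Pi.single_eq_of_ne (fun c => h (congrArg Sigma.fst c)) _

lemma laura_mon_mem {e : Ex} {d : Bk → ℤ} (h : degE e = d) : mon e ∈ Hg d := h ▸ mon_mem_Hg e

lemma laura_pdL_tv (w w' : Wv) : pdL w (tv w') = if w' = w then 1 else 0 := by
  rw [tv, pdL_mon]
  split_ifs with h
  · subst h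
    simp [mon_zero]
  · simp [Pi.single_eq_of_ne (Ne.symm h)]

lemma laura_algebraMap (a : ℂ) : algebraMap ℂ L a = a • mon 0 := by
  rw [mon_zero, Algebra.algebraMap_eq_smul_one]

lemma laura_toL_wp (a : Sg) : toL (wp a) = mon (∑ b, Pi.single (⟨b, a b⟩ : Wv) 1) := by
  rw [wp, map_prod, laura_mon_sum]
  exact Finset.prod_congr rfl fun b _ => MvPolynomial.aeval_X _ _

lemma pdL_mul (w : Wv) (f g : L) : pdL w (f * g) = f * pdL w g + g * pdL w f := by
  induction f using laura_ind with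
  | h0 => simp
  | hadd f f' h h' => rw [add_mul, map_add, h, h', map_add]; ring
  | hm a e =>
    induction g using laura_ind with
    | h0 => simp
    | hadd g g' h h' => rw [mul_add, map_add, h, h', map_add]; ring
    | hm b e' =>
      simp only [smul_mul_assoc, mul_smul_comm, ← mon_add, map_smul, pdL_mon, smul_smul,
        Pi.add_apply, Int.cast_add]
      rw [← add_sub_assoc, ← add_sub_assoc, add_comm e' e, ← add_smul]
      congr 1
      ring

lemma pdL_toL (w : Wv) (p : MvPolynomial Wv ℂ) :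
    pdL w (toL p) = toL (MvPolynomial.pderiv w p) := by
  classical
  induction p using MvPolynomial.induction_on with
  | C a =>
    rw [MvPolynomial.pderiv_C, map_zero, toL, MvPolynomial.aeval_C, laura_algebraMap, map_smul,
      pdL_mon]
    simp
  | add p q hp hq => simp only [map_add, hp, hq]
  | mul_X p n hp =>
    have e : toL (MvPolynomial.X n) = tv n := MvPolynomial.aeval_X _ _
    rw [map_mul, pdL_mul, hp, Derivation.leibniz, smul_eq_mul, smul_eq_mul, map_add, map_mul,
      map_mul, e, laura_pdL_tv, MvPolynomial.pderiv_X, Pi.single_apply]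
    split_ifs <;> simp

lemma pdL_mem_Hg (w : Wv) {d : Bk → ℤ} {f : L} (hf : f ∈ Hg d) :
    pdL w f ∈ Hg (d - Pi.single w.1 1) := by
  refine map_mem_of_mon (pdL w) _ fun e he => ?_
  rw [pdL_mon]
  exact Submodule.smul_mem _ _ (laura_mon_mem (by rw [map_sub, hf e he, laura_degE_single]))

/-- Euler's identity in the block `b` -/
lemma euler {d : Bk → ℤ} {f : L} (hf : f ∈ Hg d) (b : Bk) :
    ∑ x : Option (Ix b), tv ⟨b, x⟩ * pdL ⟨b, x⟩ f = (d b : ℂ) • f := by
  conv_lhs => rw [eq_sum_mon f]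
  conv_rhs => rw [eq_sum_mon f]
  simp only [map_sum, Finset.mul_sum, Finset.smul_sum]
  rw [Finset.sum_comm]
  refine Finset.sum_congr rfl fun e he => ?_
  have h : d b = ∑ x : Option (Ix b), e ⟨b, x⟩ := (congrFun (hf e he) b).symm
  rw [h, Int.cast_sum, Finset.sum_smul]
  refine Finset.sum_congr rfl fun x _ => ?_
  rw [map_smul, pdL_mon, mul_smul_comm, mul_smul_comm, tv, ← mon_add, add_sub_cancel, smul_comm]

lemma laura_cD (D : Derivation ℤ ℂ ℂ) (a : ℂ) (e : Ex) : cD D (a • mon e) = D a • mon e := by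
  rw [smul_mon, smul_mon]
  exact AddMonoidAlgebra.map_single _ _ _

lemma laura_cD_mon (D : Derivation ℤ ℂ ℂ) (e : Ex) : cD D (mon e) = 0 := by
  simpa using laura_cD D 1 e

lemma cD_mul (D : Derivation ℤ ℂ ℂ) (f g : L) : cD D (f * g) = f * cD D g + g * cD D f := by
  induction f using laura_ind with
  | h0 => simp
  | hadd f f' h h' => rw [add_mul, map_add, h, h', map_add]; ring
  | hm a e =>
    induction g using laura_ind with
    | h0 => simp
    | hadd g g' h h' => rw [mul_add, map_add, h, h', map_add]; ring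
    | hm b e' =>
      rw [smul_mul_smul_comm, ← mon_add, laura_cD, laura_cD, laura_cD, smul_mul_smul_comm,
        smul_mul_smul_comm, ← mon_add, ← mon_add, add_comm e' e, ← add_smul, Derivation.leibniz,
        smul_eq_mul, smul_eq_mul]

lemma cD_smul_mon (D : Derivation ℤ ℂ ℂ) (a : ℂ) (e : Ex) : cD D (a • mon e) = D a • mon e := by
  exact laura_cD D a e

lemma cD_Fp (D : Derivation ℤ ℂ ℂ) (b : Bk) : cD D (toL (Fp b)) = 0 := by
  cases b <;>
    simp only [Fp, toL, map_add, map_sub, map_sum, map_pow, map_mul, MvPolynomial.aeval_X, tv,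
      laura_mon_pow, ← mon_add, laura_cD_mon, Finset.sum_const_zero, add_zero, sub_zero]

lemma cD_sp (D : Derivation ℤ ℂ ℂ) (k : Fin 4) :
    cD D (toL (sp k)) = ∑ a : Sg, D (cf k a) • toL (wp a) := by
  rw [sp, map_sum, map_sum]
  exact Finset.sum_congr rfl fun a _ => by rw [map_smul, laura_toL_wp, laura_cD]

lemma toL_X (w : Wv) : toL (MvPolynomial.X w) = tv w := by
  exact MvPolynomial.aeval_X _ _

lemma tv_mem_Hg (w : Wv) : tv w ∈ Hg (Pi.single w.1 1) := by
  exact laura_mon_mem (laura_degE_single w 1)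

lemma Fp_mem_Hg (b : Bk) : toL (Fp b) ∈ Hg (Pi.single b (nb b : ℤ)) := by
  cases b with
  | none =>
    simp only [Fp, map_add, map_sum, map_pow, toL_X, tv, laura_mon_pow]
    refine add_mem (laura_mon_mem ?_) (Submodule.sum_mem _ fun i _ => laura_mon_mem ?_) <;>
      rw [map_nsmul, laura_degE_single, ← Pi.single_smul] <;> rfl
  | some j =>
    simp only [Fp, map_add, map_sub, map_pow, map_mul, toL_X, tv, laura_mon_pow, ← mon_add]
    refine sub_mem (add_mem (laura_mon_mem ?_) (laura_mon_mem ?_)) (laura_mon_mem ?_)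
    · rw [map_nsmul, laura_degE_single, ← Pi.single_smul]; rfl
    · rw [map_nsmul, laura_degE_single, ← Pi.single_smul]; rfl
    · rw [map_add, map_nsmul, laura_degE_single, laura_degE_single, ← Pi.single_smul,
        ← Pi.single_add]
      rfl

lemma wp_mem_Hg (a : Sg) : toL (wp a) ∈ Hg (dg 1) := by
  rw [laura_toL_wp]
  refine laura_mon_mem ?_
  rw [map_sum]
  simp only [laura_degE_single]
  exact Finset.univ_sum_single (dg 1)

lemma sp_mem_Hg (k : Fin 4) : toL (sp k) ∈ Hg (dg 1) := by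
  rw [sp, map_sum]
  exact Submodule.sum_mem _ fun a _ => by
    rw [map_smul]
    exact Submodule.smul_mem _ _ (wp_mem_Hg a)

lemma toL_wp_sg (c : Ch) : toL (wp c.sg) = mon (chE c (dg 1)) := by
  rw [laura_toL_wp]
  congr 1
  ext ⟨b, x⟩
  rw [Finset.sum_apply, Finset.sum_eq_single b (fun b' _ h => Pi.single_eq_of_ne
    (fun e => h (congrArg Sigma.fst e).symm) _) (by simp)]
  change _ = if x = some (c b) then 1 else 0
  split_ifs with h
  · subst h
    exact Pi.single_eq_same _ _
  · exact Pi.single_eq_of_ne (by simpa [Ch.sg] using h) _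

lemma degE_chE (c : Ch) (d : Bk → ℤ) : degE (chE c d) = d := by
  ext b
  change ∑ x : Option (Ix b), (if x = some (c b) then d b else 0) = d b
  simp

lemma laura_single_mem {S : Set Ch} {w : Wv} (h : ∃ c ∈ S, w.2 = some (c w.1)) (n : ℤ) :
    (Pi.single w n : Ex) ∈ ExS S := by
  intro w' hw
  by_cases e : w' = w
  · exact e ▸ h
  · simp [e] at hw

lemma laura_inv {S : Set Ch} {w : Wv} (h : ∃ c ∈ S, w.2 = some (c w.1)) :
    tQ S w * ⟨mon (Pi.single w (-1)), mon_mem_Q (laura_single_mem h _)⟩ = 1 := by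
  refine Subtype.ext ?_
  change mon (Pi.single w 1) * mon (Pi.single w (-1)) = 1
  rw [← mon_add, ← Pi.single_add, add_neg_cancel, Pi.single_zero, mon_zero]

lemma laura_single_pow (w : Wv) {n m : ℤ} {k : ℕ} (h : n = k * m) :
    mon (Pi.single w n) = mon (Pi.single w m) ^ k := by
  rw [laura_mon_pow, ← Pi.single_smul, nsmul_eq_mul, h]

/-- induction principle for `Q S` -/
lemma Q_induction {S : Set Ch} {P : Q S → Prop} (hC : ∀ a : ℂ, P (algebraMap ℂ _ a))
    (ht : ∀ w, P (tQ S w)) (hinv : ∀ w (g : Q S), tQ S w * g = 1 → P g)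
    (hadd : ∀ f g, P f → P g → P (f + g)) (hmul : ∀ f g, P f → P g → P (f * g)) (f : Q S) :
    P f := by
  have h1 : P 1 := map_one (algebraMap ℂ (Q S)) ▸ hC 1
  have h0 : P 0 := map_zero (algebraMap ℂ (Q S)) ▸ hC 0
  have hp : ∀ g (n : ℕ), P g → P (g ^ n) := fun g n hg => by
    induction n with
    | zero => rw [pow_zero]; exact h1
    | succ n ih => rw [pow_succ]; exact hmul _ _ ih hg
  have hs : ∀ w (n : ℤ) (h : (Pi.single w n : Ex) ∈ ExS S),
      P ⟨mon (Pi.single w n), mon_mem_Q h⟩ := fun w n h => by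
    by_cases hn : n < 0
    · have hc := h w (by rwa [Pi.single_eq_same])
      have e : (⟨mon (Pi.single w n), mon_mem_Q h⟩ : Q S) =
          ⟨mon (Pi.single w (-1)), mon_mem_Q (laura_single_mem hc _)⟩ ^ (-n).toNat :=
        Subtype.ext (laura_single_pow w (by omega))
      rw [e]
      exact hp _ _ (hinv w _ (laura_inv hc))
    · have e : (⟨mon (Pi.single w n), mon_mem_Q h⟩ : Q S) = tQ S w ^ n.toNat :=
        Subtype.ext (laura_single_pow w (by omega))
      rw [e]
      exact hp _ _ (ht w)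
  have hm : ∀ (e : Ex) (h : e ∈ ExS S), P ⟨mon e, mon_mem_Q h⟩ := fun e h => by
    have h' : ∀ w, (Pi.single w (e w) : Ex) ∈ ExS S := fun w w' hw => by
      by_cases c : w' = w
      · subst c
        exact h w' (by rwa [Pi.single_eq_same] at hw)
      · rw [Pi.single_eq_of_ne c] at hw
        exact absurd hw (lt_irrefl _)
    have e1 : (⟨mon e, mon_mem_Q h⟩ : Q S) =
        ∏ w, (⟨mon (Pi.single w (e w)), mon_mem_Q (h' w)⟩ : Q S) := by
      refine Subtype.ext ?_
      rw [SubmonoidClass.coe_finsetProd]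
      exact (congrArg mon (Finset.univ_sum_single e).symm).trans (laura_mon_sum _ _)
    rw [e1]
    exact Finset.prod_induction _ P hmul h1 fun w _ => hs w _ (h' w)
  have e2 : f = ∑ e ∈ (f : L).coeff.support.attach,
      algebraMap ℂ (Q S) ((f : L).coeff e) * ⟨mon e, mon_mem_Q (f.2 e e.2)⟩ := by
    refine Subtype.ext ?_
    rw [AddSubmonoidClass.coe_finsetSum]
    refine (eq_sum_mon (f : L)).trans ((Finset.sum_attach _ _).symm.trans ?_)
    exact Finset.sum_congr rfl fun e _ => Algebra.smul_def _ _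
  rw [e2]
  exact Finset.sum_induction _ P hadd h0 fun e _ => hmul _ _ (hC _) (hm _ (f.2 e e.2))

lemma finiteType_Q (S : Set Ch) : Algebra.FiniteType ℂ (Q S) := by
  refine ⟨Subalgebra.fg_def.2 ⟨Set.range (tQ S) ∪ ⋃ w, {g | tQ S w * g = 1},
    (Set.finite_range _).union (Set.finite_iUnion fun w => Set.Subsingleton.finite
      fun g hg g' hg' => ?_), eq_top_iff.2 fun f _ => ?_⟩⟩
  · exact left_inv_eq_right_inv (a := tQ S w) (by rw [mul_comm]; exact hg) hg'
  · induction f using Q_induction with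
    | hC a => exact Subalgebra.algebraMap_mem _ a
    | ht w => exact Algebra.subset_adjoin (Or.inl ⟨w, rfl⟩)
    | hinv w g h => exact Algebra.subset_adjoin (Or.inr (Set.mem_iUnion.2 ⟨w, h⟩))
    | hadd f g hf hg => exact add_mem (hf trivial) (hg trivial)
    | hmul f g hf hg => exact mul_mem (hf trivial) (hg trivial)

lemma isUnit_tQ {S : Set Ch} {c : Ch} (hc : c ∈ S) (b : Bk) : IsUnit (tQ S ⟨b, some (c b)⟩) := by
  exact IsUnit.of_mul_eq_one _ (laura_inv ⟨c, hc, rfl⟩)

lemma laura_vanish {S : Set Ch} {R N : Type} [CommRing R] [Algebra ℂ R] [AddCommGroup N]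
    [Module R N] (κ : Q S →ₐ[ℂ] R) (Δ : Q S → N) (hC : ∀ a : ℂ, Δ (algebraMap ℂ _ a) = 0)
    (ht : ∀ w, Δ (tQ S w) = 0) (hadd : ∀ f g, Δ (f + g) = Δ f + Δ g)
    (hmul : ∀ f g, Δ (f * g) = κ f • Δ g + κ g • Δ f) (f : Q S) : Δ f = 0 := by
  induction f using Q_induction with
  | hC a => exact hC a
  | ht w => exact ht w
  | hinv w g h =>
    have h1 := hmul (tQ S w) g
    rw [h, ht, smul_zero, add_zero, ← map_one (algebraMap ℂ (Q S)), hC] at h1
    rw [← one_smul R (Δ g), ← map_one κ, ← h, mul_comm, map_mul, mul_smul, ← h1, smul_zero]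
  | hadd f g hf hg => rw [hadd, hf, hg, add_zero]
  | hmul f g hf hg => rw [hmul, hf, hg, smul_zero, smul_zero, add_zero]

lemma laura_pdQ_mul (S : Set Ch) (w : Wv) (f g : Q S) :
    pdQ S w (f * g) = f * pdQ S w g + g * pdQ S w f := Subtype.ext (pdL_mul w f g)

lemma laura_cDQ_mul (S : Set Ch) (D : Derivation ℤ ℂ ℂ) (f g : Q S) :
    cDQ S D (f * g) = f * cDQ S D g + g * cDQ S D f := Subtype.ext (cD_mul D f g)

lemma laura_pdQ_C (S : Set Ch) (w : Wv) (a : ℂ) : pdQ S w (algebraMap ℂ _ a) = 0 := by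
  refine Subtype.ext ?_
  change pdL w (algebraMap ℂ L a) = 0
  rw [laura_algebraMap, map_smul, pdL_mon]
  simp

lemma laura_pdQ_t (S : Set Ch) (w w' : Wv) : pdQ S w (tQ S w') = if w' = w then 1 else 0 := by
  refine Subtype.ext ((laura_pdL_tv w w').trans ?_)
  split_ifs <;> rfl

lemma laura_cDQ_C (S : Set Ch) (D : Derivation ℤ ℂ ℂ) (a : ℂ) :
    cDQ S D (algebraMap ℂ _ a) = algebraMap ℂ _ (D a) := by
  refine Subtype.ext ?_
  change cD D (algebraMap ℂ L a) = algebraMap ℂ L (D a)
  rw [laura_algebraMap, laura_algebraMap, laura_cD]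

lemma laura_cDQ_t (S : Set Ch) (D : Derivation ℤ ℂ ℂ) (w : Wv) : cDQ S D (tQ S w) = 0 :=
  Subtype.ext (laura_cD_mon D _)

/-- chain rule at a `ℂ`-point, for a derivation of `ℂ` -/
lemma chain_point {S : Set Ch} (p : Q S →ₐ[ℂ] ℂ) (D : Derivation ℤ ℂ ℂ) (f : Q S) :
    D (p f) = p (cDQ S D f) + ∑ w, p (pdQ S w f) * D (p (tQ S w)) := by
  refine sub_eq_zero.1 (laura_vanish p (fun f => D (p f) -
    (p (cDQ S D f) + ∑ w, p (pdQ S w f) * D (p (tQ S w)))) (fun a => ?_) (fun w => ?_)
    (fun f g => ?_) (fun f g => ?_) f)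
  · simp [laura_pdQ_C, laura_cDQ_C]
  · simp [laura_pdQ_t, laura_cDQ_t, apply_ite p]
  · simp only [map_add, add_mul, Finset.sum_add_distrib]
    ring
  · simp only [laura_pdQ_mul, laura_cDQ_mul, map_add, map_mul, Derivation.leibniz, smul_eq_mul,
      add_mul, Finset.sum_add_distrib, mul_assoc, ← Finset.mul_sum]
    ring

/-- chain rule for `ℂ`-linear derivations -/
lemma chain_der {S : Set Ch} {R N : Type} [CommRing R] [Algebra ℂ R] [AddCommGroup N]
    [Module R N] [Module ℂ N] [IsScalarTower ℂ R N] (κ : Q S →ₐ[ℂ] R) (δ : Derivation ℂ R N)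
    (f : Q S) : δ (κ f) = ∑ w, κ (pdQ S w f) • δ (κ (tQ S w)) := by
  refine sub_eq_zero.1 (laura_vanish κ (fun f => δ (κ f) -
    ∑ w, κ (pdQ S w f) • δ (κ (tQ S w))) (fun a => ?_) (fun w => ?_)
    (fun f g => ?_) (fun f g => ?_) f)
  · simp [laura_pdQ_C]
  · simp [laura_pdQ_t, apply_ite κ]
  · simp only [map_add, add_smul, Finset.sum_add_distrib]
    abel
  · simp only [laura_pdQ_mul, map_add, map_mul, Derivation.leibniz, add_smul,
      Finset.sum_add_distrib, mul_smul, ← Finset.smul_sum, smul_sub]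
    abel

end Pool.Agent.Lib.MP_d80bfc_ag
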