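import Pool.Agent.Lib.MP_d80bfc_ag.LaurA

/-!
# TASK LAURB: polynomials, homogeneous components, dehomogenisation, Segre map
-/

noncomputable section

namespace Pool.Agent.Lib.MP_d80bfc_ag

/-- natural exponents as integer exponents -/
def laurbCast : (Wv →₀ ℕ) →+ Ex where
  toFun s w := (s w : ℤ)
  map_zero' := by ext w; simp
  map_add' s t := by ext w; simp

lemma laurb_cast_apply (s : Wv →₀ ℕ) (w : Wv) : laurbCast s w = (s w : ℤ) := rfl

lemma laurb_cast_injective : Function.Injective laurbCast := by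
  intro s t h
  ext w
  have := congrFun h w
  rw [laurb_cast_apply, laurb_cast_apply] at this
  exact_mod_cast this

lemma laurb_toL_eq : toL = AddMonoidAlgebra.mapDomainAlgHom ℂ ℂ laurbCast := by
  refine MvPolynomial.algHom_ext fun w => ?_
  rw [toL_X]
  have h : laurbCast (Finsupp.single w 1) = Pi.single w 1 := by
    ext w'
    rw [laurb_cast_apply]
    by_cases hw : w' = w
    · subst hw; simp
    · simp [hw]
  change _ = AddMonoidAlgebra.mapDomain laurbCast
    (AddMonoidAlgebra.single (Finsupp.single w 1) (1 : ℂ))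
  rw [AddMonoidAlgebra.mapDomain_single, h]
  rfl

lemma laurb_toL_monomial (s : Wv →₀ ℕ) :
    toL (MvPolynomial.monomial s 1) = mon (laurbCast s) := by
  rw [laurb_toL_eq]
  change AddMonoidAlgebra.mapDomain laurbCast (AddMonoidAlgebra.single s (1 : ℂ)) = _
  rw [AddMonoidAlgebra.mapDomain_single]
  rfl

lemma toL_injective : Function.Injective toL := by
  rw [laurb_toL_eq]
  exact AddMonoidAlgebra.mapDomain_injective laurb_cast_injective

lemma laurb_mem_ExS_empty {e : Ex} : e ∈ ExS ∅ ↔ ∀ w, 0 ≤ e w := by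
  constructor
  · intro h w
    by_contra hw
    obtain ⟨c, hc, -⟩ := h w (not_le.mp hw)
    exact hc
  · intro h w hw
    exact absurd hw (not_lt.mpr (h w))

lemma exists_toL_eq {f : L} (hf : f ∈ Q ∅) : ∃ p, toL p = f := by
  refine map_mem_of_mon (LinearMap.id : L →ₗ[ℂ] L) (LinearMap.range toL.toLinearMap)
    (f := f) fun e he => ?_
  have h := laurb_mem_ExS_empty.mp (hf e he)
  refine ⟨MvPolynomial.monomial (Finsupp.equivFunOnFinite.symm fun w => (e w).toNat) 1, ?_⟩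
  change toL _ = mon e
  rw [laurb_toL_monomial]
  congr 1
  ext w
  rw [laurb_cast_apply]
  simp [h w]

lemma laurb_mon_nsmul (n : ℕ) (e : Ex) : mon (n • e) = mon e ^ n := by
  induction n with
  | zero => rw [zero_nsmul, pow_zero, mon_zero]
  | succ n ih => rw [succ_nsmul, mon_add, ih, pow_succ]

lemma laurb_mon_sum {ι : Type} (s : Finset ι) (e : ι → Ex) :
    mon (∑ i ∈ s, e i) = ∏ i ∈ s, mon (e i) := by
  classical
  induction s using Finset.induction_on with
  | empty => rw [Finset.sum_empty, Finset.prod_empty, mon_zero]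
  | insert a s ha ih => rw [Finset.sum_insert ha, Finset.prod_insert ha, mon_add, ih]

lemma laurb_chE_nonneg (c : Ch) (w : Wv) : 0 ≤ chE c (dg 1) w := by
  by_cases h : w.2 = some (c w.1) <;> simp [chE, dg, h]

/-- clearing denominators -/
lemma exists_mul_pow_mem_Q_empty {S : Finset Ch} {f : L} (hf : f ∈ Q (S : Set Ch)) :
    ∃ N : ℕ, f * (∏ c ∈ S, toL (wp c.sg)) ^ N ∈ Q ∅ := by
  refine ⟨∑ e ∈ f.coeff.support, ∑ w, (e w).natAbs, ?_⟩
  set N := ∑ e ∈ f.coeff.support, ∑ w, (e w).natAbs with hN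
  have h1 : (∏ c ∈ S, toL (wp c.sg)) ^ N = mon (N • ∑ c ∈ S, chE c (dg 1)) := by
    rw [laurb_mon_nsmul, laurb_mon_sum]
    simp only [toL_wp_sg]
  rw [h1]
  refine map_mem_of_mon (LinearMap.mulRight ℂ (mon (N • ∑ c ∈ S, chE c (dg 1))))
    (Q ∅).toSubmodule (f := f) fun e he => ?_
  rw [LinearMap.mulRight_apply, ← mon_add]
  refine mon_mem_Q (laurb_mem_ExS_empty.mpr fun w => ?_)
  have h2 : (0 : ℤ) ≤ ∑ c ∈ S, chE c (dg 1) w :=
    Finset.sum_nonneg fun c _ => laurb_chE_nonneg c w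
  have h3 : (e + N • ∑ c ∈ S, chE c (dg 1)) w = e w + N * ∑ c ∈ S, chE c (dg 1) w := by
    simp [Finset.sum_apply]
  rw [h3]
  by_cases hw : e w < 0
  · obtain ⟨c, hc, hcw⟩ := hf e he w hw
    have h4 : (1 : ℤ) ≤ ∑ c ∈ S, chE c (dg 1) w := by
      have := Finset.single_le_sum (f := fun c => chE c (dg 1) w)
        (fun c _ => laurb_chE_nonneg c w) (Finset.mem_coe.mp hc)
      have h5 : chE c (dg 1) w = 1 := by simp [chE, dg, hcw]
      rwa [h5] at this
    have h6 : (e w).natAbs ≤ N := by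
      refine le_trans ?_ (Finset.single_le_sum (f := fun e : Ex => ∑ w, (e w).natAbs)
        (fun _ _ => Nat.zero_le _) he)
      exact Finset.single_le_sum (f := fun w => (e w).natAbs) (fun _ _ => Nat.zero_le _)
        (Finset.mem_univ w)
    have h7 : -e w ≤ (N : ℤ) := by omega
    have h8 : (N : ℤ) ≤ N * ∑ c ∈ S, chE c (dg 1) w :=
      le_mul_of_one_le_right (Int.natCast_nonneg N) h4
    omega
  · have : (0 : ℤ) ≤ N * ∑ c ∈ S, chE c (dg 1) w := mul_nonneg (Int.natCast_nonneg N) h2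
    omega

/-- homogeneous components on `Q S` -/
def laurbPr (S : Set Ch) (d : Bk → ℤ) : Q S →+ Q S where
  toFun f := ⟨DirectSum.decompose Hg (f : L) d, decompose_mem_Q f.2 d⟩
  map_zero' := Subtype.ext (by simp)
  map_add' f g := Subtype.ext (by simp)

lemma laurb_coe_pr (S : Set Ch) (d : Bk → ℤ) (f : Q S) :
    (laurbPr S d f : L) = DirectSum.decompose Hg (f : L) d := rfl

lemma laurb_pr_mul {S : Set Ch} (d : Bk → ℤ) {d' : Bk → ℤ} (g : Q S) {x : Q S}
    (hx : (x : L) ∈ Hg d') : laurbPr S d (g * x) = laurbPr S (d - d') g * x := by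
  refine Subtype.ext ?_
  have := DirectSum.coe_decompose_mul_add_of_right_mem Hg (a := (g : L)) (i := d - d') hx
  rw [sub_add_cancel] at this
  exact this

lemma laurb_pr_self {S : Set Ch} {d : Bk → ℤ} {f : Q S} (hf : (f : L) ∈ Hg d) :
    laurbPr S d f = f :=
  Subtype.ext (DirectSum.decompose_of_mem_same Hg hf)

lemma laurb_gen_hom {r : ℕ} {S : Set Ch} {x : Q S}
    (hx : x ∈ Set.range (fun b => toQ S (Fp b)) ∪ (fun k => toQ S (sp k)) '' {k | k.val < r}) :
    ∃ d, (x : L) ∈ Hg d := by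
  rcases hx with ⟨b, rfl⟩ | ⟨k, -, rfl⟩
  · exact ⟨_, (coe_toQ S _).symm ▸ Fp_mem_Hg b⟩
  · exact ⟨_, (coe_toQ S _).symm ▸ sp_mem_Hg k⟩

lemma laurb_pr_mem_JI {r : ℕ} {S : Set Ch} {f : Q S} (hf : f ∈ JI r S) (d : Bk → ℤ) :
    laurbPr S d f ∈ JI r S := by
  have key : ∀ g : Q S, laurbPr S d (g * f) ∈ JI r S := by
    induction hf using Submodule.span_induction with
    | mem x hx =>
      intro g
      obtain ⟨d', hd'⟩ := laurb_gen_hom hx
      rw [laurb_pr_mul d g hd']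
      exact Ideal.mul_mem_left _ _ (Ideal.subset_span hx)
    | zero => intro g; rw [mul_zero, map_zero]; exact zero_mem _
    | add x y _ _ hx hy => intro g; rw [mul_add, map_add]; exact add_mem (hx g) (hy g)
    | smul a x _ hx => intro g; rw [smul_eq_mul, ← mul_assoc]; exact hx _
  simpa using key 1

/-- the ideals `JI r S` are homogeneous -/
lemma decompose_mem_JI {r : ℕ} {S : Set Ch} {f : Q S} (hf : f ∈ JI r S) (d : Bk → ℤ) :
    (⟨DirectSum.decompose Hg (f : L) d, decompose_mem_Q f.2 d⟩ : Q S) ∈ JI r S :=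
  laurb_pr_mem_JI hf d

lemma laurb_JI_succ (r : Fin 4) (S : Set Ch) :
    JI (r.val + 1) S ≤ JI r.val S ⊔ Ideal.span {toQ S (sp r)} := by
  refine Ideal.span_le.mpr ?_
  rintro _ (⟨b, rfl⟩ | ⟨k, hk, rfl⟩)
  · exact Ideal.mem_sup_left (Ideal.subset_span (Or.inl ⟨b, rfl⟩))
  · have hk' : k.val < r.val + 1 := hk
    by_cases h : k.val < r.val
    · exact Ideal.mem_sup_left (Ideal.subset_span (Or.inr ⟨k, h, rfl⟩))
    · have : k = r := Fin.ext (by omega)
      subst this
      exact Ideal.mem_sup_right (Ideal.subset_span rfl)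

/-- a homogeneous element of `JI (r + 1) S` is a homogeneous multiple of `sp r` modulo `JI r S` -/
lemma exists_of_mem_JI_succ {r : Fin 4} {S : Set Ch} {k : ℤ} {f : Q S}
    (hf : f ∈ JI (r.val + 1) S) (hk : (f : L) ∈ Hg (dg k)) :
    ∃ g : Q S, (g : L) ∈ Hg (dg (k - 1)) ∧ f - toQ S (sp r) * g ∈ JI r.val S := by
  obtain ⟨j, hj, y, hy, hjy⟩ := Submodule.mem_sup.mp (laurb_JI_succ r S hf)
  obtain ⟨a, rfl⟩ := Ideal.mem_span_singleton'.mp hy
  have hs : (toQ S (sp r) : L) ∈ Hg (dg 1) := (coe_toQ S _).symm ▸ sp_mem_Hg r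
  have hd : dg k - dg 1 = dg (k - 1) := rfl
  refine ⟨laurbPr S (dg (k - 1)) a, (DirectSum.decompose Hg (a : L) (dg (k - 1))).2, ?_⟩
  have h1 : f = laurbPr S (dg k) j + laurbPr S (dg (k - 1)) a * toQ S (sp r) := by
    rw [← hd, ← laurb_pr_mul (dg k) a hs, ← map_add, hjy, laurb_pr_self hk]
  have h2 : f - toQ S (sp r) * laurbPr S (dg (k - 1)) a = laurbPr S (dg k) j := by
    rw [sub_eq_iff_eq_add, mul_comm]; exact h1
  rw [h2]
  exact laurb_pr_mem_JI hj _

lemma thL_of_mem_Hg (c : Ch) {d : Bk → ℤ} {f : L} (hf : f ∈ Hg d) :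
    thL c f = f * mon (-chE c d) := by
  have h := map_mem_of_mon ((thL c).toLinearMap - LinearMap.mulRight ℂ (mon (-chE c d)))
    (⊥ : Submodule ℂ L) (f := f) fun e he => by
      rw [Submodule.mem_bot, LinearMap.sub_apply, LinearMap.mulRight_apply, sub_eq_zero,
        ← mon_add, AlgHom.toLinearMap_apply, thL_mon, mem_Hg_iff.mp hf e he, sub_eq_add_neg]
  rw [Submodule.mem_bot, LinearMap.sub_apply, LinearMap.mulRight_apply, sub_eq_zero] at h
  exact h

lemma thL_mem_Hg (c : Ch) (f : L) : thL c f ∈ Hg (dg 0) := by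
  refine map_mem_of_mon (thL c).toLinearMap (Hg (dg 0)) (f := f) fun e _ => ?_
  rw [AlgHom.toLinearMap_apply, thL_mon]
  have h := mon_mem_Hg (e - chE c (degE e))
  rw [map_sub, degE_chE, sub_self] at h
  exact h

lemma laurb_toL_seg_monomial (s : Sg →₀ ℕ) (a : ℂ) :
    toL (seg (MvPolynomial.monomial s a)) = a • ∏ i ∈ s.support, toL (wp i) ^ s i := by
  rw [seg, MvPolynomial.aeval_monomial, map_mul, AlgHom.commutes, Algebra.smul_def, Finsupp.prod,
    map_prod]
  simp only [map_pow]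

lemma seg_mem_Hg {n : ℕ} {p : MvPolynomial Sg ℂ} (hp : p.IsHomogeneous n) :
    toL (seg p) ∈ Hg (dg n) := by
  rw [p.as_sum, map_sum, map_sum]
  refine Submodule.sum_mem _ fun s hs => ?_
  rw [laurb_toL_seg_monomial]
  refine Submodule.smul_mem _ _ ?_
  have h := SetLike.prod_pow_mem_graded Hg (fun _ : Sg => dg 1) (fun i => toL (wp i))
    (F := s.support) s fun i _ => wp_mem_Hg i
  have h1 : ∑ i ∈ s.support, s i = n := by
    have := hp (MvPolynomial.mem_support_iff.mp hs)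
    rw [← this, Finsupp.weight_apply, Finsupp.sum]
    simp
  have h2 : ∑ i ∈ s.support, s i • dg 1 = dg n := by
    ext b
    rw [← h1]
    simp [dg, Finset.sum_apply]
  rw [← h2]
  exact h

/-- the exponent of a Segre monomial -/
def laurbSg (a : Sg) : Ex := ∑ b, Pi.single (⟨b, a b⟩ : Wv) 1

lemma laurb_toL_wp (a : Sg) : toL (wp a) = mon (laurbSg a) := by
  rw [wp, map_prod, laurbSg, laurb_mon_sum]
  simp only [toL_X]
  rfl

lemma laurb_sg_apply (a : Sg) (w : Wv) : laurbSg a w = if w.2 = a w.1 then 1 else 0 := by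
  obtain ⟨b, x⟩ := w
  rw [laurbSg, Finset.sum_apply, Finset.sum_eq_single b]
  · by_cases h : x = a b
    · subst h; simp
    · rw [if_neg h, Pi.single_eq_of_ne]
      intro h'
      exact h (eq_of_heq (Sigma.mk.inj h').2)
  · intro b' _ hb
    rw [Pi.single_eq_of_ne]
    intro h'
    exact hb (Sigma.mk.inj h').1.symm
  · intro h
    exact absurd (Finset.mem_univ b) h

lemma laurb_degE_sg (a : Sg) : degE (laurbSg a) = dg 1 := by
  ext b
  change ∑ x : Option (Ix b), laurbSg a ⟨b, x⟩ = 1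
  simp [laurb_sg_apply]

lemma laurb_exists_seg_mon (n : ℕ) : ∀ e : Ex, (∀ w, 0 ≤ e w) → degE e = dg n →
    ∃ p : MvPolynomial Sg ℂ, p.IsHomogeneous n ∧ toL (seg p) = mon e := by
  induction n with
  | zero =>
    intro e he hd
    have h0 : e = 0 := by
      ext ⟨b, x⟩
      have h1 : ∑ x : Option (Ix b), e ⟨b, x⟩ = 0 := congrFun hd b
      exact (Finset.sum_eq_zero_iff_of_nonneg fun x _ => he ⟨b, x⟩).mp h1 x (Finset.mem_univ x)
    exact ⟨1, MvPolynomial.isHomogeneous_one _ _, by rw [map_one, map_one, h0, mon_zero]⟩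
  | succ n ih =>
    intro e he hd
    have h1 : ∀ b : Bk, ∃ x : Option (Ix b), 0 < e ⟨b, x⟩ := by
      intro b
      by_contra h
      push Not at h
      have h2 : ∑ x : Option (Ix b), e ⟨b, x⟩ = ((n + 1 : ℕ) : ℤ) := congrFun hd b
      have h3 : ∑ x : Option (Ix b), e ⟨b, x⟩ ≤ 0 := Finset.sum_nonpos fun x _ => h x
      omega
    choose a ha using h1
    obtain ⟨p, hp, hpe⟩ := ih (e - laurbSg a) (fun w => by
      obtain ⟨b, x⟩ := w
      rw [Pi.sub_apply, laurb_sg_apply]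
      split_ifs with h
      · have h' : x = a b := h
        subst h'
        have := ha b
        omega
      · have := he ⟨b, x⟩
        omega) (by
      rw [map_sub, hd, laurb_degE_sg]
      ext b
      simp [dg])
    refine ⟨p * MvPolynomial.X a, hp.mul (MvPolynomial.isHomogeneous_X _ _), ?_⟩
    rw [map_mul, map_mul, hpe, seg, MvPolynomial.aeval_X, laurb_toL_wp, ← mon_add, sub_add_cancel]

lemma exists_seg_eq {n : ℕ} {f : L} (hf : f ∈ Q ∅) (hn : f ∈ Hg (dg n)) :
    ∃ p : MvPolynomial Sg ℂ, p.IsHomogeneous n ∧ toL (seg p) = f :=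
  map_mem_of_mon (LinearMap.id : L →ₗ[ℂ] L)
    ((MvPolynomial.homogeneousSubmodule Sg ℂ n).map (toL.comp seg).toLinearMap) (f := f)
    fun e he => laurb_exists_seg_mon n e (laurb_mem_ExS_empty.mp (hf e he)) (mem_Hg_iff.mp hn e he)

lemma laurb_neg_chE {S : Set Ch} {c : Ch} (hc : c ∈ S) (d : Bk → ℤ) : mon (-chE c d) ∈ Q S := by
  rw [← map_neg]
  exact mon_mem_Q (chE_mem_ExS hc _)

lemma laurb_thQ_hom {S : Set Ch} {c : Ch} (hc : c ∈ S) {d : Bk → ℤ} {f : Q S}
    (hf : (f : L) ∈ Hg d) : thQ hc f = f * ⟨mon (-chE c d), laurb_neg_chE hc d⟩ :=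
  Subtype.ext (thL_of_mem_Hg c hf)

lemma thQ_mem_JI {r : ℕ} {S : Set Ch} {c : Ch} (hc : c ∈ S) {f : Q S} (hf : f ∈ JI r S) :
    thQ hc f ∈ JI r S := by
  have h : JI r S ≤ (JI r S).comap (thQ hc) := by
    refine Ideal.span_le.mpr fun x hx => ?_
    obtain ⟨d, hd⟩ := laurb_gen_hom hx
    refine Ideal.mem_comap.mpr ?_
    rw [laurb_thQ_hom hc hd]
    exact Ideal.mul_mem_right _ _ (Ideal.subset_span hx)
  exact h hf

lemma laurb_chE_single (c : Ch) (b : Bk) :
    chE c (Pi.single b 1) = Pi.single (⟨b, some (c b)⟩ : Wv) 1 := by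
  ext ⟨b', x⟩
  change (if x = some (c b') then (Pi.single b 1 : Bk → ℤ) b' else 0) = _
  by_cases hb : b' = b
  · subst hb
    by_cases h : x = some (c b')
    · subst h; simp
    · rw [if_neg h, Pi.single_eq_of_ne]
      intro h'
      exact h (eq_of_heq (Sigma.mk.inj h').2)
  · rw [Pi.single_eq_of_ne hb, ite_self, Pi.single_eq_of_ne]
    intro h'
    exact hb (Sigma.mk.inj h').1

lemma laurb_thQ_tQ {S : Set Ch} {c : Ch} (hc : c ∈ S) (w : Wv) :
    thQ hc (tQ S w) * tQ S ⟨w.1, some (c w.1)⟩ = tQ S w := by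
  refine Subtype.ext ?_
  change thL c (tv w) * tv ⟨w.1, some (c w.1)⟩ = tv w
  rw [thL_of_mem_Hg c (tv_mem_Hg w), laurb_chE_single, mul_assoc, tv, tv, ← mon_add,
    neg_add_cancel, mon_zero, mul_one]

lemma sub_thQ_mem {S : Set Ch} {c : Ch} (hc : c ∈ S) (f : Q S) :
    f - thQ hc f ∈ Ideal.span (Set.range fun b : Bk => tQ S ⟨b, some (c b)⟩ - 1) := by
  set I : Ideal (Q S) := Ideal.span (Set.range fun b : Bk => tQ S ⟨b, some (c b)⟩ - 1) with hI
  rw [← Ideal.Quotient.eq]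
  have ht : ∀ w, Ideal.Quotient.mk I (tQ S w) = Ideal.Quotient.mk I (thQ hc (tQ S w)) := by
    intro w
    have h1 : Ideal.Quotient.mk I (tQ S ⟨w.1, some (c w.1)⟩) = Ideal.Quotient.mk I 1 :=
      Ideal.Quotient.eq.mpr (Ideal.subset_span ⟨w.1, rfl⟩)
    conv_lhs => rw [← laurb_thQ_tQ hc w]
    rw [map_mul, h1, map_one, mul_one]
  refine Q_induction (P := fun f => Ideal.Quotient.mk I f = Ideal.Quotient.mk I (thQ hc f))
    (fun a => by rw [AlgHom.commutes]) ht (fun w g hg => ?_) (fun f g hf hg => ?_)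
    (fun f g hf hg => ?_) f
  · have h1 : Ideal.Quotient.mk I (tQ S w) * Ideal.Quotient.mk I g = 1 := by
      rw [← map_mul, hg, map_one]
    have h2 : Ideal.Quotient.mk I (tQ S w) * Ideal.Quotient.mk I (thQ hc g) = 1 := by
      rw [ht w, ← map_mul, ← map_mul, hg, map_one, map_one]
    exact left_inv_eq_right_inv ((mul_comm (G := Q S ⧸ I) _ _).trans h1) h2
  · rw [map_add, map_add, map_add, hf, hg]
  · rw [map_mul, map_mul, map_mul, hf, hg]

/-- clearing denominators in an ideal membership -/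
lemma exists_mul_pow_mem_JI_empty {r : ℕ} {S : Finset Ch} (g : Q ∅)
    (hg : incQ (Set.empty_subset (S : Set Ch)) g ∈ JI r (S : Set Ch)) :
    ∃ N : ℕ, g * (∏ c ∈ S, toQ ∅ (wp c.sg)) ^ N ∈ JI r ∅ := by
  set W : Q ∅ := ∏ c ∈ S, toQ ∅ (wp c.sg) with hW
  have hWL : (W : L) = ∏ c ∈ S, toL (wp c.sg) := by
    rw [hW, ← map_prod, ← map_prod, coe_toQ]
  have key : ∀ f ∈ JI r (S : Set Ch), ∃ N : ℕ, ∃ h ∈ JI r ∅, (h : L) = (f : L) * (W : L) ^ N := by
    intro f hf
    induction hf using Submodule.span_induction with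
    | mem x hx =>
      rcases hx with ⟨b, rfl⟩ | ⟨k, hk, rfl⟩
      · exact ⟨0, toQ ∅ (Fp b), Ideal.subset_span (Or.inl ⟨b, rfl⟩), by
          rw [pow_zero, mul_one, coe_toQ, coe_toQ]⟩
      · exact ⟨0, toQ ∅ (sp k), Ideal.subset_span (Or.inr ⟨k, hk, rfl⟩), by
          rw [pow_zero, mul_one, coe_toQ, coe_toQ]⟩
    | zero => exact ⟨0, 0, zero_mem _, by simp⟩
    | add x y _ _ hx hy =>
      obtain ⟨N, h, hh, e⟩ := hx
      obtain ⟨N', h', hh', e'⟩ := hy
      refine ⟨N + N', h * W ^ N' + h' * W ^ N,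
        add_mem (Ideal.mul_mem_right _ _ hh) (Ideal.mul_mem_right _ _ hh'), ?_⟩
      push_cast
      rw [e, e']
      ring
    | smul a x _ hx =>
      obtain ⟨N, h, hh, e⟩ := hx
      obtain ⟨M, hM⟩ := exists_mul_pow_mem_Q_empty a.2
      rw [← hWL] at hM
      refine ⟨M + N, ⟨_, hM⟩ * h, Ideal.mul_mem_left _ _ hh, ?_⟩
      rw [smul_eq_mul]
      push_cast
      rw [e]
      ring
  obtain ⟨N, h, hh, e⟩ := key _ hg
  refine ⟨N, ?_⟩
  have : g * W ^ N = h := Subtype.ext (by push_cast; exact e.symm)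
  rw [this]
  exact hh

lemma isUnit_toQ_wp {S : Set Ch} {c : Ch} (hc : c ∈ S) : IsUnit (toQ S (wp c.sg)) := by
  refine IsUnit.of_mul_eq_one ⟨mon (-chE c (dg 1)), laurb_neg_chE hc _⟩ (Subtype.ext ?_)
  change (toQ S (wp c.sg) : L) * mon (-chE c (dg 1)) = 1
  rw [coe_toQ, toL_wp_sg, ← mon_add, add_neg_cancel, mon_zero]

end Pool.Agent.Lib.MP_d80bfc_ag
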