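import Pool.Agent.Lib.MP_d80bfc_ag.SysB

/-!
# TASK MON: Čech cohomology of monomial systems on a product of index sets
-/

noncomputable section

namespace Pool.Agent.Lib.MP_d80bfc_ag

section

variable {B : Type} {I : B → Type}

/-- the variables used by a set of charts -/
def supp (S : Set (∀ b, I b)) : Set (Σ b, I b) := {v | ∃ c ∈ S, c v.1 = v.2}

lemma supp_mono {S T : Set (∀ b, I b)} (h : S ⊆ T) : supp S ⊆ supp T :=
  fun _ ⟨c, hc, e⟩ => ⟨c, h hc, e⟩

/-- The system spanned by the basis vectors `e ∈ E` whose pole set `N e` lies in `supp S`. -/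
def monSys {J : Type} (E : Set J) (N : J → Set (Σ b, I b)) : Sys (∀ b, I b) where
  obj S := Finsupp.supported ℂ ℂ {e | e ∈ E ∧ N e ⊆ supp S}
  map h := Submodule.inclusion
    (Finsupp.supported_mono fun _ he => ⟨he.1, he.2.trans (supp_mono h)⟩)
  map_refl _ _ := rfl
  map_map _ _ _ := rfl

/-- in every block the pole set is empty or everything -/
def GoodPole (N : Set (Σ b, I b)) : Prop :=
  ∀ b, (∀ i : I b, (⟨b, i⟩ : Σ b, I b) ∉ N) ∨ (∀ i : I b, (⟨b, i⟩ : Σ b, I b) ∈ N)

open Classical in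
/-- the cohomological degree of a good pole set -/
def poleDeg [Fintype B] [∀ b, Fintype (I b)] (N : Set (Σ b, I b)) : ℕ :=
  ∑ b, if ∃ i : I b, (⟨b, i⟩ : Σ b, I b) ∈ N then Fintype.card (I b) - 1 else 0

section lists

variable {ι W : Type} [AddCommGroup W]

/-- the differential on functions of lists -/
def monD : (List ι → W) → List ι → W
  | _, [] => 0
  | c, x :: l => c l - monD (fun m => c (x :: m)) l

/-- the prism operator of a self-map of the index set -/
def monH (π : ι → ι) : (List ι → W) → List ι → W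
  | _, [] => 0
  | c, y :: l => c (π y :: y :: l) - monH π (fun m => c (π y :: m)) l

lemma monD_sub (c c' : List ι → W) (l : List ι) :
    monD (fun m => c m - c' m) l = monD c l - monD c' l := by
  induction l generalizing c c' with
  | nil => simp [monD]
  | cons x l ih => simp only [monD, ih]; abel

lemma monH_sub (π : ι → ι) (c c' : List ι → W) (l : List ι) :
    monH π (fun m => c m - c' m) l = monH π c l - monH π c' l := by
  induction l generalizing c c' with
  | nil => simp [monH]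
  | cons x l ih => simp only [monH, ih]; abel

lemma mon_prism (π : ι → ι) (c : List ι → W) (l : List ι) :
    monD (monH π c) l + monH π (monD c) l = c l - c (l.map π) := by
  induction l generalizing c with
  | nil => simp [monD, monH]
  | cons y l ih =>
    have := ih fun m => c (π y :: m)
    simp only [monD, monH, monD_sub, monH_sub, List.map_cons]
    rw [← sub_eq_zero] at this ⊢
    rw [← this]
    abel

lemma monH_zero (π : ι → ι) (c : List ι → W) (l : List ι)
    (h : ∀ m : List ι, m.length = l.length + 1 → (∀ x ∈ m, x ∈ l ∨ x ∈ l.map π) → c m = 0) :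
    monH π c l = 0 := by
  induction l generalizing c with
  | nil => rfl
  | cons y l ih =>
    rw [monH, h _ rfl (by simp +contextual), ih _ fun m h1 h2 => h _ (by simp [h1]) ?_, sub_zero]
    simp only [List.mem_cons, List.map_cons]
    rintro x (rfl | hx)
    · exact Or.inr (Or.inl rfl)
    · exact (h2 x hx).imp Or.inr Or.inr

lemma monD_ofFn [Module ℂ W] (n : ℕ) (τ : Fin (n + 1) → ι) (c : List ι → W) :
    monD c (List.ofFn τ) =
      ∑ j : Fin (n + 1), ((-1 : ℂ) ^ (j : ℕ)) • c (List.ofFn (τ ∘ j.succAbove)) := by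
  induction n generalizing c with
  | zero => simp [monD]
  | succ n ih =>
    rw [List.ofFn_succ, monD, ih, Fin.sum_univ_succ (n := n + 1), sub_eq_add_neg,
      ← Finset.sum_neg_distrib]
    congr 1
    · simp [Function.comp_def]
    · refine Finset.sum_congr rfl fun j _ => ?_
      rw [List.ofFn_succ (f := τ ∘ _)]
      simp [Function.comp_def, pow_succ]

end lists

/-- everything or nothing -/
def monSub (p : Prop) (W : Type) [AddCommGroup W] [Module ℂ W] : Submodule ℂ W where
  carrier := {x | ¬ p → x = 0}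
  add_mem' h h' c := by rw [h c, h' c, add_zero]
  zero_mem' _ := rfl
  smul_mem' a x h c := by rw [h c, smul_zero]

variable {W : Type} [AddCommGroup W] [Module ℂ W]

open Classical in
/-- truncation -/
def monCut (p q : Prop) : monSub p W →ₗ[ℂ] monSub q W where
  toFun x := ⟨if q then x.1 else 0, fun h => if_neg h⟩
  map_add' x y := Subtype.ext (by by_cases h : q <;> simp [h])
  map_smul' a x := Subtype.ext (by by_cases h : q <;> simp [h])

lemma monCut_pos {p q : Prop} (h : q) (x : monSub p W) : (monCut p q x).1 = x.1 := if_pos h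

lemma monCut_cut {p q q' r : Prop} (h : p → r → q) (h' : p → r → q') (x : monSub p W) :
    monCut q r (monCut p q x) = monCut q' r (monCut p q' x) := by
  by_cases hp : p
  · by_cases hr : r
    · exact Subtype.ext (by simp only [monCut_pos hr, monCut_pos (h hp hr), monCut_pos (h' hp hr)])
    · exact Subtype.ext (((monCut q r _).2 hr).trans ((monCut q' r _).2 hr).symm)
  · rw [show x = 0 from Subtype.ext (x.2 hp)]
    simp only [map_zero]

lemma monCut_self {p : Prop} (x : monSub p W) : monCut p p x = x := by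
  by_cases hp : p
  · exact Subtype.ext (monCut_pos hp x)
  · exact Subtype.ext (((monCut p p x).2 hp).trans (x.2 hp).symm)

lemma monCut_inj {p q : Prop} (h : p → q) : Function.Injective (monCut (W := W) p q) :=
  fun x y e => Subtype.ext (by
    by_cases hp : p
    · rw [← monCut_pos (h hp) x, e, monCut_pos (h hp)]
    · rw [x.2 hp, y.2 hp])

lemma monCut_surj {p q : Prop} (h : q → p) : Function.Surjective (monCut (W := W) p q) :=
  fun y => ⟨⟨y.1, fun c => y.2 (mt h c)⟩, Subtype.ext (by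
    by_cases hq : q
    · exact monCut_pos hq _
    · exact ((monCut p q _).2 hq).trans (y.2 hq).symm)⟩

lemma monSub_sub {p : Prop} (h : ¬ p) : Subsingleton (monSub p W) :=
  ⟨fun x y => Subtype.ext ((x.2 h).trans (y.2 h).symm)⟩

/-- the condition on a set of charts -/
def monQ (N P : Set (Σ b, I b)) (S : Set (∀ b, I b)) : Prop := N ⊆ supp S ∧ supp S ⊆ P

/-- the constant system cut down to the sets of charts between `N` and `P` -/
def monInd (N P : Set (Σ b, I b)) (W : Type) [AddCommGroup W] [Module ℂ W] : Sys (∀ b, I b) where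
  obj S := monSub (monQ N P S) W
  map _ := monCut _ _
  map_refl _ x := monCut_self x
  map_map h h' x := (monCut_cut (fun a b => ⟨a.1.trans (supp_mono h), (supp_mono h').trans b.2⟩)
    (fun _ b => b) x).trans (monCut_self _)

/-- comparison maps -/
def monHom {N P N' P' : Set (Σ b, I b)} (h : N' ⊆ N) (h' : P' ⊆ P) :
    Sys.Hom (monInd N P W) (monInd N' P' W) where
  app _ _ := monCut _ _
  nat e _ x := monCut_cut (fun a b => ⟨a.1.trans (supp_mono e), b.2.trans h'⟩)
    (fun a b => ⟨h.trans a.1, (supp_mono e).trans b.2⟩) x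

lemma mon_d {N P : Set (Σ b, I b)} {k : ℕ} (c : (monInd N P W).C k) (f : List (∀ b, I b) → W)
    (τ : Fin (k + 2) → ∀ b, I b) (hτ : supp (Set.range τ) ⊆ P)
    (hf : ∀ σ, supp (Set.range σ) ⊆ P → f (List.ofFn σ) = (c σ).1) :
    ((monInd N P W).d k c τ).1 = monD f (List.ofFn τ) := by
  rw [Sys.d_apply, monD_ofFn]
  refine (map_sum (monSub _ W).subtype _ _).trans (Finset.sum_congr rfl fun j _ => ?_)
  have h := supp_mono (Set.range_comp_subset_range j.succAbove τ)
  rw [hf _ (h.trans hτ)]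
  refine congrArg (fun w : W => ((-1 : ℂ) ^ (j : ℕ)) • w) ?_
  by_cases e : monQ N P (Set.range τ)
  · exact monCut_pos e _
  · exact ((monCut _ _ _).2 e).trans ((c _).2 fun a => e ⟨a.1.trans h, hτ⟩).symm

lemma mon_range {ι : Type} {n : ℕ} (τ : Fin n → ι) : {x | x ∈ List.ofFn τ} = Set.range τ := by
  ext x
  simp [List.mem_ofFn]

/-- cocycles as functions of lists -/
lemma mon_lists {N P : Set (Σ b, I b)} {k : ℕ} (c : (monInd N P W).C k)
    (hc : (monInd N P W).d k c = 0) : ∃ f : List (∀ b, I b) → W,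
      (∀ σ, f (List.ofFn σ) = (c σ).1) ∧ (∀ l, ¬ N ⊆ supp {x | x ∈ l} → f l = 0) ∧
      ∀ l, l.length = k + 2 → supp {x | x ∈ l} ⊆ P → monD f l = 0 := by
  have key : ∀ {n : ℕ} (l : List (∀ b, I b)), l.length = n → ∃ σ : Fin n → _, l = List.ofFn σ := by
    rintro _ l rfl
    exact ⟨_, (List.ofFn_get l).symm⟩
  let f : List (∀ b, I b) → W := fun l =>
    if h : l.length = k + 1 then (c (key l h).choose).1 else 0
  have h1 : ∀ σ, f (List.ofFn σ) = (c σ).1 := fun σ => by
    have h := List.length_ofFn (f := σ)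
    rw [show f _ = _ from dif_pos h, ← List.ofFn_injective (key _ h).choose_spec]
  refine ⟨f, h1, fun l hl => ?_, fun l hl h => ?_⟩
  · by_cases h : l.length = k + 1
    · obtain ⟨σ, rfl⟩ := key l h
      rw [h1]
      exact (c σ).2 fun a => hl (mon_range σ ▸ a.1)
    · exact dif_neg h
  · obtain ⟨τ, rfl⟩ := key l hl
    rw [← mon_d c f τ (mon_range τ ▸ h) fun σ _ => h1 σ, hc]
    rfl

/-- coboundaries from functions of lists -/
lemma mon_cob {N P : Set (Σ b, I b)} {k : ℕ} (c : (monInd N P W).C (k + 1))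
    (g : List (∀ b, I b) → W) (h0 : ∀ l, ¬ N ⊆ supp {x | x ∈ l} → g l = 0)
    (h1 : ∀ τ, supp (Set.range τ) ⊆ P → monD g (List.ofFn τ) = (c τ).1) :
    ∃ c', (monInd N P W).d k c' = c := by
  refine ⟨fun σ => monCut (N ⊆ supp (Set.range σ)) _
    ⟨g (List.ofFn σ), fun h => h0 _ (mon_range σ ▸ h)⟩, funext fun τ => Subtype.ext ?_⟩
  by_cases h : supp (Set.range τ) ⊆ P
  · rw [mon_d _ g τ h fun σ hσ => ?_, h1 τ h]
    by_cases e : N ⊆ supp (Set.range σ)
    · exact Eq.symm (monCut_pos (q := monQ N P _) ⟨e, hσ⟩ _)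
    · exact (h0 _ (mon_range σ ▸ e)).trans ((monCut _ _ _).2 fun a => e a.1).symm
  · exact ((_ : monSub _ W).2 fun a => h a.2).trans ((c τ).2 fun a => h a.2).symm

lemma mon_empty {P : Set (Σ b, I b)} (hP : ∀ b, ∃ i, (⟨b, i⟩ : Σ b, I b) ∈ P) (k : ℕ) :
    Nonempty ((monInd ∅ P W).H k ≃ₗ[ℂ] monSub (k = 0) W) := by
  choose z hz using hP
  have ins : ∀ l : List (∀ b, I b), supp {x | x ∈ l} ⊆ P → supp {x | x ∈ z :: l} ⊆ P := by
    rintro l h ⟨b, i⟩ ⟨x, hx, rfl : x b = i⟩
    rcases List.mem_cons.1 hx with rfl | hx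
    exacts [hz b, h ⟨x, hx, rfl⟩]
  rcases k with _ | k
  · obtain ⟨e⟩ := (monInd ∅ P W).H_zero_equiv
    have q0 : monQ ∅ P (Set.range fun _ : Fin 1 => z) := ⟨Set.empty_subset _, by
      rintro ⟨b, i⟩ ⟨_, ⟨_, rfl⟩, rfl : z b = i⟩
      exact hz b⟩
    refine ⟨e.trans (LinearEquiv.ofBijective (monCut _ _ ∘ₗ LinearMap.proj (fun _ => z) ∘ₗ
      (LinearMap.ker ((monInd ∅ P W).d 0)).subtype) ⟨(injective_iff_map_eq_zero _).2 ?_, ?_⟩)⟩
    · rintro ⟨c, hc⟩ h
      obtain ⟨f, h1, -, h3⟩ := mon_lists c hc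
      have h4 : f [z] = 0 := (h1 fun _ => z).trans
        ((monCut_pos (q := 0 = 0) rfl _).symm.trans (congrArg Subtype.val h))
      refine Subtype.ext (funext fun τ => Subtype.ext ?_)
      by_cases q : monQ ∅ P (Set.range τ)
      · have := h3 (z :: List.ofFn τ) (by simp) (ins _ (mon_range τ ▸ q.2))
        have h5 : monD (fun m => f (z :: m)) (List.ofFn τ) = 0 := by simp [monD, h4]
        rwa [monD, h1, h5, sub_zero] at this
      · exact (c τ).2 q
    · intro w
      refine ⟨⟨fun σ => monCut _ _ w, funext fun τ => Subtype.ext ?_⟩, Subtype.ext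
        ((monCut_pos rfl _).trans (monCut_pos q0 _))⟩
      by_cases h : supp (Set.range τ) ⊆ P
      · rw [mon_d _ (fun _ => w.1) τ h fun σ hσ => 
          (monCut_pos (q := monQ ∅ P _) ⟨Set.empty_subset _, hσ⟩ _).symm]
        show _ = (0 : W)
        simp [monD]
      · exact (_ : monSub _ W).2 fun a => h a.2
  · haveI := monSub_sub (W := W) k.succ_ne_zero
    haveI := ((monInd ∅ P W).subsingleton_H_succ_iff k).2 fun c hc => by
      obtain ⟨f, h1, -, h3⟩ := mon_lists c hc
      refine mon_cob c (fun l => f (z :: l)) (fun l h => absurd (Set.empty_subset _) h)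
        fun τ h => ?_
      have := h3 (z :: List.ofFn τ) (by simp) (ins _ (mon_range τ ▸ h))
      rw [monD, h1, sub_eq_zero] at this
      exact this.symm
    exact ⟨LinearEquiv.ofSubsingleton _ _⟩

lemma mon_acyclic {N P : Set (Σ b, I b)} {b : B} {a a' : I b} (h1 : (⟨b, a⟩ : Σ b, I b) ∈ P)
    (h2 : (⟨b, a⟩ : Σ b, I b) ∉ N) (h3 : (⟨b, a'⟩ : Σ b, I b) ∈ N) (k : ℕ) :
    Subsingleton ((monInd N P W).H k) := by
  classical
  let π : (∀ b, I b) → ∀ b, I b := fun x => Function.update x b a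
  have s1 : ∀ l m : List (∀ b, I b), (∀ x ∈ m, x ∈ l ∨ x ∈ l.map π) →
      supp {x | x ∈ m} ⊆ insert ⟨b, a⟩ (supp {x | x ∈ l}) := by
    rintro l m h ⟨b', i⟩ ⟨x, hx, rfl : x b' = i⟩
    rcases h x hx with h | h
    · exact Or.inr ⟨x, h, rfl⟩
    · obtain ⟨y, hy, rfl⟩ := List.mem_map.1 h
      by_cases e : b' = b
      · subst e
        exact Or.inl (by simp [π])
      · exact Or.inr ⟨y, hy, (Function.update_of_ne e _ _).symm⟩
  have key : ∀ {k} (c : (monInd N P W).C k), (monInd N P W).d k c = 0 →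
      ∃ g : List (∀ b, I b) → W, g [] = 0 ∧ (∀ l, ¬ N ⊆ supp {x | x ∈ l} → g l = 0) ∧
        ∀ τ, supp (Set.range τ) ⊆ P → monD g (List.ofFn τ) = (c τ).1 := fun c hc => by
    obtain ⟨f, f1, f2, f3⟩ := mon_lists c hc
    refine ⟨monH π f, rfl, fun l h => monH_zero π f l fun m _ hm => f2 m fun e => h fun v hv =>
      (s1 l m hm (e hv)).resolve_left fun c => h2 (c ▸ hv), fun τ h => ?_⟩
    have := mon_prism π f (List.ofFn τ)
    rwa [monH_zero π _ _ fun m e hm => f3 m (by simpa using e) ((s1 _ m hm).trans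
      (Set.insert_subset h1 (mon_range τ ▸ h))), add_zero, f1, f2 _ fun e => ?_, sub_zero] at this
    obtain ⟨x, hx, e⟩ := e h3
    obtain ⟨y, -, rfl⟩ := List.mem_map.1 hx
    exact h2 ((show a = a' by simpa [π] using e) ▸ h3)
  rcases k with _ | k
  · obtain ⟨e⟩ := (monInd N P W).H_zero_equiv
    refine e.toEquiv.subsingleton_congr.2 (subsingleton_of_forall_eq 0 fun c => ?_)
    obtain ⟨g, g1, -, g3⟩ := key c.1 c.2
    refine Subtype.ext (funext fun τ => Subtype.ext ?_)
    by_cases q : monQ N P (Set.range τ)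
    · exact (g3 τ q.2).symm.trans (show _ = (0 : W) by simp [monD, g1])
    · exact (c.1 τ).2 q
  · refine ((monInd N P W).subsingleton_H_succ_iff k).2 fun c hc => ?_
    obtain ⟨g, -, g2, g3⟩ := key c hc
    exact mon_cob c g g2 g3

/-- in every block `N` is empty or fills `P` -/
def monGood (N P : Set (Σ b, I b)) : Prop := ∀ v ∈ N, ∀ i : I v.1, ⟨v.1, i⟩ ∈ P → ⟨v.1, i⟩ ∈ N

lemma mon_congr {p q : Prop} {M : Type} [AddCommGroup M] [Module ℂ M] (h : p ↔ q)
    (e : Nonempty (M ≃ₗ[ℂ] monSub p W)) : Nonempty (M ≃ₗ[ℂ] monSub q W) := propext h ▸ e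

lemma mon_main [Fintype B] [∀ b, Fintype (I b)] (n : ℕ) : ∀ N P : Set (Σ b, I b), N.ncard = n →
    N ⊆ P → (∀ b, ∃ i, (⟨b, i⟩ : Σ b, I b) ∈ P) → ∀ k, Nonempty ((monInd N P W).H k ≃ₗ[ℂ]
      monSub (monGood N P ∧ k + (Sigma.fst '' N).ncard = n) W) := by
  induction n with
  | zero =>
    intro N P hN _ hP k
    obtain rfl := (Set.ncard_eq_zero (Set.toFinite _)).1 hN
    exact mon_congr (by simp [monGood]) (mon_empty hP k)
  | succ n ih =>
    intro N P hN hNP hP k
    by_cases hg : monGood N P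
    swap
    · haveI := monSub_sub (W := W) (p := monGood N P ∧ k + (Sigma.fst '' N).ncard = n + 1)
        fun h => hg h.1
      simp only [monGood, not_forall] at hg
      obtain ⟨v, h3, a, h1, h2⟩ := hg
      haveI := mon_acyclic (W := W) h1 h2 h3 k
      exact ⟨LinearEquiv.ofSubsingleton _ _⟩
    obtain ⟨⟨b, a⟩, hv⟩ := Set.nonempty_of_ncard_ne_zero (hN.trans_ne n.succ_ne_zero)
    have hN' : (N \ {⟨b, a⟩}).ncard = n := by rw [Set.ncard_diff_singleton_of_mem hv, hN]; rfl
    by_cases h : ∃ a' : I b, (⟨b, a'⟩ : Σ b, I b) ∈ N \ {⟨b, a⟩}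
    · obtain ⟨a', h⟩ := h
      have im : Sigma.fst '' (N \ {⟨b, a⟩}) = Sigma.fst '' N := by
        refine (Set.image_mono Set.diff_subset).antisymm ?_
        rintro _ ⟨v, h1, rfl⟩
        by_cases e : v = ⟨b, a⟩
        · exact ⟨_, h, by rw [e]⟩
        · exact ⟨v, ⟨h1, e⟩, rfl⟩
      have ac := mon_acyclic (W := W) (N := N \ {⟨b, a⟩}) (hNP hv) (fun c => c.2 rfl) h
      have ses : Sys.SES (monHom (W := W) (Set.diff_subset (s := N) (t := {⟨b, a⟩})) (subset_refl P))
          (monHom (subset_refl _) (Set.diff_subset (t := {⟨b, a⟩}))) := by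
        refine ⟨fun S _ => monCut_inj fun c => ⟨Set.diff_subset.trans c.1, c.2⟩, fun S _ y => ?_,
          fun S _ => monCut_surj fun c => ⟨c.1, c.2.trans Set.diff_subset⟩⟩
        by_cases e : (⟨b, a⟩ : Σ b, I b) ∈ supp S
        · exact iff_of_true (Subtype.ext ((monCut _ _ y).2 fun c => (c.2 e).2 rfl))
            (monCut_surj (fun c => ⟨fun v hv => by
              by_cases e' : v = ⟨b, a⟩
              exacts [e' ▸ e, c.1 ⟨hv, e'⟩], c.2⟩) y)
        · refine ⟨fun c => ⟨0, ?_⟩, ?_⟩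
          · exact (map_zero _).trans (monCut_inj (fun c => ⟨c.1, fun v hv =>
              ⟨c.2 hv, fun e' => e (e' ▸ hv)⟩⟩) (c.trans (map_zero _).symm)).symm
          · rintro ⟨x, rfl⟩
            rw [show x = 0 from Subtype.ext (x.2 fun c => e (c.1 hv)), map_zero, map_zero]
      obtain ⟨α, β, δ, e0, ex⟩ := ses.les
      rcases k with _ | k
      · haveI := ac 0
        haveI := e0.subsingleton
        haveI := monSub_sub (W := W) (p := monGood N P ∧ 0 + (Sigma.fst '' N).ncard = n + 1)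
          fun c => by
            have := Set.ncard_image_le (f := Sigma.fst) (Set.toFinite (N \ {⟨b, a⟩}))
            rw [im] at this
            omega
        exact ⟨LinearEquiv.ofSubsingleton _ _⟩
      · obtain ⟨e⟩ := ih _ (P \ {⟨b, a⟩}) hN' (Set.diff_subset_diff_left hNP) (fun b' => by
          by_cases e : b' = b
          · subst e
            exact ⟨a', hNP h.1, h.2⟩
          · exact (hP b').imp fun i hi => ⟨hi, fun c => e (congrArg Sigma.fst c)⟩) k
        haveI := ac k
        haveI := ac (k + 1)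
        refine mon_congr ?_ ⟨(LinearEquiv.ofBijective (δ k) ⟨(injective_iff_map_eq_zero _).2
          fun y hy => ?_, fun y => ((ex k).2.2 y).1 (Subsingleton.elim _ _)⟩).symm.trans e⟩
        · have : monGood (N \ {⟨b, a⟩}) (P \ {⟨b, a⟩}) := fun v h1 i h2 => ⟨hg v h1.1 i h2.1, h2.2⟩
          rw [im, and_iff_right hg, and_iff_right this]
          omega
        · obtain ⟨x, rfl⟩ := ((ex k).2.1 y).1 hy
          rw [Subsingleton.elim x 0, map_zero]
    · have im : Sigma.fst '' N = insert b (Sigma.fst '' (N \ {⟨b, a⟩})) := by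
        refine Eq.trans ?_ (Set.image_insert_eq (f := Sigma.fst) (a := (⟨b, a⟩ : Σ b, I b)))
        rw [Set.insert_diff_singleton, Set.insert_eq_of_mem hv]
      have nb : b ∉ Sigma.fst '' (N \ {⟨b, a⟩}) := fun ⟨v, h1, e⟩ => h (by subst e; exact ⟨_, h1⟩)
      obtain ⟨e⟩ := ih _ P hN' (Set.diff_subset.trans hNP) hP k
      obtain ⟨e'⟩ := (monHom (W := W) (Set.diff_subset (s := N) (t := {⟨b, a⟩}))
        (subset_refl P)).H_equiv (fun S hS => ⟨monCut_inj fun c =>
          ⟨Set.diff_subset.trans c.1, c.2⟩, monCut_surj fun c => ⟨fun v h1 => by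
            by_contra c'
            obtain ⟨x, hx⟩ := hS
            have h2 : (⟨b, x b⟩ : Σ b, I b) ∈ supp S := ⟨x, hx, rfl⟩
            have h3 : (⟨b, x b⟩ : Σ b, I b) = ⟨b, a⟩ :=
              not_not.1 fun e => h ⟨_, hg _ hv _ (c.2 h2), e⟩
            exact c' (c.1 ⟨h1, fun e => c' (e ▸ h3 ▸ h2)⟩), c.2⟩⟩) k
      refine mon_congr ?_ ⟨e'.trans e⟩
      have : monGood (N \ {⟨b, a⟩}) P := fun v h1 i h2 =>
        ⟨hg v h1.1 i h2, fun c => nb ⟨v, h1, congrArg Sigma.fst c⟩⟩
      rw [im, Set.ncard_insert_of_notMem nb, and_iff_right hg, and_iff_right this]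
      omega

lemma mon_deg [Fintype B] [∀ b, Fintype (I b)] {N : Set (Σ b, I b)} (h : GoodPole N) :
    poleDeg N + (Sigma.fst '' N).ncard = N.ncard := by
  classical
  rw [Set.ncard_eq_toFinset_card', Set.ncard_eq_toFinset_card', poleDeg,
    Finset.card_eq_sum_card_fiberwise (f := id) (t := Finset.univ) fun _ _ => Finset.mem_univ _,
    Finset.card_eq_sum_card_fiberwise (f := Sigma.fst) (t := Finset.univ)
      fun _ _ => Finset.mem_univ _, ← Finset.sum_add_distrib]
  refine Finset.sum_congr rfl fun b _ => ?_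
  split_ifs with c
  · obtain ⟨a, ha⟩ := c
    have h1 := (h b).resolve_left fun c => c a ha
    have h2 : 0 < Fintype.card (I b) := Fintype.card_pos_iff.2 ⟨a⟩
    rw [Finset.card_eq_one.2 ⟨b, by
      ext b'
      simp only [Finset.mem_filter, Set.mem_toFinset, id, Finset.mem_singleton]
      exact and_iff_right_of_imp fun e => ⟨_, ha, e.symm⟩⟩, Nat.sub_add_cancel h2]
    refine Finset.card_bij (fun i _ => ⟨b, i⟩) (by simp [h1]) (by simp) ?_
    rintro ⟨b', i⟩ hv
    obtain rfl : b' = b := (Finset.mem_filter.1 hv).2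
    exact ⟨i, Finset.mem_univ _, rfl⟩
  · rw [zero_add, Finset.card_eq_zero.2, Finset.card_eq_zero.2]
    all_goals
      refine Finset.filter_eq_empty_iff.2 ?_
      rintro v hv rfl
    · exact c ⟨_, Set.mem_toFinset.1 hv⟩
    · obtain ⟨w, h1, rfl⟩ := Set.mem_toFinset.1 hv
      exact c ⟨_, h1⟩

section dec

variable {J K : Type} (E : Set J) (N : J → K)

open Classical in
/-- the component with prescribed pole set -/
def monPr (T : Set J) (r : Prop) (n : K) (h : ∀ e ∈ T, e ∈ E ∧ (N e = n → r)) :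
    Finsupp.supported ℂ ℂ T →ₗ[ℂ] monSub r (Finsupp.supported ℂ ℂ {e | e ∈ E ∧ N e = n}) where
  toFun x := ⟨⟨x.1.filter (N · = n), fun e he => by
      have := Finset.mem_filter.1 (Finsupp.support_filter (N · = n) x.1 ▸ he)
      exact ⟨(h e (x.2 this.1)).1, this.2⟩⟩, fun c => Subtype.ext (Finsupp.ext fun e => by
    by_contra c'
    have := Finset.mem_filter.1 (Finsupp.support_filter (N · = n) x.1 ▸
      Finsupp.mem_support_iff.2 c')
    exact c ((h e (x.2 this.1)).2 this.2))⟩
  map_add' x y := Subtype.ext (Subtype.ext Finsupp.filter_add)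
  map_smul' a x := Subtype.ext (Subtype.ext Finsupp.filter_smul)

/-- the inclusion of a component -/
def monIn (T : Set J) (r : Prop) (n : K) (h : r → ∀ e ∈ E, N e = n → e ∈ T) :
    monSub r (Finsupp.supported ℂ ℂ {e | e ∈ E ∧ N e = n}) →ₗ[ℂ] Finsupp.supported ℂ ℂ T where
  toFun x := ⟨x.1.1, fun e he => h (not_not.1 fun c => by simp [x.2 c] at he) e (x.1.2 he).1
    (x.1.2 he).2⟩
  map_add' _ _ := rfl
  map_smul' _ _ := rfl

open Classical in
lemma mon_pr_in {T : Set J} {r : Prop} {n : K} (h h') (x) :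
    monPr E N T r n h (monIn E N T r n h' x) = x :=
  Subtype.ext (Subtype.ext ((Finsupp.filter_eq_self_iff _ _).2 fun _ he =>
    (x.1.2 (Finsupp.mem_support_iff.2 he)).2))

open Classical in
lemma mon_pr_in' {T : Set J} {r r' : Prop} {n n' : K} (hn : n ≠ n') (h h') (x) :
    monPr E N T r n h (monIn E N T r' n' h' x) = 0 :=
  Subtype.ext (Subtype.ext ((Finsupp.filter_eq_zero_iff _ _).2 fun _ he => not_not.1 fun c =>
    hn (he.symm.trans (x.1.2 (Finsupp.mem_support_iff.2 c)).2)))

lemma mon_in_pr [Fintype K] {T : Set J} {r : K → Prop} (h : ∀ n, ∀ e ∈ T, e ∈ E ∧ (N e = n → r n))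
    (h' : ∀ n, r n → ∀ e ∈ E, N e = n → e ∈ T) (x) :
    ∑ n, monIn E N T (r n) n (h' n) (monPr E N T (r n) n (h n) x) = x := by
  classical
  refine Subtype.ext ((map_sum (Submodule.subtype _) _ _).trans (Finsupp.ext fun e => ?_))
  rw [Finsupp.finset_sum_apply]
  exact (Finset.sum_eq_single_of_mem (N e) (Finset.mem_univ _)
    fun n _ hn => Finsupp.filter_apply_neg (N · = n) x.1 hn.symm).trans
    (Finsupp.filter_apply_pos (N · = N e) x.1 rfl)

end dec

theorem monSys_H [Fintype B] [∀ b, Fintype (I b)] [∀ b, Nonempty (I b)] {J : Type} (E : Set J)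
    (N : J → Set (Σ b, I b)) (k : ℕ) :
    Nonempty ((monSys E N).H k ≃ₗ[ℂ]
      ({e : J // e ∈ E ∧ GoodPole (N e) ∧ poleDeg (N e) = k} →₀ ℂ)) := by
  classical
  have g : ∀ (S : Set (∀ b, I b)) n, ∀ e ∈ {e | e ∈ E ∧ N e ⊆ supp S},
      e ∈ E ∧ (N e = n → monQ n Set.univ S) :=
    fun S n e he => ⟨he.1, fun c => ⟨c ▸ he.2, Set.subset_univ _⟩⟩
  have g' : ∀ (S : Set (∀ b, I b)) n, monQ n Set.univ S → ∀ e ∈ E, N e = n →
      e ∈ {e | e ∈ E ∧ N e ⊆ supp S} := fun S n q e he c => ⟨he, c ▸ q.1⟩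
  obtain ⟨e1⟩ := Sys.H_decomp (G := monSys E N)
    (G' := fun n => monInd n Set.univ (Finsupp.supported ℂ ℂ {e | e ∈ E ∧ N e = n}))
    (fun n => ⟨fun S _ => monPr E N _ _ n (g S n), fun {S T} h _ x => Subtype.ext (by
        by_cases q : monQ n Set.univ T
        · exact Eq.symm (monCut_pos q _)
        · exact ((_ : monSub _ _).2 q).trans ((monCut _ _ _).2 q).symm)⟩)
    (fun n => ⟨fun S _ => monIn E N _ _ n (g' S n), fun {S T} h _ x => Subtype.ext (by
        by_cases q : monQ n Set.univ S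
        · exact congrArg (fun y : Finsupp.supported ℂ ℂ {e | e ∈ E ∧ N e = n} => y.1) (monCut_pos
            (q := monQ n Set.univ T) ⟨q.1.trans (supp_mono h), Set.subset_univ _⟩ x)
        · rw [show x = 0 from Subtype.ext (x.2 q)]
          simp only [map_zero])⟩)
    (fun n S _ x => mon_pr_in E N (g S n) (g' S n) x)
    (fun n n' h S _ x => mon_pr_in' E N h (g S n) (g' S n') x)
    (fun S _ x => mon_in_pr E N (g S) (g' S) x) k
  have e2 : ∀ n : Set (Σ b, I b), Nonempty ((monInd n Set.univ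
      (Finsupp.supported ℂ ℂ {e | e ∈ E ∧ N e = n})).H k ≃ₗ[ℂ] monSub (GoodPole n ∧ poleDeg n = k)
        (Finsupp.supported ℂ ℂ {e | e ∈ E ∧ N e = n})) := fun n => by
    refine mon_congr ?_ (mon_main _ n _ rfl (Set.subset_univ _)
      (fun b => ⟨Classical.arbitrary _, trivial⟩) k)
    have : monGood n Set.univ ↔ GoodPole n := ⟨fun h b => (em _).imp_right fun c i => by
      obtain ⟨a, ha⟩ := not_forall_not.1 c
      exact h _ ha i trivial, fun h v hv i _ => (h v.1).resolve_left (fun c => c _ hv) i⟩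
    rw [this]
    exact and_congr_right fun h => by have := mon_deg h; omega
  let T : Set J := {e | e ∈ E ∧ GoodPole (N e) ∧ poleDeg (N e) = k}
  have h : ∀ n, ∀ e ∈ T, e ∈ E ∧ (N e = n → GoodPole n ∧ poleDeg n = k) :=
    fun n e he => ⟨he.1, fun c => c ▸ he.2⟩
  have h' : ∀ n, GoodPole n ∧ poleDeg n = k → ∀ e ∈ E, N e = n → e ∈ T :=
    fun n q e he c => ⟨he, c ▸ q⟩
  refine ⟨e1.trans ((LinearEquiv.piCongrRight fun n => (e2 n).some).trans
    ((LinearEquiv.ofBijective (LinearMap.pi fun n => monPr E N T _ n (h n))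
      ⟨(injective_iff_map_eq_zero _).2 fun x hx => ?_, fun y =>
        ⟨∑ n, monIn E N T _ n (h' n) (y n), funext fun n => ?_⟩⟩).symm.trans
      (Finsupp.supportedEquivFinsupp T)))⟩
  · rw [← mon_in_pr E N h h' x]
    exact Finset.sum_eq_zero fun n _ => by
      rw [show monPr E N T _ n (h n) x = 0 from congrFun hx n, map_zero]
  · rw [LinearMap.pi_apply, map_sum, Finset.sum_eq_single_of_mem n (Finset.mem_univ _)
      fun n' _ c => mon_pr_in' E N c.symm _ _ _, mon_pr_in]

end

end Pool.Agent.Lib.MP_d80bfc_ag
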