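import Pool.Agent.Lib.MP_d80bfc_ag.Pts

/-!
# TASK PV: the projective scheme of a homogeneous ideal
-/

open CategoryTheory AlgebraicGeometry Opposite MvPolynomial

noncomputable section

namespace Pool.Agent.Lib.MP_d80bfc_ag

attribute [local instance] MvPolynomial.gradedAlgebra

section pv_general

variable {A B : Type} [CommRing A] [CommRing B] [Algebra ℂ A] [Algebra ℂ B]
  {𝒜 : ℕ → Submodule ℂ A} {ℬ : ℕ → Submodule ℂ B} [GradedAlgebra 𝒜] [GradedAlgebra ℬ]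

lemma pv_awayMap_surjective (f : 𝒜 →+*ᵍ ℬ) (hs : ∀ n, ∀ b ∈ ℬ n, ∃ a ∈ 𝒜 n, f a = b)
    {d : ℕ} {s : A} (hd : s ∈ 𝒜 d) :
    Function.Surjective (HomogeneousLocalization.Away.map f s) := by
  intro y
  obtain ⟨n, b, hb, rfl⟩ := HomogeneousLocalization.Away.mk_surjective ℬ (f.2 hd) y
  obtain ⟨a, ha, rfl⟩ := hs _ b hb
  exact ⟨HomogeneousLocalization.Away.mk 𝒜 hd n a ha,
    HomogeneousLocalization.Away.map_mk f s hd n a ha⟩

lemma pv_isClosedImmersion_map (f : 𝒜 →+*ᵍ ℬ)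
    (hf : HomogeneousIdeal.irrelevant ℬ ≤ (HomogeneousIdeal.irrelevant 𝒜).map f)
    (hs : ∀ n, ∀ b ∈ ℬ n, ∃ a ∈ 𝒜 n, f a = b) : IsClosedImmersion (Proj.map f hf) := by
  refine IsZariskiLocalAtTarget.of_openCover (P := @IsClosedImmersion)
    (Proj.affineOpenCover 𝒜).openCover fun i => ?_
  obtain ⟨⟨d, hd⟩, s, hsd⟩ := i
  have H : IsPullback (Spec.map (CommRingCat.ofHom (HomogeneousLocalization.Away.map f s)))
      (Proj.awayι ℬ (f s) (f.2 hsd) hd) (Proj.awayι 𝒜 s hsd hd) (Proj.map f hf) :=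
    IsOpenImmersion.isPullback _ _ _ _ (Proj.awayι_comp_map f hf hd s hsd) (by
      rw [Proj.opensRange_awayι, Proj.opensRange_awayι, Proj.map_preimage_basicOpen])
  have h1 : IsClosedImmersion
      (Spec.map (CommRingCat.ofHom (HomogeneousLocalization.Away.map f s))) :=
    IsClosedImmersion.spec_of_surjective _ (pv_awayMap_surjective f hs hsd)
  have h2 : Limits.pullback.snd (Proj.map f hf) (Proj.awayι 𝒜 s hsd hd) =
      H.flip.isoPullback.inv ≫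
        Spec.map (CommRingCat.ofHom (HomogeneousLocalization.Away.map f s)) :=
    (IsPullback.isoPullback_inv_snd H.flip).symm
  change IsClosedImmersion (Limits.pullback.snd (Proj.map f hf) (Proj.awayι 𝒜 s hsd hd))
  rw [h2]
  infer_instance

lemma pv_map_toSpecZero (f : 𝒜 →+*ᵍ ℬ)
    (hf : HomogeneousIdeal.irrelevant ℬ ≤ (HomogeneousIdeal.irrelevant 𝒜).map f)
    (hc : ∀ c : ℂ, f (algebraMap ℂ A c) = algebraMap ℂ B c) :
    Proj.map f hf ≫ Proj.toSpecZero 𝒜 ≫ Spec.map (CommRingCat.ofHom (algebraMap ℂ (𝒜 0))) =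
      Proj.toSpecZero ℬ ≫ Spec.map (CommRingCat.ofHom (algebraMap ℂ (ℬ 0))) := by
  suffices H : ∀ (d : ℕ) (hd : 0 < d) (s : A) (hsd : s ∈ 𝒜 d),
      Proj.awayι ℬ (f s) (f.2 hsd) hd ≫ Proj.map f hf ≫ Proj.toSpecZero 𝒜 ≫
        Spec.map (CommRingCat.ofHom (algebraMap ℂ (𝒜 0))) =
      Proj.awayι ℬ (f s) (f.2 hsd) hd ≫ Proj.toSpecZero ℬ ≫
        Spec.map (CommRingCat.ofHom (algebraMap ℂ (ℬ 0))) from
    (Proj.mapAffineOpenCover f hf).openCover.hom_ext _ _ fun i => H i.1.1 i.1.2 i.2.1 i.2.2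
  intro d hd s hsd
  rw [Proj.awayι_comp_map_assoc f hf hd s hsd, Proj.awayι_toSpecZero_assoc,
    Proj.awayι_toSpecZero_assoc, ← Spec.map_comp, ← Spec.map_comp, ← Spec.map_comp]
  congr 1
  ext c
  change (HomogeneousLocalization.Away.map f s
      (HomogeneousLocalization.fromZeroRingHom 𝒜 _ (algebraMap ℂ (𝒜 0) c))).val =
    (HomogeneousLocalization.fromZeroRingHom ℬ _ (algebraMap ℂ (ℬ 0) c)).val
  change Localization.mk (f (algebraMap ℂ A c)) ⟨f 1, _⟩ =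
    Localization.mk (algebraMap ℂ B c) ⟨1, _⟩
  rw [hc]
  congr 2
  exact map_one f

lemma pv_le_of_pos {x y : ProjectiveSpectrum 𝒜}
    (h : ∀ n, 0 < n → ∀ r ∈ 𝒜 n, r ∈ x.asHomogeneousIdeal → r ∈ y.asHomogeneousIdeal)
    {m : ℕ} {b : A} (hb : b ∈ 𝒜 m) (hx : b ∈ x.asHomogeneousIdeal) :
    b ∈ y.asHomogeneousIdeal := by
  have hy := y.not_irrelevant_le
  rw [HomogeneousIdeal.irrelevant_le] at hy
  push Not at hy
  obtain ⟨n, hn, hc⟩ := hy
  obtain ⟨c, hc1, hc2⟩ := SetLike.not_le_iff_exists.mp hc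
  have h1 : c * b ∈ y.asHomogeneousIdeal :=
    h (n + m) (Nat.add_pos_left hn m) _ (SetLike.mul_mem_graded hc1 hb)
      (Ideal.mul_mem_left x.asHomogeneousIdeal.toIdeal c hx)
  exact (y.isPrime.mem_or_mem h1).resolve_left hc2

end pv_general

lemma pv_mem_span_X {σ : Type} {n : ℕ} (hn : 0 < n) {p : MvPolynomial σ ℂ}
    (hp : p.IsHomogeneous n) : p ∈ Ideal.span (Set.range (X : σ → MvPolynomial σ ℂ)) := by
  rw [← Set.image_univ, mem_ideal_span_X_image]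
  intro m hm
  by_contra hne
  push Not at hne
  have h0 : m = 0 := Finsupp.ext fun i => hne i (Set.mem_univ i)
  have h1 := hp (mem_support_iff.mp hm)
  rw [h0, map_zero] at h1
  omega

/-- homogeneous ideals of a polynomial ring -/
structure HI (σ : Type) where
  I : Ideal (MvPolynomial σ ℂ)
  hom : ∀ p ∈ I, ∀ n, homogeneousComponent n p ∈ I

namespace HI

variable {σ : Type} (𝔞 : HI σ)

/-- the homogeneous coordinate ring -/
def A : Type := MvPolynomial σ ℂ ⧸ 𝔞.I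

instance instCommRingA : CommRing 𝔞.A := inferInstanceAs (CommRing (MvPolynomial σ ℂ ⧸ 𝔞.I))

instance instAlgebraA : Algebra ℂ 𝔞.A := inferInstanceAs (Algebra ℂ (MvPolynomial σ ℂ ⧸ 𝔞.I))

/-- the quotient map -/
def mkA : MvPolynomial σ ℂ →ₐ[ℂ] 𝔞.A := Ideal.Quotient.mkₐ ℂ 𝔞.I

lemma mkA_surjective : Function.Surjective 𝔞.mkA := Ideal.Quotient.mk_surjective

lemma mkA_eq_zero_iff {p : MvPolynomial σ ℂ} : 𝔞.mkA p = 0 ↔ p ∈ 𝔞.I :=
  Ideal.Quotient.eq_zero_iff_mem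

/-- the grading of the coordinate ring -/
def gr (n : ℕ) : Submodule ℂ 𝔞.A := (homogeneousSubmodule σ ℂ n).map 𝔞.mkA.toLinearMap

lemma mkA_mem_gr {n : ℕ} {p : MvPolynomial σ ℂ} (hp : p.IsHomogeneous n) : 𝔞.mkA p ∈ 𝔞.gr n :=
  ⟨p, hp, rfl⟩

lemma isInternal_gr : DirectSum.IsInternal 𝔞.gr := by
  refine DirectSum.isInternal_submodule_of_iSupIndep_of_iSup_eq_top ?_ ?_
  · intro i
    rw [Submodule.disjoint_def]
    rintro _ ⟨p, hp, rfl⟩ hx
    have h1 : (⨆ (j : ℕ) (_ : j ≠ i), 𝔞.gr j) ≤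
        (LinearMap.ker (homogeneousComponent (σ := σ) (R := ℂ) i)).map 𝔞.mkA.toLinearMap := by
      refine iSup₂_le fun j hj => Submodule.map_mono fun q hq => ?_
      rw [LinearMap.mem_ker, homogeneousComponent_of_mem hq, if_neg hj.symm]
    obtain ⟨q, hq, hpq⟩ := h1 hx
    have h2 : p - q ∈ 𝔞.I := by
      rw [← 𝔞.mkA_eq_zero_iff, map_sub, sub_eq_zero]
      exact hpq.symm
    have h3 := 𝔞.hom _ h2 i
    rw [map_sub, homogeneousComponent_eq_self hp, LinearMap.mem_ker.mp hq, sub_zero] at h3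
    exact 𝔞.mkA_eq_zero_iff.mpr h3
  · refine top_le_iff.mp fun x _ => ?_
    obtain ⟨p, rfl⟩ := 𝔞.mkA_surjective x
    rw [← sum_homogeneousComponent p, map_sum]
    exact Submodule.sum_mem _ fun i _ => Submodule.mem_iSup_of_mem i
      (𝔞.mkA_mem_gr (homogeneousComponent_isHomogeneous i p))

instance instGradedMonoid : SetLike.GradedMonoid 𝔞.gr where
  one_mem := ⟨1, isHomogeneous_one σ ℂ, map_one 𝔞.mkA⟩
  mul_mem := by
    rintro i j _ _ ⟨p, hp, rfl⟩ ⟨q, hq, rfl⟩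
    exact ⟨p * q, IsHomogeneous.mul hp hq, map_mul 𝔞.mkA p q⟩

instance instGradedAlgebra : GradedAlgebra 𝔞.gr :=
  { 𝔞.instGradedMonoid, 𝔞.isInternal_gr.chooseDecomposition with }

/-- the projective scheme defined by `𝔞` -/
def var : Var :=
  Over.mk (Proj.toSpecZero 𝔞.gr ≫ Spec.map (CommRingCat.ofHom (algebraMap ℂ (𝔞.gr 0))))

/-- the open set where `p` does not vanish -/
def D (p : MvPolynomial σ ℂ) : 𝔞.var.left.Opens := Proj.basicOpen 𝔞.gr (𝔞.mkA p)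

/-- the regular function `p / q` on an open subset of `D q` -/
def frac {n : ℕ} {q p : MvPolynomial σ ℂ} (hq : q.IsHomogeneous n) (hp : p.IsHomogeneous n)
    {U : 𝔞.var.left.Opens} (hU : U ≤ 𝔞.D q) : Fn 𝔞.var U :=
  Fn.res 𝔞.var hU (Proj.awayToSection 𝔞.gr (𝔞.mkA q)
    (HomogeneousLocalization.Away.mk 𝔞.gr (𝔞.mkA_mem_gr hq) 1 (𝔞.mkA p)
      (by rw [one_smul]; exact 𝔞.mkA_mem_gr hp)))

/-- the quotient map as a graded ring homomorphism -/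
def pv_mkG : homogeneousSubmodule σ ℂ →+*ᵍ 𝔞.gr where
  __ := 𝔞.mkA.toRingHom
  map_mem hx := 𝔞.mkA_mem_gr hx

lemma pv_irrelevant_le : HomogeneousIdeal.irrelevant 𝔞.gr ≤
    (HomogeneousIdeal.irrelevant (homogeneousSubmodule σ ℂ)).map 𝔞.pv_mkG := by
  rw [HomogeneousIdeal.irrelevant_le]
  rintro i hi _ ⟨p, hp, rfl⟩
  exact Ideal.mem_map_of_mem 𝔞.pv_mkG (HomogeneousIdeal.mem_irrelevant_of_mem _ hi hp)

theorem exists_closedImmersion : ∃ i : 𝔞.var ⟶ projSpace σ, IsClosedImmersion i.left :=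
  ⟨Over.homMk (Proj.map 𝔞.pv_mkG 𝔞.pv_irrelevant_le)
    (pv_map_toSpecZero 𝔞.pv_mkG 𝔞.pv_irrelevant_le fun c => 𝔞.mkA.commutes c),
    pv_isClosedImmersion_map 𝔞.pv_mkG 𝔞.pv_irrelevant_le fun _ _ ⟨p, hp, e⟩ => ⟨p, hp, e⟩⟩

lemma pv_algebraMap_surjective : Function.Surjective (algebraMap ℂ (𝔞.gr 0)) := by
  rintro ⟨_, p, hp, rfl⟩
  refine ⟨coeff 0 p, Subtype.ext ?_⟩
  change algebraMap ℂ 𝔞.A (coeff 0 p) = 𝔞.mkA p
  rw [← 𝔞.mkA.commutes, algebraMap_eq, ← homogeneousComponent_zero,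
    homogeneousComponent_eq_self hp]

instance isProper [Finite σ] : IsProper 𝔞.var.hom := by
  have h1 : Algebra.FiniteType ℂ 𝔞.A := Algebra.FiniteType.of_surjective 𝔞.mkA 𝔞.mkA_surjective
  have h0 := IsScalarTower.of_algebraMap_eq (R := ℂ) (S := 𝔞.gr 0) (A := 𝔞.A) fun _ => rfl
  have h2 : Algebra.FiniteType (𝔞.gr 0) 𝔞.A :=
    Algebra.FiniteType.of_restrictScalars_finiteType ℂ (𝔞.gr 0) 𝔞.A
  have h3 : IsClosedImmersion (Spec.map (CommRingCat.ofHom (algebraMap ℂ (𝔞.gr 0)))) :=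
    IsClosedImmersion.spec_of_surjective _ 𝔞.pv_algebraMap_surjective
  change IsProper (Proj.toSpecZero 𝔞.gr ≫ Spec.map (CommRingCat.ofHom (algebraMap ℂ (𝔞.gr 0))))
  infer_instance

lemma D_mul (p q : MvPolynomial σ ℂ) : 𝔞.D (p * q) = 𝔞.D p ⊓ 𝔞.D q := by
  unfold D
  rw [map_mul]
  exact Proj.basicOpen_mul _ _ _

lemma D_one : 𝔞.D 1 = ⊤ := by
  unfold D
  rw [map_one]
  exact Proj.basicOpen_one _

lemma D_pow (p : MvPolynomial σ ℂ) {n : ℕ} (hn : 0 < n) : 𝔞.D (p ^ n) = 𝔞.D p := by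
  unfold D
  rw [map_pow]
  exact Proj.basicOpen_pow _ _ n hn

lemma D_le_D_pow (p : MvPolynomial σ ℂ) (n : ℕ) : 𝔞.D p ≤ 𝔞.D (p ^ n) := by
  rcases Nat.eq_zero_or_pos n with rfl | hn
  · rw [pow_zero, D_one]
    exact le_top
  · rw [𝔞.D_pow p hn]

lemma D_prod {ι : Type} (s : Finset ι) (p : ι → MvPolynomial σ ℂ) :
    𝔞.D (∏ i ∈ s, p i) = ⨅ i ∈ s, 𝔞.D (p i) := by
  classical
  induction s using Finset.induction_on with
  | empty => rw [Finset.prod_empty, D_one]; simp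
  | insert a s ha ih => rw [Finset.prod_insert ha, D_mul, ih, Finset.iInf_insert]

lemma D_eq_bot_of_mem {p : MvPolynomial σ ℂ} (hp : p ∈ 𝔞.I) : 𝔞.D p = ⊥ := by
  unfold D
  rw [𝔞.mkA_eq_zero_iff.mpr hp]
  exact Proj.basicOpen_zero _

lemma isAffineOpen_D {n : ℕ} (hn : 0 < n) {q : MvPolynomial σ ℂ} (hq : q.IsHomogeneous n) :
    IsAffineOpen (𝔞.D q) :=
  Proj.isAffineOpen_basicOpen 𝔞.gr (𝔞.mkA q) (𝔞.mkA_mem_gr hq) hn

lemma pv_exists_X_notMem (x : ProjectiveSpectrum 𝔞.gr) :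
    ∃ a : σ, 𝔞.mkA (X a) ∉ x.asHomogeneousIdeal := by
  by_contra H
  push Not at H
  apply x.not_irrelevant_le
  rw [HomogeneousIdeal.irrelevant_le]
  rintro i hi _ ⟨p, hp, rfl⟩
  have h1 : Ideal.span (Set.range (X : σ → MvPolynomial σ ℂ)) ≤
      x.asHomogeneousIdeal.toIdeal.comap 𝔞.mkA := by
    rw [Ideal.span_le]
    rintro _ ⟨a, rfl⟩
    exact H a
  exact h1 (pv_mem_span_X hi hp)

/-- a family of polynomials covers if a power of every variable lies in the ideal it spans,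
modulo `𝔞` -/
lemma iSup_D_eq_top {ι : Type} (f : ι → MvPolynomial σ ℂ)
    (h : ∀ a : σ, ∃ (n : ℕ) (q : MvPolynomial σ ℂ), q ∈ Ideal.span (Set.range f) ∧
      X a ^ n - q ∈ 𝔞.I) : ⨆ i, 𝔞.D (f i) = ⊤ := by
  refine top_le_iff.mp fun x _ => TopologicalSpace.Opens.mem_iSup.mpr ?_
  by_contra H
  push Not at H
  obtain ⟨a, ha⟩ := 𝔞.pv_exists_X_notMem x
  obtain ⟨n, q, hq, hn⟩ := h a
  have h1 : Ideal.span (Set.range f) ≤
      (ProjectiveSpectrum.asHomogeneousIdeal x).toIdeal.comap 𝔞.mkA := by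
    rw [Ideal.span_le]
    rintro _ ⟨i, rfl⟩
    exact not_not.mp (H i)
  have h2 : 𝔞.mkA (X a) ^ n = 𝔞.mkA q := by
    rw [← map_pow, ← sub_eq_zero, ← map_sub]
    exact 𝔞.mkA_eq_zero_iff.mpr hn
  have h3 : 𝔞.mkA (X a) ^ n ∈ (ProjectiveSpectrum.asHomogeneousIdeal x).toIdeal := h2 ▸ h1 hq
  exact ha ((ProjectiveSpectrum.isPrime x).mem_of_pow_mem n h3)

/-- two points lying in the same `D r`, `r` homogeneous of positive degree, are equal -/
lemma point_ext {x y : 𝔞.var.left} (h : ∀ (n : ℕ) (r : MvPolynomial σ ℂ), 0 < n →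
    r.IsHomogeneous n → (x ∈ 𝔞.D r ↔ y ∈ 𝔞.D r)) : x = y := by
  refine ProjectiveSpectrum.ext (𝒜 := 𝔞.gr) (HomogeneousIdeal.ext' fun i b hb => ⟨?_, ?_⟩)
  · refine pv_le_of_pos (𝒜 := 𝔞.gr) ?_ hb
    rintro n hn _ ⟨r, hr, rfl⟩ hx
    by_contra hy
    exact (h n r hn hr).mpr hy hx
  · refine pv_le_of_pos (𝒜 := 𝔞.gr) ?_ hb
    rintro n hn _ ⟨r, hr, rfl⟩ hy
    by_contra hx
    exact (h n r hn hr).mp hx hy

theorem irreducibleSpace (h : 𝔞.I.IsPrime) (a : σ) (ha : X a ∉ 𝔞.I) :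
    IrreducibleSpace 𝔞.var.left := by
  have hd : IsDomain 𝔞.A := Ideal.Quotient.isDomain 𝔞.I
  let η : ProjectiveSpectrum 𝔞.gr :=
    ⟨⊥, Ideal.isPrime_bot, fun hle => ha (𝔞.mkA_eq_zero_iff.mp (hle
      (HomogeneousIdeal.mem_irrelevant_of_mem _ Nat.one_pos
        (𝔞.mkA_mem_gr (isHomogeneous_X ℂ a)))))⟩
  have h1 : closure ({η} : Set (ProjectiveSpectrum 𝔞.gr)) = Set.univ :=
    Set.eq_univ_of_forall fun y => (ProjectiveSpectrum.le_iff_mem_closure 𝔞.gr η y).mp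
      (show (⊥ : HomogeneousIdeal 𝔞.gr) ≤ y.asHomogeneousIdeal from bot_le)
  have h2 : IsIrreducible (Set.univ : Set (ProjectiveSpectrum 𝔞.gr)) :=
    h1 ▸ isIrreducible_singleton.closure
  have h3 : IrreducibleSpace (ProjectiveSpectrum 𝔞.gr) := (irreducibleSpace_def _).mpr h2
  exact h3

end HI

end Pool.Agent.Lib.MP_d80bfc_ag
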