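import Pool.Agent.Lib.MP_d80bfc_ag.Frac

/-!
# TASK PVPTS: homogeneous coordinates of points; morphisms to a projective scheme
-/

open CategoryTheory AlgebraicGeometry Opposite MvPolynomial

noncomputable section

namespace Pool.Agent.Lib.MP_d80bfc_ag

namespace HI

variable {σ : Type} (𝔞 : HI σ)

/-- the point `p` has homogeneous coordinates `P` -/
def Rel (p : Pt 𝔞.var) (P : σ → ℂ) : Prop :=
  P ≠ 0 ∧ ∀ (n : ℕ) (r : MvPolynomial σ ℂ), 0 < n → r.IsHomogeneous n →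
    (p.loc ∈ 𝔞.D r ↔ eval P r ≠ 0)

variable {𝔞}

lemma pvpts_ev_aeval {T : Var} (p : Pt T) {U : T.left.Opens} (hp : p.loc ∈ U) (s : σ → Fn T U)
    (r : MvPolynomial σ ℂ) : p.ev hp (aeval s r) = eval (fun i => p.ev hp (s i)) r := by
  have h : (p.ev hp).comp (aeval s) = aeval (fun i => p.ev hp (s i)) := by
    ext i
    simp
  rw [← coe_aeval_eq_eval]
  exact DFunLike.congr_fun h r

lemma pvpts_eval_smul {n : ℕ} {r : MvPolynomial σ ℂ} (hr : r.IsHomogeneous n) (u : ℂ)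
    (P : σ → ℂ) : eval (u • P) r = u ^ n * eval P r := by
  rw [eval_eq, eval_eq, Finset.mul_sum]
  refine Finset.sum_congr rfl fun d hd => ?_
  simp only [Pi.smul_apply, smul_eq_mul, mul_pow, Finset.prod_mul_distrib,
    Finset.prod_pow_eq_pow_sum]
  rw [← hr.degree_eq_sum_deg_support hd]
  ring

lemma pvpts_rel_coord (p : Pt 𝔞.var) (a : σ) {U : 𝔞.var.left.Opens} (hU : U ≤ 𝔞.D (X a))
    (hp : p.loc ∈ U) : 𝔞.Rel p fun i => p.ev hp (𝔞.coord a hU i) := by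
  refine ⟨fun h => ?_, fun n r _ hr => ?_⟩
  · have h1 : p.ev hp (𝔞.coord a hU a) = 0 := congrFun h a
    rw [coord, frac_self, map_one] at h1
    exact one_ne_zero h1
  · rw [← pvpts_ev_aeval, aeval_coord 𝔞 a hU hr, Pt.ev_ne_zero_iff, bo_frac]
    exact ⟨fun h => ⟨hp, h⟩, fun h => h.2⟩

lemma exists_rel (p : Pt 𝔞.var) : ∃ P, 𝔞.Rel p P := by
  have h : ⨆ a : σ, 𝔞.D (X a) = ⊤ := 𝔞.iSup_D_eq_top (fun a : σ => X a) fun a =>
    ⟨1, X a, Ideal.subset_span ⟨a, rfl⟩, by simp⟩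
  have h1 : p.loc ∈ ⨆ a : σ, 𝔞.D (X a) := by rw [h]; trivial
  obtain ⟨a, ha⟩ := TopologicalSpace.Opens.mem_iSup.mp h1
  exact ⟨_, pvpts_rel_coord p a le_rfl ha⟩

lemma Rel.eval_eq_zero {p : Pt 𝔞.var} {P : σ → ℂ} (h : 𝔞.Rel p P) {r : MvPolynomial σ ℂ}
    (hr : r ∈ 𝔞.I) : eval P r = 0 := by
  obtain ⟨a, ha⟩ := Function.ne_iff.mp h.1
  rw [← sum_homogeneousComponent r, map_sum]
  refine Finset.sum_eq_zero fun n _ => ?_
  have h1 := h.2 (1 + n) (X a * homogeneousComponent n r) (by omega)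
    ((isHomogeneous_X ℂ a).mul (homogeneousComponent_isHomogeneous n r))
  rw [𝔞.D_eq_bot_of_mem (𝔞.I.mul_mem_left _ (𝔞.hom r hr n))] at h1
  by_contra h2
  refine h1.mpr ?_
  rw [map_mul, eval_X]
  exact mul_ne_zero ha h2

lemma Rel.smul {p : Pt 𝔞.var} {P : σ → ℂ} (h : 𝔞.Rel p P) {u : ℂ} (hu : u ≠ 0) :
    𝔞.Rel p (u • P) := by
  refine ⟨smul_ne_zero hu h.1, fun n r hn hr => ?_⟩
  rw [h.2 n r hn hr, pvpts_eval_smul hr]
  simp [hu]

lemma Rel.exists_smul {p : Pt 𝔞.var} {P P' : σ → ℂ} (h : 𝔞.Rel p P) (h' : 𝔞.Rel p P') :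
    ∃ u : ℂ, u ≠ 0 ∧ P' = u • P := by
  obtain ⟨a, ha⟩ := Function.ne_iff.mp h.1
  have ha : P a ≠ 0 := ha
  have ha' : P' a ≠ 0 := by
    have h1 := (h.2 1 (X a) one_pos (isHomogeneous_X ℂ a)).symm.trans
      (h'.2 1 (X a) one_pos (isHomogeneous_X ℂ a))
    simp only [eval_X] at h1
    exact h1.mp ha
  refine ⟨P' a / P a, div_ne_zero ha' ha, funext fun i => ?_⟩
  have hr : (C (P a) * X i - C (P i) * X a : MvPolynomial σ ℂ).IsHomogeneous 1 :=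
    (isHomogeneous_C_mul_X _ _).sub (isHomogeneous_C_mul_X _ _)
  have h1 := (h.2 1 _ one_pos hr).symm.trans (h'.2 1 _ one_pos hr)
  simp only [map_sub, map_mul, eval_C, eval_X, ne_eq, not_iff_not] at h1
  have h2 := h1.mp (by ring)
  simp only [Pi.smul_apply, smul_eq_mul]
  field_simp
  linear_combination h2

lemma Rel.unique [Finite σ] {p q : Pt 𝔞.var} {P : σ → ℂ} (h : 𝔞.Rel p P) (h' : 𝔞.Rel q P) :
    p = q :=
  Pt.ext_loc (𝔞.point_ext fun n r hn hr => (h.2 n r hn hr).trans (h'.2 n r hn hr).symm)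

/-- a morphism given by global functions one of which is a unit -/
lemma pvpts_exists_hom (T : Var) (s : σ → Fn T ⊤) (hs : ∀ r ∈ 𝔞.I, aeval s r = 0) (a : σ)
    (ha : IsUnit (s a)) : ∃ f : T ⟶ 𝔞.var, ∀ p : Pt T,
      𝔞.Rel (p ≫ f) fun i => p.ev (U := ⊤) trivial (s i) := by
  let g : 𝔞.A →ₐ[ℂ] Fn T ⊤ := Ideal.Quotient.liftₐ 𝔞.I (aeval s) hs
  have hg : ∀ r, g (𝔞.mkA r) = aeval s r := fun r => rfl
  let g' : 𝔞.A →+* Γ(T.left, ⊤) := g.toRingHom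
  have hf : (HomogeneousIdeal.irrelevant 𝔞.gr).toIdeal.map g' = ⊤ := by
    refine Ideal.eq_top_of_isUnit_mem _ (Ideal.mem_map_of_mem g'
      (HomogeneousIdeal.mem_irrelevant_of_mem 𝔞.gr one_pos
        (𝔞.mkA_mem_gr (isHomogeneous_X ℂ a)))) ?_
    change IsUnit (g (𝔞.mkA (X a)))
    rw [hg, aeval_X]
    exact ha
  have hw : Proj.fromOfGlobalSections 𝔞.gr g' hf ≫ 𝔞.var.hom = T.hom := by
    change Proj.fromOfGlobalSections 𝔞.gr g' hf ≫ Proj.toSpecZero 𝔞.gr ≫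
      Spec.map (CommRingCat.ofHom (algebraMap ℂ (𝔞.gr 0))) = T.hom
    rw [Proj.fromOfGlobalSections_toSpecZero_assoc, ← Spec.map_comp]
    have h1 : CommRingCat.ofHom (algebraMap ℂ (𝔞.gr 0)) ≫
        CommRingCat.ofHom (g'.comp (algebraMap (𝔞.gr 0) 𝔞.A)) =
        (Scheme.ΓSpecIso (CommRingCat.of ℂ)).inv ≫ T.hom.appTop := by
      ext c
      have h2 : T.hom.appTop = T.hom.appLE ⊤ ⊤ le_top := (Scheme.Hom.appLE_eq_app _).symm
      rw [h2]
      exact g.commutes c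
    rw [h1, Spec.map_comp, ← Scheme.toSpecΓ_naturality_assoc, toSpecΓ_SpecMap_ΓSpecIso_inv]
    exact Category.comp_id _
  refine ⟨Over.homMk (Proj.fromOfGlobalSections 𝔞.gr g' hf) hw, fun p => ⟨fun h => ?_, ?_⟩⟩
  · exact (ha.map (p.ev (U := ⊤) trivial)).ne_zero (congrFun h a)
  · intro n r hn hr
    rw [← pvpts_ev_aeval, Pt.ev_ne_zero_iff, Pt.loc_comp]
    have h1 := Proj.fromOfGlobalSections_preimage_basicOpen 𝔞.gr g' hf hn (𝔞.mkA_mem_gr hr)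
    change p.loc ∈ Proj.fromOfGlobalSections 𝔞.gr g' hf ⁻¹ᵁ Proj.basicOpen 𝔞.gr (𝔞.mkA r) ↔ _
    rw [h1]
    rfl

lemma exists_pt_rel {P : σ → ℂ} (hP : P ≠ 0) (h : ∀ r ∈ 𝔞.I, eval P r = 0) :
    ∃ p : Pt 𝔞.var, 𝔞.Rel p P := by
  obtain ⟨a, ha⟩ := Function.ne_iff.mp hP
  obtain ⟨f, hf⟩ := pvpts_exists_hom (𝔞 := 𝔞) (MonoidalCategoryStruct.tensorUnit Var)
    (fun i => algebraMap ℂ _ (P i)) (fun r hr => by
      have h1 := aeval_algebraMap_apply (Fn (MonoidalCategoryStruct.tensorUnit Var) ⊤) P r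
      rw [show aeval P r = 0 from h r hr, map_zero] at h1
      exact h1) a
    ((IsUnit.mk0 _ ha).map _)
  have h1 := hf (𝟙 _)
  simp only [AlgHom.commutes, Algebra.algebraMap_self, RingHom.id_apply] at h1
  exact ⟨_, h1⟩

lemma Rel.mem_D_X {p : Pt 𝔞.var} {P : σ → ℂ} (h : 𝔞.Rel p P) (a : σ) :
    p.loc ∈ 𝔞.D (X a) ↔ P a ≠ 0 := by
  rw [h.2 1 (X a) one_pos (isHomogeneous_X ℂ a), eval_X]

lemma Rel.ev_frac {p : Pt 𝔞.var} {P : σ → ℂ} (h : 𝔞.Rel p P) {n : ℕ} {q r : MvPolynomial σ ℂ}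
    (hq : q.IsHomogeneous n) (hr : r.IsHomogeneous n) {U : 𝔞.var.left.Opens} (hU : U ≤ 𝔞.D q)
    (hp : p.loc ∈ U) : p.ev hp (𝔞.frac hq hr hU) * eval P q = eval P r := by
  obtain ⟨a, ha⟩ := Function.ne_iff.mp h.1
  have hp' : p.loc ∈ U ⊓ 𝔞.D (X a) := ⟨hp, (h.mem_D_X a).mpr ha⟩
  have hV : U ⊓ 𝔞.D (X a) ≤ 𝔞.D (X a) := inf_le_right
  obtain ⟨u, hu, hP⟩ := h.exists_smul (pvpts_rel_coord p a hV hp')
  have key : ∀ {t : MvPolynomial σ ℂ} (ht : t.IsHomogeneous n),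
      p.ev hp' (𝔞.frac (isHomogeneous_X_pow a n) ht (hV.trans (𝔞.D_le_D_pow (X a) n))) =
        u ^ n * eval P t := by
    intro t ht
    rw [← aeval_coord 𝔞 a hV ht, pvpts_ev_aeval, hP, pvpts_eval_smul ht]
  have hq' : U ⊓ 𝔞.D (X a) ≤ 𝔞.D q := inf_le_left.trans hU
  have hm : U ⊓ 𝔞.D (X a) ≤ 𝔞.D (q * X a ^ n) := by
    rw [D_mul]
    exact le_inf hq' (hV.trans (𝔞.D_le_D_pow (X a) n))
  have h1 := 𝔞.frac_mul hq hr (isHomogeneous_X_pow a n) hq hq'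
    (hV.trans (𝔞.D_le_D_pow (X a) n)) hm
  rw [𝔞.frac_eq_frac _ _ (isHomogeneous_X_pow a n) hr hm (hV.trans (𝔞.D_le_D_pow (X a) n))
    (by rw [show r * q * X a ^ n - r * (q * X a ^ n) = 0 by ring]; exact 𝔞.I.zero_mem)] at h1
  have h2 := congrArg (p.ev hp') h1
  rw [map_mul, key, key, ← 𝔞.res_frac hq hr hU inf_le_left, Pt.ev_res] at h2
  apply mul_left_cancel₀ (pow_ne_zero n hu)
  linear_combination -h2

lemma Rel.ev_coord {p : Pt 𝔞.var} {P : σ → ℂ} (h : 𝔞.Rel p P) (a : σ) {U : 𝔞.var.left.Opens}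
    (hU : U ≤ 𝔞.D (X a)) (hp : p.loc ∈ U) (i : σ) : p.ev hp (𝔞.coord a hU i) = P i / P a := by
  have h1 := h.ev_frac (isHomogeneous_X ℂ a) (isHomogeneous_X ℂ i) hU hp
  rw [eval_X, eval_X] at h1
  rw [eq_div_iff ((h.mem_D_X a).mp (hU hp))]
  exact h1

/-- an open subscheme, as a scheme over `ℂ` -/
def pvptsSub (S : Var) {W : Scheme} (j : W ⟶ S.left) : Var := Over.mk (j ≫ S.hom)

/-- the inclusion of an open subscheme -/
def pvptsInc (S : Var) {W : Scheme} (j : W ⟶ S.left) : pvptsSub S j ⟶ S := Over.homMk j rfl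

lemma pvpts_local [Finite σ] (S : Var) [LocallyOfFiniteType S.hom] [IsReduced S.left]
    (φ : Pt S → Pt 𝔞.var) (V : S.left.Opens) (s : σ → Fn S V)
    (hs : ∀ (p : Pt S) (hp : p.loc ∈ V), 𝔞.Rel (φ p) fun i => p.ev hp (s i)) (a : σ) :
    ∃ f : pvptsSub S (s a).bo.ι ⟶ 𝔞.var, ∀ q : Pt (pvptsSub S (s a).bo.ι),
      q ≫ f = φ (q ≫ pvptsInc S (s a).bo.ι) := by
  have : LocallyOfFiniteType (pvptsSub S (s a).bo.ι).hom :=
    inferInstanceAs (LocallyOfFiniteType ((s a).bo.ι ≫ S.hom))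
  have h0 : IsReduced (s a).bo.toScheme := isReduced_of_isOpenImmersion (s a).bo.ι
  have : IsReduced (pvptsSub S (s a).bo.ι).left := h0
  have h1 : (⊤ : (pvptsSub S (s a).bo.ι).left.Opens) ≤ (pvptsInc S (s a).bo.ι).left ⁻¹ᵁ (s a).bo :=
    fun x _ => x.2
  have h2 : (⊤ : (pvptsSub S (s a).bo.ι).left.Opens) ≤ (pvptsInc S (s a).bo.ι).left ⁻¹ᵁ V :=
    fun x _ => (s a).bo_le x.2
  have h3 : ∀ q : Pt (pvptsSub S (s a).bo.ι), Pt.loc (q ≫ pvptsInc S (s a).bo.ι) ∈ V := by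
    intro q
    rw [Pt.loc_comp]
    exact h2 trivial
  have h4 : ∀ q : Pt (pvptsSub S (s a).bo.ι), 𝔞.Rel (φ (q ≫ pvptsInc S (s a).bo.ι))
      fun i => q.ev (U := ⊤) trivial (pull (pvptsInc S (s a).bo.ι) h2 (s i)) := by
    intro q
    have h5 := hs _ (h3 q)
    simp only [← Pt.ev_pull q (pvptsInc S (s a).bo.ι) h2 trivial (h3 q)] at h5
    exact h5
  obtain ⟨f, hf⟩ := pvpts_exists_hom (𝔞 := 𝔞) (pvptsSub S (s a).bo.ι)
    (fun i => pull (pvptsInc S (s a).bo.ι) h2 (s i)) (fun r hr => Fn.ext_pt fun q _ => by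
      rw [pvpts_ev_aeval, map_zero]
      exact (h4 q).eval_eq_zero hr) a (by
      rw [← pull_res (pvptsInc S (s a).bo.ι) h1 (s a).bo_le h2]
      exact (Fn.isUnit_res_bo (s a)).map _)
  exact ⟨f, fun q => (hf q).unique (h4 q)⟩

/-- a map of points that is locally given by regular functions comes from a morphism -/
theorem exists_hom [Finite σ] (S : Var) [LocallyOfFiniteType S.hom] [IsReduced S.left]
    (φ : Pt S → Pt 𝔞.var)
    (hφ : ∀ p₀ : Pt S, ∃ (V : S.left.Opens) (_ : p₀.loc ∈ V) (s : σ → Fn S V),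
      ∀ (p : Pt S) (hp : p.loc ∈ V), 𝔞.Rel (φ p) fun i => p.ev hp (s i)) :
    ∃ f : S ⟶ 𝔞.var, ∀ p : Pt S, p ≫ f = φ p := by
  choose V hV s hs using hφ
  let W : Pt S × σ → S.left.Opens := fun x => (s x.1 x.2).bo
  have hmem : ∀ p : Pt S, ∃ x, p.loc ∈ W x := by
    intro p
    obtain ⟨a, ha⟩ := Function.ne_iff.mp (hs p p (hV p)).1
    exact ⟨(p, a), (p.ev_ne_zero_iff (hV p) _).mp ha⟩
  have hW : TopologicalSpace.IsOpenCover W :=
    top_le_iff.mp (le_of_forall_pt fun p _ => TopologicalSpace.Opens.mem_iSup.mpr (hmem p))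
  choose f hf using fun x : Pt S × σ => pvpts_local S φ (V x.1) (s x.1) (hs x.1) x.2
  let 𝒰 := S.left.openCoverOfIsOpenCover W hW
  have hcomp : ∀ x y : Pt S × σ, Limits.pullback.fst (W x).ι (W y).ι ≫ (f x).left =
      Limits.pullback.snd (W x).ι (W y).ι ≫ (f y).left := by
    intro x y
    let T := pvptsSub S (Limits.pullback.fst (W x).ι (W y).ι ≫ (W x).ι)
    have : LocallyOfFiniteType T.hom :=
      inferInstanceAs (LocallyOfFiniteType
        ((Limits.pullback.fst (W x).ι (W y).ι ≫ (W x).ι) ≫ S.hom))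
    have h0 : IsReduced (Limits.pullback (W x).ι (W y).ι) :=
      isReduced_of_isOpenImmersion (Limits.pullback.fst (W x).ι (W y).ι ≫ (W x).ι)
    have : IsReduced T.left := h0
    let a : T ⟶ pvptsSub S (W x).ι :=
      Over.homMk (Limits.pullback.fst (W x).ι (W y).ι) (Category.assoc _ _ _).symm
    let b : T ⟶ pvptsSub S (W y).ι :=
      Over.homMk (Limits.pullback.snd (W x).ι (W y).ι) (by
        change Limits.pullback.snd (W x).ι (W y).ι ≫ (W y).ι ≫ S.hom =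
          (Limits.pullback.fst (W x).ι (W y).ι ≫ (W x).ι) ≫ S.hom
        rw [Limits.pullback.condition, Category.assoc])
    have hab : a ≫ pvptsInc S (W x).ι = b ≫ pvptsInc S (W y).ι :=
      Over.OverMorphism.ext Limits.pullback.condition
    have h1 : a ≫ f x = b ≫ f y := hom_ext_pt fun q => by
      rw [← Category.assoc, ← Category.assoc, hf x, hf y, Category.assoc, Category.assoc]
      exact congrArg (fun t => φ (q ≫ t)) hab
    exact congrArg (fun t => t.left) h1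
  let F : S.left ⟶ 𝔞.var.left := 𝒰.glueMorphisms (fun x => (f x).left) hcomp
  have hF : ∀ x, (W x).ι ≫ F = (f x).left := fun x => 𝒰.ι_glueMorphisms _ hcomp x
  have hw : F ≫ 𝔞.var.hom = S.hom := by
    refine 𝒰.hom_ext _ _ fun x => ?_
    change (W x).ι ≫ F ≫ 𝔞.var.hom = (W x).ι ≫ S.hom
    rw [← Category.assoc, hF]
    exact Over.w (f x)
  refine ⟨Over.homMk F hw, fun p => ?_⟩
  obtain ⟨x, hx⟩ := hmem p
  have hr : Set.range p.left ⊆ Set.range (W x).ι := by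
    rintro _ ⟨z, rfl⟩
    rw [Scheme.Opens.range_ι]
    exact p.top_le_preimage hx trivial
  obtain ⟨l, hl⟩ : ∃ l : (MonoidalCategoryStruct.tensorUnit Var).left ⟶ (W x).toScheme,
      l ≫ (W x).ι = p.left :=
    ⟨IsOpenImmersion.lift (W x).ι p.left hr, IsOpenImmersion.lift_fac _ _ hr⟩
  let q : Pt (pvptsSub S (W x).ι) := Over.homMk l (by
    change l ≫ (W x).ι ≫ S.hom = _
    rw [← Category.assoc, hl]
    exact Over.w p)
  have hq : q ≫ pvptsInc S (W x).ι = p := Over.OverMorphism.ext hl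
  have h1 : pvptsInc S (W x).ι ≫ Over.homMk F hw = f x := Over.OverMorphism.ext (hF x)
  rw [← hq, Category.assoc, h1]
  exact hf x q

end HI

end Pool.Agent.Lib.MP_d80bfc_ag
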