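import Pool.Agent.Lib.MP_d80bfc_ag.Base

/-!
# TASK PTS: complex points of schemes over `ℂ`, evaluation of regular functions
-/

open CategoryTheory AlgebraicGeometry Opposite MonoidalCategory

noncomputable section

namespace Pool.Agent.Lib.MP_d80bfc_ag

/-- complex points -/
abbrev Pt (X : Var) : Type := 𝟙_ Var ⟶ X

/-- the underlying point of the scheme -/
def Pt.loc {X : Var} (p : Pt X) : X.left := p.left (IsLocalRing.closedPoint ℂ)

lemma pts_appLE_congr {X Y : Scheme.{0}} {f g : X ⟶ Y} (e : f = g) (V : Y.Opens) (U : X.Opens)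
    (h : U ≤ f ⁻¹ᵁ V) (h' : U ≤ g ⁻¹ᵁ V) : f.appLE V U h = g.appLE V U h' := by
  subst e
  rfl

/-- pull-back of regular functions along a morphism -/
def pull {X Y : Var} (f : X ⟶ Y) {U : X.left.Opens} {V : Y.left.Opens} (h : U ≤ f.left ⁻¹ᵁ V) :
    Fn Y V →ₐ[ℂ] Fn X U :=
  { (f.left.appLE V U h).hom with
    commutes' := fun c => by
      change (Y.hom.appLE ⊤ V le_top ≫ f.left.appLE V U h)
        ((Scheme.ΓSpecIso (CommRingCat.of ℂ)).inv c) = X.hom.appLE ⊤ U le_top _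
      rw [Scheme.Hom.appLE_comp_appLE, pts_appLE_congr (Over.w f) ⊤ U _ le_top]
      rfl }

lemma Pt.top_le_preimage {X : Var} (p : Pt X) {U : X.left.Opens} (hp : p.loc ∈ U) :
    (⊤ : (𝟙_ Var).left.Opens) ≤ p.left ⁻¹ᵁ U := by
  intro x _
  have hx : x = IsLocalRing.closedPoint ℂ :=
    Subsingleton.elim (α := PrimeSpectrum ℂ) _ _
  subst hx
  exact hp

lemma pts_bij : Function.Bijective (Algebra.ofId ℂ (Fn (𝟙_ Var) ⊤)) := by
  have h1 : IsIso ((𝟙_ Var).hom.appLE ⊤ ⊤ le_top) := by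
    change IsIso (Scheme.Hom.appLE (𝟙 (Spec (CommRingCat.of ℂ))) ⊤ ⊤ le_top)
    have : Scheme.Hom.appLE (𝟙 (Spec (CommRingCat.of ℂ))) ⊤ ⊤ le_top =
        Scheme.Hom.appTop (𝟙 (Spec (CommRingCat.of ℂ))) := Scheme.Hom.appLE_eq_app _
    rw [this, Scheme.Hom.id_appTop]
    infer_instance
  exact (ConcreteCategory.isIso_iff_bijective
    ((Scheme.ΓSpecIso (CommRingCat.of ℂ)).inv ≫ (𝟙_ Var).hom.appLE ⊤ ⊤ le_top)).mp inferInstance

/-- functions on the point are complex numbers -/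
def fnPtEquiv : Fn (𝟙_ Var) ⊤ ≃ₐ[ℂ] ℂ :=
  (AlgEquiv.ofBijective (Algebra.ofId ℂ (Fn (𝟙_ Var) ⊤)) pts_bij).symm

/-- the value of a regular function at a complex point -/
def Pt.ev {X : Var} (p : Pt X) {U : X.left.Opens} (hp : p.loc ∈ U) : Fn X U →ₐ[ℂ] ℂ :=
  fnPtEquiv.toAlgHom.comp (pull p (p.top_le_preimage hp))

/-- the non-vanishing locus of a regular function -/
def Fn.bo {X : Var} {U : X.left.Opens} (s : Fn X U) : X.left.Opens := X.left.basicOpen s

variable {X Y Z : Var}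

lemma Fn.bo_le {U : X.left.Opens} (s : Fn X U) : s.bo ≤ U := X.left.basicOpen_le s

lemma Fn.isUnit_res_bo {U : X.left.Opens} (s : Fn X U) : IsUnit (Fn.res X s.bo_le s) := by
  exact X.left.toRingedSpace.isUnit_res_basicOpen s

lemma Pt.loc_comp (p : Pt X) (f : X ⟶ Y) : Pt.loc (p ≫ f) = f.left p.loc := by
  rfl

lemma pts_pull_res (f : X ⟶ Y) {U : X.left.Opens} {V V' : Y.left.Opens} (h : U ≤ f.left ⁻¹ᵁ V)
    (hV : V ≤ V') (h' : U ≤ f.left ⁻¹ᵁ V') (s : Fn Y V') :
    pull f h (Fn.res Y hV s) = pull f h' s := by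
  change (Y.left.presheaf.map (homOfLE hV).op ≫ f.left.appLE V U h) s = f.left.appLE V' U h' s
  rw [Scheme.Hom.map_appLE]

lemma pts_pull_pull (f : X ⟶ Y) (g : Y ⟶ Z) {U : X.left.Opens} {V : Y.left.Opens}
    {W : Z.left.Opens} (h : U ≤ f.left ⁻¹ᵁ V) (h' : V ≤ g.left ⁻¹ᵁ W)
    (h'' : U ≤ (f ≫ g).left ⁻¹ᵁ W) (s : Fn Z W) :
    pull f h (pull g h' s) = pull (f ≫ g) h'' s := by
  change (g.left.appLE W V h' ≫ f.left.appLE V U h) s = (f ≫ g).left.appLE W U h'' s
  rw [Scheme.Hom.appLE_comp_appLE]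
  rfl

lemma pts_bo_pull (f : X ⟶ Y) {U : X.left.Opens} {V : Y.left.Opens} (h : U ≤ f.left ⁻¹ᵁ V)
    (s : Fn Y V) : (pull f h s).bo = U ⊓ f.left ⁻¹ᵁ s.bo :=
  Scheme.basicOpen_appLE f.left U V h s

lemma Pt.ev_res (p : Pt X) {U V : X.left.Opens} (h : V ≤ U) (hp : p.loc ∈ V) (s : Fn X U) :
    p.ev hp (Fn.res X h s) = p.ev (h hp) s := by
  exact congrArg fnPtEquiv (pts_pull_res p _ h _ s)

lemma Pt.ev_pull (p : Pt X) (f : X ⟶ Y) {U : X.left.Opens} {V : Y.left.Opens}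
    (h : U ≤ f.left ⁻¹ᵁ V) (hp : p.loc ∈ U) (hp' : Pt.loc (p ≫ f) ∈ V) (s : Fn Y V) :
    p.ev hp (pull f h s) = Pt.ev (p ≫ f) hp' s := by
  exact congrArg fnPtEquiv (pts_pull_pull p f _ h _ s)

lemma Pt.ev_ne_zero_iff (p : Pt X) {U : X.left.Opens} (hp : p.loc ∈ U) (s : Fn X U) :
    p.ev hp s ≠ 0 ↔ p.loc ∈ s.bo := by
  have hb := pts_bo_pull p (p.top_le_preimage hp) s
  constructor
  · intro h
    have hu : IsUnit (pull p (p.top_le_preimage hp) s) := by
      have := (isUnit_iff_ne_zero.mpr h).map fnPtEquiv.symm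
      simpa [Pt.ev] using this
    have h2 : (pull p (p.top_le_preimage hp) s).bo = ⊤ := Scheme.basicOpen_of_isUnit _ hu
    rw [h2] at hb
    have h3 : (IsLocalRing.closedPoint ℂ : (𝟙_ Var).left) ∈ (⊤ ⊓ p.left ⁻¹ᵁ s.bo) := by
      rw [← hb]; trivial
    exact h3.2
  · intro h h0
    have hz : pull p (p.top_le_preimage hp) s = 0 := by
      apply fnPtEquiv.injective
      rw [map_zero]
      exact h0
    have h2 : (pull p (p.top_le_preimage hp) s).bo = ⊥ := by
      rw [hz]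
      exact Scheme.basicOpen_zero _ _
    rw [h2] at hb
    have h3 : (IsLocalRing.closedPoint ℂ : (𝟙_ Var).left) ∈ (⊤ ⊓ p.left ⁻¹ᵁ s.bo) :=
      ⟨trivial, h⟩
    rw [← hb] at h3
    exact h3

lemma res_pull (f : X ⟶ Y) {U U' : X.left.Opens} {V : Y.left.Opens} (h : U ≤ f.left ⁻¹ᵁ V)
    (hU : U' ≤ U) (s : Fn Y V) : Fn.res X hU (pull f h s) = pull f (hU.trans h) s := by
  change (f.left.appLE V U h ≫ X.left.presheaf.map (homOfLE hU).op) s =
    f.left.appLE V U' (hU.trans h) s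
  rw [Scheme.Hom.appLE_map]

lemma pull_res (f : X ⟶ Y) {U : X.left.Opens} {V V' : Y.left.Opens} (h : U ≤ f.left ⁻¹ᵁ V)
    (hV : V ≤ V') (h' : U ≤ f.left ⁻¹ᵁ V') (s : Fn Y V') :
    pull f h (Fn.res Y hV s) = pull f h' s := by
  exact pts_pull_res f h hV h' s

lemma Pt.isClosed_loc (p : Pt X) : IsClosed {p.loc} := by
  have h1 : IsClosedImmersion p.left :=
    isClosedImmersion_of_comp_eq_id (Y := Spec (CommRingCat.of ℂ)) X.hom p.left (Over.w p)
  have h2 := p.left.isClosedEmbedding.isClosed_range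
  have h3 : Set.range p.left = {p.loc} := by
    ext y
    constructor
    · rintro ⟨x, rfl⟩
      have hx : x = IsLocalRing.closedPoint ℂ :=
        Subsingleton.elim (α := PrimeSpectrum ℂ) _ _
      subst hx
      rfl
    · rintro rfl
      exact ⟨_, rfl⟩
  rwa [h3] at h2

lemma exists_pt_of_isClosed [LocallyOfFiniteType X.hom] {x : X.left} (hx : IsClosed {x}) :
    ∃ p : Pt X, p.loc = x := by
  exact ⟨Over.homMk (pointOfClosedPoint X.hom x hx) (pointOfClosedPoint_comp X.hom x hx),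
    pointOfClosedPoint_apply X.hom x hx _⟩

lemma Pt.ext_loc [LocallyOfFiniteType X.hom] {p q : Pt X} (h : p.loc = q.loc) : p = q := by
  exact Over.OverMorphism.ext (ext_of_apply_closedPoint_eq X.hom (Over.w p) (Over.w q) h)

lemma pts_exists_of_locallyClosed [LocallyOfFiniteType X.hom] {S : Set X.left}
    (hS : S.Nonempty) (hS' : IsLocallyClosed S) : ∃ p : Pt X, p.loc ∈ S := by
  have : JacobsonSpace X.left := LocallyOfFiniteType.jacobsonSpace X.hom
  obtain ⟨x, hx, hx'⟩ := nonempty_inter_closedPoints hS hS'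
  obtain ⟨p, rfl⟩ := exists_pt_of_isClosed (X := X) hx'
  exact ⟨p, hx⟩

lemma le_of_forall_pt [LocallyOfFiniteType X.hom] {U V : X.left.Opens}
    (h : ∀ p : Pt X, p.loc ∈ U → p.loc ∈ V) : U ≤ V := by
  intro x hx
  by_contra hx'
  obtain ⟨p, hp, hp'⟩ := pts_exists_of_locallyClosed (X := X)
    (S := (U : Set X.left) ∩ (V : Set X.left)ᶜ) ⟨x, hx, hx'⟩
    (U.isOpen.isLocallyClosed.inter V.isOpen.isClosed_compl.isLocallyClosed)
  exact hp' (h p hp)

lemma exists_pt_mem [LocallyOfFiniteType X.hom] {U : X.left.Opens}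
    (hU : (U : Set X.left).Nonempty) : ∃ p : Pt X, p.loc ∈ U := by
  exact pts_exists_of_locallyClosed hU U.isOpen.isLocallyClosed

lemma dense_range_loc [LocallyOfFiniteType X.hom] : Dense (Set.range (Pt.loc (X := X))) := by
  rw [dense_iff_inter_open]
  intro U hU hne
  obtain ⟨p, hp⟩ := pts_exists_of_locallyClosed (X := X) hne hU.isLocallyClosed
  exact ⟨p.loc, hp, p, rfl⟩

lemma Fn.ext_pt [LocallyOfFiniteType X.hom] [IsReduced X.left] {U : X.left.Opens} {s t : Fn X U}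
    (h : ∀ (p : Pt X) (hp : p.loc ∈ U), p.ev hp s = p.ev hp t) : s = t := by
  rw [← sub_eq_zero]
  apply eq_zero_of_basicOpen_eq_bot (X := X.left) (U := U) (s - t)
  rw [eq_bot_iff]
  apply le_of_forall_pt (X := X)
  intro p hp
  have hU : p.loc ∈ U := (s - t).bo_le hp
  exfalso
  apply (p.ev_ne_zero_iff hU (s - t)).mpr hp
  rw [map_sub, h p hU, sub_self]

lemma hom_ext_pt [LocallyOfFiniteType X.hom] [IsReduced X.left] [LocallyOfFiniteType Y.hom]
    [IsSeparated Y.hom] {f g : X ⟶ Y} (h : ∀ p : Pt X, p ≫ f = p ≫ g) : f = g := by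
  have : LocallyOfFiniteType (f.left ≫ Y.hom) := by
    rw [Over.w f]; infer_instance
  apply Over.OverMorphism.ext
  refine ext_of_apply_eq Y.hom Set.univ isClosed_univ.isLocallyClosed dense_univ ?_
    ((Over.w f).trans (Over.w g).symm)
  intro x _ hx
  obtain ⟨p, rfl⟩ := exists_pt_of_isClosed (X := X) hx
  rw [← Pt.loc_comp, ← Pt.loc_comp, h p]

/-- sheaf property: a function vanishing on every member of a cover vanishes -/
lemma Fn.eq_zero_of_cover {ι : Type} {U : ι → X.left.Opens} {V : X.left.Opens} (hle : ∀ i, U i ≤ V)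
    (hU : V ≤ iSup U) (s : Fn X V) (hs : ∀ i, Fn.res X (hle i) s = 0) : s = 0 := by
  refine X.left.sheaf.eq_of_locally_eq' U V (fun i => homOfLE (hle i)) hU s 0 fun i => ?_
  rw [map_zero]
  exact hs i

lemma pts_pow_mul {S : Scheme.{0}} {U : S.Opens} (hU : IsAffineOpen U) (s : Γ(S, U))
    (t : Γ(S, S.basicOpen s)) : ∃ (n : ℕ) (a : Γ(S, U)),
      t * S.presheaf.map (homOfLE (S.basicOpen_le s)).op (s ^ n) =
        S.presheaf.map (homOfLE (S.basicOpen_le s)).op a := by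
  have := hU.isLocalization_basicOpen s
  obtain ⟨⟨a, _, n, rfl⟩, h⟩ := IsLocalization.surj (S := Γ(S, S.basicOpen s))
    (Submonoid.powers s) t
  exact ⟨n, a, h⟩

/-- sections over a basic open set of an affine open set -/
lemma Fn.exists_pow_mul_eq {U : X.left.Opens} (hU : IsAffineOpen U) (s : Fn X U)
    (t : Fn X s.bo) : ∃ (n : ℕ) (a : Fn X U), Fn.res X s.bo_le s ^ n * t = Fn.res X s.bo_le a := by
  obtain ⟨n, a, h⟩ := pts_pow_mul hU s t
  refine ⟨n, a, ?_⟩
  rw [← map_pow, mul_comm]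
  exact h

lemma Fn.isAffineOpen_bo {U : X.left.Opens} (hU : IsAffineOpen U) (s : Fn X U) :
    IsAffineOpen s.bo := hU.basicOpen s

/-- criterion for immersions -/
theorem isImmersion_of_surjective (f : X ⟶ Y) {U : X.left.Opens} (hU : IsAffineOpen U)
    {V : Y.left.Opens} (h : U ≤ f.left ⁻¹ᵁ V) (hs : Function.Surjective (pull f h)) :
    IsImmersion (U.ι ≫ f.left) := by
  have h1 : IsClosedImmersion (Spec.map (f.left.appLE V U h)) :=
    IsClosedImmersion.spec_of_surjective _ hs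
  have h2 : IsIso U.toSpecΓ := hU.isoSpec_hom ▸ inferInstance
  have h3 : IsImmersion (f.left.resLE V U h ≫ V.toSpecΓ) := by
    rw [← Scheme.Opens.toSpecΓ_SpecMap_appLE]
    infer_instance
  have h4 : IsImmersion (f.left.resLE V U h) := IsImmersion.of_comp _ V.toSpecΓ
  rw [← Scheme.Hom.resLE_comp_ι f.left h]
  infer_instance

/-- smoothness can be checked on an affine cover -/
theorem smoothOfRelativeDimension_of_cover {ι : Type} (n : ℕ) (U : ι → X.left.Opens)
    (hU : ∀ i, IsAffineOpen (U i)) (hcov : iSup U = ⊤)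
    (h : ∀ i, RingHom.Locally (RingHom.IsStandardSmoothOfRelativeDimension n)
      (algebraMap ℂ (Fn X (U i)))) : SmoothOfRelativeDimension n X.hom := by
  refine HasRingHomProperty.of_iSup_eq_top (P := @SmoothOfRelativeDimension n)
    (fun i => ⟨U i, hU i⟩) hcov fun i => ?_
  exact ((RingHom.locally_respectsIso
    RingHom.isStandardSmoothOfRelativeDimension_respectsIso).cancel_left_isIso
      (Scheme.ΓSpecIso (CommRingCat.of ℂ)).inv (X.hom.appLE ⊤ (U i) le_top)).mp (h i)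

end Pool.Agent.Lib.MP_d80bfc_ag
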