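import Pool.Agent.Lib.MP_d80bfc_ag.LaurB

/-!
# TASK RED: reduction modulo the block equations
-/

noncomputable section

namespace Pool.Agent.Lib.MP_d80bfc_ag

/-- reduced exponents of multidegree `(k, …, k)` -/
def RedE (k : ℤ) : Set Ex :=
  {e | (∀ b, 0 ≤ e ⟨b, none⟩ ∧ e ⟨b, none⟩ < nb b) ∧ degE e = dg k}

/-- the pole set of an exponent -/
def pole (e : Ex) : Set (Σ b, Ix b) := {v | e ⟨v.1, some v.2⟩ < 0}

/-- exponents of the leading variables -/
def redXi : Ex →+ (Bk → ℤ) where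
  toFun e b := e ⟨b, none⟩
  map_zero' := rfl
  map_add' _ _ := rfl

/-- the value of the power of the leading variable modulo the block equation -/
def redN (b : Bk) : MvPolynomial Wv ℂ := MvPolynomial.X ⟨b, none⟩ ^ nb b - Fp b

/-- remainders of the leading exponents -/
def redR (e : Ex) : Ex := fun w => if w.2 = none then e w % nb w.1 else e w

/-- quotients of the leading exponents -/
def redQ (e : Ex) (b : Bk) : ℕ := (e ⟨b, none⟩ / nb b).toNat

/-- the normal form -/
def redNF : L →ₗ[ℂ] L :=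
  (Finsupp.linearCombination ℂ fun e : Ex => mon (redR e) * ∏ b, toL (redN b) ^ redQ e b) ∘ₗ
    (AddMonoidAlgebra.coeffLinearEquiv ℂ).toLinearMap

lemma redNF_mon (e : Ex) : redNF (mon e) = mon (redR e) * ∏ b, toL (redN b) ^ redQ e b := by
  simp [redNF, mon]

lemma red_nb_pos (b : Bk) : (0 : ℤ) < nb b := by cases b <;> simp [nb]

lemma red_mon_nsmul (n : ℕ) (e : Ex) : mon (n • e) = mon e ^ n := by
  simp [mon, AddMonoidAlgebra.single_pow]

lemma red_tv_pow (w : Wv) (n : ℕ) : tv w ^ n = mon (Pi.single w n) := by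
  rw [tv, ← red_mon_nsmul, ← Pi.single_smul, nsmul_one]

lemma red_nonneg {S : Set Ch} {e : Ex} (he : e ∈ ExS S) (b : Bk) : 0 ≤ e ⟨b, none⟩ := by
  by_contra h
  obtain ⟨c, -, hc⟩ := he _ (not_le.mp h)
  simp at hc

lemma red_mem_ExS_iff {S : Set Ch} {e : Ex} :
    e ∈ ExS S ↔ (∀ b, 0 ≤ e ⟨b, none⟩) ∧ pole e ⊆ supp S := by
  refine ⟨fun he => ⟨red_nonneg he, fun v hv => ?_⟩, ?_⟩
  · obtain ⟨c, hc, h⟩ := he _ hv
    exact ⟨c, hc, (Option.some.inj h).symm⟩
  · rintro ⟨h1, h2⟩ ⟨b, _ | i⟩ hw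
    · exact absurd hw (not_lt.mpr (h1 b))
    · obtain ⟨c, hc, h⟩ := h2 (show (⟨b, i⟩ : Σ b, Ix b) ∈ pole e from hw)
      exact ⟨c, hc, congrArg some h.symm⟩

lemma redN_free (b : Bk) : toL (redN b) ∈ AddMonoidAlgebra.gradeBy ℂ redXi 0 := by
  have h : ∀ b (i : Ix b), tv ⟨b, some i⟩ ∈
      SetLike.GradeZero.subalgebra (AddMonoidAlgebra.gradeBy ℂ redXi) := fun b i => by
    have : redXi (Pi.single ⟨b, some i⟩ 1) = 0 := by
      funext b'
      refine Pi.single_eq_of_ne (fun h => ?_) _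
      obtain rfl : b' = b := congrArg Sigma.fst h
      simp at h
    change _ ∈ AddMonoidAlgebra.gradeBy ℂ redXi 0
    exact this ▸ AddMonoidAlgebra.single_mem_gradeBy redXi _ (1 : ℂ)
  change _ ∈ SetLike.GradeZero.subalgebra (AddMonoidAlgebra.gradeBy ℂ redXi)
  cases b with
  | none =>
    have : toL (redN none) = -∑ i : Fin 3, tv ⟨none, some i⟩ ^ 4 := by
      simp [redN, Fp, nb, toL_X]
    rw [this]
    exact neg_mem (sum_mem fun i _ => pow_mem (h none i) 4)
  | some j =>
    have : toL (redN (some j)) = tv ⟨some j, some (0 : Fin 2)⟩ ^ 2 *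
        tv ⟨some j, some (1 : Fin 2)⟩ - tv ⟨some j, some (1 : Fin 2)⟩ ^ 3 := by
      simp only [redN, Fp, nb, map_sub, map_add, map_mul, map_pow, toL_X]
      ring
    rw [this]
    exact sub_mem (mul_mem (pow_mem (h _ _) 2) (h _ _)) (pow_mem (h _ _) 3)

lemma redN_mem_Hg (b : Bk) : toL (redN b) ∈ Hg (Pi.single b (nb b : ℤ)) := by
  rw [redN, map_sub, map_pow, toL_X]
  refine sub_mem ?_ (Fp_mem_Hg b)
  have := SetLike.pow_mem_graded (nb b) (tv_mem_Hg ⟨b, none⟩)
  rwa [← Pi.single_smul, nsmul_one] at this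

lemma red_decomp {e : Ex} (he : ∀ b, 0 ≤ e ⟨b, none⟩) :
    e = redR e + ∑ b, redQ e b • (Pi.single ⟨b, none⟩ (nb b : ℤ) : Ex) := by
  funext ⟨b, x⟩
  rw [Pi.add_apply, Finset.sum_apply, Finset.sum_eq_single b]
  · cases x with
    | none =>
      have := Int.toNat_of_nonneg (Int.ediv_nonneg (he b) (red_nb_pos b).le)
      simp only [redR, redQ, if_true, Pi.smul_apply, Pi.single_eq_same, nsmul_eq_mul, this]
      exact (Int.emod_add_ediv_mul _ _).symm
    | some i => simp [redR]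
  · intro b' _ h
    rw [Pi.smul_apply, Pi.single_eq_of_ne (fun h' => h (congrArg Sigma.fst h').symm), smul_zero]
  · simp

lemma redNF_free_mul {f : L} (hf : f ∈ AddMonoidAlgebra.gradeBy ℂ redXi 0) (e : Ex) :
    redNF (f * mon e) = f * redNF (mon e) := by
  rw [← sub_eq_zero]
  refine map_mem_of_mon (redNF ∘ₗ LinearMap.mulRight ℂ (mon e) -
    LinearMap.mulRight ℂ (redNF (mon e))) ⊥ (f := f) fun a ha => ?_
  have h : ∀ b, a ⟨b, none⟩ = 0 := fun b => congrFun (hf a ha) b
  have h1 : redR (a + e) = a + redR e := by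
    funext ⟨b, x⟩
    cases x <;> simp [redR, h]
  have h2 : redQ (a + e) = redQ e := by
    funext b
    simp [redQ, h]
  simp [← mon_add, redNF_mon, h1, h2, ← mul_assoc]

lemma redNF_Fp_mul (b : Bk) {S : Set Ch} {g : L} (hg : g ∈ Q S) : redNF (toL (Fp b) * g) = 0 := by
  refine map_mem_of_mon (redNF ∘ₗ LinearMap.mulLeft ℂ (toL (Fp b))) ⊥ (f := g) fun e he => ?_
  have h0 := red_nonneg (hg e he) b
  have h1 : redR (Pi.single ⟨b, none⟩ (nb b : ℤ) + e) = redR e := by
    funext w
    by_cases h : w = ⟨b, none⟩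
    · subst h; simp [redR]
    · simp [redR, h]
  have h2 : redQ (Pi.single ⟨b, none⟩ (nb b : ℤ) + e) = redQ e + Pi.single b 1 := by
    funext b'
    by_cases h : b' = b
    · subst h
      have := Int.ediv_nonneg h0 (red_nb_pos b').le
      simp only [redQ, Pi.add_apply, Pi.single_eq_same]
      have h := Int.add_mul_ediv_right (e ⟨b', none⟩) 1 (red_nb_pos b').ne'
      rw [one_mul] at h
      rw [add_comm, h]
      omega
    · simp [redQ, h]
  have h3 : toL (Fp b) = mon (Pi.single ⟨b, none⟩ (nb b : ℤ)) - toL (redN b) := by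
    simp [redN, toL_X, red_tv_pow]
  have h4 : ∏ b', toL (redN b') ^ (Pi.single b 1 : Bk → ℕ) b' = toL (redN b) := by
    rw [Finset.prod_eq_single b] <;> simp +contextual
  change redNF (toL (Fp b) * mon e) = 0
  rw [h3, sub_mul, map_sub, redNF_free_mul (redN_free b), ← mon_add, redNF_mon, redNF_mon, h1, h2]
  simp only [Pi.add_apply, pow_add, Finset.prod_mul_distrib, h4]
  ring

lemma redNF_JI {S : Set Ch} {f : Q S} (hf : f ∈ JI 0 S) : redNF f = 0 := by
  suffices ∀ g : Q S, redNF ((f : L) * g) = 0 by simpa using this 1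
  induction hf using Submodule.span_induction with
  | mem x hx =>
    rcases hx with ⟨b, rfl⟩ | ⟨k, hk, -⟩
    · exact fun g => by rw [coe_toQ]; exact redNF_Fp_mul b g.2
    · exact absurd hk (Nat.not_lt_zero _)
  | zero => simp
  | add x y _ _ hx hy => exact fun g => by simp [add_mul, hx, hy]
  | smul a x _ hx =>
    intro g
    have := hx (a * g)
    rwa [Subalgebra.coe_mul, ← mul_assoc, mul_comm (x : L)] at this

/-- division by the block equations -/
theorem exists_reduced {S : Set Ch} {k : ℤ} (f : Q S) (hf : (f : L) ∈ Hg (dg k)) :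
    ∃ g : Q S, (∀ e ∈ (g : L).coeff.support, e ∈ RedE k) ∧ f - g ∈ JI 0 S := by
  let N : Submodule ℂ (Q S) := ((Finsupp.supported ℂ ℂ (RedE k)).comap
    ((AddMonoidAlgebra.coeffLinearEquiv ℂ).toLinearMap ∘ₗ (Q S).val.toLinearMap)) ⊔
      (JI 0 S).restrictScalars ℂ
  have : (LinearMap.id : L →ₗ[ℂ] L) f ∈ N.map (Q S).val.toLinearMap := by
    refine map_mem_of_mon _ _ fun e he => ⟨⟨mon e, mon_mem_Q (f.2 e he)⟩, ?_, rfl⟩
    have h0 := red_nonneg (f.2 e he)
    have hr : redR e ∈ ExS S := red_mem_ExS_iff.mpr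
      ⟨fun b => by simpa [redR] using Int.emod_nonneg _ (red_nb_pos b).ne',
        fun v hv => (red_mem_ExS_iff.mp (f.2 e he)).2 (by simpa [pole, redR] using hv)⟩
    let g : Q S := ⟨mon (redR e), mon_mem_Q hr⟩ * ∏ b, toQ S (redN b) ^ redQ e b
    have hg : (g : L) = mon (redR e) * ∏ b, toL (redN b) ^ redQ e b := by simp [g, coe_toQ]
    refine Submodule.mem_sup.mpr ⟨g, fun a ha => ?_, _, ?_, add_sub_cancel _ _⟩
    · have h1 : (g : L) ∈ AddMonoidAlgebra.gradeBy ℂ redXi (redXi (redR e)) := by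
        have := SetLike.mul_mem_graded (AddMonoidAlgebra.single_mem_gradeBy redXi (redR e) (1 : ℂ))
          (SetLike.prod_pow_mem_graded (AddMonoidAlgebra.gradeBy ℂ redXi) (F := Finset.univ)
            (fun _ => 0) (fun b => toL (redN b)) (redQ e) fun b _ => redN_free b)
        rw [hg]
        simpa [mon] using this
      have h2 : (g : L) ∈ Hg (dg k) := by
        have := SetLike.mul_mem_graded (mon_mem_Hg (redR e))
          (SetLike.prod_pow_mem_graded Hg (F := Finset.univ) _ (fun b => toL (redN b)) (redQ e)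
            fun b _ => redN_mem_Hg b)
        rw [hg, ← hf e he, congrArg degE (red_decomp h0), map_add, map_sum]
        convert this using 4 with b
        rw [map_nsmul]
        congr 1
        have := SetLike.pow_mem_graded (nb b) (tv_mem_Hg ⟨b, none⟩)
        rw [← Pi.single_smul, nsmul_one, red_tv_pow] at this
        exact this _ (by simp [mon])
      refine ⟨fun b => ?_, h2 a ha⟩
      have : a ⟨b, none⟩ = e ⟨b, none⟩ % nb b := congrFun (h1 a ha) b
      rw [this]
      exact ⟨Int.emod_nonneg _ (red_nb_pos b).ne', Int.emod_lt_of_pos _ (red_nb_pos b)⟩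
    · have h1 : (⟨mon e, mon_mem_Q (f.2 e he)⟩ : Q S) =
          ⟨mon (redR e), mon_mem_Q hr⟩ * ∏ b, (tQ S ⟨b, none⟩ ^ nb b) ^ redQ e b := by
        refine Subtype.ext ?_
        have : ∀ (s : Finset Bk) (u : Bk → Ex), mon (∑ b ∈ s, u b) = ∏ b ∈ s, mon (u b) :=
          fun s u => by
            induction s using Finset.cons_induction with
            | empty => rfl
            | cons b s h ih => rw [Finset.sum_cons, Finset.prod_cons, mon_add, ih]
        conv_lhs => rw [Subtype.coe_mk, red_decomp h0, mon_add, this]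
        simp only [red_mon_nsmul]
        simp [tQ, red_tv_pow]
      have h2 : ∀ b, mkB 0 S (toQ S (redN b)) = mkB 0 S (tQ S ⟨b, none⟩ ^ nb b) := fun b => by
        refine (mkB_eq_iff.mpr ?_).symm
        have : tQ S ⟨b, none⟩ ^ nb b - toQ S (redN b) = toQ S (Fp b) := by simp [redN, toQ]
        exact this ▸ Ideal.subset_span (Or.inl ⟨b, rfl⟩)
      refine mkB_eq_iff.mp ?_
      simp only [h1, g, map_mul, map_prod, map_pow (mkB 0 S) _ (redQ e _), h2]
  obtain ⟨f', h1, h2⟩ := this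
  obtain rfl : f' = f := Subtype.ext h2
  obtain ⟨g, hg, x, hx, rfl⟩ := Submodule.mem_sup.mp h1
  exact ⟨g, hg, by simpa using hx⟩

/-- reduced monomials are linearly independent modulo the block equations -/
theorem eq_zero_of_reduced {S : Set Ch} (g : Q S)
    (hg : ∀ e ∈ (g : L).coeff.support, ∀ b, e ⟨b, none⟩ < nb b) (h : g ∈ JI 0 S) : g = 0 := by
  have : (redNF - LinearMap.id : L →ₗ[ℂ] L) g ∈ (⊥ : Submodule ℂ L) := by
    refine map_mem_of_mon _ _ fun e he => ?_
    have h0 := red_nonneg (g.2 e he)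
    have h1 : redR e = e := by
      funext ⟨b, x⟩
      cases x with
      | none => exact Int.emod_eq_of_lt (h0 b) (hg e he b)
      | some i => rfl
    have h2 : ∀ b, redQ e b = 0 := fun b => by
      rw [redQ, Int.ediv_eq_zero_of_lt (h0 b) (hg e he b)]; rfl
    simp [redNF_mon, h1, h2]
  simpa [redNF_JI h] using this

/-- the sections of `O(k, …, k)` on `E^4 × Y` form a monomial system -/
theorem MS_zero_H (k : ℤ) (j : ℕ) :
    Nonempty ((monSys (RedE k) pole).H j ≃ₗ[ℂ] (MS 0 k).H j) := by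
  have hQ : ∀ S (f : (monSys (RedE k) pole).obj S), AddMonoidAlgebra.ofCoeff f.1 ∈ Q S :=
    fun S f e he => red_mem_ExS_iff.mpr ⟨fun b => ((f.2 he).1.1 b).1, (f.2 he).2⟩
  let φ : ∀ S, (monSys (RedE k) pole).obj S →ₗ[ℂ] Q S := fun S =>
    { toFun := fun f => ⟨AddMonoidAlgebra.ofCoeff f.1, hQ S f⟩
      map_add' := fun _ _ => rfl
      map_smul' := fun _ _ => rfl }
  refine Sys.Hom.H_equiv ⟨fun S _ => ((mkB 0 S).toLinearMap ∘ₗ φ S).codRestrict (MM 0 k S)
    fun f => mem_MM.mpr ⟨φ S f, fun e he => (f.2 he).1.2, rfl⟩, fun _ _ _ => rfl⟩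
    (fun S _ => ⟨(injective_iff_map_eq_zero _).mpr fun f hf => ?_, ?_⟩) j
  · have := eq_zero_of_reduced (φ S f) (fun e he b => ((f.2 he).1.1 b).2)
      (mkB_eq_zero_iff.mp (congrArg Subtype.val hf))
    exact Subtype.ext (congrArg (fun x : Q S => (x : L).coeff) this)
  · rintro ⟨_, f, hf, rfl⟩
    obtain ⟨g, h1, h2⟩ := exists_reduced f hf
    exact ⟨⟨(g : L).coeff, fun e he => ⟨h1 e he, (red_mem_ExS_iff.mp (g.2 e he)).2⟩⟩,
      Subtype.ext (mkB_eq_iff.mpr h2).symm⟩

/-- the charts cover: the fourth power of a Segre monomial lies in the ideal of the chart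
monomials, modulo the block equations -/
theorem exists_pow_four_sub_mem (a : Sg) :
    ∃ q ∈ Ideal.span (Set.range fun c : Ch => (MvPolynomial.X c.sg : MvPolynomial Sg ℂ)),
      toQ ∅ (seg (MvPolynomial.X a ^ 4 - q)) ∈ JI 0 ∅ := by
  obtain ⟨g, h1, h2⟩ := exists_reduced (S := ∅) (k := (4 : ℕ))
    (toQ ∅ (seg (MvPolynomial.X a ^ 4))) (by
      rw [coe_toQ]
      exact seg_mem_Hg (by simpa using (MvPolynomial.isHomogeneous_X ℂ a).pow 4))
  have : (LinearMap.id : L →ₗ[ℂ] L) g ∈ ((Ideal.span (Set.range fun c : Ch =>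
      (MvPolynomial.X c.sg : MvPolynomial Sg ℂ))).restrictScalars ℂ).map
      (toL.comp seg).toLinearMap := by
    refine map_mem_of_mon _ _ fun e he => ?_
    have h0 : ∀ w, 0 ≤ e w := fun w => by
      by_contra h
      obtain ⟨c, hc, -⟩ := g.2 e he w (not_le.mp h)
      exact hc
    have hc : ∀ b, ∃ i : Ix b, 0 < e ⟨b, some i⟩ := fun b => by
      by_contra h
      push Not at h
      have h3 : ∑ x : Option (Ix b), e ⟨b, x⟩ = (4 : ℕ) := congrFun (h1 e he).2 b
      have h4 := ((h1 e he).1 b).2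
      have h5 : nb b ≤ 4 := by cases b <;> simp [nb]
      have h6 : ∑ i : Ix b, e ⟨b, some i⟩ ≤ 0 := Finset.sum_nonpos fun i _ => h i
      rw [Fintype.sum_option] at h3
      omega
    choose c hc using hc
    obtain ⟨p, -, hp⟩ := exists_seg_eq (n := 3) (f := mon (e - chE c (dg 1)))
      (mon_mem_Q fun w hw => absurd hw (not_lt.mpr (by
        obtain ⟨b, x⟩ := w
        have := h0 ⟨b, x⟩
        by_cases h : x = some (c b)
        · subst h
          have := hc b
          simp [chE, dg]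
          omega
        · simpa [chE, h] using this))) (by
      have : degE (e - chE c (dg 1)) = dg (3 : ℕ) := by
        rw [map_sub, (h1 e he).2, degE_chE]
        rfl
      exact this ▸ mon_mem_Hg _)
    refine ⟨MvPolynomial.X (Ch.sg c) * p, Ideal.mul_mem_right _ _ (Ideal.subset_span ⟨c, rfl⟩), ?_⟩
    have : seg (MvPolynomial.X (Ch.sg c)) = wp (Ch.sg c) := MvPolynomial.aeval_X _ _
    simp [this, hp, toL_wp_sg, ← mon_add]
  obtain ⟨q, hq, e⟩ := this
  refine ⟨q, hq, ?_⟩
  have : toQ ∅ (seg q) = g := Subtype.ext ((coe_toQ _ _).trans e)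
  rwa [map_sub, map_sub, this]

end Pool.Agent.Lib.MP_d80bfc_ag
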