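import Pool.Agent.Lib.MP_d80bfc_ag.Base

/-!
# TASK CECH1: coefficient systems on the subsets of an index set and their Čech cohomology
-/

open CategoryTheory AlgebraicGeometry Opposite AlgebraicTopology

noncomputable section

namespace Pool.Agent.Lib.MP_d80bfc_ag

/-- A coefficient system: a vector space for every set of indices, covariant in the set. -/
structure Sys (ι : Type) where
  obj : Set ι → Type
  [acg : ∀ S, AddCommGroup (obj S)]
  [mod : ∀ S, Module ℂ (obj S)]
  map : ∀ {S T : Set ι}, S ⊆ T → (obj S →ₗ[ℂ] obj T)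
  map_refl : ∀ (S : Set ι) (x : obj S), map (subset_refl S) x = x
  map_map : ∀ {S T U : Set ι} (h : S ⊆ T) (h' : T ⊆ U) (x : obj S),
    map h' (map h x) = map (h.trans h') x

attribute [instance] Sys.acg Sys.mod

namespace Sys

variable {ι : Type}

/-- Čech cochains of degree `k`. -/
abbrev C (G : Sys ι) (k : ℕ) : Type := ∀ τ : Fin (k + 1) → ι, G.obj (Set.range τ)

/-- The cosimplicial vector space of cochains. -/
def cosimp (G : Sys ι) : CosimplicialObject (ModuleCat.{0} ℂ) where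
  obj n := ModuleCat.of ℂ (G.C n.len)
  map f := ModuleCat.ofHom (LinearMap.pi fun τ =>
    G.map (Set.range_comp_subset_range f.toOrderHom τ) ∘ₗ LinearMap.proj (τ ∘ f.toOrderHom))
  map_id n := by
    ext c τ
    exact G.map_refl _ (c τ)
  map_comp f g := by
    ext c τ
    exact (G.map_map _ _ _).symm

/-- The Čech complex. -/
def cx (G : Sys ι) : CochainComplex (ModuleCat.{0} ℂ) ℕ :=
  AlternatingCofaceMapComplex.obj G.cosimp

/-- Čech cohomology. -/
def H (G : Sys ι) (k : ℕ) : ModuleCat.{0} ℂ := G.cx.homology k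

/-- The Čech differential, explicitly. -/
def d (G : Sys ι) (k : ℕ) : G.C k →ₗ[ℂ] G.C (k + 1) :=
  LinearMap.pi fun τ => ∑ j : Fin (k + 2), ((-1 : ℂ) ^ (j : ℕ)) •
    (G.map (Set.range_comp_subset_range j.succAbove τ) ∘ₗ LinearMap.proj (τ ∘ j.succAbove))

lemma d_apply (G : Sys ι) (k : ℕ) (c : G.C k) (τ : Fin (k + 2) → ι) :
    G.d k c τ = ∑ j : Fin (k + 2), ((-1 : ℂ) ^ (j : ℕ)) •
      G.map (Set.range_comp_subset_range j.succAbove τ) (c (τ ∘ j.succAbove)) := by
  simp [d, LinearMap.sum_apply]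

/-- `H^k` is finite-dimensional of dimension `n`. -/
def Bet (G : Sys ι) (k n : ℕ) : Prop :=
  Module.Finite ℂ (G.H k) ∧ Module.finrank ℂ (G.H k) = n

lemma bet_zero_iff (G : Sys ι) (k : ℕ) : G.Bet k 0 ↔ Subsingleton (G.H k) := by
  constructor
  · rintro ⟨h1, h2⟩
    exact Module.finrank_zero_iff.mp h2
  · intro h
    exact ⟨inferInstance, Module.finrank_zero_of_subsingleton⟩

lemma Bet.of_equiv {ι' : Type} {G : Sys ι} {G' : Sys ι'} {k k' n : ℕ} (h : G.Bet k n)
    (e : G.H k ≃ₗ[ℂ] G'.H k') : G'.Bet k' n := by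
  obtain ⟨h1, h2⟩ := h
  exact ⟨Module.Finite.equiv e, by rw [← e.finrank_eq, h2]⟩

/-- A morphism of systems; only non-empty sets of indices matter. -/
structure Hom (G G' : Sys ι) where
  app : ∀ S : Set ι, S.Nonempty → (G.obj S →ₗ[ℂ] G'.obj S)
  nat : ∀ {S T : Set ι} (h : S ⊆ T) (hS : S.Nonempty) (x : G.obj S),
    app T (hS.mono h) (G.map h x) = G'.map h (app S hS x)

/-- A short exact sequence of systems. -/
structure SES {A B D : Sys ι} (f : Hom A B) (g : Hom B D) : Prop where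
  inj : ∀ S hS, Function.Injective (f.app S hS)
  ex : ∀ S hS, Function.Exact (f.app S hS) (g.app S hS)
  surj : ∀ S hS, Function.Surjective (g.app S hS)

lemma sys_cx_d (G : Sys ι) (k : ℕ) : G.cx.d k (k + 1) = ModuleCat.ofHom (G.d k) := by
  have h : G.cx.d k (k + 1) = AlternatingCofaceMapComplex.objD G.cosimp k :=
    CochainComplex.of_d (fun n => G.cosimp.obj (SimplexCategory.mk n))
      (AlternatingCofaceMapComplex.objD G.cosimp) k
  let δ : Fin (k + 2) → (ModuleCat.of ℂ (G.C k) ⟶ ModuleCat.of ℂ (G.C (k + 1))) := fun j =>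
    ModuleCat.ofHom (LinearMap.pi fun τ =>
      G.map (Set.range_comp_subset_range j.succAbove τ) ∘ₗ LinearMap.proj (τ ∘ j.succAbove))
  have h2 : ∑ j : Fin (k + 2), (-1 : ℤ) ^ (j : ℕ) • δ j = ModuleCat.ofHom (G.d k) := by
    refine ModuleCat.hom_ext (LinearMap.ext fun c => funext fun τ => ?_)
    rw [ModuleCat.hom_ofHom, d_apply, ModuleCat.hom_sum, LinearMap.sum_apply, Finset.sum_apply]
    refine Finset.sum_congr rfl fun j _ => ?_
    rw [ModuleCat.hom_zsmul, LinearMap.smul_apply, Pi.smul_apply, ← Int.cast_smul_eq_zsmul ℂ]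
    push_cast
    rfl
  exact h.trans h2

/-- the map induced on cochains -/
def Hom.sysC {G G' : Sys ι} (f : Hom G G') (k : ℕ) : G.C k →ₗ[ℂ] G'.C k :=
  LinearMap.pi fun τ => f.app _ (Set.range_nonempty τ) ∘ₗ LinearMap.proj τ

/-- the map induced on cosimplicial objects -/
def Hom.sysNat {G G' : Sys ι} (f : Hom G G') : G.cosimp ⟶ G'.cosimp where
  app n := ModuleCat.ofHom (f.sysC n.len)
  naturality _ _ φ := ModuleCat.hom_ext (LinearMap.ext fun c => funext fun τ =>
    f.nat (Set.range_comp_subset_range φ.toOrderHom τ) (Set.range_nonempty _) (c _))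

/-- the map induced on complexes -/
def Hom.sysChain {G G' : Sys ι} (f : Hom G G') : G.cx ⟶ G'.cx :=
  AlternatingCofaceMapComplex.map f.sysNat

lemma sys_chain_apply {G G' : Sys ι} (f : Hom G G') (k : ℕ) (c : G.C k) (τ : Fin (k + 1) → ι) :
    ((f.sysChain.f k).hom c : G'.C k) τ = f.app _ (Set.range_nonempty τ) (c τ) := rfl

lemma sys_chain_ext {G G' : Sys ι} {φ ψ : G.cx ⟶ G'.cx}
    (h : ∀ k (c : G.C k) τ, ((φ.f k).hom c : G'.C k) τ = ((ψ.f k).hom c : G'.C k) τ) : φ = ψ :=
  HomologicalComplex.hom_ext _ _ fun k =>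
    ModuleCat.hom_ext (LinearMap.ext fun c => funext fun τ => h k c τ)

lemma sys_inj {G G' : Sys ι} (f : Hom G G') (hf : ∀ S hS, Function.Injective (f.app S hS)) (k : ℕ) :
    Function.Injective (f.sysChain.f k).hom := fun _ _ h =>
  funext fun τ => hf _ (Set.range_nonempty τ) (congrFun h τ)

lemma sys_surj {G G' : Sys ι} (f : Hom G G') (hf : ∀ S hS, Function.Surjective (f.app S hS))
    (k : ℕ) : Function.Surjective (f.sysChain.f k).hom := fun c => by
  choose c' hc' using fun τ : Fin (k + 1) → ι => hf _ (Set.range_nonempty τ) ((c : G'.C k) τ)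
  exact ⟨c', funext hc'⟩

/-- vanishing criterion in positive degree -/
theorem subsingleton_H_succ_iff (G : Sys ι) (k : ℕ) :
    Subsingleton (G.H (k + 1)) ↔ ∀ c : G.C (k + 1), G.d (k + 1) c = 0 → ∃ c', G.d k c' = c := by
  rw [← ModuleCat.isZero_iff_subsingleton, H, ← HomologicalComplex.exactAt_iff_isZero_homology,
    G.cx.exactAt_iff' k (k + 1) (k + 1 + 1) (by simp) (by simp), ShortComplex.moduleCat_exact_iff]
  change (∀ c : G.C (k + 1), (G.cx.d (k + 1) (k + 1 + 1)).hom c = 0 →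
    ∃ c' : G.C k, (G.cx.d k (k + 1)).hom c' = c) ↔ _
  rw [sys_cx_d, sys_cx_d]
  rfl

/-- `H^0` is the kernel of the first differential -/
theorem H_zero_equiv (G : Sys ι) : Nonempty (G.H 0 ≃ₗ[ℂ] LinearMap.ker (G.d 0)) := by
  have e := (G.cx.cyclesIsKernel 0 1 (by simp)).conePointUniqueUpToIso
    (ModuleCat.kernelIsLimit (G.cx.d 0 1))
  have h : LinearMap.ker (G.cx.d 0 1).hom = LinearMap.ker (G.d 0) := by
    rw [sys_cx_d G 0]
    rfl
  exact ⟨((CochainComplex.isoHomologyπ₀ G.cx).symm ≪≫ e).toLinearEquiv ≪≫ₗ LinearEquiv.ofEq _ _ h⟩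

/-- a morphism that is bijective on non-empty sets induces isomorphisms -/
theorem Hom.H_equiv {G G' : Sys ι} (f : Hom G G')
    (hf : ∀ S hS, Function.Bijective (f.app S hS)) (k : ℕ) :
    Nonempty (G.H k ≃ₗ[ℂ] G'.H k) := by
  have : ∀ n, IsIso (f.sysChain.f n) := fun n =>
    (ConcreteCategory.isIso_iff_bijective _).2
      ⟨sys_inj f (fun S hS => (hf S hS).1) n, sys_surj f (fun S hS => (hf S hS).2) n⟩
  have : IsIso f.sysChain := HomologicalComplex.Hom.isIso_of_components _
  exact ⟨(asIso (HomologicalComplex.homologyMap f.sysChain k)).toLinearEquiv⟩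

/-- the long exact sequence -/
theorem SES.les {A B D : Sys ι} {f : Hom A B} {g : Hom B D} (h : SES f g) :
    ∃ (α : ∀ k, A.H k →ₗ[ℂ] B.H k) (β : ∀ k, B.H k →ₗ[ℂ] D.H k)
      (δ : ∀ k, D.H k →ₗ[ℂ] A.H (k + 1)),
      Function.Injective (α 0) ∧ ∀ k, Function.Exact (α k) (β k) ∧ Function.Exact (β k) (δ k) ∧
        Function.Exact (δ k) (α (k + 1)) := by
  have h0 : f.sysChain ≫ g.sysChain = 0 :=
    sys_chain_ext fun k c τ => (h.ex _ (Set.range_nonempty τ)).apply_apply_eq_zero (c τ)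
  have hS : (ShortComplex.mk _ _ h0).ShortExact := by
    refine HomologicalComplex.shortExact_of_degreewise_shortExact _ fun k =>
      ModuleCat.shortComplex_shortExact _ (fun c => ⟨fun hc => ?_, ?_⟩) (sys_inj f h.inj k)
        (sys_surj g h.surj k)
    · choose c' hc' using fun τ : Fin (k + 1) → ι =>
        (h.ex _ (Set.range_nonempty τ) ((c : B.C k) τ)).1 (congrFun hc τ)
      exact ⟨c', funext hc'⟩
    · rintro ⟨c', rfl⟩
      exact funext fun τ => (h.ex _ (Set.range_nonempty τ)).apply_apply_eq_zero ((c' : A.C k) τ)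
  refine ⟨fun k => (HomologicalComplex.homologyMap f.sysChain k).hom,
    fun k => (HomologicalComplex.homologyMap g.sysChain k).hom,
    fun k => (hS.δ k (k + 1) rfl).hom, ?_, fun k => ⟨?_, ?_, ?_⟩⟩
  · have : Mono (f.sysChain.f 0) := (ModuleCat.mono_iff_injective _).2 (sys_inj f h.inj 0)
    have : Mono (HomologicalComplex.homologyMap f.sysChain 0 ≫
        (CochainComplex.isoHomologyπ₀ B.cx).inv) := by
      rw [CochainComplex.isoHomologyπ₀_inv_naturality]
      infer_instance
    exact (ModuleCat.mono_iff_injective _).1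
      (mono_of_mono _ (CochainComplex.isoHomologyπ₀ B.cx).inv)
  · exact (ShortComplex.ShortExact.moduleCat_exact_iff_function_exact _).1 (hS.homology_exact₂ k)
  · exact (ShortComplex.ShortExact.moduleCat_exact_iff_function_exact _).1
      (hS.homology_exact₃ k (k + 1) rfl)
  · exact (ShortComplex.ShortExact.moduleCat_exact_iff_function_exact _).1
      (hS.homology_exact₁ k (k + 1) rfl)

/-- finite direct sum decompositions -/
theorem H_decomp {J : Type} [Fintype J] [DecidableEq J] {G : Sys ι} {G' : J → Sys ι}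
    (p : ∀ j, Hom G (G' j)) (i : ∀ j, Hom (G' j) G)
    (h₁ : ∀ j S hS x, (p j).app S hS ((i j).app S hS x) = x)
    (h₂ : ∀ j j', j ≠ j' → ∀ S hS x, (p j).app S hS ((i j').app S hS x) = 0)
    (h₃ : ∀ S hS x, ∑ j, (i j).app S hS ((p j).app S hS x) = x) (k : ℕ) :
    Nonempty (G.H k ≃ₗ[ℂ] ∀ j, (G' j).H k) := by
  let F := HomologicalComplex.homologyFunctor (ModuleCat.{0} ℂ) (ComplexShape.up ℕ) k
  have e₁ : ∀ j, F.map (i j).sysChain ≫ F.map (p j).sysChain = 𝟙 _ := fun j => by
    rw [← F.map_comp, ← F.map_id]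
    exact congrArg F.map (sys_chain_ext fun n c τ => h₁ j _ _ (c τ))
  have e₂ : ∀ j j', j ≠ j' → F.map (i j').sysChain ≫ F.map (p j).sysChain = 0 := fun j j' hj => by
    rw [← F.map_comp, ← F.map_zero]
    exact congrArg F.map (sys_chain_ext fun n c τ => h₂ j j' hj _ _ (c τ))
  have e₃ : ∑ j, F.map (p j).sysChain ≫ F.map (i j).sysChain = 𝟙 _ := by
    simp only [← F.map_comp]
    rw [← F.map_sum, ← F.map_id]
    refine congrArg F.map (sys_chain_ext fun n c τ => ?_)
    have e : (∑ j, (p j).sysChain ≫ (i j).sysChain).f n =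
        ∑ j, ((p j).sysChain ≫ (i j).sysChain).f n :=
      (HomologicalComplex.eval (ModuleCat.{0} ℂ) (ComplexShape.up ℕ) n).map_sum _ _
    rw [e, ModuleCat.hom_sum, LinearMap.sum_apply]
    exact (Finset.sum_apply τ Finset.univ fun j => (i j).sysC n ((p j).sysC n c)).trans
      (h₃ _ _ (c τ))
  let P : ∀ j, G.H k →ₗ[ℂ] (G' j).H k := fun j => (F.map (p j).sysChain).hom
  let I : ∀ j, (G' j).H k →ₗ[ℂ] G.H k := fun j => (F.map (i j).sysChain).hom
  have a₁ : ∀ j x, P j (I j x) = x := fun j x => congrArg (fun φ => φ.hom x) (e₁ j)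
  have a₂ : ∀ j j', j ≠ j' → ∀ x, P j (I j' x) = 0 := fun j j' hj x =>
    congrArg (fun φ => φ.hom x) (e₂ j j' hj)
  have a₃ : ∀ x, ∑ j, I j (P j x) = x := fun x => by
    have := congrArg (fun φ => φ.hom x) e₃
    simp only [ModuleCat.hom_sum, LinearMap.sum_apply] at this
    exact this
  refine ⟨LinearEquiv.ofLinearMap (LinearMap.pi P) (∑ j, I j ∘ₗ LinearMap.proj j) ?_ ?_⟩
  · refine LinearMap.ext fun x => funext fun j => ?_
    simp only [LinearMap.comp_apply, LinearMap.sum_apply, LinearMap.pi_apply, LinearMap.proj_apply,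
      map_sum, LinearMap.id_apply]
    rw [Finset.sum_eq_single j (fun j' _ hj => a₂ j j' hj.symm _) (by simp), a₁]
  · refine LinearMap.ext fun x => ?_
    simp only [LinearMap.comp_apply, LinearMap.sum_apply, LinearMap.pi_apply, LinearMap.proj_apply,
      LinearMap.id_apply]
    exact a₃ x

/-- global sections map to `H^0`; the kernel consists of the locally zero sections -/
theorem exists_toH_zero (G : Sys ι) :
    ∃ γ : G.obj ∅ →ₗ[ℂ] G.H 0, ∀ s, γ s = 0 → ∀ c : ι, G.map (Set.empty_subset {c}) s = 0 := by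
  let φ : G.obj ∅ →ₗ[ℂ] G.C 0 := LinearMap.pi fun τ => G.map (Set.empty_subset (Set.range τ))
  have hφ : (ModuleCat.ofHom φ : ModuleCat.of ℂ (G.obj ∅) ⟶ G.cx.X 0) ≫ G.cx.d 0 1 = 0 := by
    rw [sys_cx_d G 0]
    refine ModuleCat.hom_ext (LinearMap.ext fun s => funext fun τ => ?_)
    change G.d 0 (φ s) τ = 0
    rw [d_apply, Fin.sum_univ_two]
    simp only [φ, LinearMap.pi_apply]
    rw [G.map_map, G.map_map]
    simp
  refine ⟨(G.cx.liftCycles (ModuleCat.ofHom φ) 1 (by simp) hφ ≫ G.cx.homologyπ 0).hom,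
    fun s hs c => ?_⟩
  have h1 : (G.cx.liftCycles (ModuleCat.ofHom φ) 1 (by simp) hφ).hom s = 0 :=
    (CochainComplex.isoHomologyπ₀ G.cx).toLinearEquiv.injective (hs.trans (map_zero _).symm)
  have h2 : φ s = 0 := by
    have := congrArg (fun ψ => ψ.hom s) (G.cx.liftCycles_i (ModuleCat.ofHom φ) 1 (by simp) hφ)
    simp only [ModuleCat.hom_comp, LinearMap.comp_apply, h1, map_zero] at this
    exact this.symm
  have h3 : G.map (Set.empty_subset (Set.range fun _ : Fin 1 => c)) s = 0 := congrFun h2 fun _ => c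
  rw [← G.map_map (Set.empty_subset _) (Set.range_const_subset (c := c)) s, h3, map_zero]

/-- non-zero cohomology needs a non-zero value -/
theorem exists_nontrivial (G : Sys ι) (k : ℕ) (h : Nontrivial (G.H k)) :
    ∃ S : Set ι, S.Nonempty ∧ Nontrivial (G.obj S) := by
  by_contra hn
  have h1 : Subsingleton (G.C k) := ⟨fun a b => funext fun τ => by
    have : Subsingleton (G.obj (Set.range τ)) :=
      not_nontrivial_iff_subsingleton.1 fun e => hn ⟨_, Set.range_nonempty τ, e⟩
    exact Subsingleton.elim _ _⟩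
  have h2 : Limits.IsZero (G.cx.X k) := ModuleCat.isZero_iff_subsingleton.2 h1
  have h3 : Limits.IsZero (G.H k) := (G.cx.sc k).isZero_homology_of_isZero_X₂ h2
  exact not_subsingleton _ (ModuleCat.isZero_iff_subsingleton.1 h3)

/-- The system of values of a presheaf on the intersections of a family of open sets. -/
def ofPsh {X : Var} (U : ι → X.left.Opens) (P : (X.left.Opens)ᵒᵖ ⥤ ModuleCat.{0} ℂ) : Sys ι where
  obj S := P.obj (op (⨅ c ∈ S, U c))
  map h := (P.map (homOfLE (biInf_mono h)).op).hom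
  map_refl S x := by
    change P.map (𝟙 _) x = x
    rw [P.map_id]
    rfl
  map_map h h' x := by
    rw [← LinearMap.comp_apply, ← ModuleCat.hom_comp, ← P.map_comp]
    rfl

end Sys

end Pool.Agent.Lib.MP_d80bfc_ag
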