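import Pool.Agent.Lib.MP_d80bfc_ag.Sys

/-!
# TASK CECH2: consequences of the long exact sequence; comparison with Mathlib's Čech complex
-/

open CategoryTheory AlgebraicGeometry Opposite AlgebraicTopology

noncomputable section

namespace Pool.Agent.Lib.MP_d80bfc_ag

namespace Sys

variable {ι : Type}

section linear

variable {M N K : Type} [AddCommGroup M] [Module ℂ M] [AddCommGroup N] [Module ℂ N]
  [AddCommGroup K] [Module ℂ K] {u : M →ₗ[ℂ] N} {v : N →ₗ[ℂ] K}

theorem sysb_inj (h : Function.Exact u v) [Subsingleton M] : Function.Injective v :=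
  (injective_iff_map_eq_zero v).2 fun x hx => by
    obtain ⟨y, rfl⟩ := (h x).1 hx
    rw [Subsingleton.elim y 0, map_zero]

theorem sysb_surj (h : Function.Exact u v) [Subsingleton K] : Function.Surjective u :=
  fun x => (h x).1 (Subsingleton.elim _ _)

theorem sysb_exact (h : Function.Exact u v) [Module.Finite ℂ M] [Module.Finite ℂ K] :
    Module.Finite ℂ N ∧ Module.finrank ℂ N ≤ Module.finrank ℂ M + Module.finrank ℂ K := by
  have h1 : Module.Finite ℂ (LinearMap.ker v) := by
    rw [h.linearMap_ker_eq]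
    infer_instance
  have h0 : Module.Finite ℂ (N ⧸ LinearMap.ker v) := Module.Finite.equiv v.quotKerEquivRange.symm
  have h2 : Module.Finite ℂ N := Module.Finite.of_submodule_quotient (LinearMap.ker v)
  refine ⟨h2, ?_⟩
  rw [← v.finrank_range_add_finrank_ker, h.linearMap_ker_eq, add_comm]
  exact add_le_add u.finrank_range_le (Submodule.finrank_le _)

end linear

section consequences

variable {A B D : Sys ι} {f : Hom A B} {g : Hom B D}

theorem SES.bet_of_left_zero (h : SES f g) {k n : ℕ} (h₁ : A.Bet k 0) (h₂ : A.Bet (k + 1) 0)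
    (hB : B.Bet k n) : D.Bet k n := by
  obtain ⟨α, β, δ, -, hh⟩ := h.les
  have := (A.bet_zero_iff _).1 h₁
  have := (A.bet_zero_iff _).1 h₂
  exact hB.of_equiv (LinearEquiv.ofBijective (β k)
    ⟨sysb_inj (hh k).1, sysb_surj (hh k).2.1⟩)

theorem SES.bet_of_mid_zero (h : SES f g) {k n : ℕ} (h₁ : B.Bet k 0) (h₂ : B.Bet (k + 1) 0)
    (hA : A.Bet (k + 1) n) : D.Bet k n := by
  obtain ⟨α, β, δ, -, hh⟩ := h.les
  have := (B.bet_zero_iff _).1 h₁
  have := (B.bet_zero_iff _).1 h₂
  exact hA.of_equiv (LinearEquiv.ofBijective (δ k)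
    ⟨sysb_inj (hh k).2.1, sysb_surj (hh k).2.2⟩).symm

theorem SES.right_zero (h : SES f g) {k : ℕ} (h₁ : B.Bet k 0) (h₂ : A.Bet (k + 1) 0) :
    D.Bet k 0 := by
  obtain ⟨α, β, δ, -, hh⟩ := h.les
  have := (B.bet_zero_iff _).1 h₁
  have := (A.bet_zero_iff _).1 h₂
  exact (D.bet_zero_iff _).2 (sysb_inj (hh k).2.1).subsingleton

theorem SES.finite_right (h : SES f g) {k : ℕ} (h₁ : Module.Finite ℂ (B.H k))
    (h₂ : Module.Finite ℂ (A.H (k + 1))) : Module.Finite ℂ (D.H k) := by
  obtain ⟨α, β, δ, -, hh⟩ := h.les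
  exact (sysb_exact (hh k).2.1).1

theorem SES.finrank_mid_le (h : SES f g) {k : ℕ} (h₁ : Module.Finite ℂ (A.H k))
    (h₂ : Module.Finite ℂ (D.H k)) :
    Module.finrank ℂ (B.H k) ≤ Module.finrank ℂ (A.H k) + Module.finrank ℂ (D.H k) := by
  obtain ⟨α, β, δ, -, hh⟩ := h.les
  exact (sysb_exact (hh k).1).2

theorem SES.finrank_left_le (h : SES f g) (h₁ : Module.Finite ℂ (B.H 0)) :
    Module.finrank ℂ (A.H 0) ≤ Module.finrank ℂ (B.H 0) := by
  obtain ⟨α, β, δ, h0, -⟩ := h.les
  exact LinearMap.finrank_le_finrank_of_injective h0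

end consequences

theorem sysb_prod {X : Var} (U : ι → X.left.Opens) {n : Type} [Finite n] (τ : n → ι) :
    ⨅ c ∈ Set.range τ, U c = ∏ᶜ (U ∘ τ) :=
  le_antisymm (Limits.Pi.lift (f := U ∘ τ) fun a =>
    homOfLE (biInf_le U (Set.mem_range_self a))).le
    (le_iInf₂ fun _ ⟨a, ha⟩ => ha ▸ (Limits.Pi.π (U ∘ τ) a).le)

set_option backward.isDefEq.respectTransparency false in
/-- The comparison of the two cosimplicial vector spaces of cochains. -/
def sysbIso {X : Var} (U : ι → X.left.Opens) (P : (X.left.Opens)ᵒᵖ ⥤ ModuleCat.{0} ℂ) :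
    (Limits.FormalCoproduct.cosimplicialObjectFunctor
      (Limits.FormalCoproduct.mk _ U).cech).obj P ≅ (ofPsh U P).cosimp :=
  NatIso.ofComponents (fun n => Limits.Pi.mapIso (fun τ : Fin (n.len + 1) → ι =>
      P.mapIso (eqToIso (sysb_prod U τ)).op) ≪≫
    ModuleCat.piIsoPi fun τ : Fin (n.len + 1) → ι => P.obj (op (⨅ c ∈ Set.range τ, U c)))
    fun {n m} f => by
      have key : ∀ (n : SimplexCategory) (τ : Fin (n.len + 1) → ι) x,
          ((Limits.Pi.mapIso (fun τ : Fin (n.len + 1) → ι =>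
            P.mapIso (eqToIso (sysb_prod U τ)).op) ≪≫ ModuleCat.piIsoPi
              fun τ : Fin (n.len + 1) → ι => P.obj (op (⨅ c ∈ Set.range τ, U c))).hom x) τ =
            (Limits.Pi.π (fun τ : Fin (n.len + 1) → ι => P.obj (op (∏ᶜ (U ∘ τ)))) τ ≫
              P.map (eqToHom (sysb_prod U τ)).op) x := fun n τ x => by
        have h1 := Limits.Pi.mapIso_hom_π (fun τ : Fin (n.len + 1) → ι =>
            P.mapIso (eqToIso (sysb_prod U τ)).op) τ
        rw [← ModuleCat.piIsoPi_hom_ker_subtype, ← Category.assoc] at h1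
        exact ConcreteCategory.congr_hom h1 x
      ext x
      funext τ
      refine (key m τ _).trans (Eq.trans ?_ (congrArg ((ofPsh U P).map
        (Set.range_comp_subset_range f.toOrderHom τ)) (key n (τ ∘ f.toOrderHom) x)).symm)
      have h1 : ((Limits.FormalCoproduct.cosimplicialObjectFunctor
          (Limits.FormalCoproduct.mk _ U).cech).obj P).map f ≫
          Limits.Pi.π (fun τ : Fin (m.len + 1) → ι => P.obj (op (∏ᶜ (U ∘ τ)))) τ ≫
            P.map (eqToHom (sysb_prod U τ)).op =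
          (Limits.Pi.π (fun τ : Fin (n.len + 1) → ι => P.obj (op (∏ᶜ (U ∘ τ))))
            (τ ∘ f.toOrderHom) ≫ P.map (eqToHom (sysb_prod U (τ ∘ f.toOrderHom))).op) ≫
            P.map (homOfLE (biInf_mono (Set.range_comp_subset_range f.toOrderHom τ))).op := by
        rw [← Category.assoc]
        erw [Limits.Pi.lift_π]
        rw [Category.assoc, Category.assoc, ← P.map_comp, ← P.map_comp]
        rfl
      exact ConcreteCategory.congr_hom h1 x

/-- Mathlib's Čech cohomology is the cohomology of `ofPsh` -/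
theorem cechH_equiv {X : Var} (U : ι → X.left.Opens) (P : (X.left.Opens)ᵒᵖ ⥤ ModuleCat.{0} ℂ)
    (k : ℕ) : Nonempty (cechH U P k ≃ₗ[ℂ] (ofPsh U P).H k) := by
  exact ⟨((HomologicalComplex.homologyFunctor _ _ k).mapIso
    ((alternatingCofaceMapComplex _).mapIso (sysbIso U P))).toLinearEquiv⟩

end Sys

end Pool.Agent.Lib.MP_d80bfc_ag
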