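import Pool.Agent.Lib.MP_d80bfc_ag.PVPts
import Pool.Agent.Lib.MP_d80bfc_ag.Smi
import Pool.Agent.Lib.MP_d80bfc_ag.Coh
import Pool.Agent.Lib.MP_d80bfc_ag.Canon

/-!
# TASK XV: the threefold
-/

open CategoryTheory AlgebraicGeometry Opposite MvPolynomial

noncomputable section

namespace Pool.Agent.Lib.MP_d80bfc_ag

/-- the map from the Segre polynomial ring -/
def psi (S : Set Ch) : MvPolynomial Sg ℂ →ₐ[ℂ] BR 3 S := ((mkB 3 S).comp (toQ S)).comp seg

lemma xv_psi_eq_zero_iff {S : Set Ch} {p : MvPolynomial Sg ℂ} :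
    psi S p = 0 ↔ toQ S (seg p) ∈ JI 3 S := mkB_eq_zero_iff

lemma xv_resB_psi {S T : Set Ch} (h : S ⊆ T) (p : MvPolynomial Sg ℂ) :
    resB 3 h (psi S p) = psi T p :=
  (resB_mkB 3 h _).trans (congrArg (mkB 3 T) (incQ_toQ h _))

lemma xv_dg_inj {m n : ℕ} (h : dg m = dg n) : m = n := by
  have : (m : ℤ) = n := congrFun h none
  exact_mod_cast this

lemma xv_dg_zero_add (k : ℤ) : dg 0 + dg k = dg k := by
  ext b
  simp [dg]

lemma xv_proj_seg (n : ℕ) (p : MvPolynomial Sg ℂ) :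
    GradedAlgebra.proj Hg (dg n) (toL (seg p)) = toL (seg (homogeneousComponent n p)) := by
  induction p using MvPolynomial.induction_on' with
  | monomial u a =>
    have h : (monomial u a : MvPolynomial Sg ℂ).IsHomogeneous u.degree :=
      isHomogeneous_monomial a rfl
    rw [homogeneousComponent_of_mem h, GradedAlgebra.proj_apply]
    split_ifs with c
    · rw [c]
      exact DirectSum.decompose_of_mem_same Hg (seg_mem_Hg h)
    · rw [map_zero, map_zero]
      exact DirectSum.decompose_of_mem_ne Hg (seg_mem_Hg h) fun e => c (xv_dg_inj e).symm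
  | add p q hp hq => simp only [map_add, hp, hq]

/-- the homogeneous ideal of the threefold -/
def XI : HI Sg where
  I := RingHom.ker (psi ∅)
  hom := by
    intro p hp n
    have h := decompose_mem_JI (xv_psi_eq_zero_iff.1 hp) (dg n)
    refine xv_psi_eq_zero_iff.2 ?_
    convert h using 1
    refine Subtype.ext ?_
    rw [coe_toQ, ← xv_proj_seg, GradedAlgebra.proj_apply, ← coe_toQ ∅]

/-- the threefold -/
abbrev XV : Var := XI.var

/-- the 48 affine charts -/
def UX (c : Ch) : XV.left.Opens := XI.D (X c.sg)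

/-- intersections of charts -/
abbrev US (S : Set Ch) : XV.left.Opens := ⨅ c ∈ S, UX c

lemma xv_mem_I {p : MvPolynomial Sg ℂ} : p ∈ XI.I ↔ toQ ∅ (seg p) ∈ JI 3 ∅ := xv_psi_eq_zero_iff

/-- the product of the chart variables -/
def xv_f (s : Finset Ch) : MvPolynomial Sg ℂ := ∏ c ∈ s, X c.sg

lemma xv_f_hom (s : Finset Ch) : (xv_f s).IsHomogeneous s.card := by
  have := IsHomogeneous.prod s (fun c : Ch => (X c.sg : MvPolynomial Sg ℂ)) (fun _ => 1)
    fun c _ => isHomogeneous_X ℂ _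
  rwa [← Finset.card_eq_sum_ones] at this

lemma xv_US (s : Finset Ch) : US (s : Set Ch) = XI.D (xv_f s) := (XI.D_prod s _).symm

lemma xv_seg_f (s : Finset Ch) : seg (xv_f s) = ∏ c ∈ s, wp c.sg := by
  simp [xv_f, seg]

lemma xv_isUnit {s : Finset Ch} {T : Set Ch} (h : (s : Set Ch) ⊆ T) : IsUnit (psi T (xv_f s)) := by
  have : IsUnit (toQ T (seg (xv_f s))) := by
    rw [xv_seg_f, map_prod]
    exact IsUnit.prod_iff.2 fun c hc => isUnit_toQ_wp (h hc)
  exact this.map (mkB 3 T)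

lemma xv_US_singleton (c : Ch) : US {c} = UX c := iInf_singleton

theorem isAffineOpen_US {S : Set Ch} (hS : S.Nonempty) : IsAffineOpen (US S) := by
  obtain ⟨s, rfl⟩ := S.toFinite.exists_finset_coe
  rw [xv_US]
  exact XI.isAffineOpen_D (Finset.card_pos.2 (Finset.coe_nonempty.1 hS)) (xv_f_hom s)

theorem iSup_UX : iSup UX = ⊤ := by
  refine XI.iSup_D_eq_top (fun c : Ch => X c.sg) fun a => ?_
  obtain ⟨q, h1, h2⟩ := exists_pow_four_sub_mem a
  refine ⟨4, q, h1, xv_mem_I.2 (Ideal.span_mono ?_ h2)⟩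
  exact Set.union_subset_union_right _ (Set.image_mono fun k hk => absurd hk (Nat.not_lt_zero _))

lemma xv_ev (S : Set Ch) (hS : S.Nonempty) : ∃ ev : Fn XV (US S) →ₐ[ℂ] BR 3 S, IsEv S ev ∧
    ∀ (n : ℕ) (q p : MvPolynomial Sg ℂ) (hq : q.IsHomogeneous n) (hp : p.IsHomogeneous n)
      (hU : US S ≤ XI.D q), ev (XI.frac hq hp hU) * psi S q = psi S p := by
  obtain ⟨s, rfl⟩ := S.toFinite.exists_finset_coe
  have hd : 0 < s.card := Finset.card_pos.2 (Finset.coe_nonempty.1 hS)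
  have hu : IsUnit (psi s (xv_f s)) := xv_isUnit subset_rfl
  have hu' : ∀ k, IsUnit (psi s (xv_f s ^ k)) := fun k => by
    rw [map_pow]
    exact hu.pow k
  obtain ⟨ev, h⟩ := XI.exists_ev hd (xv_f_hom s) (xv_US s) (psi s) (fun p hp => by
    rw [← xv_resB_psi (Set.empty_subset _), RingHom.mem_ker.1 hp, map_zero]) hu
  refine ⟨ev, ⟨(injective_iff_map_eq_zero _).2 fun y hy => ?_, fun x => ⟨?_, ?_⟩⟩, h⟩
  · obtain ⟨k, p, hp, rfl⟩ := XI.exists_eq_frac hd (xv_f_hom s) (xv_US s) y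
    have h1 := h _ _ _ ((xv_f_hom s).pow k) hp ((xv_US s).le.trans (XI.D_le_D_pow _ k))
    rw [hy, zero_mul] at h1
    obtain ⟨N, hN⟩ := exists_mul_pow_mem_JI_empty (r := 3) (S := s) (toQ ∅ (seg p)) (by
      rw [incQ_toQ]
      exact xv_psi_eq_zero_iff.1 h1.symm)
    refine (XI.frac_eq_zero_iff hd (xv_f_hom s) (xv_US s) _ _ _).2 ⟨N, xv_mem_I.2 ?_⟩
    rwa [map_mul, map_mul, map_pow, map_pow, xv_seg_f, map_prod, mul_comm]
  · rintro ⟨g, hg, rfl⟩
    obtain ⟨N, hN⟩ := exists_mul_pow_mem_Q_empty g.2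
    rw [← map_prod, ← xv_seg_f, ← map_pow, ← map_pow] at hN
    obtain ⟨p, hp, e⟩ := exists_seg_eq (n := s.card * N) hN (by
      rw [← xv_dg_zero_add]
      exact SetLike.mul_mem_graded hg (seg_mem_Hg ((xv_f_hom s).pow N)))
    refine ⟨XI.frac ((xv_f_hom s).pow N) hp ((xv_US s).le.trans (XI.D_le_D_pow _ N)),
      (hu' N).mul_right_cancel ((h _ _ _ _ _ _).trans ?_)⟩
    refine (congrArg (mkB 3 s) (Subtype.ext ?_)).trans (map_mul (mkB 3 s) g _)
    exact (coe_toQ _ _).trans (e.trans (congrArg ((g : L) * ·) (coe_toQ _ _).symm))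
  · rintro ⟨y, rfl⟩
    obtain ⟨k, p, hp, rfl⟩ := XI.exists_eq_frac hd (xv_f_hom s) (xv_US s) y
    have h1 := h _ _ _ ((xv_f_hom s).pow k) hp ((xv_US s).le.trans (XI.D_le_D_pow _ k))
    obtain ⟨g, hg⟩ := mkB_surjective 3 s
      (ev (XI.frac ((xv_f_hom s).pow k) hp ((xv_US s).le.trans (XI.D_le_D_pow _ k))))
    have h2 : g * toQ s (seg (xv_f s ^ k)) - toQ s (seg p) ∈ JI 3 s := by
      rw [← mkB_eq_iff, map_mul, hg]
      exact h1
    have h3 := decompose_mem_JI h2 (dg (s.card * k : ℕ))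
    refine mem_MM.2 ⟨⟨_, decompose_mem_Q g.2 (dg 0)⟩, SetLike.coe_mem _,
      (hu' k).mul_right_cancel (Eq.trans ?_ h1.symm)⟩
    refine (map_mul (mkB 3 s) _ _).symm.trans (mkB_eq_iff.2 ?_)
    convert h3 using 1
    refine Subtype.ext ?_
    simp only [Subalgebra.coe_mul, coe_toQ, DirectSum.decompose_sub,
      DirectSum.sub_apply, AddSubgroupClass.coe_sub]
    rw [DirectSum.decompose_of_mem_same Hg (seg_mem_Hg hp), ← xv_dg_zero_add (s.card * k : ℕ),
      DirectSum.coe_decompose_mul_add_of_right_mem Hg (seg_mem_Hg ((xv_f_hom s).pow k)),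
      ← coe_toQ s, ← coe_toQ s]
    rfl

theorem exists_evX : ∃ ev : ∀ S : Set Ch, S.Nonempty → (Fn XV (US S) →ₐ[ℂ] BR 3 S),
    (∀ S hS, IsEv S (ev S hS)) ∧ ∀ {S T : Set Ch} (h : S ⊆ T) (hS : S.Nonempty)
      (y : Fn XV (US S)), ev T (hS.mono h) (Fn.res XV (biInf_mono h) y) = resB 3 h (ev S hS y) := by
  choose ev h1 h2 using xv_ev
  refine ⟨ev, h1, fun {S T} h hS y => ?_⟩
  obtain ⟨s, rfl⟩ := S.toFinite.exists_finset_coe
  obtain ⟨k, p, hp, rfl⟩ := XI.exists_eq_frac (Finset.card_pos.2 (Finset.coe_nonempty.1 hS))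
    (xv_f_hom s) (xv_US s) y
  have hu : IsUnit (psi T (xv_f s ^ k)) := by
    rw [map_pow]
    exact (xv_isUnit h).pow k
  refine hu.mul_right_cancel ?_
  rw [XI.res_frac, h2, ← xv_resB_psi h (xv_f s ^ k), ← map_mul, h2, xv_resB_psi]

/-- the identification of functions with degree zero elements -/
def evX (S : Set Ch) (hS : S.Nonempty) : Fn XV (US S) →ₐ[ℂ] BR 3 S := exists_evX.choose S hS

lemma isEv_evX (S : Set Ch) (hS : S.Nonempty) : IsEv S (evX S hS) := exists_evX.choose_spec.1 S hS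

lemma evX_res {S T : Set Ch} (h : S ⊆ T) (hS : S.Nonempty) (y : Fn XV (US S)) :
    evX T (hS.mono h) (Fn.res XV (biInf_mono h) y) = resB 3 h (evX S hS y) :=
  exists_evX.choose_spec.2 h hS y

lemma xv_iSup_US : ⨆ c : Ch, US {c} = ⊤ := by
  simp only [xv_US_singleton]
  exact iSup_UX

theorem XV_smooth : SmoothOfRelativeDimension 3 XV.hom :=
  smoothOfRelativeDimension_of_cover 3 (fun c : Ch => US {c})
    (fun c => isAffineOpen_US (Set.singleton_nonempty c)) xv_iSup_US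
    fun c => (isEv_evX {c} (Set.singleton_nonempty c)).locally_standardSmooth

/-- functions as sections of degree zero -/
def xv_hom : Sys.Hom (Sys.ofPsh UX (structurePsh XV)) (MS 3 0) where
  app S hS := (evX S hS).toLinearMap.codRestrict (MM 3 0 S)
    fun y => ((isEv_evX S hS).range _).2 ⟨y, rfl⟩
  nat h hS x := Subtype.ext (evX_res h hS x)

lemma xv_H_O (k : ℕ) : Nonempty ((Sys.ofPsh UX (structurePsh XV)).H k ≃ₗ[ℂ] (MS 3 0).H k) := by
  refine xv_hom.H_equiv (fun S hS => ⟨fun x y h => (isEv_evX S hS).inj (congrArg Subtype.val h),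
    fun x => ?_⟩) k
  obtain ⟨y, hy⟩ := ((isEv_evX S hS).range _).1 x.2
  exact ⟨y, Subtype.ext hy⟩

theorem H_O_equiv (k : ℕ) :
    Nonempty (cechH UX (structurePsh XV) k ≃ₗ[ℂ] (MS 3 0).H k) := by
  obtain ⟨e⟩ := Sys.cechH_equiv UX (structurePsh XV) k
  obtain ⟨e'⟩ := xv_H_O k
  exact ⟨e.trans e'⟩

theorem H_K_equiv (k : ℕ) :
    Nonempty (cechH UX (formPsh XV 3) k ≃ₗ[ℂ] (MS 3 3).H k) := by
  obtain ⟨e⟩ := Sys.cechH_equiv UX (formPsh XV 3) k
  obtain ⟨Φ, h1, h2⟩ := exists_canonical (fun S => Fn XV (US S))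
    (fun h => Fn.res XV (biInf_mono h)) evX isEv_evX evX_res
  obtain ⟨e'⟩ := Sys.Hom.H_equiv (G := Sys.ofPsh UX (formPsh XV 3)) (G' := MS 3 3)
    ⟨fun S hS => Φ S hS ∘ₗ (formEquiv _ 3).toLinearMap, fun h hS x =>
      (congrArg (Φ _ _) (formEquiv_formPull 3 _ x)).trans (h2 h hS _)⟩
    (fun S hS => (h1 S hS).comp (formEquiv _ 3).bijective) k
  exact ⟨e.trans e'⟩

theorem exists_nonempty_chart : ∃ c : Ch, Nontrivial (Fn XV (US {c})) := by
  obtain ⟨S, ⟨c, hc⟩, h⟩ := (MS 3 0).exists_nontrivial 0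
    (Module.nontrivial_of_finrank_eq_succ bet_O_zero.2)
  have : Nontrivial (BR 3 S) :=
    Function.Injective.nontrivial (α := (MS 3 0).obj S) Subtype.val_injective
  exact ⟨c, RingHom.domain_nontrivial ((resB 3 (Set.singleton_subset_iff.2 hc)).comp
    (evX {c} (Set.singleton_nonempty c))).toRingHom⟩

theorem XV_integral : IsIntegral XV.left := by
  have := XV_smooth
  have : Smooth XV.hom := SmoothOfRelativeDimension.smooth 3 _
  have : Nonempty XV.left := by
    by_contra hn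
    obtain ⟨c, hc⟩ := exists_nonempty_chart
    refine one_ne_zero (Fn.eq_zero_of_cover (ι := Empty) (U := Empty.elim) (V := US {c})
      (fun i => i.elim) (fun x _ => absurd ⟨x⟩ hn) 1 fun i => i.elim)
  obtain ⟨γ, hγ⟩ := (Sys.ofPsh UX (structurePsh XV)).exists_toH_zero
  obtain ⟨e⟩ := xv_H_O 0
  let φ : Fn XV ⊤ →ₗ[ℂ] (MS 3 0).H 0 :=
    e.toLinearMap ∘ₗ γ ∘ₗ (Fn.res XV (V := US ∅) le_top).toLinearMap
  have hφ : Function.Injective φ := by
    refine (injective_iff_map_eq_zero _).2 fun s hs => ?_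
    refine Fn.eq_zero_of_cover (U := fun c : Ch => US {c}) (fun _ => le_top) xv_iSup_US.ge s
      fun c => ?_
    have h1 := hγ _ (e.map_eq_zero_iff.1 hs) c
    exact (DFunLike.congr_fun (Fn.res_trans XV (V := US ∅) le_top
      (biInf_mono (Set.empty_subset {c}))) s).trans h1
  have := bet_O_zero.1
  have : Module.Finite ℂ (Fn XV ⊤) := Module.Finite.of_injective φ hφ
  have := connectedSpace_of_finrank_le XV
    ((LinearMap.finrank_le_finrank_of_injective hφ).trans bet_O_zero.2.le)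
  exact isIntegral_of_smooth XV

end Pool.Agent.Lib.MP_d80bfc_ag
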